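import Pool.Agent.H.MP_1693ff_gtC.NOpp3
import Pool.Agent.H.MP_1693ff_gtB.GOpp

/-!
# Derivative of quotients along a path
-/

namespace CH

open Real Set Filter Topology CG
open CF hiding St

/-- Derivative of an expression `(f/o)^{e-1} F - (W/o)^{e-1} Ω`, `o = (f^e - W^e)^{1/e}`, along a
path: with `f' = f₁`, `W' = w₁` (so `o' = (f/o)^{e-1} f₁ - (W/o)^{e-1} w₁`),
`((f/o)^{e-1})' = (e-1) f^{e-2} W^{e-1} o^{1-2e} (f w₁ - f₁ W)`,
`((W/o)^{e-1})' = (e-1) W^{e-2} f^{e-1} o^{1-2e} (f w₁ - f₁ W)` (use `f₁ o - f o' =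
o^{1-e} W^{e-1} (f w₁ - f₁ W)`, `w₁ o - W o' = o^{1-e} f^{e-1} (f w₁ - f₁ W)`, both from
`o^e = f^e - W^e`). -/
theorem along3_quot {e : ℝ} (he : 1 < e) {f W F Ω : ℝ → ℝ} {f₁ w₁ F₁ Ω₁ x : ℝ}
    (hf : HasDerivAt f f₁ x) (hW : HasDerivAt W w₁ x) (hF : HasDerivAt F F₁ x)
    (hΩ : HasDerivAt Ω Ω₁ x) (h0 : 0 < W x) (h1 : W x < f x) :
    HasDerivAt (fun y => (f y ^ e - W y ^ e) ^ e⁻¹)
      ((f x / (f x ^ e - W x ^ e) ^ e⁻¹) ^ (e - 1) * f₁ -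
        (W x / (f x ^ e - W x ^ e) ^ e⁻¹) ^ (e - 1) * w₁) x ∧
    HasDerivAt (fun y => (f y / (f y ^ e - W y ^ e) ^ e⁻¹) ^ (e - 1) * F y -
        (W y / (f y ^ e - W y ^ e) ^ e⁻¹) ^ (e - 1) * Ω y)
      ((f x / (f x ^ e - W x ^ e) ^ e⁻¹) ^ (e - 1) * F₁ -
        (W x / (f x ^ e - W x ^ e) ^ e⁻¹) ^ (e - 1) * Ω₁ -
        (e - 1) * W x ^ (e - 2) * f x ^ (e - 2) * ((f x ^ e - W x ^ e) ^ e⁻¹) ^ (1 - 2 * e) *
          (f x * Ω x - W x * F x) * (f x * w₁ - W x * f₁)) x := by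
  have he0 : 0 < e := by linarith
  obtain ⟨a, ha⟩ : ∃ a, a = f x := ⟨_, rfl⟩
  obtain ⟨b, hb⟩ : ∃ b, b = W x := ⟨_, rfl⟩
  have hb0 : 0 < b := by rw [hb]; exact h0
  have hab : b < a := by rw [ha, hb]; exact h1
  have ha0 : 0 < a := hb0.trans hab
  have hQ : 0 < a ^ e - b ^ e := sub_pos.2 (Real.rpow_lt_rpow hb0.le hab he0)
  obtain ⟨o, ho⟩ : ∃ o, o = (a ^ e - b ^ e) ^ e⁻¹ := ⟨_, rfl⟩
  have ho0 : 0 < o := by rw [ho]; exact Real.rpow_pos_of_pos hQ _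
  obtain ⟨U, hU⟩ : ∃ U, U = o ^ (e - 1) := ⟨_, rfl⟩
  have hU0 : 0 < U := by rw [hU]; exact Real.rpow_pos_of_pos ho0 _
  obtain ⟨P, hP⟩ : ∃ P, P = a ^ (e - 2) := ⟨_, rfl⟩
  obtain ⟨R, hR⟩ : ∃ R, R = b ^ (e - 2) := ⟨_, rfl⟩
  have ha1 : a ^ (e - 1) = P * a := by
    rw [hP, ← Real.rpow_add_one ha0.ne']
    congr 1
    ring
  have hb1 : b ^ (e - 1) = R * b := by
    rw [hR, ← Real.rpow_add_one hb0.ne']
    congr 1
    ring
  have hae : a ^ e = P * a * a := by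
    rw [← ha1, ← Real.rpow_add_one ha0.ne']
    congr 1
    ring
  have hbe : b ^ e = R * b * b := by
    rw [← hb1, ← Real.rpow_add_one hb0.ne']
    congr 1
    ring
  have hoe : o ^ e = a ^ e - b ^ e := by
    rw [ho, ← Real.rpow_mul hQ.le, inv_mul_cancel₀ he0.ne', Real.rpow_one]
  have hUo : U * o = a ^ e - b ^ e := by
    rw [← hoe, hU, ← Real.rpow_add_one ho0.ne']
    congr 1
    ring
  have hrel : U * o = P * a * a - R * b * b := by rw [hUo, hae, hbe]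
  have ho2 : o ^ (e - 2) = U / o := by
    rw [eq_div_iff ho0.ne', hU, ← Real.rpow_add_one ho0.ne']
    congr 1
    ring
  have ho3 : o ^ (1 - 2 * e) = 1 / (U * U * o) := by
    rw [eq_div_iff (by positivity), hU]
    have h2 : o ^ (1 - 2 * e) * (o ^ (e - 1) * o ^ (e - 1) * o) =
        o ^ (1 - 2 * e) * o ^ (e - 1) * o ^ (e - 1) * o ^ (1 : ℝ) := by
      rw [Real.rpow_one]
      ring
    rw [h2, ← Real.rpow_add ho0, ← Real.rpow_add ho0, ← Real.rpow_add ho0]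
    have h3 : 1 - 2 * e + (e - 1) + (e - 1) + 1 = 0 := by ring
    rw [h3, Real.rpow_zero]
  have hQ1 : (a ^ e - b ^ e) ^ (e⁻¹ - 1) = 1 / U := by
    rw [eq_div_iff hU0.ne', hU, ho, ← Real.rpow_mul hQ.le, ← Real.rpow_add hQ]
    have h3 : e⁻¹ - 1 + e⁻¹ * (e - 1) = 0 := by
      field_simp
      ring
    rw [h3, Real.rpow_zero]
  have hAa : (a / o) ^ (e - 1) = P * a / U := by
    rw [Real.div_rpow ha0.le ho0.le, ha1, hU]
  have hBb : (b / o) ^ (e - 1) = R * b / U := by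
    rw [Real.div_rpow hb0.le ho0.le, hb1, hU]
  have hAa2 : (a / o) ^ (e - 1 - 1) = P * o / U := by
    have h3 : e - 1 - 1 = e - 2 := by ring
    rw [h3, Real.div_rpow ha0.le ho0.le, ho2, ← hP]
    field_simp
  have hBb2 : (b / o) ^ (e - 1 - 1) = R * o / U := by
    have h3 : e - 1 - 1 = e - 2 := by ring
    rw [h3, Real.div_rpow hb0.le ho0.le, ho2, ← hR]
    field_simp
  -- the derivatives
  have hd1 : HasDerivAt (fun y => f y ^ e) (f₁ * e * a ^ (e - 1)) x := by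
    rw [ha]
    exact hf.rpow_const (Or.inr he.le)
  have hd2 : HasDerivAt (fun y => W y ^ e) (w₁ * e * b ^ (e - 1)) x := by
    rw [hb]
    exact hW.rpow_const (Or.inr he.le)
  have hd3 := (hd1.sub hd2).rpow_const (p := e⁻¹) (Or.inl (by
    show f x ^ e - W x ^ e ≠ 0
    rw [← ha, ← hb]
    exact hQ.ne'))
  have hfx : (fun y => f y ^ e) x - (fun y => W y ^ e) x = a ^ e - b ^ e := by
    show f x ^ e - W x ^ e = _
    rw [← ha, ← hb]
  have hO : HasDerivAt (fun y => (f y ^ e - W y ^ e) ^ e⁻¹)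
      ((P * a / U) * f₁ - (R * b / U) * w₁) x := by
    have h3 : (f₁ * e * a ^ (e - 1) - w₁ * e * b ^ (e - 1)) * e⁻¹ *
        (a ^ e - b ^ e) ^ (e⁻¹ - 1) = (P * a / U) * f₁ - (R * b / U) * w₁ := by
      rw [hQ1, ha1, hb1]
      field_simp
    rw [← h3]
    have h4 := hd3
    simp only [Pi.sub_apply] at h4
    rw [← ha, ← hb] at h4
    exact h4
  have hOx : (f x ^ e - W x ^ e) ^ e⁻¹ = o := by rw [← ha, ← hb, ho]
  rw [hOx, ← ha, ← hb, hAa, hBb]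
  refine ⟨hO, ?_⟩
  have hOne : (fun y => (f y ^ e - W y ^ e) ^ e⁻¹) x ≠ 0 := by
    show (f x ^ e - W x ^ e) ^ e⁻¹ ≠ 0
    rw [hOx]
    exact ho0.ne'
  have hA := (hf.fun_div hO hOne).rpow_const (p := e - 1) (Or.inl (by
    show f x / (f x ^ e - W x ^ e) ^ e⁻¹ ≠ 0
    rw [hOx, ← ha]
    positivity))
  have hB := (hW.fun_div hO hOne).rpow_const (p := e - 1) (Or.inl (by
    show W x / (f x ^ e - W x ^ e) ^ e⁻¹ ≠ 0
    rw [hOx, ← hb]
    positivity))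
  have hfin := (hA.fun_mul hF).fun_sub (hB.fun_mul hΩ)
  refine hfin.congr_deriv ?_
  simp only [hOx]
  rw [← ha, ← hb, hAa, hBb, hAa2, hBb2, ho3, ← hP, ← hR]
  have h5 : f₁ * o - a * (P * a / U * f₁ - R * b / U * w₁) = R * b / U * (a * w₁ - b * f₁) := by
    field_simp
    linear_combination f₁ * hrel
  have h6 : w₁ * o - b * (P * a / U * f₁ - R * b / U * w₁) = P * a / U * (a * w₁ - b * f₁) := by
    field_simp
    linear_combination w₁ * hrel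
  rw [h5, h6]
  field_simp
  ring

end CH
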