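import Pool.Agent.H.MP_1693ff_gtC.NAlong3
import Pool.Agent.H.MP_1693ff_gtB.GAlong

/-!
# The half step preserves consistency along paths
-/

namespace CH

open Real Set Filter Topology CG
open CF hiding St

theorem nalong3b_chain {H : ℝ × ℝ → ℝ} {A R a' r' x u v : ℝ} {a r : ℝ → ℝ}
    (h : HasFDerivAt H (u • ContinuousLinearMap.fst ℝ ℝ ℝ + v • ContinuousLinearMap.snd ℝ ℝ ℝ)
      (A, R)) (ha : HasDerivAt a a' x) (hr : HasDerivAt r r' x) (hA : a x = A) (hR : r x = R) :
    HasDerivAt (fun y => H (a y, r y)) (u * a' + v * r') x := by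
  have h1 : HasDerivAt (fun y => (a y, r y)) (a', r') x := ha.prodMk hr
  have h2 : HasFDerivAt H (u • ContinuousLinearMap.fst ℝ ℝ ℝ +
      v • ContinuousLinearMap.snd ℝ ℝ ℝ) ((fun y => (a y, r y)) x) := by
    simp only [hA, hR]
    exact h
  have h3 := h2.comp_hasDerivAt x h1
  refine HasDerivAt.congr_deriv h3 ?_
  simp

/-- Consistency is preserved.  Write `o = opp`, `g = og`, `σ = (1 + d opp1)⁻¹`.  Along the path
(with `a' = z`, `r' = ρ`; chain rule from `J.d0`, `J.d1`, `J.d2`):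
`f' = f1 z + fr ρ`, `f1' = f2 z + far ρ`, `fr' = far z + (ft - f + a f1) ρ`,
`W' = p z - κ ρ/d`, `p' = (k z + ℓ ρ)/d`.  By `along3_quot`:
`o' = opp1 z + (g/d) ρ`;
`opp1' = opp2 z + mz ρ` (`F = f1`, `Ω = p`);
`(g/d)' = mz z + (mr - (o - a opp1)) ρ` (`F = fr`, `Ω = -κ/d`, `Ω' = (ℓ z - (c-q) ρ)/d`,
`c = s a - α`; `opp_id` multiplied out: `o - a opp1 = (f/o)^{e-1}(f - a f1) - (W/o)^{e-1} c/d`).
Then `a_new' = (1 + d opp1) z + g ρ =: z'`; `α_new' = z = σ (z' - g ρ) = s_new z' + κ_new ρ`;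
`s_new' = -σ² d (opp2 z + mz ρ) = -k_new z' - ℓ_new ρ` (`z = σ (z' - g ρ)`);
`κ_new' = -(σ g)' = σ² d (opp2 z + mz ρ) g - σ d (mz z + (mr - o + a opp1) ρ)
= -ℓ_new z' + (c_new - q_new) ρ`, `c_new = σ d (o - a opp1)`. -/
theorem al3_hst {e d : ℝ} (he : 1 < e) (hd : 0 < d) {F : ℝ → Pf} {G : ℝ → Pt} (J : PJ F G)
    {S : ℝ → St} {T : ℝ → Tt} {r : ℝ → ℝ} {z ρ x : ℝ} (hr : HasDerivAt r ρ x)
    (A : Al3 S T z ρ x) (h0 : 0 < (S x).W d) (h1 : (S x).W d < (F (r x)).f (S x).a)
    (hp : 0 < 1 + d * opp1 e d (F (r x)) (S x)) :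
    Al3 (fun y => hst e d (F (r y)) (S y))
      (fun y => hst3 e d (F (r y)) (G (r y)) (S y) (T y))
      ((1 + d * opp1 e d (F (r x)) (S x)) * z + og e d (F (r x)) (G (r x)) (S x) (T x) * ρ)
      ρ x := by
  have hσ : 1 + d * opp1 e d (F (r x)) (S x) ≠ 0 := hp.ne'
  have hd0 : d ≠ 0 := hd.ne'
  have f0 : HasDerivAt (fun y => (F (r y)).f (S y).a)
      ((F (r x)).f1 (S x).a * z + (G (r x)).fr (S x).a * ρ) x :=
    nalong3b_chain (J.d0 ((S x).a, r x)) A.da hr rfl rfl
  have f1 : HasDerivAt (fun y => (F (r y)).f1 (S y).a)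
      ((F (r x)).f2 (S x).a * z + (G (r x)).far (S x).a * ρ) x :=
    nalong3b_chain (J.d1 ((S x).a, r x)) A.da hr rfl rfl
  have f2 : HasDerivAt (fun y => (G (r y)).fr (S y).a)
      ((G (r x)).far (S x).a * z + ((G (r x)).ft (S x).a - (F (r x)).f (S x).a +
        (S x).a * (F (r x)).f1 (S x).a) * ρ) x :=
    nalong3b_chain (J.d2 ((S x).a, r x)) A.da hr rfl rfl
  have W0 : HasDerivAt (fun y => (S y).W d) ((S x).p d * z - (T x).κ / d * ρ) x := by
    have h := (A.da.sub A.dα).div_const d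
    refine HasDerivAt.congr_deriv h ?_
    unfold St.p
    field_simp
    ring
  have p0 : HasDerivAt (fun y => (S y).p d) (((S x).k * z + (T x).ℓ * ρ) / d) x := by
    have h := (A.ds.const_sub 1).div_const d
    refine HasDerivAt.congr_deriv h ?_
    field_simp
    ring
  have κ0 : HasDerivAt (fun y => -((T y).κ / d)) (-((-(T x).ℓ * z +
      ((S x).s * (S x).a - (S x).α - (T x).q) * ρ) / d)) x := (A.dκ.div_const d).neg
  obtain ⟨o1, o2⟩ := along3_quot he f0 W0 f1 p0 h0 h1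
  obtain ⟨-, o3⟩ := along3_quot he f0 W0 f2 κ0 h0 h1
  have hid := opp_id (e := e) (d := d) (P := F (r x)) (S := S x) (by linarith) h0 h1
  have E1 : HasDerivAt (fun y => opp e d (F (r y)) (S y))
      (opp1 e d (F (r x)) (S x) * z + og e d (F (r x)) (G (r x)) (S x) (T x) / d * ρ) x := by
    refine HasDerivAt.congr_deriv o1 ?_
    unfold opp1 og opp
    field_simp
    ring
  have E2 : HasDerivAt (fun y => opp1 e d (F (r y)) (S y))
      (opp2 e d (F (r x)) (S x) * z + mz e d (F (r x)) (G (r x)) (S x) (T x) * ρ) x := by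
    refine HasDerivAt.congr_deriv o2 ?_
    unfold opp2 mz cc dl dr St.r opp
    ring
  have E3 : HasDerivAt (fun y => og e d (F (r y)) (G (r y)) (S y) (T y))
      (d * (mz e d (F (r x)) (G (r x)) (S x) (T x) * z +
        (mr e d (F (r x)) (G (r x)) (S x) (T x) - (opp e d (F (r x)) (S x) -
          (S x).a * opp1 e d (F (r x)) (S x))) * ρ)) x := by
    have h := o3.const_mul d
    have e1 : (fun y => og e d (F (r y)) (G (r y)) (S y) (T y)) = fun y =>
        d * (((F (r y)).f (S y).a / ((F (r y)).f (S y).a ^ e - (S y).W d ^ e) ^ e⁻¹) ^ (e - 1) *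
          (G (r y)).fr (S y).a - ((S y).W d / ((F (r y)).f (S y).a ^ e - (S y).W d ^ e) ^ e⁻¹) ^
            (e - 1) * (-((T y).κ / d))) := by
      funext y
      unfold og opp
      field_simp
      ring
    rw [e1]
    refine HasDerivAt.congr_deriv h ?_
    have e2 : opp e d (F (r x)) (S x) - (S x).a * opp1 e d (F (r x)) (S x) =
        ((F (r x)).f (S x).a / opp e d (F (r x)) (S x)) ^ (e - 1) *
          ((F (r x)).f (S x).a - (S x).a * (F (r x)).f1 (S x).a) -
        ((S x).W d / opp e d (F (r x)) (S x)) ^ (e - 1) *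
          (((S x).s * (S x).a - (S x).α) / d) := by
      have e3 : ((S x).s * (S x).a - (S x).α) / d = (S x).W d - (S x).a * (S x).p d := by
        unfold St.W St.p
        field_simp
        ring
      rw [e3]
      have e4 : opp e d (F (r x)) (S x) - (S x).a * opp1 e d (F (r x)) (S x) =
          (((F (r x)).f (S x).a / opp e d (F (r x)) (S x)) ^ (e - 1) * (F (r x)).f (S x).a -
            ((S x).W d / opp e d (F (r x)) (S x)) ^ (e - 1) * (S x).W d) -
              (S x).a * opp1 e d (F (r x)) (S x) := by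
        rw [← hid]
      rw [e4]
      unfold opp1
      ring
    rw [e2]
    unfold mz mr cc dl dr opp
    ring
  have hs : HasDerivAt (fun y => (1 + d * opp1 e d (F (r y)) (S y))⁻¹)
      (-(d * (opp2 e d (F (r x)) (S x) * z + mz e d (F (r x)) (G (r x)) (S x) (T x) * ρ)) /
        (1 + d * opp1 e d (F (r x)) (S x)) ^ 2) x := ((E2.const_mul d).const_add 1).inv hσ
  refine ⟨?_, ?_, ?_, ?_⟩
  · refine HasDerivAt.congr_deriv (A.da.add (E1.const_mul d)) ?_
    field_simp
    ring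
  · refine HasDerivAt.congr_deriv A.da ?_
    change z = (1 + d * opp1 e d (F (r x)) (S x))⁻¹ * _ +
      -((1 + d * opp1 e d (F (r x)) (S x))⁻¹ * og e d (F (r x)) (G (r x)) (S x) (T x)) * ρ
    field_simp
    ring
  · refine HasDerivAt.congr_deriv hs ?_
    change _ = -(d * opp2 e d (F (r x)) (S x) * (1 + d * opp1 e d (F (r x)) (S x))⁻¹ ^ 3) * _ -
      (1 + d * opp1 e d (F (r x)) (S x))⁻¹ * d * ((1 + d * opp1 e d (F (r x)) (S x))⁻¹ *
        mz e d (F (r x)) (G (r x)) (S x) (T x) - opp2 e d (F (r x)) (S x) *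
          (1 + d * opp1 e d (F (r x)) (S x))⁻¹ ^ 2 *
            og e d (F (r x)) (G (r x)) (S x) (T x)) * ρ
    field_simp
    ring
  · refine HasDerivAt.congr_deriv (hs.mul E3).neg ?_
    change _ = -((1 + d * opp1 e d (F (r x)) (S x))⁻¹ * d *
        ((1 + d * opp1 e d (F (r x)) (S x))⁻¹ *
        mz e d (F (r x)) (G (r x)) (S x) (T x) - opp2 e d (F (r x)) (S x) *
          (1 + d * opp1 e d (F (r x)) (S x))⁻¹ ^ 2 *
            og e d (F (r x)) (G (r x)) (S x) (T x))) * _ +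
      ((1 + d * opp1 e d (F (r x)) (S x))⁻¹ * ((S x).a + d * opp e d (F (r x)) (S x)) -
        (S x).a - (1 + d * opp1 e d (F (r x)) (S x))⁻¹ * d * (opp2 e d (F (r x)) (S x) *
          (1 + d * opp1 e d (F (r x)) (S x))⁻¹ ^ 2 *
          og e d (F (r x)) (G (r x)) (S x) (T x) ^ 2 -
          2 * mz e d (F (r x)) (G (r x)) (S x) (T x) *
            (1 + d * opp1 e d (F (r x)) (S x))⁻¹ * og e d (F (r x)) (G (r x)) (S x) (T x) +
          mr e d (F (r x)) (G (r x)) (S x) (T x))) * ρ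
    field_simp
    ring

end CH
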