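import Pool.Agent.H.MP_1693ff_gtC.NDefs

/-!
# Sublevel sets of gauge functions
-/

namespace CH

open Real Set Filter Topology CG
open CF hiding St

variable {E : Type*} [NormedAddCommGroup E] [InnerProductSpace ℝ E]

/-- Radial function at a boundary point of the sublevel set of a convex positively homogeneous
function: `{c ≥ 0 : F (p + c u) ≤ 1} = [0, ρ]`, since `c ↦ F (p + c u)` is convex, `< 1` at `0`
and `= 1` at `ρ`. -/
theorem radial_sub {F : E → ℝ} (hF : ConvexOn ℝ univ F) {p u : E} {ρ : ℝ} (hρ : 0 < ρ)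
    (h0 : F p < 1) (h1 : F (p + ρ • u) = 1) : radial {w | F w ≤ 1} p u = ρ := by
  unfold radial
  refine IsGreatest.csSup_eq ⟨⟨hρ.le, h1.le⟩, ?_⟩
  rintro c ⟨hc0, hc1⟩
  by_contra hlt
  rw [not_le] at hlt
  have hc1' : F (p + c • u) ≤ 1 := hc1
  have hcpos : 0 < c := hρ.trans hlt
  have e1 : (1 - ρ / c) • p + (ρ / c) • (p + c • u) = p + ρ • u := by
    rw [smul_add, smul_smul, div_mul_cancel₀ _ hcpos.ne', ← add_assoc, ← add_smul,
      sub_add_cancel, one_smul]
  have hr1 : ρ / c < 1 := (div_lt_one hcpos).2 hlt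
  have hr0 : 0 < ρ / c := div_pos hρ hcpos
  have h2 := hF.2 (mem_univ p) (mem_univ (p + c • u)) (sub_nonneg.2 hr1.le) hr0.le
    (sub_add_cancel 1 (ρ / c))
  rw [e1, h1, smul_eq_mul, smul_eq_mul] at h2
  nlinarith [mul_lt_mul_of_pos_left h0 (sub_pos.2 hr1), mul_le_mul_of_nonneg_left hc1' hr0.le]

/-- The sublevel set of a convex, positively homogeneous, positive function on a finite
dimensional space is a convex body, and points with `F < 1` are interior.  `F` is continuous
(`ConvexOn.continuousOn`), has a positive minimum on the unit sphere. -/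
theorem body_sub [FiniteDimensional ℝ E] [Nontrivial E] {F : E → ℝ} (hF : ConvexOn ℝ univ F)
    (hs : ∀ c : ℝ, 0 ≤ c → ∀ u, F (c • u) = c * F u) (hp : ∀ u, u ≠ 0 → 0 < F u) :
    IsBody {w | F w ≤ 1} ∧ ∀ p, F p < 1 → p ∈ interior {w | F w ≤ 1} := by
  have hcont : Continuous F := by
    rw [← continuousOn_univ]
    exact ConvexOn.continuousOn isOpen_univ hF
  have hint : ∀ p, F p < 1 → p ∈ interior {w | F w ≤ 1} := by
    intro p hp1
    have h2 : {w | F w < 1} ⊆ {w | F w ≤ 1} := fun w hw => by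
      have h3 : F w < 1 := hw
      exact h3.le
    exact interior_maximal h2 (isOpen_lt hcont continuous_const) hp1
  have hF0 : F 0 = 0 := by
    have h1 := hs 0 le_rfl 0
    rwa [zero_smul, zero_mul] at h1
  refine ⟨⟨?_, ?_, ⟨0, hint 0 (by rw [hF0]; exact one_pos)⟩⟩, hint⟩
  · have h1 := hF.convex_le 1
    simpa using h1
  · have hne : (Metric.sphere (0 : E) 1).Nonempty := NormedSpace.sphere_nonempty.2 zero_le_one
    obtain ⟨x0, hx0, hmin⟩ := (isCompact_sphere (0 : E) 1).exists_isMinOn hne hcont.continuousOn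
    have hx0' : x0 ≠ 0 := by
      rintro rfl
      simp at hx0
    have hm := hp x0 hx0'
    refine Metric.isCompact_of_isClosed_isBounded (isClosed_le hcont continuous_const) ?_
    refine (Metric.isBounded_closedBall (x := (0 : E)) (r := (F x0)⁻¹)).subset ?_
    intro w hw
    rw [mem_closedBall_zero_iff]
    have hw1 : F w ≤ 1 := hw
    by_cases hw0 : w = 0
    · rw [hw0, norm_zero]
      exact (inv_pos.2 hm).le
    · have hn : 0 < ‖w‖ := norm_pos_iff.2 hw0
      have h1 : ‖w‖⁻¹ • w ∈ Metric.sphere (0 : E) 1 := by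
        rw [mem_sphere_zero_iff_norm, norm_smul, norm_inv, norm_norm, inv_mul_cancel₀ hn.ne']
      have h2 : F x0 ≤ F (‖w‖⁻¹ • w) := hmin h1
      rw [hs _ (inv_pos.2 hn).le] at h2
      rw [le_inv_comm₀ hn hm]
      calc F x0 ≤ ‖w‖⁻¹ * F w := h2
        _ ≤ ‖w‖⁻¹ * 1 := mul_le_mul_of_nonneg_left hw1 (inv_pos.2 hn).le
        _ = ‖w‖⁻¹ := mul_one _

end CH
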