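import Pool.Agent.H.MP_1693ff_gtC.NDefs
import Pool.Agent.H.MP_1693ff_gtB.GNear

/-!
# Families of profiles: regularity
-/

namespace CH

open Real Set Filter Topology CG
open CF hiding St

/-- evaluation of the derivative at a fixed vector -/
theorem nprofb_eval {Φ : ℝ × ℝ → ℝ} (c : ContDiff ℝ 2 Φ) (v : ℝ × ℝ) :
    ContDiff ℝ 1 (fun p => fderiv ℝ Φ p v) ∧
      ∀ p, HasFDerivAt (fun p => fderiv ℝ Φ p v)
        ((ContinuousLinearMap.apply ℝ ℝ v).comp (fderiv ℝ (fderiv ℝ Φ) p)) p := by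
  have h1 : ContDiff ℝ 1 (fderiv ℝ Φ) := c.fderiv_right (by norm_num)
  refine ⟨h1.clm_apply contDiff_const, fun p => ?_⟩
  have h2 : HasFDerivAt (fderiv ℝ Φ) (fderiv ℝ (fderiv ℝ Φ) p) p :=
    (h1.differentiable (by norm_num) p).hasFDerivAt
  exact (ContinuousLinearMap.apply ℝ ℝ v).hasFDerivAt.comp p h2

theorem nprofb_fst {Ψ : ℝ × ℝ → ℝ} {L : ℝ × ℝ →L[ℝ] ℝ} {p : ℝ × ℝ} (h : HasFDerivAt Ψ L p) :
    HasDerivAt (fun a => Ψ (a, p.2)) (L (1, 0)) p.1 := by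
  have h1 : HasDerivAt (fun a : ℝ => (a, p.2)) ((1 : ℝ), (0 : ℝ)) p.1 :=
    (hasDerivAt_id p.1).prodMk (hasDerivAt_const p.1 p.2)
  exact HasFDerivAt.comp_hasDerivAt (f := fun a : ℝ => (a, p.2)) p.1 h h1

theorem nprofb_snd {Ψ : ℝ × ℝ → ℝ} {L : ℝ × ℝ →L[ℝ] ℝ} {p : ℝ × ℝ} (h : HasFDerivAt Ψ L p) :
    HasDerivAt (fun r => Ψ (p.1, r)) (L (0, 1)) p.2 := by
  have h1 : HasDerivAt (fun r : ℝ => (p.1, r)) ((0 : ℝ), (1 : ℝ)) p.2 :=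
    (hasDerivAt_const p.2 p.1).prodMk (hasDerivAt_id p.2)
  exact HasFDerivAt.comp_hasDerivAt (f := fun r : ℝ => (p.1, r)) p.2 h h1

theorem nprofb_lin (L : ℝ × ℝ →L[ℝ] ℝ) {x y : ℝ} (hx : L (1, 0) = x) (hy : L (0, 1) = y) :
    L = x • ContinuousLinearMap.fst ℝ ℝ ℝ + y • ContinuousLinearMap.snd ℝ ℝ ℝ := by
  refine ContinuousLinearMap.ext fun q => ?_
  have h1 : q = q.1 • ((1 : ℝ), (0 : ℝ)) + q.2 • ((0 : ℝ), (1 : ℝ)) := by
    ext <;> simp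
  conv_lhs => rw [h1]
  rw [map_add, map_smul, map_smul, hx, hy]
  simp [mul_comm]

/-- `Φ (a, r) = prof (h r) a` is `C²`; `∂_a Φ = prof1`, `∂_a prof1 = prof2` (`prof_deriv`);
`∂_r Φ = fr`, `∂_r ∂_a Φ = far = ∂_a fr` (symmetry of the second derivative,
`ContDiffAt.isSymmSndFDerivAt`, or `second_derivative_symmetric`), `∂_r fr = ft - f + a f1`.
The first derivatives of `Φ` are `C¹` (components of `fderiv`). -/
theorem pj_of {h : ℝ → ℝ → ℝ} (n : ∀ r, ContDiff ℝ 2 (h r))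
    (c : ContDiff ℝ 2 (fun p : ℝ × ℝ => prof (h p.2) p.1)) :
    PJ (fun r => pf (h r)) (fun r => pt h r) := by
  set Φ : ℝ × ℝ → ℝ := fun p => prof (h p.2) p.1 with hΦ
  have hd : ∀ p, HasFDerivAt Φ (fderiv ℝ Φ p) p := fun p =>
    (c.differentiable (by norm_num) p).hasFDerivAt
  obtain ⟨cA, hA⟩ := nprofb_eval c (1, 0)
  obtain ⟨cB, hB⟩ := nprofb_eval c (0, 1)
  have eA : ∀ p : ℝ × ℝ, fderiv ℝ Φ p (1, 0) = prof1 (h p.2) p.1 := fun p =>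
    (nprofb_fst (hd p)).unique (prof_deriv (n p.2) p.1).1
  have eB : ∀ p : ℝ × ℝ, fderiv ℝ Φ p (0, 1) = (pt h p.2).fr p.1 := fun p =>
    (nprofb_snd (hd p)).deriv.symm
  have fA : (fun p => fderiv ℝ Φ p (1, 0)) = fun p : ℝ × ℝ => prof1 (h p.2) p.1 := funext eA
  have fB : (fun p => fderiv ℝ Φ p (0, 1)) = fun p : ℝ × ℝ => (pt h p.2).fr p.1 := funext eB
  rw [fA] at cA hA
  rw [fB] at cB hB
  have hsym : ∀ p, IsSymmSndFDerivAt ℝ Φ p := fun p =>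
    (c.contDiffAt (x := p)).isSymmSndFDerivAt (by simp)
  have h10 : ∀ p : ℝ × ℝ, fderiv ℝ (fderiv ℝ Φ) p (1, 0) (1, 0) = prof2 (h p.2) p.1 := fun p =>
    (nprofb_fst (hA p)).unique (prof_deriv (n p.2) p.1).2
  have h01 : ∀ p : ℝ × ℝ, fderiv ℝ (fderiv ℝ Φ) p (0, 1) (1, 0) = (pt h p.2).far p.1 := fun p =>
    (nprofb_snd (hA p)).deriv.symm
  have h11 : ∀ p : ℝ × ℝ, fderiv ℝ (fderiv ℝ Φ) p (0, 1) (0, 1) =
      (pt h p.2).ft p.1 - prof (h p.2) p.1 + p.1 * prof1 (h p.2) p.1 := by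
    intro p
    have h1 : deriv (fun r => (pt h r).fr p.1) p.2 = fderiv ℝ (fderiv ℝ Φ) p (0, 1) (0, 1) :=
      (nprofb_snd (hB p)).deriv
    rw [← h1]
    show _ = deriv (deriv fun r' => prof (h r') p.1) p.2 + prof (h p.2) p.1 -
      p.1 * prof1 (h p.2) p.1 - prof (h p.2) p.1 + p.1 * prof1 (h p.2) p.1
    have h2 : (fun r => (pt h r).fr p.1) = deriv fun r' => prof (h r') p.1 := rfl
    rw [h2]
    ring
  refine ⟨c.of_le (by norm_num), cA, cB, fun p => ?_, fun p => ?_, fun p => ?_⟩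
  · have h1 := hd p
    rw [nprofb_lin (fderiv ℝ Φ p) (eA p) (eB p)] at h1
    exact h1
  · have h1 := hA p
    rw [nprofb_lin ((ContinuousLinearMap.apply ℝ ℝ ((1 : ℝ), (0 : ℝ))).comp
      (fderiv ℝ (fderiv ℝ Φ) p)) (h10 p) (h01 p)] at h1
    exact h1
  · have h1 := hB p
    rw [nprofb_lin ((ContinuousLinearMap.apply ℝ ℝ ((0 : ℝ), (1 : ℝ))).comp
      (fderiv ℝ (fderiv ℝ Φ) p)) ((hsym p (1, 0) (0, 1)).trans (h01 p)) (h11 p)] at h1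
    exact h1

end CH
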