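import Pool.Agent.H.MP_1693ff_gtC.NChain3
import Pool.Agent.H.MP_1693ff_gtC.NProfB

/-!
# All facts about a pair of families
-/

namespace CH

open Real Set Filter Topology CG
open CF hiding St

/-- All facts. -/
theorem exists_D3 {e c c' : ℝ} (he : 1 < e) (hc : 0 < c) (hc' : 0 < c') :
    ∃ ε D : ℝ, 0 < ε ∧ 1 ≤ D ∧ ∀ h k, N3 h c ε → N3 k c' ε → ∀ d, D ≤ d → D3 e d h k := by
  obtain ⟨ε₁, D₁, hε₁, hD₁, H₁⟩ := chain3_pos he hc hc'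
  obtain ⟨ε₂, D₂, hε₂, hD₂, H₂⟩ := chain3_pos he hc' hc
  obtain ⟨ε₃, κ, C₁, C₂, D₃, hε₃, hκ, hD₃, H₃⟩ := exists_DK he hc hc'
  obtain ⟨ε₄, hε₄, -, H₄⟩ := co_near he hc one_pos
  obtain ⟨ε₅, hε₅, -, H₅⟩ := co_near he hc' one_pos
  refine ⟨min (min ε₁ ε₂) (min ε₃ (min ε₄ ε₅)), max D₁ (max D₂ D₃),
    lt_min (lt_min hε₁ hε₂) (lt_min hε₃ (lt_min hε₄ hε₅)), le_trans hD₁ (le_max_left _ _),
    fun h k nh nk d hd => ?_⟩
  have m1 : min (min ε₁ ε₂) (min ε₃ (min ε₄ ε₅)) ≤ ε₁ :=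
    (min_le_left _ _).trans (min_le_left _ _)
  have m2 : min (min ε₁ ε₂) (min ε₃ (min ε₄ ε₅)) ≤ ε₂ :=
    (min_le_left _ _).trans (min_le_right _ _)
  have m3 : min (min ε₁ ε₂) (min ε₃ (min ε₄ ε₅)) ≤ ε₃ :=
    (min_le_right _ _).trans (min_le_left _ _)
  have m4 : min (min ε₁ ε₂) (min ε₃ (min ε₄ ε₅)) ≤ ε₄ :=
    (min_le_right _ _).trans ((min_le_right _ _).trans (min_le_left _ _))
  have m5 : min (min ε₁ ε₂) (min ε₃ (min ε₄ ε₅)) ≤ ε₅ :=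
    (min_le_right _ _).trans ((min_le_right _ _).trans (min_le_right _ _))
  have d1 : D₁ ≤ d := (le_max_left _ _).trans hd
  have d2 : D₂ ≤ d := ((le_max_left _ _).trans (le_max_right _ _)).trans hd
  have d3 : D₃ ≤ d := ((le_max_right _ _).trans (le_max_right _ _)).trans hd
  exact
    { dk := ⟨κ, C₁, C₂, fun r => H₃ _ _ ((nh.mono m3).near r) ((nk.mono m3).near r) d d3⟩
      ph := pj_of (fun r => (nh.near r).c2) nh.c2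
      pk := pj_of (fun r => (nk.near r).c2) nk.c2
      co := ⟨1, H₄ _ (nh.mono m4), H₅ _ (nk.mono m5)⟩
      pos := H₁ h k (nh.mono m1) (nk.mono m1) d d1
      pos' := H₂ k h (nk.mono m2) (nh.mono m2) d d2 }

theorem D3.swap {e d : ℝ} {h k : ℝ → ℝ → ℝ} (D : D3 e d h k) : D3 e d k h := by
  obtain ⟨κ, C₁, C₂, H⟩ := D.dk
  obtain ⟨δ, c1, c2⟩ := D.co
  exact ⟨⟨κ, C₁, C₂, fun r => (H r).swap⟩, D.pk, D.ph, ⟨δ, c2, c1⟩, D.pos', D.pos⟩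

end CH
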