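import Pool.Agent.H.MP_1693ff_gtC.NSpace
import Pool.Agent.H.MP_1693ff_gtC.NChain3B

/-!
# The gauge function in space: first properties
-/

namespace CH

open Real Set Filter Topology CG
open CF hiding St

variable {E : Type*} [NormedAddCommGroup E] [InnerProductSpace ℝ E]
variable {e d m M : ℝ} {H₁ H₂ : E → ℝ} {ax : E} {X Y s YH sH : E → ℝ → ℝ}

theorem ngb_inner (hax : ‖ax‖ = 1) {ω : E} (hω : Un ax ω) (R x : ℝ) :
    (inner ℝ ax (R • (x • ax + ω)) : ℝ) = R * x := by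
  rw [inner_smul_right, inner_add_right, inner_smul_right, real_inner_self_eq_norm_sq, hax, hω.o1]
  ring

theorem ngb_xi (hax : ‖ax‖ = 1) {ω : E} (hω : Un ax ω) (R x : ℝ) :
    xi ax (R • (x • ax + ω)) = R • ω := by
  unfold xi
  rw [ngb_inner hax hω, smul_add, smul_smul]
  abel

theorem ngb_xi_ax (hax : ‖ax‖ = 1) (c : ℝ) : xi ax (c • ax) = 0 ∧ (inner ℝ ax (c • ax) : ℝ) = c := by
  have h : (inner ℝ ax (c • ax) : ℝ) = c := by
    rw [inner_smul_right, real_inner_self_eq_norm_sq, hax]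
    ring
  refine ⟨?_, h⟩
  unfold xi
  rw [h, sub_self]

/-- `xi` of `R (x ax + ω)` is `R ω`. -/
theorem gg_curve (hax : ‖ax‖ = 1) (g : GD e d H₁ H₂ ax m M X Y s YH sH) {ω : E} (hω : Un ax ω)
    {R : ℝ} (hR : 0 < R) (τ : ℝ) :
    gg ax m M X Y (R • (X ω τ • ax + ω)) = R * (X ω τ + Y ω τ) := by
  have h1 := ngb_xi hax hω R (X ω τ)
  have h2 := ngb_inner hax hω R (X ω τ)
  have h3 : ‖R • ω‖ = R := by
    rw [norm_smul, hω.n1, mul_one, Real.norm_eq_abs, abs_of_pos hR]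
  have h4 : R • ω ≠ 0 := by
    rw [← norm_pos_iff, h3]
    exact hR
  have h5 : R⁻¹ • (R • ω) = ω := by
    rw [smul_smul, inv_mul_cancel₀ hR.ne', one_smul]
  have h6 : Function.invFun (X ω) (X ω τ) = τ :=
    Function.leftInverse_invFun (g.cv ω hω).xmono.injective τ
  unfold gg
  rw [h1, if_neg h4, h2, h3, h5, mul_div_cancel_left₀ _ hR.ne', h6]

/-- Every vector off the axis is of the form `R (x(τ) ax + ω)`. -/
theorem off_axis (hax : ‖ax‖ = 1) (g : GD e d H₁ H₂ ax m M X Y s YH sH) {u : E}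
    (hu : xi ax u ≠ 0) :
    ∃ (ω : E) (R τ : ℝ), Un ax ω ∧ 0 < R ∧ u = R • (X ω τ • ax + ω) := by
  have hR : 0 < ‖xi ax u‖ := norm_pos_iff.2 hu
  have hω : Un ax (‖xi ax u‖⁻¹ • xi ax u) := by
    refine ⟨?_, ?_⟩
    · rw [norm_smul, norm_inv, norm_norm, inv_mul_cancel₀ hR.ne']
    · rw [inner_smul_right]
      unfold xi
      rw [inner_sub_right, inner_smul_right, real_inner_self_eq_norm_sq, hax]
      ring
  have C := g.cv _ hω
  obtain ⟨τ, hτ⟩ := (C.cx.surjective C.xtop C.xbot) ((inner ℝ ax u : ℝ) / ‖xi ax u‖)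
  refine ⟨‖xi ax u‖⁻¹ • xi ax u, ‖xi ax u‖, τ, hω, hR, ?_⟩
  rw [hτ, smul_add, smul_smul, smul_smul, mul_div_cancel₀ _ hR.ne', mul_inv_cancel₀ hR.ne', one_smul]
  unfold xi
  abel

theorem gg_axis (hax : ‖ax‖ = 1) (c : ℝ) :
    gg ax m M X Y (c • ax) = if 0 ≤ c then (1 - m) * c else (1 - M) * c := by
  obtain ⟨h1, h2⟩ := ngb_xi_ax hax c
  unfold gg
  rw [if_pos h1, h2]

/-- Homogeneity: `xi (c u) = c xi u`, the unit vector does not change for `c > 0`. -/
theorem gg_smul (hax : ‖ax‖ = 1) {c : ℝ} (hc : 0 ≤ c) (u : E) :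
    gg ax m M X Y (c • u) = c * gg ax m M X Y u := by
  rcases hc.eq_or_lt with rfl | hc
  · have h := gg_axis (ax := ax) (m := m) (M := M) (X := X) (Y := Y) hax 0
    rw [zero_smul] at h
    rw [zero_smul, h, zero_mul, if_pos le_rfl, mul_zero]
  · have h1 : xi ax (c • u) = c • xi ax u := by
      unfold xi
      rw [inner_smul_right, smul_sub, smul_smul]
    have h2 : (inner ℝ ax (c • u) : ℝ) = c * inner ℝ ax u := inner_smul_right _ _ _
    unfold gg
    by_cases h0 : xi ax u = 0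
    · rw [if_pos (by rw [h1, h0, smul_zero]), if_pos h0, h2]
      by_cases h3 : 0 ≤ (inner ℝ ax u : ℝ)
      · rw [if_pos (mul_nonneg hc.le h3), if_pos h3]
        ring
      · have h4 : ¬ 0 ≤ c * (inner ℝ ax u : ℝ) := by
          intro h5
          exact h3 (nonneg_of_mul_nonneg_right h5 hc)
        rw [if_neg h4, if_neg h3]
        ring
    · have h3 : 0 < ‖xi ax u‖ := norm_pos_iff.2 h0
      have h4 : ‖c • xi ax u‖ = c * ‖xi ax u‖ := by
        rw [norm_smul, Real.norm_eq_abs, abs_of_pos hc]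
      have h5 : (c * ‖xi ax u‖)⁻¹ • (c • xi ax u) = ‖xi ax u‖⁻¹ • xi ax u := by
        rw [smul_smul]
        congr 1
        field_simp
      rw [h1, if_neg (smul_ne_zero hc.ne' h0), if_neg h0, h2, h4, h5, mul_div_mul_left _ _ hc.ne']
      ring

/-- `GC0.pos`, `m < 1 < M`. -/
theorem gg_pos (hax : ‖ax‖ = 1) (g : GD e d H₁ H₂ ax m M X Y s YH sH) {u : E} (hu : u ≠ 0) :
    0 < gg ax m M X Y u := by
  by_cases h0 : xi ax u = 0
  · have h1 : u = (inner ℝ ax u : ℝ) • ax := sub_eq_zero.1 h0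
    set c : ℝ := inner ℝ ax u with hc
    have hc0 : c ≠ 0 := by
      intro h2
      rw [h2, zero_smul] at h1
      exact hu h1
    rw [h1, gg_axis hax c]
    by_cases h3 : 0 ≤ c
    · rw [if_pos h3]
      exact mul_pos (by linarith [g.m1]) (lt_of_le_of_ne h3 hc0.symm)
    · rw [if_neg h3]
      push Not at h3
      exact mul_pos_of_neg_of_neg (by linarith [g.M1]) h3
  · obtain ⟨ω, R, τ, hω, hR, rfl⟩ := off_axis hax g h0
    rw [gg_curve hax g hω hR τ]
    exact mul_pos hR ((g.cv ω hω).pos τ)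

end CH
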