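import Pool.Agent.H.MP_1693ff_gtC.NBody
import Pool.Agent.H.MP_1693ff_gtC.NGB

/-!
# Radial functions of the body
-/

namespace CH

open Real Set Filter Topology CG
open CF hiding St

variable {E : Type*} [NormedAddCommGroup E] [InnerProductSpace ℝ E]
variable {e d m M : ℝ} {H₁ H₂ : E → ℝ} {ax : E} {X Y s YH sH : E → ℝ → ℝ}

theorem nbodyb_ax (hax : ‖ax‖ = 1) (g : GD e d H₁ H₂ ax m M X Y s YH sH) :
    gg ax m M X Y ax < 1 := by
  have h1 := gg_axis (ax := ax) (m := m) (M := M) (X := X) (Y := Y) hax 1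
  rw [one_smul, if_pos zero_le_one] at h1
  rw [h1]
  linarith [g.m0]

/-- Radial function at `0`: `1/gg u` (`radial_sub`, `gg_smul`). -/
theorem rad_zero (hax : ‖ax‖ = 1) (g : GD e d H₁ H₂ ax m M X Y s YH sH)
    (hc : ConvexOn ℝ univ (gg ax m M X Y)) {u : E} (hu : u ≠ 0) :
    radial {w | gg ax m M X Y w ≤ 1} 0 u = (gg ax m M X Y u)⁻¹ := by
  have h1 := gg_pos hax g hu
  refine radial_sub hc (inv_pos.2 h1) ?_ ?_
  · have h2 := gg_smul (m := m) (M := M) (X := X) (Y := Y) hax le_rfl (0 : E)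
    rw [smul_zero, zero_mul] at h2
    rw [h2]
    exact zero_lt_one
  · rw [zero_add, gg_smul hax (inv_nonneg.2 h1.le), inv_mul_cancel₀ h1.ne']

/-- Radial function at `ax` in the direction `A ax + B ω`, `B > 0`: for `Y ω τ = -A/B`,
`ax + ρ (A ax + B ω) = (x + y)⁻¹ (x ax + ω)` with `ρ = (B (x + y))⁻¹`, where `gg = 1`
(`gg_curve`); `gg ax = 1 - m < 1`; `radial_sub`. -/
theorem rad_ax (hax : ‖ax‖ = 1) (g : GD e d H₁ H₂ ax m M X Y s YH sH)
    (hc : ConvexOn ℝ univ (gg ax m M X Y)) {ω : E} (hω : Un ax ω) {A B τ : ℝ} (hB : 0 < B)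
    (hτ : Y ω τ = -(A / B)) :
    radial {w | gg ax m M X Y w ≤ 1} ax (A • ax + B • ω) = (B * (X ω τ + Y ω τ))⁻¹ := by
  have h1 : 0 < X ω τ + Y ω τ := (g.cv ω hω).pos τ
  refine radial_sub hc (inv_pos.2 (mul_pos hB h1)) ?_ ?_
  · exact nbodyb_ax hax g
  · have h2 : ax + (B * (X ω τ + Y ω τ))⁻¹ • (A • ax + B • ω) =
        (X ω τ + Y ω τ)⁻¹ • (X ω τ • ax + ω) := by
      have e1 : 1 + (B * (X ω τ + Y ω τ))⁻¹ * A = (X ω τ + Y ω τ)⁻¹ * X ω τ := by
        have e2 : A = -(B * Y ω τ) := by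
          rw [hτ]
          field_simp
        rw [e2]
        have h3 := h1.ne'
        field_simp
        ring
      have e3 : (B * (X ω τ + Y ω τ))⁻¹ * B = (X ω τ + Y ω τ)⁻¹ := by
        have h3 := h1.ne'
        field_simp
      rw [smul_add, smul_add, smul_smul, smul_smul, smul_smul, ← e1, e3, add_smul, one_smul]
      abel
    rw [h2, gg_curve hax g hω (inv_pos.2 h1), inv_mul_cancel₀ h1.ne']

/-- On the axis: `gg (ax + ρ ax) = (1 + ρ)(1 - m) = 1` for `ρ = (m⁻¹ - 1)⁻¹`,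
`gg (ax - ρ ax) = (1 - ρ)(1 - M) = 1` for `ρ = (1 - M⁻¹)⁻¹ > 1`. -/
theorem rad_ax_axis (hax : ‖ax‖ = 1) (g : GD e d H₁ H₂ ax m M X Y s YH sH)
    (hc : ConvexOn ℝ univ (gg ax m M X Y)) :
    radial {w | gg ax m M X Y w ≤ 1} ax ax = (m⁻¹ - 1)⁻¹ ∧
    radial {w | gg ax m M X Y w ≤ 1} ax (-ax) = (1 - M⁻¹)⁻¹ := by
  have m0 := g.m0
  have m1 := g.m1
  have M1 := g.M1
  have M0 : 0 < M := by linarith
  constructor
  · have h1 : (m⁻¹ - 1)⁻¹ = m / (1 - m) := by
      have h2 : 1 - m ≠ 0 := by linarith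
      have h3 : m⁻¹ - 1 = (1 - m) / m := by field_simp
      rw [h3, inv_div]
    rw [h1]
    refine radial_sub hc (div_pos m0 (by linarith)) (nbodyb_ax hax g) ?_
    have h2 : ax + (m / (1 - m)) • ax = (1 + m / (1 - m)) • ax := by
      rw [add_smul, one_smul]
    have h3 : 0 < m / (1 - m) := div_pos m0 (by linarith)
    rw [h2, gg_axis hax, if_pos (by linarith)]
    have h4 : 1 - m ≠ 0 := by linarith
    field_simp
    ring
  · have h1 : (1 - M⁻¹)⁻¹ = M / (M - 1) := by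
      have h3 : 1 - M⁻¹ = (M - 1) / M := by field_simp
      rw [h3, inv_div]
    rw [h1]
    have h5 : 0 < M - 1 := by linarith
    refine radial_sub hc (div_pos M0 h5) (nbodyb_ax hax g) ?_
    have h2 : ax + (M / (M - 1)) • (-ax) = (-(1 / (M - 1))) • ax := by
      have h6 : -(1 / (M - 1)) = 1 - M / (M - 1) := by
        field_simp
        ring
      rw [h6, sub_smul, one_smul, smul_neg]
      abel
    have h3 : ¬ 0 ≤ -(1 / (M - 1)) := by
      have : 0 < 1 / (M - 1) := by positivity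
      linarith
    rw [h2, gg_axis hax, if_neg h3]
    field_simp
    ring

end CH
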