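import Pool.Agent.H.MP_1693ff_gtC.NGB

/-!
# The gauge function in space: chord relation
-/

namespace CH

open Real Set Filter Topology CG
open CF hiding St

variable {E : Type*} [NormedAddCommGroup E] [InnerProductSpace ℝ E]
variable {e d m M : ℝ} {H₁ H₂ : E → ℝ} {ax : E} {X Y s YH sH : E → ℝ → ℝ}

/-- The lower curve is the upper curve of the opposite half plane: for `τ ≥ -1`, `Br.l1` for `ω`
and `Br.u2` for `-ω` at `-τ ≤ 1` (`ng (pl H ax (-ω)) = pl H ax ω` by `pl_neg`, `ng_ng`); for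
`τ ≤ 0`, `Br.l2` and `Br.u1`. -/
theorem gd_neg (g : GD e d H₁ H₂ ax m M X Y s YH sH) {ω : E} (hω : Un ax ω) (τ : ℝ) :
    X (-ω) (-τ) = -X ω τ ∧ Y (-ω) (-τ) = -YH ω τ := by
  have B := g.br ω hω
  have B' := g.br (-ω) hω.neg
  rw [pl_neg, pl_neg, ng_ng, ng_ng] at B'
  rcases le_total τ 0 with h | h
  · obtain ⟨h1, h2, -⟩ := B.l2 τ h
    obtain ⟨h3, h4, -⟩ := B'.u1 (-τ) (by linarith)
    rw [h1, h2, h3, h4, neg_neg]
    exact ⟨rfl, rfl⟩
  · obtain ⟨h1, h2, -⟩ := B.l1 τ (by linarith)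
    obtain ⟨h3, h4, -⟩ := B'.u2 (-τ) (by linarith)
    have e1 : 1 - -τ = τ + 1 := by ring
    rw [h1, h2, h3, h4, e1, neg_neg]
    exact ⟨rfl, rfl⟩

theorem ngc_mul_rpow {R x : ℝ} (hR : 0 < R) {e : ℝ} (he : e ≠ 0) :
    (R * x) ^ e = R ^ e * x ^ e := by
  rcases lt_trichotomy x 0 with h | h | h
  · rw [Real.rpow_def_of_neg h, Real.rpow_def_of_neg (mul_neg_of_pos_of_neg hR h),
      Real.rpow_def_of_pos hR, Real.log_mul hR.ne' h.ne, add_mul, Real.exp_add]
    ring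
  · rw [h, mul_zero, Real.zero_rpow he, mul_zero]
  · exact Real.mul_rpow hR.le h.le

/-- Chord relation at the first point for unit vectors.  Off the axis `u = R (x ax + ω)`,
`R = 1/√(1+x²)`, `-u = R (-x ax - ω)`, `gg (-u) = -R (x + yH)` (`gd_neg`, `gg_curve`); `r1`;
`prof (pl H₁ ax ω) x = √(1+x²) H₁ u`.  On the axis: `e1` (`H₁ (-ax) = H₁ ax`). -/
theorem gg_chord (he : 1 < e) (hd : 0 < d) (hax : ‖ax‖ = 1)
    (g : GD e d H₁ H₂ ax m M X Y s YH sH) (ev₁ : ∀ u, H₁ (-u) = H₁ u) {u : E} (hu : ‖u‖ = 1) :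
    gg ax m M X Y u ^ e + gg ax m M X Y (-u) ^ e = (d * H₁ u) ^ e := by
  have he0 : e ≠ 0 := by linarith
  by_cases hx : xi ax u = 0
  · have hu1 : u = (inner ℝ ax u : ℝ) • ax := sub_eq_zero.1 hx
    generalize (inner ℝ ax u : ℝ) = c at hu1
    have hc : |c| = 1 := by
      rw [hu1, norm_smul, hax, mul_one, Real.norm_eq_abs] at hu
      exact hu
    rcases (abs_eq zero_le_one).1 hc with h | h
    · have h1 : u = (1 : ℝ) • ax := by rw [hu1, h]
      have h2 : -u = (-1 : ℝ) • ax := by rw [h1, neg_smul]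
      rw [h2, gg_axis hax, h1, gg_axis hax, if_pos zero_le_one, if_neg (by norm_num), mul_one,
        one_smul]
      have h3 : (1 - M) * -1 = M - 1 := by ring
      rw [h3]
      exact g.e1
    · have h1 : u = (-1 : ℝ) • ax := by rw [hu1, h]
      have h2 : -u = (1 : ℝ) • ax := by rw [h1, neg_smul, neg_neg]
      rw [h2, gg_axis hax, h1, gg_axis hax, if_pos zero_le_one, if_neg (by norm_num), mul_one]
      have h3 : (1 - M) * -1 = M - 1 := by ring
      have h4 : H₁ ((-1 : ℝ) • ax) = H₁ ax := by rw [neg_one_smul, ev₁]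
      rw [h3, h4, add_comm]
      exact g.e1
  · obtain ⟨ω, R, τ, hω, hR, hu1⟩ := off_axis hax g hx
    have h1 : gg ax m M X Y u = R * (X ω τ + Y ω τ) := by rw [hu1, gg_curve hax g hω hR]
    have h2 : gg ax m M X Y (-u) = R * (-(X ω τ + YH ω τ)) := by
      obtain ⟨e1, e2⟩ := gd_neg g hω τ
      have e3 : -u = R • (X (-ω) (-τ) • ax + -ω) := by
        rw [hu1, e1, ← smul_neg, neg_add, neg_smul]
      rw [e3, gg_curve hax g hω.neg hR, e1, e2]
      ring
    have hpos : 0 < X ω τ + Y ω τ := (g.cv ω hω).pos τ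
    have hneg : 0 < -(X ω τ + YH ω τ) := by
      have := (g.cv ω hω).neg τ
      linarith
    have hr := (g.cv ω hω).r1 τ
    have hRn : R * √(1 + X ω τ ^ 2) = 1 := by
      have h3 : ‖X ω τ • ax + ω‖ ^ 2 = 1 + X ω τ ^ 2 := by
        rw [norm_add_sq_real, norm_smul, hω.n1, inner_smul_left, hω.o1, hax, Real.norm_eq_abs]
        simp [sq_abs]
        ring
      have h4 : ‖X ω τ • ax + ω‖ = √(1 + X ω τ ^ 2) := by
        rw [← h3, Real.sqrt_sq (norm_nonneg _)]
      rw [hu1, norm_smul, Real.norm_eq_abs, abs_of_pos hR, h4] at hu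
      exact hu
    have hs := profa_sq (X ω τ)
    have hRe : R = 1 / √(1 + X ω τ ^ 2) := by
      rw [eq_div_iff hs.ne']
      exact hRn
    have hH : R * (d * prof (pl H₁ ax ω) (X ω τ)) = d * H₁ u := by
      have h5 : cos (π / 2 - arctan (X ω τ)) • ax + sin (π / 2 - arctan (X ω τ)) • ω = u := by
        rw [profa_cos, profa_sin, hu1, smul_add, smul_smul, hRe]
        congr 1
        rw [div_mul_eq_mul_div, one_mul]
      unfold prof pl
      rw [h5]
      calc R * (d * (√(1 + X ω τ ^ 2) * H₁ u)) = (R * √(1 + X ω τ ^ 2)) * (d * H₁ u) := by ring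
        _ = d * H₁ u := by rw [hRn, one_mul]
    rw [h1, h2, Real.mul_rpow hR.le hpos.le, Real.mul_rpow hR.le hneg.le, ← mul_add, hr,
      ← ngc_mul_rpow hR he0, hH]

end CH
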