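import Pool.Agent.H.MP_1693ff_gtC.NBodyB
import Pool.Agent.H.MP_1693ff_gtC.NGC

/-!
# Chord functions of the body
-/

namespace CH

open Real Set Filter Topology CG
open CF hiding St

variable {E : Type*} [NormedAddCommGroup E] [InnerProductSpace ℝ E]
variable {e d m M : ℝ} {H₁ H₂ : E → ℝ} {ax : E} {X Y s YH sH : E → ℝ → ℝ}

theorem nbodyc_inv {a e : ℝ} (ha : 0 < a) : (a⁻¹) ^ (-e) = a ^ e := by
  rw [Real.inv_rpow ha.le, Real.rpow_neg ha.le, inv_inv]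

theorem nbodyc_chord {K : Set E} {p u : E} {e a b : ℝ} (he : 1 < e) (ha : 0 < a) (hb : 0 < b)
    (h1 : radial K p u = a⁻¹) (h2 : radial K p (-u) = b⁻¹) :
    chord (-e) K p u = a ^ e + b ^ e := by
  unfold chord
  rw [if_neg (by linarith : ¬ (-e = 0)), h1, h2, nbodyc_inv ha, nbodyc_inv hb]

theorem nbodyc_symm {K : Set E} {p u : E} {e : ℝ} (he : 1 < e) :
    chord (-e) K p (-u) = chord (-e) K p u := by
  unfold chord
  rw [if_neg (by linarith : ¬ (-e = 0)), if_neg (by linarith : ¬ (-e = 0)), neg_neg, add_comm]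

/-- the profile at `A/B` for `A² + B² = 1`. -/
theorem nbodyc_prof {H : E → ℝ} {ax ω : E} {A B : ℝ} (hB : 0 < B) (hAB : A ^ 2 + B ^ 2 = 1) :
    prof (pl H ax ω) (A / B) = B⁻¹ * H (A • ax + B • ω) := by
  have h1 : √(1 + (A / B) ^ 2) = B⁻¹ := by
    have h2 : 1 + (A / B) ^ 2 = (B⁻¹) ^ 2 := by
      field_simp
      linarith
    rw [h2, Real.sqrt_sq (inv_pos.2 hB).le]
  unfold prof pl
  rw [profa_cos, profa_sin, h1]
  have h3 : A / B / B⁻¹ = A := by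
    field_simp
  have h4 : 1 / B⁻¹ = B := by
    field_simp
  rw [h3, h4]

/-- Chord function at `0`: `rad_zero`, `gg_chord`. -/
theorem chord_zero (he : 1 < e) (hd : 0 < d) (hax : ‖ax‖ = 1)
    (g : GD e d H₁ H₂ ax m M X Y s YH sH) (hc : ConvexOn ℝ univ (gg ax m M X Y))
    (ev₁ : ∀ u, H₁ (-u) = H₁ u) {u : E} (hu : ‖u‖ = 1) :
    chord (-e) {w | gg ax m M X Y w ≤ 1} 0 u = (d * H₁ u) ^ e := by
  have hu0 : u ≠ 0 := by
    intro h
    rw [h, norm_zero] at hu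
    exact zero_ne_one hu
  rw [← gg_chord he hd hax g ev₁ hu]
  exact nbodyc_chord he (gg_pos hax g hu0) (gg_pos hax g (neg_ne_zero.2 hu0))
    (rad_zero hax g hc hu0) (rad_zero hax g hc (neg_ne_zero.2 hu0))

/-- Chord function at `ax`.  Off the axis `u = A ax + B ω`, `B > 0`, `A² + B² = 1`; choose `τ`
with `Y ω τ = -A/B` (`GC0.cy`, `ytop`, `ybot`).  `-u = (-A) ax + B (-ω)` and
`Y (-ω) (-(τ-2)) = -YH ω (τ-2) = -Y ω τ = A/B` (`gd_neg`, `GC0.sh`), so by `rad_ax` twice the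
chord function is `B^e ((x(τ)+y(τ))^e + (-(x(τ-2)+yH(τ-2)))^e) = (B d prof (ng h₂) (-A/B))^e`
(`r2` at `τ - 2`) `= (d B prof h₂ (A/B))^e = (d H₂ u)^e` (`prof_neg`, `ng_ng`,
`h₂ = pl H₂ ax ω`; `prof h₂ (A/B) = √(1+(A/B)²) H₂ u`).  On the axis: `rad_ax_axis`, `e2`. -/
theorem chord_ax (he : 1 < e) (hd : 0 < d) (hax : ‖ax‖ = 1)
    (D : ∀ ω, Un ax ω → ∃ κ C₁ C₂, DK e d κ C₁ C₂ (pl H₁ ax ω) (pl H₂ ax ω))
    (g : GD e d H₁ H₂ ax m M X Y s YH sH) (hc : ConvexOn ℝ univ (gg ax m M X Y))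
    (ev₂ : ∀ u, H₂ (-u) = H₂ u) (pos₂ : ∀ u, ‖u‖ = 1 → 0 < H₂ u) {u : E} (hu : ‖u‖ = 1) :
    chord (-e) {w | gg ax m M X Y w ≤ 1} ax u = (d * H₂ u) ^ e := by
  by_cases h0 : xi ax u = 0
  · have hax2 : chord (-e) {w | gg ax m M X Y w ≤ 1} ax ax = (d * H₂ ax) ^ e := by
      obtain ⟨h1, h2⟩ := rad_ax_axis hax g hc
      rw [← g.e2]
      refine nbodyc_chord he ?_ ?_ h1 h2
      · rw [sub_pos]
        exact (one_lt_inv₀ g.m0).2 g.m1
      · rw [sub_pos]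
        exact inv_lt_one_of_one_lt₀ g.M1
    have h1 : u = (inner ℝ ax u : ℝ) • ax := sub_eq_zero.1 h0
    set c : ℝ := inner ℝ ax u with hcdef
    have h2 : |c| = 1 := by
      rw [h1, norm_smul, hax, mul_one] at hu
      exact hu
    rcases (abs_eq (zero_le_one' ℝ)).1 h2 with h3 | h3
    · rw [h1, h3, one_smul]
      exact hax2
    · rw [h1, h3, neg_one_smul, nbodyc_symm he, ev₂]
      exact hax2
  · have hB : 0 < ‖xi ax u‖ := norm_pos_iff.2 h0
    have hω : Un ax (‖xi ax u‖⁻¹ • xi ax u) := by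
      refine ⟨?_, ?_⟩
      · rw [norm_smul, norm_inv, norm_norm, inv_mul_cancel₀ hB.ne']
      · rw [inner_smul_right]
        unfold xi
        rw [inner_sub_right, inner_smul_right, real_inner_self_eq_norm_sq, hax]
        ring
    have hu1 : u = (inner ℝ ax u : ℝ) • ax + ‖xi ax u‖ • (‖xi ax u‖⁻¹ • xi ax u) := by
      rw [smul_smul, mul_inv_cancel₀ hB.ne', one_smul]
      unfold xi
      abel
    generalize hBd : ‖xi ax u‖ = B at hB hω hu1
    generalize hωd : B⁻¹ • xi ax u = ω at hω hu1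
    generalize hAd : (inner ℝ ax u : ℝ) = A at hu1
    have hAB : A ^ 2 + B ^ 2 = 1 := by
      have h1 : ‖u‖ ^ 2 = A ^ 2 + B ^ 2 := by
        rw [hu1, norm_add_sq_real, norm_smul, norm_smul, hax, hω.n1, inner_smul_left,
          inner_smul_right, hω.o1]
        simp
      rw [← h1, hu, one_pow]
    have C := g.cv ω hω
    obtain ⟨κ, C₁, C₂, K⟩ := D ω hω
    obtain ⟨τ, hτ⟩ : ∃ τ, Y ω τ = -(A / B) := by
      have hs : Function.Surjective (Y ω) := C.cy.surjective' C.ybot C.ytop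
      exact hs _
    have hsh : YH ω (τ - 2) = Y ω τ := by
      rw [C.sh]
      congr 1
      ring
    obtain ⟨n1, n2⟩ := gd_neg g hω (τ - 2)
    have hτ' : Y (-ω) (-(τ - 2)) = -(-A / B) := by
      rw [n2, hsh, hτ]
      ring
    have r1 := rad_ax hax g hc hω hB hτ
    have r2 := rad_ax hax g hc hω.neg hB hτ'
    have hneg : -u = (-A) • ax + B • (-ω) := by
      rw [hu1, neg_smul, smul_neg]
      abel
    have p1 : 0 < X ω τ + Y ω τ := C.pos τ
    have p2 : 0 < X (-ω) (-(τ - 2)) + Y (-ω) (-(τ - 2)) := (g.cv (-ω) hω.neg).pos _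
    have hch : chord (-e) {w | gg ax m M X Y w ≤ 1} ax u =
        (B * (X ω τ + Y ω τ)) ^ e + (B * (X (-ω) (-(τ - 2)) + Y (-ω) (-(τ - 2)))) ^ e := by
      refine nbodyc_chord he (mul_pos hB p1) (mul_pos hB p2) ?_ ?_
      · rw [hu1]
        exact r1
      · rw [hneg]
        exact r2
    have hr2 := C.r2 (τ - 2)
    have hpr : prof (ng (pl H₂ ax ω)) (-(A / B)) = B⁻¹ * H₂ u := by
      have h1 := (prof_neg K.kp K.kc (-(A / B))).1
      rw [neg_neg] at h1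
      rw [← h1, nbodyc_prof hB hAB, ← hu1]
    rw [sub_add_cancel, hsh] at hr2
    have e1 : X (-ω) (-(τ - 2)) + Y (-ω) (-(τ - 2)) = -(X ω (τ - 2) + Y ω τ) := by
      rw [n1, n2, hsh]
      ring
    rw [← e1, hτ, hpr] at hr2
    have hpos : 0 < d * (B⁻¹ * H₂ u) := mul_pos hd (mul_pos (inv_pos.2 hB) (pos₂ u hu))
    rw [hch, Real.mul_rpow hB.le p1.le, Real.mul_rpow hB.le p2.le, ← mul_add, hτ, hr2,
      ← Real.mul_rpow hB.le hpos.le]
    congr 1
    field_simp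

end CH
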