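import Pool.Agent.H.MP_1693ff_gtC.NSpace
import Pool.Agent.H.MP_1693ff_gtC.NChain3B

/-!
# The gauge function in space: existence
-/

namespace CH

open Real Set Filter Topology CG
open CF hiding St

variable {E : Type*} [NormedAddCommGroup E] [InnerProductSpace ℝ E]

theorem ng_hf_zero (H : E → ℝ) (ax ω η : E) : hf H ax ω η 0 = pl H ax ω := by
  show pl H ax (ro ω η 0) = pl H ax ω
  rw [ro_zero]

theorem ng_pl_zero (H : E → ℝ) (ax ω : E) : pl H ax ω 0 = H ax := by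
  simp [pl]

/-- the curve in one half plane -/
theorem ng_curve {e d : ℝ} {H₁ H₂ : E → ℝ} {ax ω η : E} (hF : Fm ax ω η)
    (p₁ : 0 < H₁ ax) (p₂ : 0 < H₂ ax)
    (D : ∀ ω η, Fm ax ω η → D3 e d (hf H₁ ax ω η) (hf H₂ ax ω η)) :
    ∃ (m M : ℝ) (x y s yH sH : ℝ → ℝ), 1 < e ∧ 0 < m ∧ m < 1 ∧ 1 < M ∧
      Br (ZZ e d (pl H₁ ax ω) (pl H₂ ax ω)) (ZZ e d (pl H₂ ax ω) (pl H₁ ax ω))
        (ZZ e d (ng (pl H₂ ax ω)) (ng (pl H₁ ax ω))) (ZZ e d (ng (pl H₁ ax ω)) (ng (pl H₂ ax ω)))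
        x y s yH sH ∧
      GCv e (d * H₁ ax) (d * deriv (pl H₁ ax ω) 0) (d * H₂ ax)
        (d * deriv (ng (pl H₂ ax ω)) 0) (fun x => d * prof (pl H₁ ax ω) x)
        (fun x => d * prof1 (pl H₁ ax ω) x) (fun x => d * prof (ng (pl H₂ ax ω)) x)
        (fun x => d * prof1 (ng (pl H₂ ax ω)) x) x y s yH sH ∧
      Tendsto s atTop (𝓝 m) ∧ Tendsto s atBot (𝓝 M) ∧
      (1 - m) ^ e + (M - 1) ^ e = (d * H₁ ax) ^ e ∧
      (m⁻¹ - 1) ^ e + (1 - M⁻¹) ^ e = (d * H₂ ax) ^ e := by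
  obtain ⟨κ, C₁, C₂, hD⟩ := (D ω η hF).dk
  obtain ⟨κ', C₁', C₂', hD'⟩ := (D (-ω) (-η) hF.neg).dk
  have D₁ := hD 0
  have D₂ := (hD' 0).swap
  rw [ng_hf_zero, ng_hf_zero] at D₁
  rw [hf_neg, hf_neg, ng_hf_zero, ng_hf_zero] at D₂
  obtain ⟨x, y, s, yH, sH, b, -⟩ := exists_br D₁ D₂
  have g := gc0 (half_HZ D₁) (half_HZ D₁.swap) (half_HZ D₂) (half_HZ D₂.swap) b
  have hd : 0 < d := lt_of_lt_of_le one_pos D₁.d1
  obtain ⟨a1, a2, a3, a4⟩ := prof_lim D₁.hp D₁.hc d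
  obtain ⟨b1, b2, b3, b4⟩ := prof_lim D₂.hp D₂.hc d
  have e0 : ng (pl H₂ ax ω) 0 = H₂ ax := by
    rw [show ng (pl H₂ ax ω) 0 = pl H₂ ax ω (-0) from rfl, neg_zero, ng_pl_zero]
  rw [e0] at b1 b2
  rw [ng_pl_zero] at a1 a2
  have G : GCv e (d * H₁ ax) (d * deriv (pl H₁ ax ω) 0) (d * H₂ ax)
        (d * deriv (ng (pl H₂ ax ω)) 0) (fun x => d * prof (pl H₁ ax ω) x)
        (fun x => d * prof1 (pl H₁ ax ω) x) (fun x => d * prof (ng (pl H₂ ax ω)) x)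
        (fun x => d * prof1 (ng (pl H₂ ax ω)) x) x y s yH sH :=
    { toGC0 := g, r1 := fun τ => (rel_one D₁ D₂ b τ).1, r1' := fun τ => (rel_one D₁ D₂ b τ).2,
      r2 := fun τ => (rel_two D₁ D₂ b τ).1, r2' := fun τ => (rel_two D₁ D₂ b τ).2,
      A0 := mul_pos hd p₁, A'0 := mul_pos hd p₂, φt := a1, φb := a2, φt' := a3, φb' := a4,
      ψt := b1, ψb := b2, ψt' := b3, ψb' := b4 }
  obtain ⟨m, M, F, F', C, -, -, g1, g2⟩ := curveW D₁.e1 G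
  exact ⟨m, M, x, y, s, yH, sH, D₁.e1, C.m0, C.m1, C.M1, b, G, C.sm, C.sM', g1, g2⟩

/-- A frame containing a given unit vector exists in dimension at least three: `hfr`. For each
`ω` take a frame `(ω, η)`; `D3` at `r = 0` gives `DK` for `(pl H₁ ax ω, pl H₂ ax ω)`, and for
`-ω` (swapped; `pl_neg`) `DK` for `(ng (pl H₂ ax ω), ng (pl H₁ ax ω))`.  `exists_br`, `gc0`,
`rel_one`, `rel_two` as in `exists_gcv` give the curve; `curveW` (or `slopes_top`, `slopes_bot`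
and `asyma_unique`) the limit slopes `m < 1 < M` with `e1`, `e2`, which are the same for all `ω`
by `asyma_unique` (`pl H₁ ax ω 0 = H₁ ax`; `m < 1`: `s` antitone and `o3`; `1 < M`: `o4`).
Choose the curves. -/
theorem exists_GD {e d : ℝ} {H₁ H₂ : E → ℝ} {ax : E} (hax : ‖ax‖ = 1)
    (hfr : ∀ ω, Un ax ω → ∃ η, Fm ax ω η) (hex : ∃ ω, Un ax ω) (p₁ : 0 < H₁ ax) (p₂ : 0 < H₂ ax)
    (D : ∀ ω η, Fm ax ω η → D3 e d (hf H₁ ax ω η) (hf H₂ ax ω η)) :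
    ∃ (m M : ℝ) (X Y s YH sH : E → ℝ → ℝ), GD e d H₁ H₂ ax m M X Y s YH sH := by
  have _ := hax
  have hc : ∀ ω, Un ax ω → ∃ (m M : ℝ) (x y s yH sH : ℝ → ℝ), 1 < e ∧ 0 < m ∧ m < 1 ∧ 1 < M ∧
      Br (ZZ e d (pl H₁ ax ω) (pl H₂ ax ω)) (ZZ e d (pl H₂ ax ω) (pl H₁ ax ω))
        (ZZ e d (ng (pl H₂ ax ω)) (ng (pl H₁ ax ω))) (ZZ e d (ng (pl H₁ ax ω)) (ng (pl H₂ ax ω)))
        x y s yH sH ∧
      GCv e (d * H₁ ax) (d * deriv (pl H₁ ax ω) 0) (d * H₂ ax)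
        (d * deriv (ng (pl H₂ ax ω)) 0) (fun x => d * prof (pl H₁ ax ω) x)
        (fun x => d * prof1 (pl H₁ ax ω) x) (fun x => d * prof (ng (pl H₂ ax ω)) x)
        (fun x => d * prof1 (ng (pl H₂ ax ω)) x) x y s yH sH ∧
      Tendsto s atTop (𝓝 m) ∧ Tendsto s atBot (𝓝 M) ∧
      (1 - m) ^ e + (M - 1) ^ e = (d * H₁ ax) ^ e ∧
      (m⁻¹ - 1) ^ e + (1 - M⁻¹) ^ e = (d * H₂ ax) ^ e := by
    intro ω hω
    obtain ⟨η, hη⟩ := hfr ω hω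
    exact ng_curve hη p₁ p₂ D
  choose! m M X Y s YH sH he hm0 hm1 hM1 hb hg ht1 ht2 h1 h2 using hc
  obtain ⟨ω₀, hω₀⟩ := hex
  have hu : ∀ ω, Un ax ω → m ω = m ω₀ ∧ M ω = M ω₀ := fun ω hω =>
    asyma_unique (he ω₀ hω₀) (hm0 ω hω) (hm1 ω hω) (hM1 ω hω) (hm0 ω₀ hω₀) (hm1 ω₀ hω₀)
      (hM1 ω₀ hω₀) (h1 ω hω) (h1 ω₀ hω₀) (h2 ω hω) (h2 ω₀ hω₀)
  refine ⟨m ω₀, M ω₀, X, Y, s, YH, sH, ?_⟩
  exact
    { m0 := hm0 ω₀ hω₀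
      m1 := hm1 ω₀ hω₀
      M1 := hM1 ω₀ hω₀
      br := hb
      cv := hg
      lt := fun ω hω => by
        rw [← (hu ω hω).1]
        exact ht1 ω hω
      lb := fun ω hω => by
        rw [← (hu ω hω).2]
        exact ht2 ω hω
      e1 := h1 ω₀ hω₀
      e2 := h2 ω₀ hω₀ }

end CH
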