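import Pool.Agent.H.MP_1693ff_gtC.NGloc
import Pool.Agent.H.MP_1693ff_gtC.NGlocB

/-!
# Convexity of the gauge function
-/

namespace CH

open Real Set Filter Topology CG
open CF hiding St

variable {E : Type*} [NormedAddCommGroup E] [InnerProductSpace ℝ E]
variable {e d m M : ℝ} {H₁ H₂ : E → ℝ} {ax : E} {X Y s YH sH : E → ℝ → ℝ}

theorem nglocc_xi_add (ax u v : E) : xi ax (u + v) = xi ax u + xi ax v := by
  unfold xi
  rw [inner_add_right, add_smul]
  abel

theorem nglocc_xi_smul (ax u : E) (c : ℝ) : xi ax (c • u) = c • xi ax u := by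
  unfold xi
  rw [inner_smul_right, smul_sub, smul_smul]

theorem nglocc_xi_sub (ax u v : E) : xi ax (u - v) = xi ax u - xi ax v := by
  unfold xi
  rw [inner_sub_right, sub_smul]
  abel

theorem nglocc_xi_un {ax w : E} (hw : Un ax w) : xi ax w = w := by
  unfold xi
  rw [hw.o1, zero_smul, sub_zero]

theorem nglocc_inner_xi {ax : E} (hax : ‖ax‖ = 1) (u : E) : inner ℝ ax (xi ax u) = (0 : ℝ) := by
  unfold xi
  rw [inner_sub_right, inner_smul_right, real_inner_self_eq_norm_sq, hax]
  ring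

/-- Convexity along a segment which avoids the axis: `conv1` for
`l ↦ gg ((1-l) u + l v) = gg (u + l (v - u))`. -/
theorem gg_seg (hax : ‖ax‖ = 1) (hfr : ∀ ω, Un ax ω → ∃ η, Fm ax ω η)
    (D : ∀ ω η, Fm ax ω η → D3 e d (hf H₁ ax ω η) (hf H₂ ax ω η))
    (g : GD e d H₁ H₂ ax m M X Y s YH sH) {u v : E}
    (h : ∀ l ∈ Icc (0 : ℝ) 1, xi ax (u + l • (v - u)) ≠ 0) {μ : ℝ} (hμ : μ ∈ Icc (0 : ℝ) 1) :
    gg ax m M X Y (u + μ • (v - u)) ≤ (1 - μ) * gg ax m M X Y u + μ * gg ax m M X Y v := by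
  have hsh : ∀ l x : ℝ, u + (l + x) • (v - u) = (u + l • (v - u)) + x • (v - u) := by
    intro l x
    rw [add_smul, add_assoc]
  have key := conv1 (g := fun l : ℝ => gg ax m M X Y (u + l • (v - u))) ?_ ?_ hμ
  · simp only [zero_smul, add_zero, one_smul, add_sub_cancel] at key
    exact key
  · intro l hl
    obtain ⟨h1, -⟩ := gg_loc hax hfr D g (h l hl) (v - u)
    have h2 : ContinuousAt (fun y : ℝ => y - l) l := by fun_prop
    have h3 : ContinuousAt ((fun x : ℝ => gg ax m M X Y ((u + l • (v - u)) + x • (v - u))) ∘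
        (fun y : ℝ => y - l)) l := by
      refine ContinuousAt.comp ?_ h2
      simp only [sub_self]
      exact h1
    have h4 : (fun l : ℝ => gg ax m M X Y (u + l • (v - u))) =
        ((fun x : ℝ => gg ax m M X Y ((u + l • (v - u)) + x • (v - u))) ∘
        (fun y : ℝ => y - l)) := by
      funext y
      simp only [Function.comp]
      rw [← hsh, add_sub_cancel]
    rw [h4]
    exact h3
  · intro l hl
    obtain ⟨-, p, hp⟩ := gg_loc hax hfr D g (h l hl) (v - u)
    refine ⟨p, fun ε hε => ?_⟩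
    filter_upwards [hp ε hε] with x hx
    simp only [hsh]
    exact hx

theorem nglocc_perp {ax : E} (hax : ‖ax‖ = 1) (hfr : ∀ ω, Un ax ω → ∃ η, Fm ax ω η) {p : E}
    (hp : xi ax p ≠ 0) : ∃ w, Un ax w ∧ inner ℝ (xi ax p) w = (0 : ℝ) := by
  have hn : ‖xi ax p‖ ≠ 0 := norm_ne_zero_iff.2 hp
  have hU : Un ax (‖xi ax p‖⁻¹ • xi ax p) := by
    refine ⟨?_, ?_⟩
    · rw [norm_smul, norm_inv, norm_norm, inv_mul_cancel₀ hn]
    · rw [inner_smul_right, nglocc_inner_xi hax, mul_zero]
  obtain ⟨η, hη⟩ := hfr _ hU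
  refine ⟨η, hη.h, ?_⟩
  have h1 := hη.o
  rw [real_inner_smul_left] at h1
  exact (mul_eq_zero.1 h1).resolve_left (inv_ne_zero hn)

theorem nglocc_lim (hax : ‖ax‖ = 1) (hfr : ∀ ω, Un ax ω → ∃ η, Fm ax ω η)
    (D : ∀ ω η, Fm ax ω η → D3 e d (hf H₁ ax ω η) (hf H₂ ax ω η))
    (g : GD e d H₁ H₂ ax m M X Y s YH sH) {w : E} (hw : Un ax w) (p : E) :
    Tendsto (fun l : ℝ => gg ax m M X Y (p + l • w)) (𝓝[>] 0) (𝓝 (gg ax m M X Y p)) := by
  by_cases hp : xi ax p = 0
  · have h1 : p = (inner ℝ ax p : ℝ) • ax := by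
      unfold xi at hp
      exact sub_eq_zero.1 hp
    rw [h1]
    exact gg_axis_lim hax g hw _
  · obtain ⟨h1, -⟩ := gg_loc hax hfr D g hp w
    have h2 := h1.tendsto
    simp only [zero_smul, add_zero] at h2
    exact h2.mono_left nhdsWithin_le_nhds

/-- **Convexity.**  For `u, v` the projections `xi u`, `xi v` and the segment between them: if it
avoids `0`, `gg_seg`.  Otherwise `xi u`, `xi v` are collinear (`(1-l) xi u + l xi v = 0`), so
there is a unit vector `w ⊥ ax` orthogonal to both (for `xi u = xi v = 0` any; otherwise the `η`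
of a frame `(ω, η)` with `ω` proportional to the nonzero one).  The segments from `u + l w` to
`v + l w` (`l > 0`) avoid the axis; let `l → 0+`: `gg_loc` (continuity) for points off the axis,
`gg_axis_lim` for points on the axis. -/
theorem gg_convex (hax : ‖ax‖ = 1) (hfr : ∀ ω, Un ax ω → ∃ η, Fm ax ω η) (hex : ∃ ω, Un ax ω)
    (D : ∀ ω η, Fm ax ω η → D3 e d (hf H₁ ax ω η) (hf H₂ ax ω η))
    (g : GD e d H₁ H₂ ax m M X Y s YH sH) : ConvexOn ℝ univ (gg ax m M X Y) := by
  refine ⟨convex_univ, ?_⟩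
  intro u _ v _ a b ha hb hab
  have ha' : a = 1 - b := by linarith
  have hb1 : b ∈ Icc (0 : ℝ) 1 := ⟨hb, by linarith⟩
  have hpt : a • u + b • v = u + b • (v - u) := by
    rw [ha', sub_smul, one_smul, smul_sub]
    abel
  rw [hpt, ha', smul_eq_mul, smul_eq_mul]
  by_cases h : ∀ l ∈ Icc (0 : ℝ) 1, xi ax (u + l • (v - u)) ≠ 0
  · exact gg_seg hax hfr D g h hb1
  · push Not at h
    obtain ⟨l₀, hl₀, h0⟩ := h
    have h0' : (1 - l₀) • xi ax u + l₀ • xi ax v = 0 := by
      rw [nglocc_xi_add, nglocc_xi_smul, nglocc_xi_sub] at h0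
      rw [← h0, sub_smul, one_smul, smul_sub]
      abel
    obtain ⟨w, hw, hwu, hwv⟩ : ∃ w, Un ax w ∧ inner ℝ (xi ax u) w = (0 : ℝ) ∧
        inner ℝ (xi ax v) w = (0 : ℝ) := by
      have hin : ∀ w, (1 - l₀) * inner ℝ (xi ax u) w + l₀ * inner ℝ (xi ax v) w = (0 : ℝ) := by
        intro w
        have h1 : inner ℝ ((1 - l₀) • xi ax u + l₀ • xi ax v) w = (0 : ℝ) := by
          rw [h0', inner_zero_left]
        rwa [inner_add_left, real_inner_smul_left, real_inner_smul_left] at h1
      by_cases hu : xi ax u = 0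
      · by_cases hv : xi ax v = 0
        · obtain ⟨w, hw⟩ := hex
          exact ⟨w, hw, by rw [hu, inner_zero_left], by rw [hv, inner_zero_left]⟩
        · obtain ⟨w, hw, hwv⟩ := nglocc_perp hax hfr hv
          exact ⟨w, hw, by rw [hu, inner_zero_left], hwv⟩
      · obtain ⟨w, hw, hwu⟩ := nglocc_perp hax hfr hu
        refine ⟨w, hw, hwu, ?_⟩
        have h2 := hin w
        rw [hwu, mul_zero, zero_add] at h2
        refine (mul_eq_zero.1 h2).resolve_left ?_
        intro h3
        rw [h3] at h0'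
        simp only [sub_zero, one_smul, zero_smul, add_zero] at h0'
        exact hu h0'
    have hav : ∀ l : ℝ, 0 < l → ∀ t ∈ Icc (0 : ℝ) 1,
        xi ax ((u + l • w) + t • ((v + l • w) - (u + l • w))) ≠ 0 := by
      intro l hl t _ hcon
      have h1 : (v + l • w) - (u + l • w) = v - u := by abel
      rw [h1, nglocc_xi_add, nglocc_xi_add, nglocc_xi_smul, nglocc_xi_smul, nglocc_xi_sub,
        nglocc_xi_un hw] at hcon
      have h2 : inner ℝ (xi ax u + l • w + t • (xi ax v - xi ax u)) w = (0 : ℝ) := by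
        rw [hcon, inner_zero_left]
      rw [inner_add_left, inner_add_left, real_inner_smul_left, real_inner_smul_left,
        inner_sub_left, hwu, hwv, real_inner_self_eq_norm_sq, hw.n1] at h2
      norm_num at h2
      exact hl.ne' h2
    have hin : ∀ᶠ l : ℝ in 𝓝[>] 0, gg ax m M X Y ((u + b • (v - u)) + l • w) ≤
        (1 - b) * gg ax m M X Y (u + l • w) + b * gg ax m M X Y (v + l • w) := by
      filter_upwards [self_mem_nhdsWithin] with l hl
      have h1 := gg_seg hax hfr D g (hav l hl) hb1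
      have h2 : (u + l • w) + b • ((v + l • w) - (u + l • w)) = (u + b • (v - u)) + l • w := by
        have h1 : (v + l • w) - (u + l • w) = v - u := by abel
        rw [h1]
        abel
      rwa [h2] at h1
    exact le_of_tendsto_of_tendsto (nglocc_lim hax hfr D g hw _)
      (((nglocc_lim hax hfr D g hw u).const_mul (1 - b)).add
        ((nglocc_lim hax hfr D g hw v).const_mul b)) hin

end CH
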