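import Pool.Agent.H.MP_1693ff_gtC.NBodyC
import Pool.Agent.H.MP_1693ff_gtC.NGlocC
import Pool.Agent.H.MP_1693ff_gtC.NG

/-!
# The body in space
-/

namespace CH

open Real Set Filter Topology CG
open CF hiding St

variable {E : Type*} [NormedAddCommGroup E] [InnerProductSpace ℝ E]
variable {e d m M : ℝ} {H₁ H₂ : E → ℝ} {ax : E} {X Y s YH sH : E → ℝ → ℝ}

/-- **The body.** -/
theorem exists_body [FiniteDimensional ℝ E] [Nontrivial E] (he : 1 < e) (hd : 0 < d)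
    (hax : ‖ax‖ = 1) (hfr : ∀ ω, Un ax ω → ∃ η, Fm ax ω η) (hex : ∃ ω, Un ax ω)
    (D : ∀ ω η, Fm ax ω η → D3 e d (hf H₁ ax ω η) (hf H₂ ax ω η))
    (ev₁ : ∀ u, H₁ (-u) = H₁ u) (ev₂ : ∀ u, H₂ (-u) = H₂ u)
    (pos₁ : ∀ u, ‖u‖ = 1 → 0 < H₁ u) (pos₂ : ∀ u, ‖u‖ = 1 → 0 < H₂ u) :
    ∃ K : Set E, IsBody K ∧ 0 ∈ interior K ∧ ax ∈ interior K ∧
      (∀ u, ‖u‖ = 1 → chord (-e) K 0 u = (d * H₁ u) ^ e) ∧
      ∀ u, ‖u‖ = 1 → chord (-e) K ax u = (d * H₂ u) ^ e := by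
  obtain ⟨m, M, X, Y, s, YH, sH, g⟩ := exists_GD hax hfr hex (pos₁ ax hax) (pos₂ ax hax) D
  have hc := gg_convex hax hfr hex D g
  have hb := body_sub hc (fun c h u => gg_smul hax h u) (fun u h => gg_pos hax g h)
  have h0 : gg ax m M X Y 0 < 1 := by
    have := gg_smul (m := m) (M := M) (X := X) (Y := Y) hax (le_refl (0 : ℝ)) (0 : E)
    rw [zero_smul, zero_mul] at this
    rw [this]; exact one_pos
  have h1 : gg ax m M X Y ax < 1 := by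
    have := gg_axis (m := m) (M := M) (X := X) (Y := Y) hax 1
    rw [one_smul, if_pos zero_le_one, mul_one] at this
    rw [this]; linarith [g.m0]
  refine ⟨{w | gg ax m M X Y w ≤ 1}, hb.1, hb.2 0 h0, hb.2 ax h1,
    fun u hu => chord_zero he hd hax g hc ev₁ hu, fun u hu => chord_ax he hd hax ?_ g hc ev₂ pos₂ hu⟩
  intro ω hω
  obtain ⟨η, hη⟩ := hfr ω hω
  obtain ⟨κ, C₁, C₂, H⟩ := (D ω η hη).dk
  have := H 0
  refine ⟨κ, C₁, C₂, ?_⟩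
  have e1 : ∀ H : E → ℝ, hf H ax ω η 0 = pl H ax ω := fun H => by
    funext θ; simp [hf, ro_zero]
  rw [e1, e1] at this
  exact this

end CH
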