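import Pool.Agent.H.MP_1693ff_gtC.NFar3

/-!
# The far region, transverse part: invariance
-/

namespace CH

open Real Set Filter Topology CG
open CF hiding St

theorem nfar3b_inner {a z ρ f2 far ft R₀ R₁ T₁ : ℝ} (ha : 1 ≤ a) (hR₀ : 0 < R₀) (hR₁ : R₀ ≤ R₁)
    (hT : 0 ≤ T₁) (h2 : f2 * a ^ 3 ≤ R₁) (hf : |far| * a ^ 2 ≤ R₀ / 4) (ht : ft * a ≤ T₁) :
    (f2 * z ^ 2 + 2 * far * z * ρ + ft * ρ ^ 2) * a ^ 3 ≤
      (R₁ + R₀ + T₁) * (z ^ 2 + a ^ 2 * ρ ^ 2) := by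
  have ha0 : 0 < a := by linarith
  have e1 : (f2 * z ^ 2 + 2 * far * z * ρ + ft * ρ ^ 2) * a ^ 3 =
      (f2 * a ^ 3) * z ^ 2 + 2 * ((far * a ^ 2) * (z * (a * ρ))) + (ft * a) * (a * ρ) ^ 2 := by
    ring
  have e2 : (f2 * a ^ 3) * z ^ 2 ≤ R₁ * z ^ 2 := mul_le_mul_of_nonneg_right h2 (sq_nonneg _)
  have e3 : (ft * a) * (a * ρ) ^ 2 ≤ T₁ * (a * ρ) ^ 2 :=
    mul_le_mul_of_nonneg_right ht (sq_nonneg _)
  have e4 : (far * a ^ 2) * (z * (a * ρ)) ≤ R₀ / 4 * (|z| * |a * ρ|) := by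
    refine (le_abs_self _).trans ?_
    rw [abs_mul, abs_mul, abs_of_pos (show 0 < a ^ 2 by positivity), abs_mul]
    exact mul_le_mul_of_nonneg_right hf (by positivity)
  have e5 : |z| * |a * ρ| ≤ (z ^ 2 + (a * ρ) ^ 2) / 2 := by
    have := sq_nonneg (|z| - |a * ρ|)
    have h1 := sq_abs z
    have h3 := sq_abs (a * ρ)
    nlinarith
  have e6 : R₀ / 4 * (|z| * |a * ρ|) ≤ R₀ / 4 * ((z ^ 2 + (a * ρ) ^ 2) / 2) :=
    mul_le_mul_of_nonneg_left e5 (by positivity)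
  have e7 : 0 ≤ R₀ * z ^ 2 := by positivity
  have e8 : 0 ≤ R₀ * (a * ρ) ^ 2 := by positivity
  have e9 : 0 ≤ T₁ * z ^ 2 := by positivity
  have e10 : 0 ≤ (R₁ - R₀) * (a * ρ) ^ 2 := mul_nonneg (by linarith) (sq_nonneg _)
  rw [e1]
  have e11 : a ^ 2 * ρ ^ 2 = (a * ρ) ^ 2 := by ring
  rw [e11]
  nlinarith

theorem nfar3b_mf {e d A₀ A₁ B R₀ R₁ E₁ T₁ : ℝ} {P : Pf} {G : Pt} {S : St} {T : Tt} (he : 1 < e)
    (hd : 0 < d) (hR₀ : 0 < R₀) (hR₁ : R₀ ≤ R₁) (hT : 0 ≤ T₁) (hP : PB P A₀ A₁ B R₀ R₁)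
    (hG : PB3 G E₁ R₀ T₁) (ha : 1 ≤ S.a) (hf : 0 < P.f S.a) (hW : 0 < S.W d)
    (ho : P.f S.a / 2 ≤ opp e d P S) (hb : ∀ z ρ, 0 ≤ bf S T z ρ) (z ρ : ℝ) :
    mf e d P G S T z ρ * S.a ^ 3 ≤
      2 ^ (e - 1) * (R₁ + R₀ + T₁) * (z ^ 2 + S.a ^ 2 * ρ ^ 2) := by
  have ho0 : 0 < opp e d P S := lt_of_lt_of_le (by positivity) ho
  have ha0 : 0 < S.a := by linarith
  have ha3 : 0 < S.a ^ 3 := by positivity
  have h1 := nfar3b_inner (z := z) (ρ := ρ) ha hR₀ hR₁ hT (hP.f2u _ ha) (hG.f2 _ ha) (hG.t1 _ ha)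
  have hU0 : 0 ≤ (P.f S.a / opp e d P S) ^ (e - 1) := by positivity
  have hU1 : (P.f S.a / opp e d P S) ^ (e - 1) ≤ 2 ^ (e - 1) := by
    refine rpow_le_rpow (by positivity) ?_ (by linarith)
    rw [div_le_iff₀ ho0]
    linarith
  have hV : 0 ≤ (S.W d / opp e d P S) ^ (e - 1) * (bf S T z ρ / d) * S.a ^ 3 := by
    have := hb z ρ
    positivity
  have hc : 0 ≤ cc e d P S * (dl d P S * z - dr d P G S T * ρ) ^ 2 * S.a ^ 3 := by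
    have h2 : 0 ≤ e - 1 := by linarith
    have h3 : 0 ≤ cc e d P S := by
      unfold cc
      positivity
    positivity
  have hM : 0 ≤ (R₁ + R₀ + T₁) * (z ^ 2 + S.a ^ 2 * ρ ^ 2) := by
    have : 0 ≤ R₁ + R₀ + T₁ := by linarith
    positivity
  rw [mf_eq hd, sub_mul, sub_mul, mul_assoc ((P.f S.a / opp e d P S) ^ (e - 1))]
  have h4 := mul_le_mul_of_nonneg_left h1 hU0
  have h5 := mul_le_mul_of_nonneg_right hU1 hM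
  linarith

/-- the quadratic form after the change of variables -/
theorem nfar3b_E {d κ A₀ K a a' z z' ρ : ℝ} (hd : 0 < d) (hκ : 0 < κ) (hA₀ : 0 < A₀)
    (hK : 0 ≤ K) (ha : 0 < a) (hz : |z| ≤ 2 / (d * A₀) * |z'| + K * |ρ|)
    (ha' : a ≤ 2 * a' / (d * A₀)) (hκa : κ * d ≤ a') :
    z ^ 2 + a ^ 2 * ρ ^ 2 ≤
      1 / d ^ 2 * (12 / A₀ ^ 2 + 2 * K ^ 2 / κ ^ 2) * (z' ^ 2 + a' ^ 2 * ρ ^ 2) := by
  have h1 : z ^ 2 ≤ (2 / (d * A₀) * |z'| + K * |ρ|) ^ 2 := by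
    rw [← sq_abs z]
    exact pow_le_pow_left₀ (abs_nonneg _) hz 2
  have h2 : (2 / (d * A₀) * |z'| + K * |ρ|) ^ 2 ≤
      2 * (2 / (d * A₀) * |z'|) ^ 2 + 2 * (K * |ρ|) ^ 2 := by
    have := sq_nonneg (2 / (d * A₀) * |z'| - K * |ρ|)
    nlinarith
  have h3 : 2 * (2 / (d * A₀) * |z'|) ^ 2 + 2 * (K * |ρ|) ^ 2 =
      8 / (d ^ 2 * A₀ ^ 2) * z' ^ 2 + 2 * K ^ 2 * ρ ^ 2 := by
    rw [mul_pow, mul_pow, sq_abs, sq_abs]
    field_simp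
    ring
  have h4 : a ^ 2 * ρ ^ 2 ≤ 4 / (d ^ 2 * A₀ ^ 2) * (a' ^ 2 * ρ ^ 2) := by
    have h5 : a ^ 2 ≤ (2 * a' / (d * A₀)) ^ 2 := pow_le_pow_left₀ ha.le ha' 2
    have h6 : (2 * a' / (d * A₀)) ^ 2 = 4 / (d ^ 2 * A₀ ^ 2) * a' ^ 2 := by
      field_simp
      ring
    rw [h6] at h5
    have := mul_le_mul_of_nonneg_right h5 (sq_nonneg ρ)
    linarith
  have h7 : ρ ^ 2 ≤ 1 / (κ ^ 2 * d ^ 2) * (a' ^ 2 * ρ ^ 2) := by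
    have h8 : (κ * d) ^ 2 ≤ a' ^ 2 := pow_le_pow_left₀ (by positivity) hκa 2
    have h9 : (κ * d) ^ 2 * ρ ^ 2 ≤ a' ^ 2 * ρ ^ 2 := mul_le_mul_of_nonneg_right h8 (sq_nonneg _)
    rw [div_mul_eq_mul_div, one_mul, le_div_iff₀ (by positivity)]
    linarith
  have h10 : 2 * K ^ 2 * ρ ^ 2 ≤ 2 * K ^ 2 * (1 / (κ ^ 2 * d ^ 2) * (a' ^ 2 * ρ ^ 2)) :=
    mul_le_mul_of_nonneg_left h7 (by positivity)
  have e1 : 1 / d ^ 2 * (12 / A₀ ^ 2 + 2 * K ^ 2 / κ ^ 2) * (z' ^ 2 + a' ^ 2 * ρ ^ 2) =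
      (8 / (d ^ 2 * A₀ ^ 2) * z' ^ 2 + 2 * K ^ 2 * (1 / (κ ^ 2 * d ^ 2) * (a' ^ 2 * ρ ^ 2)) +
        4 / (d ^ 2 * A₀ ^ 2) * (a' ^ 2 * ρ ^ 2)) +
      (4 / (d ^ 2 * A₀ ^ 2) * z' ^ 2 + 2 * K ^ 2 * (1 / (κ ^ 2 * d ^ 2) * z' ^ 2) +
        8 / (d ^ 2 * A₀ ^ 2) * (a' ^ 2 * ρ ^ 2)) := by
    field_simp
    ring
  have e2 : 0 ≤ 4 / (d ^ 2 * A₀ ^ 2) * z' ^ 2 + 2 * K ^ 2 * (1 / (κ ^ 2 * d ^ 2) * z' ^ 2) +
        8 / (d ^ 2 * A₀ ^ 2) * (a' ^ 2 * ρ ^ 2) := by positivity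
  rw [e1]
  linarith

/-- The transverse far region is invariant.  `σ = (1 + d opp1)⁻¹ ≤ 2/(dA₀)`,
`|og| ≤ d 2^{e-1} E₁ + C₃`, so `|κ'| ≤ 2^e E₁/A₀ + 2C₃/(dA₀) ≤ 2^e E₁/A₀ + 1 =: K₃` for large `d`.
`mf ≤ (f/o)^{e-1} (f2 z² + 2 far z ρ + ft ρ²) ≤ 2^{e-1} (R₁ + R₀ + T₁) E/a³` (`mf_eq`).
`bf' z' ρ = σ d mf z ρ`, `z = σ (z' - og ρ)`, `|z| ≤ (2/(dA₀)) |z'| + K₃ |ρ|`,
`a ≤ 2a'/(dA₀)` (`a' ≥ d o ≥ d A₀ a/2`), `1 ≤ a'/(κd)`, so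
`E = z² + a²ρ² ≤ (1/d²) (8/A₀² + 4/A₀² + 2K₃²/κ²)(z'² + a'²ρ²)`; `1/a³ ≤ (2dA₁)³/a'³`
(`a' ≤ 2dA₁a`); `σ d ≤ 2/A₀`. -/
theorem far3_next {e κ C₁ C₂ C₃ C₄ A₀ A₁ B R₀ R₁ E₁ T₁ : ℝ} (he : 1 < e) (hκ : 0 < κ)
    (hC₁ : 0 ≤ C₁) (hC₂ : 0 ≤ C₂) (hC₃ : 0 ≤ C₃) (hC₄ : 0 ≤ C₄) (hA₀ : 0 < A₀) (hA₁ : A₀ ≤ A₁)
    (hB : 0 ≤ B) (hR₀ : 0 < R₀) (hR₁ : R₀ ≤ R₁) (hE : 0 ≤ E₁) (hT : 0 ≤ T₁) : ∃ D, 1 ≤ D ∧
    ∀ P G, PB P A₀ A₁ B R₀ R₁ → PB3 G E₁ R₀ T₁ → ∀ d, D ≤ d → ∀ S T, Far d κ C₁ C₂ S →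
      Far3 d C₃ C₄ S T → Far3 d (2 ^ e * E₁ / A₀ + 1)
        (2 / A₀ * (2 ^ (e - 1) * (R₁ + R₀ + T₁)) *
          (12 / A₀ ^ 2 + 2 * (2 ^ e * E₁ / A₀ + 1) ^ 2 / κ ^ 2) * (2 * A₁) ^ 3)
        (hst e d P S) (hst3 e d P G S T) := by
  have hA1 : 0 < A₁ := lt_of_lt_of_le hA₀ hA₁
  obtain ⟨Da, hDa, ha⟩ := far_a (e := e) (κ := κ) (C₁ := C₁) (A₀ := A₀) (A₁ := A₁) (B := B)
    C₂ R₀ R₁ he hκ hA₀
  obtain ⟨Dn, hDn, hn⟩ := far_next (R₁ := R₁) he hκ hC₁ hC₂ hA₀ hA₁ hB hR₀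
  obtain ⟨Dp, hDp, hpos⟩ := far3_pos (R₁ := R₁) (T₁ := T₁) he hκ hC₁ hC₂ hC₃ hC₄ hA₀ hA₁ hB
    hR₀ hE
  refine ⟨max (max Da (max Dn Dp)) (max (2 * C₃ / A₀) (1 / A₁)),
    (hDa.trans (le_max_left _ _)).trans (le_max_left _ _), ?_⟩
  intro P G hP hG d hd S T hS hT3
  have hda : Da ≤ d := ((le_max_left _ _).trans (le_max_left _ _)).trans hd
  have hdn : Dn ≤ d :=
    (((le_max_left _ _).trans (le_max_right _ _)).trans (le_max_left _ _)).trans hd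
  have hdp : Dp ≤ d :=
    (((le_max_right _ _).trans (le_max_right _ _)).trans (le_max_left _ _)).trans hd
  have hdc : 2 * C₃ / A₀ ≤ d := ((le_max_left _ _).trans (le_max_right _ _)).trans hd
  have hdA : 1 / A₁ ≤ d := ((le_max_right _ _).trans (le_max_right _ _)).trans hd
  have hd1 : 1 ≤ d := hDa.trans hda
  have hd0 : 0 < d := by linarith
  obtain ⟨h1, h2, h3, h4, h5, h6, h7, h8, h9⟩ := ha P hP d hda S hS
  obtain ⟨-, hF, -⟩ := hn P hP d hdn S hS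
  have hmf := hpos P G hP hG d hdp S T hS hT3
  have ha0 : 0 < S.a := by linarith
  have hf := hP.fl S.a h1
  have hfu := hP.fu S.a h1
  have hf0 : 0 < P.f S.a := lt_of_lt_of_le (mul_pos hA₀ ha0) hf
  have hW0 : 0 < S.W d := lt_of_lt_of_le (by positivity) h2
  have ho1 : 0 < opp1 e d P S := lt_of_lt_of_le (by positivity) h7
  have hE0 : 0 < 1 + d * opp1 e d P S := by positivity
  have hop : 0 < opp e d P S := lt_of_lt_of_le (by positivity) h5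
  have hE2 : d * A₀ / 2 ≤ 1 + d * opp1 e d P S := by
    have e1 : d * (A₀ / 2) ≤ d * opp1 e d P S := mul_le_mul_of_nonneg_left h7 hd0.le
    linarith
  obtain ⟨σ, hσ⟩ : ∃ σ, σ = (1 + d * opp1 e d P S)⁻¹ := ⟨_, rfl⟩
  have hσ0 : 0 < σ := by
    rw [hσ]
    positivity
  have hσ1 : σ ≤ 2 / (d * A₀) := by
    rw [hσ]
    have e1 : 2 / (d * A₀) = (d * A₀ / 2)⁻¹ := by
      field_simp
    rw [e1]
    exact inv_anti₀ (by positivity) hE2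
  have hog : |og e d P G S T| ≤ d * (2 ^ (e - 1) * E₁) + C₃ := by
    unfold og
    have hU0 : 0 ≤ (P.f S.a / opp e d P S) ^ (e - 1) := by positivity
    have hU1 : (P.f S.a / opp e d P S) ^ (e - 1) ≤ 2 ^ (e - 1) := by
      refine rpow_le_rpow (by positivity) ?_ (by linarith)
      rw [div_le_iff₀ hop]
      linarith
    have hV0 : 0 ≤ (S.W d / opp e d P S) ^ (e - 1) := by positivity
    have hV1 : (S.W d / opp e d P S) ^ (e - 1) ≤ 1 :=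
      rpow_le_one (by positivity) (by rw [div_le_iff₀ hop]; linarith) (by linarith)
    refine (abs_add_le _ _).trans (add_le_add ?_ ?_)
    · rw [abs_mul, abs_of_pos hd0, abs_mul, abs_of_nonneg hU0]
      exact mul_le_mul_of_nonneg_left
        (mul_le_mul hU1 (hG.f1 _ h1) (abs_nonneg _) (by positivity)) hd0.le
    · rw [abs_mul, abs_of_nonneg hV0]
      calc (S.W d / opp e d P S) ^ (e - 1) * |T.κ| ≤ 1 * C₃ :=
            mul_le_mul hV1 hT3.κ0 (abs_nonneg _) (by norm_num)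
        _ = C₃ := one_mul _
  have hσog : σ * |og e d P G S T| ≤ 2 ^ e * E₁ / A₀ + 1 := by
    have e1 : σ * |og e d P G S T| ≤ 2 / (d * A₀) * (d * (2 ^ (e - 1) * E₁) + C₃) :=
      mul_le_mul hσ1 hog (abs_nonneg _) (by positivity)
    have e2 : (2 : ℝ) ^ e = 2 * 2 ^ (e - 1) := by
      rw [Real.rpow_sub_one (by norm_num)]
      ring
    have e3 : 2 / (d * A₀) * (d * (2 ^ (e - 1) * E₁) + C₃) =
        2 ^ e * E₁ / A₀ + 2 * C₃ / A₀ / d := by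
      rw [e2]
      field_simp
    have e4 : 2 * C₃ / A₀ / d ≤ 1 := by
      rw [div_le_one hd0]
      exact hdc
    linarith
  have hK0 : 0 ≤ 2 ^ e * E₁ / A₀ + 1 := by positivity
  obtain ⟨K, hK⟩ : ∃ K, K = 2 ^ e * E₁ / A₀ + 1 := ⟨_, rfl⟩
  rw [← hK] at hσog hK0 ⊢
  refine ⟨?_, ?_, ?_⟩
  · change |-((1 + d * opp1 e d P S)⁻¹ * og e d P G S T)| ≤ K
    rw [abs_neg, ← hσ, abs_mul, abs_of_pos hσ0]
    exact hσog
  · exact pos_step hd0 hE0 hmf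
  · intro z' ρ
    rw [bf_step, ← hσ]
    obtain ⟨z, hz⟩ : ∃ z, z = σ * (z' - og e d P G S T * ρ) := ⟨_, rfl⟩
    rw [← hz]
    have hm := nfar3b_mf he hd0 hR₀ hR₁ hT hP hG h1 hf0 hW0 h5 hT3.p0 z ρ
    have hm0 := hmf z ρ
    obtain ⟨a', ha'⟩ : ∃ a', a' = S.a + d * opp e d P S := ⟨_, rfl⟩
    have hha : (hst e d P S).a = a' := by
      rw [ha']
      rfl
    rw [hha]
    have ha'0 : κ * d ≤ a' := by
      have := hF.a0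
      rwa [hha] at this
    have ha'1 : S.a ≤ 2 * a' / (d * A₀) := by
      rw [le_div_iff₀ (by positivity), ha']
      have e1 : d * (A₀ * S.a / 2) ≤ d * opp e d P S :=
        mul_le_mul_of_nonneg_left (by linarith) hd0.le
      linarith
    have ha'2 : a' ≤ 2 * d * A₁ * S.a := by
      rw [ha']
      have e2 : d * opp e d P S ≤ d * (A₁ * S.a) :=
        mul_le_mul_of_nonneg_left (h6.trans hfu) hd0.le
      have e3 : 1 ≤ d * A₁ := by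
        rwa [div_le_iff₀ hA1] at hdA
      have e4 : 1 * S.a ≤ d * A₁ * S.a := mul_le_mul_of_nonneg_right e3 ha0.le
      linarith
    have ha'p : 0 < a' := lt_of_lt_of_le (by positivity) ha'0
    have hzz : |z| ≤ 2 / (d * A₀) * |z'| + K * |ρ| := by
      rw [hz, abs_mul, abs_of_pos hσ0]
      have e1 : |z' - og e d P G S T * ρ| ≤ |z'| + |og e d P G S T| * |ρ| := by
        refine (abs_sub _ _).trans ?_
        rw [abs_mul]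
      have e2 : σ * |z' - og e d P G S T * ρ| ≤ σ * (|z'| + |og e d P G S T| * |ρ|) :=
        mul_le_mul_of_nonneg_left e1 hσ0.le
      have e3 : σ * |z'| ≤ 2 / (d * A₀) * |z'| := mul_le_mul_of_nonneg_right hσ1 (abs_nonneg _)
      have e4 : σ * |og e d P G S T| * |ρ| ≤ K * |ρ| :=
        mul_le_mul_of_nonneg_right hσog (abs_nonneg _)
      linarith
    have hEE := nfar3b_E hd0 hκ hA₀ hK0 ha0 hzz ha'1 ha'0
    obtain ⟨N, hN⟩ : ∃ N, N = 12 / A₀ ^ 2 + 2 * K ^ 2 / κ ^ 2 := ⟨_, rfl⟩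
    rw [← hN] at hEE ⊢
    have hN0 : 0 ≤ N := by
      rw [hN]
      positivity
    obtain ⟨M, hM⟩ : ∃ M, M = 2 ^ (e - 1) * (R₁ + R₀ + T₁) := ⟨_, rfl⟩
    rw [← hM] at hm ⊢
    have hM0 : 0 ≤ M := by
      rw [hM]
      have : 0 ≤ R₁ + R₀ + T₁ := by linarith
      positivity
    have ha'3 : a' ^ 3 ≤ (2 * d * A₁ * S.a) ^ 3 := pow_le_pow_left₀ ha'p.le ha'2 3
    have hσd : σ * d ≤ 2 / A₀ := by
      have e1 := mul_le_mul_of_nonneg_right hσ1 hd0.le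
      have e2 : 2 / (d * A₀) * d = 2 / A₀ := by
        field_simp
      linarith
    have k1 : mf e d P G S T z ρ * a' ^ 3 ≤
        (2 * d * A₁) ^ 3 * (M * (1 / d ^ 2 * N * (z' ^ 2 + a' ^ 2 * ρ ^ 2))) := by
      calc mf e d P G S T z ρ * a' ^ 3 ≤ mf e d P G S T z ρ * (2 * d * A₁ * S.a) ^ 3 :=
            mul_le_mul_of_nonneg_left ha'3 hm0
        _ = (2 * d * A₁) ^ 3 * (mf e d P G S T z ρ * S.a ^ 3) := by ring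
        _ ≤ (2 * d * A₁) ^ 3 * (M * (z ^ 2 + S.a ^ 2 * ρ ^ 2)) :=
            mul_le_mul_of_nonneg_left hm (by positivity)
        _ ≤ _ := mul_le_mul_of_nonneg_left (mul_le_mul_of_nonneg_left hEE hM0) (by positivity)
    have k2 : 0 ≤ mf e d P G S T z ρ * a' ^ 3 := by positivity
    calc σ * d * mf e d P G S T z ρ * a' ^ 3 = σ * d * (mf e d P G S T z ρ * a' ^ 3) := by ring
      _ ≤ 2 / A₀ * (mf e d P G S T z ρ * a' ^ 3) := mul_le_mul_of_nonneg_right hσd k2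
      _ ≤ 2 / A₀ * ((2 * d * A₁) ^ 3 * (M * (1 / d ^ 2 * N * (z' ^ 2 + a' ^ 2 * ρ ^ 2)))) :=
          mul_le_mul_of_nonneg_left k1 (by positivity)
      _ = 2 / A₀ * M * N * (2 * A₁) ^ 3 * d * (z' ^ 2 + a' ^ 2 * ρ ^ 2) := by
          field_simp

end CH
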