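import Pool.Agent.H.MP_1693ff_gtC.NFirst3B

/-!
# The first half step, transverse part: bounds
-/

namespace CH

open Real Set Filter Topology CG
open CF hiding St

/-- The quadratic form of the profile. -/
theorem nfirst3c_form {y A B F c z ρ : ℝ} (hc : 0 < c) (y1 : 1 ≤ y) (hA : A * y ^ 3 ≤ 6 / 5 * c)
    (hB : |B| * y ^ 2 ≤ c / 2) (hF : F * y ≤ 3 / 2 * c) :
    (A * z ^ 2 + 2 * B * z * ρ + F * ρ ^ 2) * y ^ 3 ≤ 2 * c * (z ^ 2 + y ^ 2 * ρ ^ 2) := by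
  have y0 : 0 < y := by linarith
  have h1 : A * y ^ 3 * z ^ 2 ≤ 6 / 5 * c * z ^ 2 :=
    mul_le_mul_of_nonneg_right hA (sq_nonneg z)
  have h3 : F * y * (y ^ 2 * ρ ^ 2) ≤ 3 / 2 * c * (y ^ 2 * ρ ^ 2) :=
    mul_le_mul_of_nonneg_right hF (by positivity)
  have h2 : 2 * (B * y ^ 2) * (z * (y * ρ)) ≤ c / 2 * (z ^ 2 + y ^ 2 * ρ ^ 2) := by
    have h4 : 2 * |z * (y * ρ)| ≤ z ^ 2 + y ^ 2 * ρ ^ 2 := by
      rw [abs_mul]
      have h8 := sq_nonneg (|z| - |y * ρ|)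
      have e1 := sq_abs z
      have e2 := sq_abs (y * ρ)
      have e3 : (|z| - |y * ρ|) ^ 2 = |z| ^ 2 - 2 * (|z| * |y * ρ|) + |y * ρ| ^ 2 := by ring
      have e4 : (y * ρ) ^ 2 = y ^ 2 * ρ ^ 2 := by ring
      rw [e3, e1, e2, e4] at h8
      linarith
    have h5 : (B * y ^ 2) * (z * (y * ρ)) ≤ (|B| * y ^ 2) * |z * (y * ρ)| := by
      refine (le_abs_self _).trans ?_
      rw [abs_mul, abs_mul B, abs_of_pos (by positivity : (0 : ℝ) < y ^ 2)]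
    have h6 : (|B| * y ^ 2) * |z * (y * ρ)| ≤ c / 2 * |z * (y * ρ)| :=
      mul_le_mul_of_nonneg_right hB (abs_nonneg _)
    have h9 := mul_le_mul_of_nonneg_left h4 hc.le
    linarith
  have e : (A * z ^ 2 + 2 * B * z * ρ + F * ρ ^ 2) * y ^ 3 = A * y ^ 3 * z ^ 2 +
      2 * (B * y ^ 2) * (z * (y * ρ)) + F * y * (y ^ 2 * ρ ^ 2) := by ring
  rw [e]
  have h7 : 0 ≤ c * (y ^ 2 * ρ ^ 2) := by positivity
  have h8 : 0 ≤ c * z ^ 2 := by positivity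
  linarith

/-- The transverse half step for an abstract jet. -/
theorem nfirst3c_abs {e δ b C c d y : ℝ} {P : Pf} {G : Pt} {S : St} {T : Tt} (he : 1 < e)
    (hδ : 0 < δ) (hb : 0 < b) (hC : 0 ≤ C) (hc : 0 < c) (hd : 1 ≤ d) (W0 : 0 < S.W d)
    (W1 : S.W d < P.f S.a) (a0 : 0 ≤ S.a) (y1 : 1 ≤ y) (ya : S.a ≤ y)
    (f0 : 9 / 10 * c * y ≤ P.f S.a)
    (f0' : P.f S.a ≤ 11 / 10 * c * y) (ho : P.f S.a / 3 ≤ opp e d P S)
    (hW : S.W d ≤ 2 * opp e d P S) (hf2 : P.f2 S.a * y ^ 3 ≤ 6 / 5 * c)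
    (hG1 : |G.fr S.a| ≤ c) (hG2 : |G.far S.a| * y ^ 2 ≤ c / 2) (hG3 : G.ft S.a * y ≤ 3 / 2 * c)
    (hκ : |T.κ| ≤ d * ((1 + C) / b)) (hopp1 : δ < opp1 e d P S)
    (hB : ∀ z ρ, 0 ≤ bf S T z ρ) (hM : ∀ z ρ, 0 ≤ mf e d P G S T z ρ) :
    Far3 d ((3 ^ (e - 1) * c + 2 ^ (e - 1) * ((1 + C) / b)) / δ)
      (1 / δ * (1 + 11 / 10 * c) ^ 3 * (3 ^ (e - 1) * (2 * c)) * (2 * (1 / δ) ^ 2 +
        (2 * ((3 ^ (e - 1) * c + 2 ^ (e - 1) * ((1 + C) / b)) / δ) ^ 2 + 1) * (5 / c) ^ 2))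
      (hst e d P S) (hst3 e d P G S T) := by
  have he0 : 0 < e := by linarith
  have he1 : 0 < e - 1 := by linarith
  have hd0 : 0 < d := by linarith
  have y0 : 0 < y := by linarith
  have o0 : 0 < opp e d P S := opp_pos he0 W0 W1
  have ole : opp e d P S ≤ P.f S.a := opp_le he0 W0 W1
  have ff : 0 < P.f S.a := W0.trans W1
  have hG0 : 0 < opp1 e d P S := hδ.trans hopp1
  have hdG : 0 < 1 + d * opp1 e d P S := by positivity
  have hpos := pos_step (G := G) (T := T) hd0 hdG hM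
  have hmf := mf_eq (e := e) (P := P) (G := G) (S := S) (T := T) hd0
  have hcc : 0 ≤ cc e d P S := by
    unfold cc
    positivity
  have hstep := bf_step (e := e) (d := d) (P := P) (G := G) (S := S) (T := T)
  have eκ : (hst3 e d P G S T).κ = -((1 + d * opp1 e d P S)⁻¹ * og e d P G S T) := rfl
  have ea : (hst e d P S).a = S.a + d * opp e d P S := rfl
  have hog : og e d P G S T = d * ((P.f S.a / opp e d P S) ^ (e - 1) * G.fr S.a) +
    (S.W d / opp e d P S) ^ (e - 1) * T.κ := rfl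
  generalize hgo : opp e d P S = o at *
  generalize hgf : P.f S.a = f at *
  generalize hgW : S.W d = W at *
  generalize hga : S.a = a at *
  generalize hgog : og e d P G S T = O at *
  have r1 : (f / o) ^ (e - 1) ≤ 3 ^ (e - 1) := by
    refine Real.rpow_le_rpow (by positivity) ?_ he1.le
    rw [div_le_iff₀ o0]
    linarith
  have r1' : 0 ≤ (f / o) ^ (e - 1) := by positivity
  have r2 : (W / o) ^ (e - 1) ≤ 2 ^ (e - 1) := by
    refine Real.rpow_le_rpow (by positivity) ?_ he1.le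
    rw [div_le_iff₀ o0]
    linarith
  have r2' : 0 ≤ (W / o) ^ (e - 1) := by positivity
  have t3 : (0 : ℝ) < 3 ^ (e - 1) := Real.rpow_pos_of_pos (by norm_num) _
  have t2 : (0 : ℝ) < 2 ^ (e - 1) := Real.rpow_pos_of_pos (by norm_num) _
  have hCb : 0 ≤ (1 + C) / b := by positivity
  set M : ℝ := 3 ^ (e - 1) * c + 2 ^ (e - 1) * ((1 + C) / b) with hMdef
  have hM0 : 0 ≤ M := by positivity
  have hO : |O| ≤ d * M := by
    rw [hog]
    refine (abs_add_le _ _).trans ?_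
    have h1 : |d * ((f / o) ^ (e - 1) * G.fr a)| ≤ d * (3 ^ (e - 1) * c) := by
      rw [abs_mul, abs_of_pos hd0, abs_mul, abs_of_nonneg r1']
      exact mul_le_mul_of_nonneg_left (mul_le_mul r1 hG1 (abs_nonneg _) t3.le) hd0.le
    have h2 : |(W / o) ^ (e - 1) * T.κ| ≤ 2 ^ (e - 1) * (d * ((1 + C) / b)) := by
      rw [abs_mul, abs_of_nonneg r2']
      exact mul_le_mul r2 hκ (abs_nonneg _) t2.le
    have h3 : d * M = d * (3 ^ (e - 1) * c) + 2 ^ (e - 1) * (d * ((1 + C) / b)) := by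
      rw [hMdef]; ring
    linarith
  have hinv : d * (1 + d * opp1 e d P S)⁻¹ ≤ 1 / δ := by
    rw [← div_eq_mul_inv, div_le_div_iff₀ hdG hδ]
    have := mul_le_mul_of_nonneg_left hopp1.le hd0.le
    linarith
  have hi0 : 0 < (1 + d * opp1 e d P S)⁻¹ := inv_pos.2 hdG
  generalize (1 + d * opp1 e d P S)⁻¹ = σ at *
  have hδ1 : 0 < 1 / δ := by positivity
  have hσO : |σ * O| ≤ M / δ := by
    rw [abs_mul, abs_of_pos hi0]
    calc σ * |O| ≤ σ * (d * M) := mul_le_mul_of_nonneg_left hO hi0.le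
      _ = (d * σ) * M := by ring
      _ ≤ 1 / δ * M := mul_le_mul_of_nonneg_right hinv hM0
      _ = M / δ := by ring
  have hC3 : 0 ≤ M / δ := by positivity
  generalize hC3d : M / δ = C₃ at *
  refine ⟨?_, hpos, ?_⟩
  · rw [eκ, abs_neg]
    exact hσO
  · intro z ρ
    rw [hstep, ea]
    set z' : ℝ := σ * (z - O * ρ) with hz'
    have hm0 := hM z' ρ
    -- upper bound of the form
    have hm1 : mf e d P G S T z' ρ * y ^ 3 ≤
        3 ^ (e - 1) * (2 * c) * (z' ^ 2 + y ^ 2 * ρ ^ 2) := by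
      have h1 : mf e d P G S T z' ρ ≤ (f / o) ^ (e - 1) * (P.f2 a * z' ^ 2 +
          2 * G.far a * z' * ρ + G.ft a * ρ ^ 2) := by
        rw [hmf]
        have h2 : 0 ≤ (W / o) ^ (e - 1) * (bf S T z' ρ / d) :=
          mul_nonneg r2' (div_nonneg (hB _ _) hd0.le)
        have h3 : 0 ≤ cc e d P S * (dl d P S * z' - dr d P G S T * ρ) ^ 2 :=
          mul_nonneg hcc (sq_nonneg _)
        linarith
      have h4 := nfirst3c_form (z := z') (ρ := ρ) hc y1 hf2 hG2 hG3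
      calc mf e d P G S T z' ρ * y ^ 3
          ≤ (f / o) ^ (e - 1) * (P.f2 a * z' ^ 2 +
          2 * G.far a * z' * ρ + G.ft a * ρ ^ 2) * y ^ 3 :=
            mul_le_mul_of_nonneg_right h1 (by positivity)
        _ = (f / o) ^ (e - 1) * ((P.f2 a * z' ^ 2 +
          2 * G.far a * z' * ρ + G.ft a * ρ ^ 2) * y ^ 3) := by ring
        _ ≤ (f / o) ^ (e - 1) * (2 * c * (z' ^ 2 + y ^ 2 * ρ ^ 2)) :=
            mul_le_mul_of_nonneg_left h4 r1'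
        _ ≤ 3 ^ (e - 1) * (2 * c * (z' ^ 2 + y ^ 2 * ρ ^ 2)) :=
            mul_le_mul_of_nonneg_right r1 (by positivity)
        _ = 3 ^ (e - 1) * (2 * c) * (z' ^ 2 + y ^ 2 * ρ ^ 2) := by ring
    -- bounds of `a'`
    have ha1 : a + d * o ≤ d * (1 + 11 / 10 * c) * y := by
      have h3 : d * o ≤ d * (11 / 10 * c * y) :=
        mul_le_mul_of_nonneg_left (ole.trans f0') hd0.le
      have h4 : y ≤ d * y := le_mul_of_one_le_left y0.le hd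
      linarith
    have ha0 : 0 ≤ a + d * o := by positivity
    have ha2 : d * y ≤ 5 / c * (a + d * o) := by
      have h1 : c / 5 * y ≤ o := by
        have h0 : 0 ≤ c * y := by positivity
        linarith
      have h2 : d * (c / 5 * y) ≤ d * o := mul_le_mul_of_nonneg_left h1 hd0.le
      have h3 : 5 / c * (d * (c / 5 * y)) = d * y := by field_simp
      rw [← h3]
      exact mul_le_mul_of_nonneg_left (by linarith) (by positivity)
    -- the square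
    have hz2 : z' ^ 2 ≤ 2 * σ ^ 2 * z ^ 2 + 2 * C₃ ^ 2 * ρ ^ 2 := by
      have h1 : z' = σ * z - (σ * O) * ρ := by rw [hz']; ring
      have h2 : (σ * O) ^ 2 ≤ C₃ ^ 2 := by
        rw [← sq_abs (σ * O)]
        exact pow_le_pow_left₀ (abs_nonneg _) hσO 2
      have h3 := sq_nonneg (σ * z + (σ * O) * ρ)
      have h4 : (σ * O) ^ 2 * ρ ^ 2 ≤ C₃ ^ 2 * ρ ^ 2 :=
        mul_le_mul_of_nonneg_right h2 (sq_nonneg _)
      have h5 : (σ * z - σ * O * ρ) ^ 2 = 2 * σ ^ 2 * z ^ 2 + 2 * ((σ * O) ^ 2 * ρ ^ 2) -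
          (σ * z + σ * O * ρ) ^ 2 := by ring
      rw [h1, h5]
      linarith
    have hd2 : d ^ 2 * (z' ^ 2 + y ^ 2 * ρ ^ 2) ≤
        (2 * (1 / δ) ^ 2 + (2 * C₃ ^ 2 + 1) * (5 / c) ^ 2) *
          (z ^ 2 + (a + d * o) ^ 2 * ρ ^ 2) := by
      have h1 : (d * σ) ^ 2 ≤ (1 / δ) ^ 2 := pow_le_pow_left₀ (by positivity) hinv 2
      have h2 : (d * y) ^ 2 ≤ (5 / c * (a + d * o)) ^ 2 :=
        pow_le_pow_left₀ (by positivity) ha2 2
      have h3 : d ^ 2 * z' ^ 2 ≤ 2 * (d * σ) ^ 2 * z ^ 2 + 2 * C₃ ^ 2 * (d ^ 2 * ρ ^ 2) := by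
        have := mul_le_mul_of_nonneg_left hz2 (sq_nonneg d)
        linarith
      have h4 : d ^ 2 * ρ ^ 2 ≤ (d * y) ^ 2 * ρ ^ 2 := by
        refine mul_le_mul_of_nonneg_right ?_ (sq_nonneg _)
        exact pow_le_pow_left₀ hd0.le (le_mul_of_one_le_right hd0.le y1) 2
      have h5 : (d * σ) ^ 2 * z ^ 2 ≤ (1 / δ) ^ 2 * z ^ 2 :=
        mul_le_mul_of_nonneg_right h1 (sq_nonneg _)
      have h6 : (d * y) ^ 2 * ρ ^ 2 ≤ (5 / c * (a + d * o)) ^ 2 * ρ ^ 2 :=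
        mul_le_mul_of_nonneg_right h2 (sq_nonneg _)
      have h7 : 2 * C₃ ^ 2 * (d ^ 2 * ρ ^ 2) ≤ 2 * C₃ ^ 2 * ((d * y) ^ 2 * ρ ^ 2) :=
        mul_le_mul_of_nonneg_left h4 (by positivity)
      have h8 : d ^ 2 * (z' ^ 2 + y ^ 2 * ρ ^ 2) ≤
          2 * (1 / δ) ^ 2 * z ^ 2 + (2 * C₃ ^ 2 + 1) * ((d * y) ^ 2 * ρ ^ 2) := by
        have e1 : d ^ 2 * (z' ^ 2 + y ^ 2 * ρ ^ 2) = d ^ 2 * z' ^ 2 + (d * y) ^ 2 * ρ ^ 2 := by
          ring
        rw [e1]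
        linarith
      have h9 : (2 * C₃ ^ 2 + 1) * ((d * y) ^ 2 * ρ ^ 2) ≤
          (2 * C₃ ^ 2 + 1) * ((5 / c * (a + d * o)) ^ 2 * ρ ^ 2) :=
        mul_le_mul_of_nonneg_left h6 (by positivity)
      have h10 : 0 ≤ 2 * (1 / δ) ^ 2 * ((a + d * o) ^ 2 * ρ ^ 2) := by positivity
      have h11 : 0 ≤ (2 * C₃ ^ 2 + 1) * (5 / c) ^ 2 * z ^ 2 := by positivity
      have e2 : (2 * (1 / δ) ^ 2 + (2 * C₃ ^ 2 + 1) * (5 / c) ^ 2) *
          (z ^ 2 + (a + d * o) ^ 2 * ρ ^ 2) = 2 * (1 / δ) ^ 2 * z ^ 2 +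
          (2 * C₃ ^ 2 + 1) * ((5 / c * (a + d * o)) ^ 2 * ρ ^ 2) +
          2 * (1 / δ) ^ 2 * ((a + d * o) ^ 2 * ρ ^ 2) +
          (2 * C₃ ^ 2 + 1) * (5 / c) ^ 2 * z ^ 2 := by ring
      rw [e2]
      linarith
    have ha3 : (a + d * o) ^ 3 ≤ (d * (1 + 11 / 10 * c) * y) ^ 3 := pow_le_pow_left₀ ha0 ha1 3
    have hK : 0 ≤ z' ^ 2 + y ^ 2 * ρ ^ 2 := by positivity
    calc σ * d * mf e d P G S T z' ρ * (a + d * o) ^ 3
        = (d * σ) * (mf e d P G S T z' ρ * (a + d * o) ^ 3) := by ring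
      _ ≤ 1 / δ * (mf e d P G S T z' ρ * (a + d * o) ^ 3) :=
          mul_le_mul_of_nonneg_right hinv (by positivity)
      _ ≤ 1 / δ * (mf e d P G S T z' ρ * (d * (1 + 11 / 10 * c) * y) ^ 3) :=
          mul_le_mul_of_nonneg_left (mul_le_mul_of_nonneg_left ha3 hm0) hδ1.le
      _ = 1 / δ * (1 + 11 / 10 * c) ^ 3 * d ^ 3 * (mf e d P G S T z' ρ * y ^ 3) := by ring
      _ ≤ 1 / δ * (1 + 11 / 10 * c) ^ 3 * d ^ 3 *
          (3 ^ (e - 1) * (2 * c) * (z' ^ 2 + y ^ 2 * ρ ^ 2)) :=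
          mul_le_mul_of_nonneg_left hm1 (by positivity)
      _ = 1 / δ * (1 + 11 / 10 * c) ^ 3 * (3 ^ (e - 1) * (2 * c)) * d *
          (d ^ 2 * (z' ^ 2 + y ^ 2 * ρ ^ 2)) := by ring
      _ ≤ 1 / δ * (1 + 11 / 10 * c) ^ 3 * (3 ^ (e - 1) * (2 * c)) * d *
          ((2 * (1 / δ) ^ 2 + (2 * C₃ ^ 2 + 1) * (5 / c) ^ 2) *
          (z ^ 2 + (a + d * o) ^ 2 * ρ ^ 2)) :=
          mul_le_mul_of_nonneg_left hd2 (by positivity)
      _ = 1 / δ * (1 + 11 / 10 * c) ^ 3 * (3 ^ (e - 1) * (2 * c)) *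
          (2 * (1 / δ) ^ 2 + (2 * C₃ ^ 2 + 1) * (5 / c) ^ 2) * d *
          (z ^ 2 + (a + d * o) ^ 2 * ρ ^ 2) := by ring

/-- `Far3` after the first half step.  Write `f, f1, o = opp, σ = (1 + d opp1)⁻¹`, `a = X/√q`,
`u = √(1+a²)`; as in `core_far`: `o ≥ f/3`, `o ≥ (c/5)(1+a)`, `W ≤ 2 o`, `opp1 > δ`,
`σ ≤ 1/(dδ)`, `a' = a + d o ≤ (1 + 1.1c) d u`, `a' ≥ d (c/5)(1+a) ≥ d (c/5) u`.
`κ₀ = d qr/(√q L)`, `|κ₀| ≤ d √q/L ≤ d √(C(1+X))/(b(1+X)) ≤ d (1+C)/b`;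
`|og| ≤ d 3^{e-1} ε + 2^{e-1} |κ₀| ≤ d C'`, so `|κ'| = σ |og| ≤ C'/δ =: C₃`.
Upper bound: `mf z ρ ≤ (f/o)^{e-1} (f2 z² + 2 far z ρ + ft ρ²)` (`mf_eq`; the form `bf` of the
start surface is `≥ 0`, `cc ≥ 0`) `≤ 3^{e-1} 2c·2 (z² + u² ρ²)/u³` (`f2 = curv/u³`,
`|far| u² ≤ ε`, `ft u ≤ c + ε`).  By `bf_step`, `bf' z' ρ = σ d mf z ρ`, `z = σ(z' - og ρ)`,
`|z| ≤ |z'|/(dδ) + C₃ |ρ|`, `z² + u²ρ² ≤ 2 z'²/(dδ)² + (2C₃² + 1) u² ρ²
≤ (C''/d²)(z'² + a'² ρ²)` (`u ≤ 5a'/(c d)`), and `1/u³ ≤ (1+1.1c)³ d³/a'³`. Hence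
`bf' a'³ ≤ (1/δ) C d (z'² + a'²ρ²)`. -/
theorem core3_far {e δ b C c : ℝ} (he : 1 < e) (hδ : 0 < δ) (hb : 0 < b) (hC : 0 ≤ C)
    (hc : 0 < c) : ∃ C₃ C₄ D : ℝ, 0 ≤ C₃ ∧ 0 ≤ C₄ ∧ 1 ≤ D ∧
      ∀ ε h k, ε ≤ c / 16 → N3 h c ε → ∀ d, D ≤ d → ∀ r, ∀ t ∈ Icc (0 : ℝ) 1,
        Core e d δ b C (h r) (k r) (d * t) → Core3 e d h k (d * t) r →
        Far3 d C₃ C₄ (hst e d (pf (h r)) (arc e d (h r) (k r) t))
          (hst3 e d (pf (h r)) (pt h r) (arc e d (h r) (k r) t) (arc3 e d h k t r)) := by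
  have t3 : (0 : ℝ) < 3 ^ (e - 1) := Real.rpow_pos_of_pos (by norm_num) _
  have t2 : (0 : ℝ) < 2 ^ (e - 1) := Real.rpow_pos_of_pos (by norm_num) _
  refine ⟨(3 ^ (e - 1) * c + 2 ^ (e - 1) * ((1 + C) / b)) / δ,
    1 / δ * (1 + 11 / 10 * c) ^ 3 * (3 ^ (e - 1) * (2 * c)) * (2 * (1 / δ) ^ 2 +
        (2 * ((3 ^ (e - 1) * c + 2 ^ (e - 1) * ((1 + C) / b)) / δ) ^ 2 + 1) * (5 / c) ^ 2),
    1, by positivity, by positivity, le_rfl, ?_⟩
  intro ε h k hε hN d hd1 r t ht H H3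
  have hd0 : 0 < d := by linarith
  have he0 : 0 < e := by linarith
  have hh := hN.near r
  have hε' : ε ≤ c / 10 := by linarith
  have hhpos : ∀ θ, 0 < h r θ := fun θ => by
    have := hh.n0 θ
    rw [abs_le] at this
    linarith [this.1]
  have hpos := core3_pos he hd0 hb hhpos ht H H3
  obtain ⟨ht0, ht1⟩ := ht
  have hX0 : 0 ≤ d * t := mul_nonneg hd0.le ht0
  obtain ⟨q0, qu, q1, D0, D1, l0, l1, ff, hr, gg⟩ := H
  have hqr := H3.qr
  have earc : arc e d (h r) (k r) t = jet d (d * t) (aq e d (h r) (k r) (d * t))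
    (aq1 e d (h r) (k r) (d * t)) (aq2 e d (h r) (k r) (d * t)) := rfl
  have eκ : (arc3 e d h k t r).κ = d * (aqr e d h k (d * t) r /
    (√(aq e d (h r) (k r) (d * t)) * (2 * aq e d (h r) (k r) (d * t) -
      d * t * aq1 e d (h r) (k r) (d * t)))) := rfl
  rw [earc] at hpos ⊢
  generalize arc3 e d h k t r = T at *
  set X : ℝ := d * t with hXdef
  generalize aqr e d h k X r = qr at *
  clear_value X
  set q : ℝ := aq e d (h r) (k r) X with hqdef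
  set q₁ : ℝ := aq1 e d (h r) (k r) X with hq1def
  set q₂ : ℝ := aq2 e d (h r) (k r) X with hq2def
  clear_value q q₁ q₂
  have hq : 0 < q := hb.trans_le q0
  have hl : 0 < 2 * q - X * q₁ := by
    have : 0 < b * (1 + X) := by positivity
    linarith
  have hsq : 0 < √q := Real.sqrt_pos.2 hq
  have hsqq : √q ^ 2 = q := Real.sq_sqrt hq.le
  -- the function `h` at the direction
  have n0 := hh.n0 (th X q)
  have n1 := hh.n1 (th X q)
  have n2 := hh.n2 (th X q)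
  have jpr := jet_prof (h := h r) (X := X) (q := q) hq
  have hcurv : curv (h r) (th X q) = h r (th X q) + deriv (deriv (h r)) (th X q) := rfl
  set HH : ℝ := h r (th X q) with hHH
  set H₁ : ℝ := deriv (h r) (th X q) with hH₁
  rw [abs_le] at n0 n2
  have hH0 : 9 / 10 * c ≤ HH := by linarith [n0.1]
  have hH1 : HH ≤ 11 / 10 * c := by linarith [n0.2]
  have hHp : 0 < HH := by linarith
  have hR : curv (h r) (th X q) ≤ 6 / 5 * c := by rw [hcurv]; linarith [n2.2]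
  have hρ2 : 0 < X ^ 2 + q := by positivity
  have hρ : 0 < √(X ^ 2 + q) := Real.sqrt_pos.2 hρ2
  have hρsq : √(X ^ 2 + q) ^ 2 = X ^ 2 + q := Real.sq_sqrt hρ2.le
  have hqρ : √q ≤ √(X ^ 2 + q) := Real.sqrt_le_sqrt (by nlinarith [sq_nonneg X])
  have hXρ : X ≤ √(X ^ 2 + q) := Real.le_sqrt_of_sq_le (by linarith)
  have hr1 : 1 < (HH * √(X ^ 2 + q)) ^ e := by linarith
  have jW := jet_W (X := X) (q := q) (q₁ := q₁) (q₂ := q₂) hd0 hq
  obtain ⟨jo, jo'⟩ := jet_opp (e := e) (d := d) (q₁ := q₁) (q₂ := q₂) he0 hd0 hq hHp hr1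
  have jo1 := jet_opp1 (e := e) (d := d) (q₂ := q₂) he0 hd0 hq hl hHp hr1
  obtain ⟨jf, jf1, jf2⟩ := jpr
  have jy : √(1 + (X / √q) ^ 2) = √(X ^ 2 + q) / √q := gjet_sqrt hq
  have g1 := hN.b1 (X / √q) r
  have g2 := hN.b2 (X / √q) r
  have g3 := hN.b3 (X / √q) r
  have jy2 : 1 + (X / √q) ^ 2 = (√(X ^ 2 + q) / √q) ^ 2 := by
    rw [← jy, Real.sq_sqrt (by positivity)]
  rw [jy2] at g2
  rw [jy] at g3
  set S : St := jet d X q q₁ q₂ with hSdef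
  have ja : S.a = X / √q := rfl
  rw [← ja] at jf jf1 jf2 g1 g2 g3
  set ρ : ℝ := √(X ^ 2 + q) with hρdef
  clear_value ρ
  have hW0 : 0 < S.W d := by rw [jW]; positivity
  set E : ℝ := (HH * ρ) ^ e with hEdef
  have hHρ : 0 < HH * ρ := by positivity
  have hEroot : E ^ e⁻¹ = HH * ρ := by
    rw [hEdef, Real.rpow_rpow_inv hHρ.le he0.ne']
  have hei : 0 ≤ e⁻¹ := by positivity
  have hei1 : e⁻¹ ≤ 1 := inv_le_one_of_one_le₀ he.le
  have hE0 : 0 < E := by positivity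
  refine nfirst3c_abs (y := ρ / √q) he hδ hb hC hc hd1 hW0 jo' ?_ ?_ ?_ ?_ ?_ ?_ ?_ ?_ ?_ ?_
    ?_ ?_ ?_ (fun z ρ => (hpos z ρ).1) (fun z ρ => (hpos z ρ).2)
  · rw [ja]; positivity
  · rw [le_div_iff₀ hsq, one_mul]
    exact hqρ
  · rw [ja]
    exact div_le_div_of_nonneg_right hXρ hsq.le
  · rw [jf, mul_div_assoc]
    exact mul_le_mul_of_nonneg_right hH0 (by positivity)
  · rw [jf, mul_div_assoc]
    exact mul_le_mul_of_nonneg_right hH1 (by positivity)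
  · -- `f/3 ≤ opp`
    rw [jo, jf, div_right_comm]
    refine div_le_div_of_nonneg_right ?_ hsq.le
    have h1 : (1 / 3 * E) ^ e⁻¹ ≤ (E - 1) ^ e⁻¹ :=
      Real.rpow_le_rpow (by positivity) (by linarith) hei
    have h2 : (1 / 3 * E) ^ e⁻¹ = (1 / 3) ^ e⁻¹ * (HH * ρ) := by
      rw [Real.mul_rpow (by norm_num) hE0.le, hEroot]
    have h3 : (1 / 3 : ℝ) ≤ (1 / 3) ^ e⁻¹ := by
      have := Real.rpow_le_rpow_of_exponent_ge (show (0 : ℝ) < 1 / 3 by norm_num)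
        (by norm_num) hei1
      rwa [Real.rpow_one] at this
    rw [h2] at h1
    have h4 : 1 / 3 * (HH * ρ) ≤ (1 / 3) ^ e⁻¹ * (HH * ρ) :=
      mul_le_mul_of_nonneg_right h3 hHρ.le
    linarith
  · -- `W ≤ 2 opp`
    rw [jo, jW, inv_eq_one_div, ← mul_div_assoc]
    refine div_le_div_of_nonneg_right ?_ hsq.le
    have h1 : (1 / 2 : ℝ) ^ e⁻¹ ≤ (E - 1) ^ e⁻¹ :=
      Real.rpow_le_rpow (by norm_num) (by linarith) hei
    have h3 : (1 / 2 : ℝ) ≤ (1 / 2) ^ e⁻¹ := by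
      have := Real.rpow_le_rpow_of_exponent_ge (show (0 : ℝ) < 1 / 2 by norm_num)
        (by norm_num) hei1
      rwa [Real.rpow_one] at this
    linarith
  · -- `f2 y³`
    rw [jf2]
    have h1 : curv (h r) (th X q) * √q ^ 3 / ρ ^ 3 * (ρ / √q) ^ 3 = curv (h r) (th X q) := by
      field_simp
    rw [h1]
    exact hR
  · linarith
  · linarith
  · rw [abs_le] at g3
    linarith [g3.2]
  · -- `κ`
    rw [eκ, abs_mul, abs_of_pos hd0]
    refine mul_le_mul_of_nonneg_left ?_ hd0.le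
    rw [abs_div, abs_of_pos (mul_pos hsq hl)]
    have hb1 : 0 < b * (1 + X) := by positivity
    have h1 : √q ≤ (1 + C) * (1 + X) := by
      have h2 : √q ≤ 1 + q := by
        have h3 := sq_nonneg (√q - 1)
        have h4 : (√q - 1) ^ 2 = √q ^ 2 - 2 * √q + 1 := by ring
        rw [h4, hsqq] at h3
        linarith
      have h5 : (1 + C) * (1 + X) = 1 + X + C * (1 + X) := by ring
      rw [h5]
      linarith
    calc |qr| / (√q * (2 * q - X * q₁)) ≤ √q ^ 2 / (√q * (2 * q - X * q₁)) := by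
          refine div_le_div_of_nonneg_right ?_ (by positivity)
          rw [hsqq]
          exact hqr
      _ = √q / (2 * q - X * q₁) := by field_simp
      _ ≤ ((1 + C) * (1 + X)) / (b * (1 + X)) :=
          div_le_div₀ (by positivity) h1 hb1 l0
      _ = (1 + C) / b := by field_simp
  · rw [jo1]; exact gg

end CH
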