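import Pool.Agent.H.MP_1693ff_gtC.NFirst3
import Pool.Agent.H.MP_1693ff_gtC.NFirst3C
import Pool.Agent.H.MP_1693ff_gtC.NFar3B
import Pool.Agent.H.MP_1693ff_gtB.GExist
import Pool.Agent.H.MP_1693ff_gtB.GPiece

/-!
# Positivity along the chains
-/

namespace CH

open Real Set Filter Topology CG
open CF hiding St

/-- One chain.  Constants: `first_core` gives `δ, b, C` (for `c, c'`), `core_far` for these
`κ, C₁, C₂`, `core3_far` gives `C₃, C₄`; common profile constants `A₀ = min(c,c')/4`,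
`A₁ = B = R₁ = T₁ = 2 max(c,c')`, `R₀ = min(c,c')/4`, `E₁ = max(c,c')` (`near_pb`, `PB.mono`,
`n3_pb3`, `PB3.mono`); enlarge `C₁, C₂` by the constants of `far_next` and `C₃, C₄` by those of
`far3_next` (`Far.mono`, `Far3.mono`); `D` large, `ε` small.  Induction on `n ≥ 1`: `Far` and
`Far3` at `n` (`far_next`, `far3_next`), positivity: `core3_pos` for `n = 0`, `Far3.p0` for
`n ≥ 1` (which for `n = 1` comes from `core3_far`). -/
theorem chain3_pos {e c c' : ℝ} (he : 1 < e) (hc : 0 < c) (hc' : 0 < c') :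
    ∃ ε D : ℝ, 0 < ε ∧ 1 ≤ D ∧ ∀ h k, N3 h c ε → N3 k c' ε → ∀ d, D ≤ d →
      ∀ r, ∀ t ∈ Icc (0 : ℝ) 1, ∀ (n : ℕ) (z ρ : ℝ),
        0 ≤ bf (chain e d (h r) (k r) n t) (chain3 e d h k n t r) z ρ := by
  obtain ⟨ε, δ, b, C, D₀, hε, hε1, hε2, hδ, hb, hC, hD₀, H₀⟩ := first_core he hc hc'
  obtain ⟨ε', D₁, hε', hD₁, H₁⟩ := core3 he hc hc'
  obtain ⟨κ, C₁a, C₂a, C₃', Da, hκ, hC₁a, hC₂a, hC₃', hDa, Ha⟩ := core_far he hδ hb hC hc
  obtain ⟨C₃a, C₄a, De, hC₃a, hC₄a, hDe, He⟩ := core3_far he hδ hb hC hc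
  have hm : 0 < min c c' := lt_min hc hc'
  have hmM : min c c' ≤ max c c' := (min_le_left _ _).trans (le_max_left _ _)
  have hM : 0 < max c c' := lt_of_lt_of_le hm hmM
  have c1 : c ≤ max c c' := le_max_left _ _
  have c2 : min c c' ≤ c := min_le_left _ _
  have c3 : c' ≤ max c c' := le_max_right _ _
  have c4 : min c c' ≤ c' := min_le_right _ _
  have hA₀ : 0 < min c c' / 4 := by positivity
  have hA₁ : min c c' / 4 ≤ 2 * max c c' := by linarith
  obtain ⟨C₁, hC₁1, hC₁2⟩ : ∃ C₁, C₁a ≤ C₁ ∧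
      2 * (2 ^ (e - 1) * (2 * max c c') + 1) / (min c c' / 4) ≤ C₁ :=
    ⟨max _ _, le_max_left _ _, le_max_right _ _⟩
  obtain ⟨C₂, hC₂1, hC₂2⟩ : ∃ C₂, C₂a ≤ C₂ ∧ 2 ^ (e - 1) * (2 * max c c') *
      (4 * (2 * max c c') / (min c c' / 4)) ^ 3 ≤ C₂ :=
    ⟨max _ _, le_max_left _ _, le_max_right _ _⟩
  obtain ⟨C₃, hC₃1, hC₃2⟩ : ∃ C₃, C₃a ≤ C₃ ∧
      2 ^ e * (max c c') / (min c c' / 4) + 1 ≤ C₃ :=
    ⟨max _ _, le_max_left _ _, le_max_right _ _⟩
  obtain ⟨C₄, hC₄1, hC₄2⟩ : ∃ C₄, C₄a ≤ C₄ ∧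
      (2 / (min c c' / 4) * (2 ^ (e - 1) * (2 * max c c' + min c c' / 4 + 2 * max c c')) *
          (12 / (min c c' / 4) ^ 2 +
            2 * (2 ^ e * (max c c') / (min c c' / 4) + 1) ^ 2 / κ ^ 2) *
          (2 * (2 * max c c')) ^ 3) ≤ C₄ :=
    ⟨max _ _, le_max_left _ _, le_max_right _ _⟩
  obtain ⟨Db, hDb, Hb⟩ := far_next (C₁ := C₁) (C₂ := C₂) (R₁ := 2 * max c c') he hκ
    (hC₁a.trans hC₁1) (hC₂a.trans hC₂1) hA₀ hA₁ (by positivity : (0 : ℝ) ≤ 2 * max c c') hA₀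
  obtain ⟨Df, hDf, Hf⟩ := far3_next (C₁ := C₁) (C₂ := C₂) (C₃ := C₃) (C₄ := C₄)
    (A₁ := 2 * max c c') (B := 2 * max c c') (R₁ := 2 * max c c') (E₁ := max c c')
    (T₁ := 2 * max c c') he hκ (hC₁a.trans hC₁1) (hC₂a.trans hC₂1) (hC₃a.trans hC₃1)
    (hC₄a.trans hC₄1) hA₀ hA₁ (by positivity) hA₀ (by linarith) hM.le (by positivity)
  refine ⟨min (min ε ε') (min c c' / 16), max (max (max D₀ D₁) (max Da De)) (max Db Df),
    lt_min (lt_min hε hε') (by positivity),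
    ((hD₀.trans (le_max_left _ _)).trans (le_max_left _ _)).trans (le_max_left _ _),
    fun h k hh hk d hd r t ht => ?_⟩
  have hd0 : D₀ ≤ d :=
    (((le_max_left _ _).trans (le_max_left _ _)).trans (le_max_left _ _)).trans hd
  have hd1 : D₁ ≤ d :=
    (((le_max_right _ _).trans (le_max_left _ _)).trans (le_max_left _ _)).trans hd
  have hda : Da ≤ d :=
    (((le_max_left _ _).trans (le_max_right _ _)).trans (le_max_left _ _)).trans hd
  have hde : De ≤ d :=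
    (((le_max_right _ _).trans (le_max_right _ _)).trans (le_max_left _ _)).trans hd
  have hdb : Db ≤ d := ((le_max_left _ _).trans (le_max_right _ _)).trans hd
  have hdf : Df ≤ d := ((le_max_right _ _).trans (le_max_right _ _)).trans hd
  have hdo : 1 ≤ d := hD₀.trans hd0
  have hdp : 0 < d := by linarith
  have e1 : min (min ε ε') (min c c' / 16) ≤ ε := (min_le_left _ _).trans (min_le_left _ _)
  have e2 : min (min ε ε') (min c c' / 16) ≤ ε' := (min_le_left _ _).trans (min_le_right _ _)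
  have e3 : min (min ε ε') (min c c' / 16) ≤ min c c' / 16 := min_le_right _ _
  generalize min (min ε ε') (min c c' / 16) = η at hh hk e1 e2 e3
  obtain ⟨a1, a2, a3, a4, K⟩ := H₀ (h r) (k r) ((hh.near r).mono e1) ((hk.near r).mono e1)
  have hX : d * t ∈ Icc 0 d := ⟨mul_nonneg hdp.le ht.1, by nlinarith [ht.2]⟩
  have K0 := K d hd0 (d * t) hX
  have K3 := H₁ h k (hh.mono e2) (hk.mono e2) d hd1 r (d * t) hX
  have Pn : ∀ n : ℕ, PB (if Even n then pf (h r) else pf (k r)) (min c c' / 4) (2 * max c c')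
      (2 * max c c') (min c c' / 4) (2 * max c c') := by
    intro n
    split_ifs
    · exact (near_pb hc (by linarith) (hh.near r)).mono hA₀ (by linarith) (by linarith)
        (by linarith) hA₀ (by linarith) (by linarith)
    · exact (near_pb hc' (by linarith) (hk.near r)).mono hA₀ (by linarith) (by linarith)
        (by linarith) hA₀ (by linarith) (by linarith)
  have Gn : ∀ n : ℕ, PB3 (if Even n then pt h r else pt k r) (max c c') (min c c' / 4)
      (2 * max c c') := by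
    intro n
    split_ifs
    · exact (n3_pb3 hc hA₀ (by linarith) (by linarith) hh r).mono c1 (by linarith)
    · exact (n3_pb3 hc' hA₀ (by linarith) (by linarith) hk r).mono c3 (by linarith)
  have hfar : ∀ n : ℕ, 1 ≤ n → Far d κ C₁ C₂ (chain e d (h r) (k r) n t) ∧
      Far3 d C₃ C₄ (chain e d (h r) (k r) n t) (chain3 e d h k n t r) := by
    intro n hn
    induction n, hn using Nat.le_induction with
    | base =>
      obtain ⟨f1, f2, f3⟩ := Ha η (h r) (k r) (by linarith) (hh.near r) d hda t ht K0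
      have f4 := He η h k (by linarith) hh d hde r t ht K0 K3
      exact ⟨f1.mono hdp.le le_rfl hC₁1 hC₂1, f4.mono hdp.le hC₃1 hC₄1⟩
    | succ n hn ih =>
      obtain ⟨f1, f2, f3⟩ := Hb _ (Pn n) d hdb _ ih.1
      have f4 := Hf _ _ (Pn n) (Gn n) d hdf _ _ ih.1 ih.2
      exact ⟨f2.mono hdp.le le_rfl hC₁2 hC₂2, f4.mono hdp.le hC₃2 hC₄2⟩
  intro n z ρ
  rcases n with _ | n
  · have hpos : ∀ θ, 0 < h r θ := by
      intro θ
      have := (abs_le.1 ((hh.near r).n0 θ)).1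
      linarith
    exact (core3_pos he hdp hb hpos ht K0 K3 z ρ).1
  · exact (hfar (n + 1) (by omega)).2.p0 z ρ

end CH
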