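import Pool.Agent.H.MP_1693ff_gtC.NProf
import Pool.Agent.H.MP_1693ff_gtB.GPar

/-!
# The coefficients of the start surface
-/

namespace CH

open Real Set Filter Topology CG
open CF hiding St

/-- Functions with bounds of the value and of the first two derivatives. -/
structure ncoef_B (f : ℝ → ℝ) (M η : ℝ) : Prop where
  c : ContDiff ℝ 2 f
  m : ∀ r, |f r| ≤ M
  d1 : ∀ r, |deriv f r| ≤ η
  d2 : ∀ r, |deriv (deriv f) r| ≤ η

theorem ncoef_dd {f : ℝ → ℝ} (h : ContDiff ℝ 2 f) (r : ℝ) :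
    HasDerivAt f (deriv f r) r ∧ HasDerivAt (deriv f) (deriv (deriv f) r) r := by
  have h2 := h
  rw [show (2 : WithTop ℕ∞) = 1 + 1 by norm_num, contDiff_succ_iff_deriv] at h2
  exact ⟨(h2.1 r).hasDerivAt, ((h2.2.2.differentiable one_ne_zero) r).hasDerivAt⟩

theorem ncoef_mk {f f1 f2 : ℝ → ℝ} {M η : ℝ} (hc : ContDiff ℝ 2 f)
    (h1 : ∀ r, HasDerivAt f (f1 r) r) (h2 : ∀ r, HasDerivAt f1 (f2 r) r)
    (b0 : ∀ r, |f r| ≤ M) (b1 : ∀ r, |f1 r| ≤ η) (b2 : ∀ r, |f2 r| ≤ η) : ncoef_B f M η := by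
  have e1 : deriv f = f1 := funext fun r => (h1 r).deriv
  have e2 : deriv f1 = f2 := funext fun r => (h2 r).deriv
  refine ⟨hc, b0, ?_, ?_⟩
  · rw [e1]
    exact b1
  · rw [e1, e2]
    exact b2

theorem ncoef_mul {f g : ℝ → ℝ} {M η N θ : ℝ} (Hf : ncoef_B f M η) (Hg : ncoef_B g N θ) :
    ncoef_B (fun r => f r * g r) (M * N) (η * N + 2 * (η * θ) + M * θ) := by
  have hM : 0 ≤ M := (abs_nonneg _).trans (Hf.m 0)
  have hη : 0 ≤ η := (abs_nonneg _).trans (Hf.d1 0)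
  have hθ : 0 ≤ θ := (abs_nonneg _).trans (Hg.d1 0)
  have h1 : ∀ r, HasDerivAt (fun r => f r * g r) (deriv f r * g r + f r * deriv g r) r :=
    fun r => (ncoef_dd Hf.c r).1.mul (ncoef_dd Hg.c r).1
  have h2 : ∀ r, HasDerivAt (fun r => deriv f r * g r + f r * deriv g r)
      ((deriv (deriv f) r * g r + deriv f r * deriv g r) +
        (deriv f r * deriv g r + f r * deriv (deriv g) r)) r := fun r =>
    ((ncoef_dd Hf.c r).2.mul (ncoef_dd Hg.c r).1).add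
      ((ncoef_dd Hf.c r).1.mul (ncoef_dd Hg.c r).2)
  have hmul : ∀ {a b A B : ℝ}, |a| ≤ A → |b| ≤ B → 0 ≤ A → |a * b| ≤ A * B := by
    intro a b A B ha hb hA
    rw [abs_mul]
    exact mul_le_mul ha hb (abs_nonneg _) hA
  refine ncoef_mk (Hf.c.mul Hg.c) h1 h2 (fun r => hmul (Hf.m r) (Hg.m r) hM) (fun r => ?_)
    fun r => ?_
  · have e1 := hmul (Hf.d1 r) (Hg.m r) hη
    have e2 := hmul (Hf.m r) (Hg.d1 r) hM
    have e3 : 0 ≤ η * θ := mul_nonneg hη hθ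
    refine (abs_add_le _ _).trans ?_
    linarith
  · have e1 := hmul (Hf.d2 r) (Hg.m r) hη
    have e2 := hmul (Hf.d1 r) (Hg.d1 r) hη
    have e3 := hmul (Hf.m r) (Hg.d2 r) hM
    refine (abs_add_le _ _).trans ?_
    have e4 := abs_add_le (deriv (deriv f) r * g r) (deriv f r * deriv g r)
    have e5 := abs_add_le (deriv f r * deriv g r) (f r * deriv (deriv g) r)
    linarith

theorem ncoef_cmul {f : ℝ → ℝ} {M η a : ℝ} (ha : 0 ≤ a) (Hf : ncoef_B f M η) :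
    ncoef_B (fun r => a * f r) (a * M) (a * η) := by
  have h1 : ∀ r, HasDerivAt (fun r => a * f r) (a * deriv f r) r :=
    fun r => (ncoef_dd Hf.c r).1.const_mul a
  have h2 : ∀ r, HasDerivAt (fun r => a * deriv f r) (a * deriv (deriv f) r) r :=
    fun r => (ncoef_dd Hf.c r).2.const_mul a
  have hb : ∀ {x y : ℝ}, |x| ≤ y → |a * x| ≤ a * y := by
    intro x y h
    rw [abs_mul, abs_of_nonneg ha]
    exact mul_le_mul_of_nonneg_left h ha
  exact ncoef_mk (contDiff_const.mul Hf.c) h1 h2 (fun r => hb (Hf.m r)) (fun r => hb (Hf.d1 r))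
    fun r => hb (Hf.d2 r)

theorem ncoef_add {f g : ℝ → ℝ} {M η N θ : ℝ} (Hf : ncoef_B f M η) (Hg : ncoef_B g N θ) :
    ncoef_B (fun r => f r + g r) (M + N) (η + θ) := by
  have h1 : ∀ r, HasDerivAt (fun r => f r + g r) (deriv f r + deriv g r) r :=
    fun r => (ncoef_dd Hf.c r).1.add (ncoef_dd Hg.c r).1
  have h2 : ∀ r, HasDerivAt (fun r => deriv f r + deriv g r)
      (deriv (deriv f) r + deriv (deriv g) r) r :=
    fun r => (ncoef_dd Hf.c r).2.add (ncoef_dd Hg.c r).2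
  exact ncoef_mk (Hf.c.add Hg.c) h1 h2
    (fun r => (abs_add_le _ _).trans (add_le_add (Hf.m r) (Hg.m r)))
    (fun r => (abs_add_le _ _).trans (add_le_add (Hf.d1 r) (Hg.d1 r)))
    fun r => (abs_add_le _ _).trans (add_le_add (Hf.d2 r) (Hg.d2 r))

theorem ncoef_neg {f : ℝ → ℝ} {M η : ℝ} (Hf : ncoef_B f M η) :
    ncoef_B (fun r => -f r) M η := by
  have h1 : ∀ r, HasDerivAt (fun r => -f r) (-deriv f r) r :=
    fun r => (ncoef_dd Hf.c r).1.neg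
  have h2 : ∀ r, HasDerivAt (fun r => -deriv f r) (-deriv (deriv f) r) r :=
    fun r => (ncoef_dd Hf.c r).2.neg
  exact ncoef_mk Hf.c.neg h1 h2 (fun r => by rw [abs_neg]; exact Hf.m r)
    (fun r => by rw [abs_neg]; exact Hf.d1 r) fun r => by rw [abs_neg]; exact Hf.d2 r

theorem ncoef_mono {f : ℝ → ℝ} {M η M' η' : ℝ} (Hf : ncoef_B f M η) (hM : M ≤ M')
    (hη : η ≤ η') : ncoef_B f M' η' :=
  ⟨Hf.c, fun r => (Hf.m r).trans hM, fun r => (Hf.d1 r).trans hη, fun r => (Hf.d2 r).trans hη⟩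

theorem ncoef_inv {φ : ℝ → ℝ} {U ε : ℝ} (hc : ContDiff ℝ 2 φ) (hpos : ∀ r, 0 < φ r)
    (hU : ∀ r, (φ r)⁻¹ ≤ U) (hε : ε ≤ 1) (h1 : ∀ r, |deriv φ r| ≤ ε)
    (h2 : ∀ r, |deriv (deriv φ) r| ≤ 2 * ε) :
    ncoef_B (fun r => (φ r)⁻¹) U (ε * (2 * U ^ 2 + 2 * U ^ 3)) := by
  have hε0 : 0 ≤ ε := (abs_nonneg _).trans (h1 0)
  have hU0 : 0 ≤ U := (inv_pos.2 (hpos 0)).le.trans (hU 0)
  have hab : ∀ r, |(φ r)⁻¹| ≤ U := fun r => by
    rw [abs_of_pos (inv_pos.2 (hpos r))]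
    exact hU r
  have d1 : ∀ r, HasDerivAt (fun r => (φ r)⁻¹) (-deriv φ r * (φ r)⁻¹ ^ 2) r := by
    intro r
    have h := (ncoef_dd hc r).1.inv (hpos r).ne'
    have h3 : -deriv φ r * (φ r)⁻¹ ^ 2 = -deriv φ r / φ r ^ 2 := by
      rw [div_eq_mul_inv, inv_pow]
    rw [h3]
    exact h
  have d2 : ∀ r, HasDerivAt (fun r => -deriv φ r * (φ r)⁻¹ ^ 2)
      (-deriv (deriv φ) r * (φ r)⁻¹ ^ 2 +
        -deriv φ r * (2 * (φ r)⁻¹ * (-deriv φ r * (φ r)⁻¹ ^ 2))) r := by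
    intro r
    have h3 := (d1 r).pow 2
    have h4 := (ncoef_dd hc r).2.neg.mul h3
    refine HasDerivAt.congr_deriv h4 ?_
    simp
  have hu2 : ∀ r, |(φ r)⁻¹ ^ 2| ≤ U ^ 2 := fun r => by
    rw [abs_pow]
    exact pow_le_pow_left₀ (abs_nonneg _) (hab r) 2
  have hmul : ∀ {a b A B : ℝ}, |a| ≤ A → |b| ≤ B → 0 ≤ A → |a * b| ≤ A * B := by
    intro a b A B ha hb hA
    rw [abs_mul]
    exact mul_le_mul ha hb (abs_nonneg _) hA
  have hU2 : 0 ≤ U ^ 2 := by positivity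
  have hU3 : 0 ≤ U ^ 3 := by positivity
  refine ncoef_mk (hc.inv fun r => (hpos r).ne') d1 d2 hab (fun r => ?_) fun r => ?_
  · have e1 := hmul (a := -deriv φ r) (by rw [abs_neg]; exact h1 r) (hu2 r) hε0
    refine e1.trans (mul_le_mul_of_nonneg_left ?_ hε0)
    linarith
  · have e1 := hmul (a := -deriv (deriv φ) r) (A := 2 * ε) (by rw [abs_neg]; exact h2 r) (hu2 r)
      (by linarith)
    have e2 := hmul (a := -deriv φ r) (by rw [abs_neg]; exact h1 r) (hu2 r) hε0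
    have e3 : |2 * (φ r)⁻¹| ≤ 2 * U := by
      rw [abs_mul, abs_two]
      exact mul_le_mul_of_nonneg_left (hab r) zero_le_two
    have e4 := hmul e3 e2 (by linarith)
    have e5 := hmul (a := -deriv φ r) (by rw [abs_neg]; exact h1 r) e4 hε0
    refine (abs_add_le _ _).trans ((add_le_add e1 e5).trans ?_)
    have e6 : ε * (2 * U * (ε * U ^ 2)) ≤ ε * (2 * U ^ 3) := by
      refine mul_le_mul_of_nonneg_left ?_ hε0
      have e7 : ε * U ^ 3 ≤ 1 * U ^ 3 := mul_le_mul_of_nonneg_right hε hU3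
      calc 2 * U * (ε * U ^ 2) = 2 * (ε * U ^ 3) := by ring
        _ ≤ 2 * U ^ 3 := by linarith
    calc 2 * ε * U ^ 2 + ε * (2 * U * (ε * U ^ 2)) ≤ 2 * ε * U ^ 2 + ε * (2 * U ^ 3) := by
          linarith
      _ = ε * (2 * U ^ 2 + 2 * U ^ 3) := by ring

/-- `φ(r) = prof (h r) 0 = h r (π/2)`, `ψ(r) = prof1 (h r) 0 = -(h r)'(π/2)`, both `C²`;
`bb e (h r)² = (2^{1/e}/φ)²`, `al e (h r) = 2 (2^{1/e}/φ) (1/√e - ψ/φ)`,
`al e (ng (h r)) = 2 (2^{1/e}/φ) (1/√e + ψ/φ)` (`al_ng`).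
`φ ∈ [0.9 c, 1.1 c]`, `|ψ| ≤ ε`, `|φ'| = |fr 0| ≤ ε`, `φ'' = ft 0 - φ`, so `|φ''| ≤ 2ε`;
`ψ' = far 0`, `|ψ'| ≤ ε`, `|ψ''| ≤ ε`. So all derivatives of the coefficients are `≤ K ε`. -/
theorem co_near {e c δ : ℝ} (he : 1 < e) (hc : 0 < c) (hδ : 0 < δ) : ∃ ε > 0, ε ≤ c / 16 ∧
    ∀ h, N3 h c ε → CoD e h δ := by
  obtain ⟨A, hA⟩ : ∃ A : ℝ, A = (2 : ℝ) ^ e⁻¹ := ⟨_, rfl⟩
  have hA0 : 0 < A := by
    rw [hA]
    positivity
  obtain ⟨E, hE⟩ : ∃ E : ℝ, E = 1 / √e := ⟨_, rfl⟩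
  have hE0 : 0 < E := by
    rw [hE]
    have := Real.sqrt_pos.2 (zero_lt_one.trans he)
    positivity
  obtain ⟨U, hU⟩ : ∃ U : ℝ, U = 2 / c := ⟨_, rfl⟩
  have hU0 : 0 < U := by
    rw [hU]
    positivity
  obtain ⟨K1, hK1⟩ : ∃ K : ℝ, K = 2 * U ^ 2 + 2 * U ^ 3 := ⟨_, rfl⟩
  have hK10 : 0 < K1 := by
    rw [hK1]
    positivity
  obtain ⟨K2, hK2⟩ : ∃ K : ℝ, K = 2 * U * K1 + 2 * K1 ^ 2 := ⟨_, rfl⟩
  have hK20 : 0 < K2 := by
    rw [hK2]
    positivity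
  obtain ⟨K3, hK3⟩ : ∃ K : ℝ, K = U ^ 2 + 3 * K2 := ⟨_, rfl⟩
  have hK30 : 0 < K3 := by
    rw [hK3]
    positivity
  obtain ⟨K, hK⟩ : ∃ K : ℝ, K = A ^ 2 * K2 + 2 * A * E * K1 + 2 * A * K3 := ⟨_, rfl⟩
  have hK0 : 0 < K := by
    rw [hK]
    positivity
  refine ⟨min (min (c / 16) 1) (δ / K), by positivity, (min_le_left _ _).trans (min_le_left _ _),
    ?_⟩
  intro h H
  obtain ⟨ε, hε⟩ : ∃ ε : ℝ, ε = min (min (c / 16) 1) (δ / K) := ⟨_, rfl⟩
  rw [← hε] at H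
  have hεc : ε ≤ c / 16 := by
    rw [hε]
    exact (min_le_left _ _).trans (min_le_left _ _)
  have hε1 : ε ≤ 1 := by
    rw [hε]
    exact (min_le_left _ _).trans (min_le_right _ _)
  have hεδ : K * ε ≤ δ := by
    have h1 : ε ≤ δ / K := by
      rw [hε]
      exact min_le_right _ _
    rw [le_div_iff₀ hK0] at h1
    linarith
  have hε0 : 0 < ε := by
    rw [hε]
    positivity
  -- the two functions
  have hφ : ∀ r, prof (h r) 0 = h r (π / 2) := by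
    intro r
    unfold prof
    simp
  have hψ : ∀ r, prof1 (h r) 0 = -deriv (h r) (π / 2) := by
    intro r
    unfold prof1
    simp
  have hφc : ContDiff ℝ 2 (fun r => prof (h r) 0) :=
    H.c2.comp (f := fun r : ℝ => ((0 : ℝ), r)) (contDiff_const.prodMk contDiff_id)
  have hφn : ∀ r, |prof (h r) 0 - c| ≤ ε := by
    intro r
    rw [hφ]
    exact (H.near r).n0 (π / 2)
  have hφp : ∀ r, c / 2 ≤ prof (h r) 0 := by
    intro r
    have := (abs_le.1 (hφn r)).1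
    linarith
  have hφpos : ∀ r, 0 < prof (h r) 0 := fun r => by linarith [hφp r]
  have hφ1 : ∀ r, |deriv (fun r => prof (h r) 0) r| ≤ ε := fun r => H.b1 0 r
  have hφ2 : ∀ r, |deriv (deriv fun r => prof (h r) 0) r| ≤ 2 * ε := by
    intro r
    have h1 := H.b3 0 r
    have h2 : (pt h r).ft 0 * √(1 + 0 ^ 2) =
        deriv (deriv fun r' => prof (h r') 0) r + prof (h r) 0 := by
      change (deriv (deriv fun r' => prof (h r') 0) r + prof (h r) 0 - 0 * prof1 (h r) 0) *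
        √(1 + 0 ^ 2) = _
      simp
    rw [h2] at h1
    have h3 := abs_le.1 h1
    have h4 := abs_le.1 (hφn r)
    rw [abs_le]
    constructor <;> linarith [h3.1, h3.2, h4.1, h4.2]
  have hUi : ∀ r, (prof (h r) 0)⁻¹ ≤ U := by
    intro r
    rw [hU]
    have h1 := inv_anti₀ (by linarith) (hφp r)
    refine h1.trans (le_of_eq ?_)
    rw [inv_div]
  have Bu : ncoef_B (fun r => (prof (h r) 0)⁻¹) U (K1 * ε) := by
    have h1 := ncoef_inv hφc hφpos hUi hε1 hφ1 hφ2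
    rw [← hK1] at h1
    exact ncoef_mono h1 le_rfl (le_of_eq (mul_comm _ _))
  have hεε : ε * ε ≤ ε := by nlinarith
  have Bu2 : ncoef_B (fun r => (prof (h r) 0)⁻¹ * (prof (h r) 0)⁻¹) (U * U) (K2 * ε) := by
    refine ncoef_mono (ncoef_mul Bu Bu) le_rfl ?_
    rw [hK2]
    have h1 : K1 ^ 2 * (ε * ε) ≤ K1 ^ 2 * ε := mul_le_mul_of_nonneg_left hεε (by positivity)
    calc K1 * ε * U + 2 * (K1 * ε * (K1 * ε)) + U * (K1 * ε) =
          2 * U * K1 * ε + 2 * (K1 ^ 2 * (ε * ε)) := by ring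
      _ ≤ 2 * U * K1 * ε + 2 * (K1 ^ 2 * ε) := by linarith
      _ = _ := by ring
  have Bψ : ncoef_B (fun r => prof1 (h r) 0) 1 ε := by
    refine ⟨H.c3, fun r => ?_, fun r => ?_, H.b4⟩
    · rw [hψ, abs_neg]
      exact ((H.near r).n1 (π / 2)).trans hε1
    · have h1 := H.b2 0 r
      have h2 : |(pt h r).far 0| * (1 + 0 ^ 2) = |deriv (fun r => prof1 (h r) 0) r| := by
        change |deriv (fun r => prof1 (h r) 0) r| * (1 + 0 ^ 2) = _
        ring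
      rwa [h2] at h1
  have Bp : ncoef_B (fun r => prof1 (h r) 0 * ((prof (h r) 0)⁻¹ * (prof (h r) 0)⁻¹))
      (1 * (U * U)) (K3 * ε) := by
    refine ncoef_mono (ncoef_mul Bψ Bu2) le_rfl ?_
    rw [hK3]
    have h1 : K2 * (ε * ε) ≤ K2 * ε := mul_le_mul_of_nonneg_left hεε hK20.le
    calc ε * (U * U) + 2 * (ε * (K2 * ε)) + 1 * (K2 * ε) =
          U ^ 2 * ε + 2 * (K2 * (ε * ε)) + K2 * ε := by ring
      _ ≤ U ^ 2 * ε + 2 * (K2 * ε) + K2 * ε := by linarith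
      _ = _ := by ring
  have Bb : ncoef_B (fun r => bb e (h r) ^ 2) (A ^ 2 * (U * U)) (A ^ 2 * (K2 * ε)) := by
    have h1 := ncoef_cmul (a := A ^ 2) (by positivity) Bu2
    have h2 : (fun r => bb e (h r) ^ 2) =
        fun r => A ^ 2 * ((prof (h r) 0)⁻¹ * (prof (h r) 0)⁻¹) := by
      funext r
      unfold bb
      rw [← hA, ← hφ]
      field_simp
    rw [h2]
    exact h1
  have Bs := ncoef_cmul (a := 2 * A * E) (by positivity) Bu
  have Bt := ncoef_cmul (a := 2 * A) (by positivity) Bp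
  have Ba : ncoef_B (fun r => al e (h r)) (2 * A * E * U + 2 * A * (1 * (U * U)))
      (2 * A * E * (K1 * ε) + 2 * A * (K3 * ε)) := by
    have h2 : (fun r => al e (h r)) = fun r => 2 * A * E * (prof (h r) 0)⁻¹ +
        -(2 * A * (prof1 (h r) 0 * ((prof (h r) 0)⁻¹ * (prof (h r) 0)⁻¹))) := by
      funext r
      unfold al bb
      rw [← hA, ← hφ, ← hE, hψ]
      have := (hφpos r).ne'
      field_simp
    rw [h2]
    exact ncoef_add Bs (ncoef_neg Bt)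
  have Bn : ncoef_B (fun r => al e (ng (h r))) (2 * A * E * U + 2 * A * (1 * (U * U)))
      (2 * A * E * (K1 * ε) + 2 * A * (K3 * ε)) := by
    have h2 : (fun r => al e (ng (h r))) = fun r => 2 * A * E * (prof (h r) 0)⁻¹ +
        2 * A * (prof1 (h r) 0 * ((prof (h r) 0)⁻¹ * (prof (h r) 0)⁻¹)) := by
      funext r
      rw [al_ng (H.near r).per (H.near r).c2]
      unfold bb
      rw [← hA, ← hφ, ← hE, hψ]
      have := (hφpos r).ne'
      field_simp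
      ring
    rw [h2]
    exact ncoef_add Bs Bt
  have hb : A ^ 2 * (K2 * ε) ≤ δ := by
    refine le_trans ?_ hεδ
    rw [hK]
    have h1 : 0 ≤ 2 * A * E * K1 * ε := by positivity
    have h2 : 0 ≤ 2 * A * K3 * ε := by positivity
    linarith
  have ha : 2 * A * E * (K1 * ε) + 2 * A * (K3 * ε) ≤ δ := by
    refine le_trans ?_ hεδ
    rw [hK]
    have h1 : 0 ≤ A ^ 2 * K2 * ε := by positivity
    linarith
  exact ⟨Bb.c, Ba.c, Bn.c, fun r => (Bb.d1 r).trans hb, fun r => (Bb.d2 r).trans hb,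
    fun r => (Ba.d1 r).trans ha, fun r => (Ba.d2 r).trans ha,
    fun r => (Bn.d1 r).trans ha, fun r => (Bn.d2 r).trans ha⟩

theorem CoD.mono {e δ δ' : ℝ} {h : ℝ → ℝ → ℝ} (H : CoD e h δ) (h' : δ ≤ δ') : CoD e h δ' := by
  exact ⟨H.cb, H.ca, H.cn, fun r => (H.b1 r).trans h', fun r => (H.b2 r).trans h',
    fun r => (H.a1 r).trans h', fun r => (H.a2 r).trans h', fun r => (H.n1 r).trans h',
    fun r => (H.n2 r).trans h'⟩

end CH
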