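import Mathlib

/-!
# Second order support and convexity in one variable
-/

namespace CH

open Real Set Filter Topology

/-- `G l - G 0 - G1 0 l - c l²/2 = o(l²)` (Peano; `G1 l = G1 0 + c l + o(l)` and the mean value
theorem), `c ≥ 0`. -/
theorem lower2 {G G1 : ℝ → ℝ} {c : ℝ} (h : ∀ᶠ l in 𝓝 (0 : ℝ), HasDerivAt G (G1 l) l)
    (h1 : HasDerivAt G1 c 0) (hc : 0 ≤ c) {ε : ℝ} (hε : 0 < ε) :
    ∀ᶠ l in 𝓝 (0 : ℝ), G 0 + G1 0 * l - ε * l ^ 2 ≤ G l := by
  have h2 : ∀ᶠ l in 𝓝 (0 : ℝ), ‖G1 l - G1 0 - (l - 0) • c‖ ≤ ε * ‖l - 0‖ :=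
    (hasDerivAt_iff_isLittleO.1 h1).def hε
  obtain ⟨r, hr, hball⟩ := Metric.eventually_nhds_iff_ball.1 (h.and h2)
  filter_upwards [Metric.ball_mem_nhds (0 : ℝ) hr] with l hl
  have hl' : |l| < r := by simpa [Real.dist_eq] using hl
  have hder : ∀ x ∈ Metric.closedBall (0 : ℝ) |l|,
      HasDerivWithinAt (fun x => G x - G 0 - G1 0 * x - c * x ^ 2 / 2)
        (G1 x - G1 0 - c * x) (Metric.closedBall (0 : ℝ) |l|) x := by
    intro x hx
    have hx' : |x| ≤ |l| := by simpa [Real.dist_eq] using hx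
    have hxb : x ∈ Metric.ball (0 : ℝ) r := by
      simpa [Real.dist_eq] using lt_of_le_of_lt hx' hl'
    have hd := (hball x hxb).1
    have hd1 : HasDerivAt (fun x : ℝ => G x - G 0 - G1 0 * x - c * x ^ 2 / 2)
        (G1 x - 0 - G1 0 * 1 - c * (2 * x) / 2) x := by
      refine ((hd.sub (hasDerivAt_const x (G 0))).sub ((hasDerivAt_id x).const_mul (G1 0))).sub ?_
      have h3 := ((hasDerivAt_pow 2 x).const_mul c).div_const 2
      simpa using h3
    have e1 : G1 x - 0 - G1 0 * 1 - c * (2 * x) / 2 = G1 x - G1 0 - c * x := by ring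
    rw [e1] at hd1
    exact hd1.hasDerivWithinAt
  have hbd : ∀ x ∈ Metric.closedBall (0 : ℝ) |l|, ‖G1 x - G1 0 - c * x‖ ≤ ε * |l| := by
    intro x hx
    have hx' : |x| ≤ |l| := by simpa [Real.dist_eq] using hx
    have hxb : x ∈ Metric.ball (0 : ℝ) r := by
      simpa [Real.dist_eq] using lt_of_le_of_lt hx' hl'
    have hd := (hball x hxb).2
    simp only [sub_zero, smul_eq_mul] at hd
    rw [mul_comm c x]
    refine hd.trans ?_
    rw [Real.norm_eq_abs]
    exact mul_le_mul_of_nonneg_left hx' hε.le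
  have key := Convex.norm_image_sub_le_of_norm_hasDerivWithin_le hder hbd
    (convex_closedBall (0 : ℝ) |l|) (x := 0) (y := l) (by simp) (by simp)
  simp only [sub_zero, Real.norm_eq_abs, mul_zero] at key
  have k2 := (abs_le.1 key).1
  have k3 : ε * |l| * |l| = ε * l ^ 2 := by rw [mul_assoc, ← sq, sq_abs]
  have k4 : 0 ≤ c * l ^ 2 / 2 := by positivity
  rw [k3] at k2
  have k5 : G 0 - G 0 - c * (0 : ℝ) ^ 2 / 2 = 0 := by ring
  rw [k5] at k2
  linarith

/-- A continuous function with a second order support of nonnegative second derivative at every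
point is convex.  Suppose `φ l = g l - (1-l) g 0 - l g 1` is positive at some `μ ∈ (0,1)`; put
`ψ l = φ l - η l (1-l)`, `η > 0` small, so `ψ μ > 0`; let `ψ` attain its maximum on `[0,1]` at
`l* ∈ (0,1)`.  By the hypothesis with `ε = η/2` near `l*`: `ψ l ≥ ψ l* + p' (l - l*) +
(η/2)(l - l*)²`; choose the side where `p' (l - l*) ≥ 0`: `ψ l > ψ l*`, contradiction. -/
theorem conv1 {g : ℝ → ℝ} (hc : ∀ l ∈ Icc (0 : ℝ) 1, ContinuousAt g l)
    (h : ∀ l ∈ Icc (0 : ℝ) 1, ∃ p, ∀ ε > 0, ∀ᶠ x in 𝓝 (0 : ℝ),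
      g l + p * x - ε * x ^ 2 ≤ g (l + x)) {μ : ℝ} (hμ : μ ∈ Icc (0 : ℝ) 1) :
    g μ ≤ (1 - μ) * g 0 + μ * g 1 := by
  by_contra hcon
  rw [not_le] at hcon
  set η : ℝ := g μ - ((1 - μ) * g 0 + μ * g 1) with hη
  have hη0 : 0 < η := sub_pos.2 hcon
  set ψ : ℝ → ℝ := fun l => g l - (1 - l) * g 0 - l * g 1 - η * (l * (1 - l)) with hψ
  have hψμ : 0 < ψ μ := by
    have e1 : ψ μ = η * (1 - μ * (1 - μ)) := by simp only [hψ, hη]; ring
    rw [e1]
    refine mul_pos hη0 ?_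
    nlinarith [sq_nonneg (μ - 1 / 2)]
  have hcont : ContinuousOn ψ (Icc 0 1) := by
    intro l hl
    refine ContinuousAt.continuousWithinAt ?_
    have := hc l hl
    simp only [hψ]
    fun_prop
  obtain ⟨m, hm, hmax⟩ := isCompact_Icc.exists_isMaxOn ⟨μ, hμ⟩ hcont
  have hψm : 0 < ψ m := lt_of_lt_of_le hψμ (hmax hμ)
  have hm0 : 0 < m := by
    rcases hm.1.eq_or_lt with h0 | h0
    · exfalso
      rw [← h0] at hψm
      simp [hψ] at hψm
    · exact h0
  have hm1 : m < 1 := by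
    rcases hm.2.eq_or_lt with h0 | h0
    · exfalso
      rw [h0] at hψm
      simp [hψ] at hψm
    · exact h0
  obtain ⟨p, hp⟩ := h m hm
  have hev := hp (η / 2) (half_pos hη0)
  obtain ⟨r, hr, hball⟩ := Metric.eventually_nhds_iff_ball.1 hev
  obtain ⟨t, ht0, ht⟩ : ∃ t : ℝ, 0 < t ∧ t < min r (min m (1 - m)) :=
    exists_between (lt_min hr (lt_min hm0 (sub_pos.2 hm1)))
  have htr : t < r := lt_of_lt_of_le ht (min_le_left _ _)
  have htm : t < m := lt_of_lt_of_le ht ((min_le_right _ _).trans (min_le_left _ _))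
  have htm1 : t < 1 - m := lt_of_lt_of_le ht ((min_le_right _ _).trans (min_le_right _ _))
  have hkey : ∀ x : ℝ, |x| ≤ t → x * (p + g 0 - g 1 - η * (1 - 2 * m)) + η / 2 * x ^ 2 ≤ 0 := by
    intro x hx
    have hxb : x ∈ Metric.ball (0 : ℝ) r := by
      simpa [Real.dist_eq] using lt_of_le_of_lt hx htr
    have e1 := hball x hxb
    have hx2 := abs_le.1 hx
    have e2 : ψ (m + x) ≤ ψ m := hmax ⟨by linarith [hx2.1], by linarith [hx2.2]⟩
    simp only [hψ] at e2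
    nlinarith
  have h1 := hkey t (by rw [abs_of_pos ht0])
  have h2 := hkey (-t) (by rw [abs_neg, abs_of_pos ht0])
  have h3 : 0 < η * t ^ 2 := by positivity
  nlinarith

end CH
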