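import Mathlib

/-!
# Implicit function
-/

namespace CH

open Real Set Filter Topology

/-- the derivative of the map of the proof of `exists_tt` -/
noncomputable def nconvb_L (c v : ℝ) (hv : v ≠ 0) : (ℝ × ℝ) ≃L[ℝ] (ℝ × ℝ) :=
  LinearEquiv.toContinuousLinearEquiv
    { toFun := fun p => (p.1, v * p.2 + c * p.1)
      map_add' := fun p q => by
        ext
        · rfl
        · show v * (p.2 + q.2) + c * (p.1 + q.1) = (v * p.2 + c * p.1) + (v * q.2 + c * q.1)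
          ring
      map_smul' := fun a p => by
        ext
        · rfl
        · show v * (a * p.2) + c * (a * p.1) = a * (v * p.2 + c * p.1)
          ring
      invFun := fun q => (q.1, (q.2 - c * q.1) / v)
      left_inv := fun p => by
        ext
        · rfl
        · show (v * p.2 + c * p.1 - c * p.1) / v = p.2
          field_simp
          ring
      right_inv := fun q => by
        ext
        · rfl
        · show v * ((q.2 - c * q.1) / v) + c * q.1 = q.2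
          field_simp
          ring }

theorem nconvb_L_apply (c v : ℝ) (hv : v ≠ 0) (p : ℝ × ℝ) :
    nconvb_L c v hv p = (p.1, v * p.2 + c * p.1) := rfl

/-- Implicit function.  Inverse function theorem (`ContDiffAt.toOpenPartialHomeomorph`,
`HasStrictFDerivAt.toOpenPartialHomeomorph`) for `Ψ (l, t) = (l, F (t, r l) - b l)` at
`(0, t₀)`, whose derivative `(x, y) ↦ (x, v y + c x)` is invertible; `tt l` is the second
component of `Ψ⁻¹ (l, 0)`. -/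
theorem exists_tt {F : ℝ × ℝ → ℝ} {b r : ℝ → ℝ} {t₀ v : ℝ} (cF : ContDiffAt ℝ 1 F (t₀, 0))
    (dF : HasDerivAt (fun t => F (t, 0)) v t₀) (hv : v ≠ 0) (cb : ContDiffAt ℝ 1 b 0)
    (cr : ContDiffAt ℝ 1 r 0) (hr : r 0 = 0) (hb : b 0 = F (t₀, 0)) :
    ∃ tt : ℝ → ℝ, ContDiffAt ℝ 1 tt 0 ∧ tt 0 = t₀ ∧
      (∀ᶠ l in 𝓝 (0 : ℝ), F (tt l, r l) = b l) ∧
      ∀ᶠ p : ℝ × ℝ in 𝓝 (0, t₀), F (p.2, r p.1) = b p.1 → p.2 = tt p.1 := by
  set g : ℝ × ℝ → ℝ := fun p => F (p.2, r p.1) - b p.1 with hg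
  set Ψ : ℝ × ℝ → ℝ × ℝ := fun p => (p.1, g p) with hΨ
  have cr' : ContDiffAt ℝ 1 (fun p : ℝ × ℝ => r p.1) (0, t₀) :=
    ContDiffAt.comp (0, t₀) (g := r) (f := fun p : ℝ × ℝ => p.1) cr contDiffAt_fst
  have cb' : ContDiffAt ℝ 1 (fun p : ℝ × ℝ => b p.1) (0, t₀) :=
    ContDiffAt.comp (0, t₀) (g := b) (f := fun p : ℝ × ℝ => p.1) cb contDiffAt_fst
  have cg : ContDiffAt ℝ 1 g (0, t₀) := by
    have h1 : ContDiffAt ℝ 1 (fun p : ℝ × ℝ => ((p.2, r p.1) : ℝ × ℝ)) (0, t₀) :=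
      contDiffAt_snd.prodMk cr'
    have h2 : ContDiffAt ℝ 1 F ((fun p : ℝ × ℝ => ((p.2, r p.1) : ℝ × ℝ)) (0, t₀)) := by
      show ContDiffAt ℝ 1 F (t₀, r 0)
      rw [hr]
      exact cF
    exact (ContDiffAt.comp (0, t₀) h2 h1).sub cb'
  have cΨ : ContDiffAt ℝ 1 Ψ (0, t₀) := contDiffAt_fst.prodMk cg
  have dg : HasFDerivAt g (fderiv ℝ g (0, t₀)) (0, t₀) :=
    (cg.differentiableAt one_ne_zero).hasFDerivAt
  set g' := fderiv ℝ g (0, t₀) with hg'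
  have hv' : g' (0, 1) = v := by
    have h1 : HasDerivAt (fun t : ℝ => ((0, t) : ℝ × ℝ)) (0, 1) t₀ :=
      (hasDerivAt_const t₀ (0 : ℝ)).prodMk (hasDerivAt_id t₀)
    have h2 : HasDerivAt (fun t : ℝ => g (0, t)) (g' (0, 1)) t₀ :=
      HasFDerivAt.comp_hasDerivAt (l := g) (f := fun t : ℝ => ((0, t) : ℝ × ℝ)) t₀ dg h1
    have h3 : HasDerivAt (fun t : ℝ => g (0, t)) v t₀ := by
      have h4 : (fun t : ℝ => g (0, t)) = fun t => F (t, 0) - b 0 := by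
        funext t
        show F (t, r 0) - b 0 = _
        rw [hr]
      rw [h4]
      exact dF.sub_const _
    exact h2.unique h3
  have hlin : ∀ p : ℝ × ℝ, g' p = v * p.2 + g' (1, 0) * p.1 := by
    intro p
    have h1 : p = p.1 • ((1, 0) : ℝ × ℝ) + p.2 • ((0, 1) : ℝ × ℝ) := by
      ext <;> simp
    conv_lhs => rw [h1]
    rw [map_add, map_smul, map_smul, hv', smul_eq_mul, smul_eq_mul]
    ring
  have dΨ : HasFDerivAt Ψ ((nconvb_L (g' (1, 0)) v hv : (ℝ × ℝ) ≃L[ℝ] (ℝ × ℝ)) :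
      (ℝ × ℝ) →L[ℝ] (ℝ × ℝ)) (0, t₀) := by
    have h1 : HasFDerivAt Ψ ((ContinuousLinearMap.fst ℝ ℝ ℝ).prod g') (0, t₀) :=
      hasFDerivAt_fst.prodMk dg
    have h2 : ((nconvb_L (g' (1, 0)) v hv : (ℝ × ℝ) ≃L[ℝ] (ℝ × ℝ)) :
      (ℝ × ℝ) →L[ℝ] (ℝ × ℝ)) = (ContinuousLinearMap.fst ℝ ℝ ℝ).prod g' := by
      refine ContinuousLinearMap.ext fun p => ?_
      show nconvb_L (g' (1, 0)) v hv p = (p.1, g' p)
      rw [nconvb_L_apply, hlin p]
    rw [h2]
    exact h1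
  have hval : Ψ (0, t₀) = (0, 0) := by
    show ((0 : ℝ), F (t₀, r 0) - b 0) = (0, 0)
    rw [hr, hb, sub_self]
  set e := cΨ.toOpenPartialHomeomorph Ψ dΨ one_ne_zero with he
  have hcoe : ∀ p, e p = Ψ p := fun p => rfl
  have hsrc : ((0 : ℝ), t₀) ∈ e.source := cΨ.mem_toOpenPartialHomeomorph_source dΨ one_ne_zero
  have hsymm0 : e.symm (0, 0) = (0, t₀) := by
    rw [← hval, ← hcoe, e.left_inv hsrc]
  have htgt : ((0 : ℝ), (0 : ℝ)) ∈ e.target := by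
    rw [← hval, ← hcoe]
    exact e.map_source hsrc
  have cinv : ContDiffAt ℝ 1 e.symm ((0 : ℝ), (0 : ℝ)) := by
    have h1 := cΨ.to_localInverse dΨ one_ne_zero
    rw [hval] at h1
    exact h1
  have clin : ContDiffAt ℝ 1 (fun l : ℝ => ((l, 0) : ℝ × ℝ)) 0 := contDiffAt_id.prodMk contDiffAt_const
  refine ⟨fun l => (e.symm (l, 0)).2, ?_, ?_, ?_, ?_⟩
  · have h1 : ContDiffAt ℝ 1 (fun l : ℝ => e.symm ((l, 0) : ℝ × ℝ)) 0 :=
      ContDiffAt.comp (0 : ℝ) (g := e.symm) (f := fun l : ℝ => ((l, 0) : ℝ × ℝ)) cinv clin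
    exact contDiffAt_snd.comp (0 : ℝ) h1
  · show (e.symm (0, 0)).2 = t₀
    rw [hsymm0]
  · have h1 : ∀ᶠ l in 𝓝 (0 : ℝ), ((l, 0) : ℝ × ℝ) ∈ e.target :=
      clin.continuousAt.eventually (e.open_target.mem_nhds htgt)
    filter_upwards [h1] with l hl
    have h2 : Ψ (e.symm (l, 0)) = (l, 0) := e.right_inv hl
    have h3 : (e.symm (l, 0)).1 = l := congrArg Prod.fst h2
    have h4 : F ((e.symm (l, 0)).2, r (e.symm (l, 0)).1) - b (e.symm (l, 0)).1 = 0 :=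
      congrArg Prod.snd h2
    rw [h3] at h4
    exact sub_eq_zero.1 h4
  · filter_upwards [e.open_source.mem_nhds hsrc] with p hp hF
    have h2 : Ψ p = (p.1, 0) := by
      show (p.1, F (p.2, r p.1) - b p.1) = (p.1, 0)
      rw [hF, sub_self]
    have h3 : e.symm (p.1, 0) = p := by
      rw [← h2, ← hcoe, e.left_inv hp]
    show p.2 = (e.symm (p.1, 0)).2
    rw [h3]

end CH
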