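import Pool.Agent.H.MP_1693ff_gtC.NDefs
import Pool.Agent.H.MP_1693ff_gtB.GCub

/-!
# The cubic of the start surface: regularity
-/

namespace CH

open Real Set Filter Topology CG
open CF hiding St

theorem ncub3_c {d : ℝ} {f₀ f₁ f₂ f₃ : ℝ → ℝ} (h₀ : ContDiff ℝ 1 f₀) (h₁ : ContDiff ℝ 1 f₁)
    (h₂ : ContDiff ℝ 1 f₂) (h₃ : ContDiff ℝ 1 f₃) :
    ContDiff ℝ 1 (fun p : ℝ × ℝ => cub d (f₀ p.2) (f₁ p.2) (f₂ p.2) (f₃ p.2) p.1) ∧
    ContDiff ℝ 1 (fun p : ℝ × ℝ => cub1 d (f₀ p.2) (f₁ p.2) (f₂ p.2) (f₃ p.2) p.1) := by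
  have g₀ : ContDiff ℝ 1 (fun p : ℝ × ℝ => f₀ p.2) := h₀.comp contDiff_snd
  have g₁ : ContDiff ℝ 1 (fun p : ℝ × ℝ => f₁ p.2) := h₁.comp contDiff_snd
  have g₂ : ContDiff ℝ 1 (fun p : ℝ × ℝ => f₂ p.2) := h₂.comp contDiff_snd
  have g₃ : ContDiff ℝ 1 (fun p : ℝ × ℝ => f₃ p.2) := h₃.comp contDiff_snd
  have gx : ContDiff ℝ 1 (fun p : ℝ × ℝ => p.1) := contDiff_fst
  have gu : ContDiff ℝ 1 (fun p : ℝ × ℝ => p.1 / d) := gx.div_const d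
  unfold cub cub1
  exact ⟨(g₀.add ((g₁.sub g₀).mul ((contDiff_const.mul (gu.pow 2)).sub
      (contDiff_const.mul (gu.pow 3))))).add ((gx.mul (contDiff_const.sub gu)).mul
        ((g₂.mul (contDiff_const.sub gu)).add (g₃.mul gu))),
    (((g₁.sub g₀).mul ((contDiff_const.mul gu).sub (contDiff_const.mul (gu.pow 2)))).div_const
      d).add ((g₂.add ((contDiff_const.mul (g₃.sub (contDiff_const.mul g₂))).mul gu)).sub
        ((contDiff_const.mul (g₃.sub g₂)).mul (gu.pow 2)))⟩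

theorem ncub3_d {d r : ℝ} {f₀ f₁ f₂ f₃ : ℝ → ℝ} {e₀ e₁ e₂ e₃ : ℝ} (h₀ : HasDerivAt f₀ e₀ r)
    (h₁ : HasDerivAt f₁ e₁ r) (h₂ : HasDerivAt f₂ e₂ r) (h₃ : HasDerivAt f₃ e₃ r) (X : ℝ) :
    HasDerivAt (fun r => cub d (f₀ r) (f₁ r) (f₂ r) (f₃ r) X) (cub d e₀ e₁ e₂ e₃ X) r ∧
    HasDerivAt (fun r => cub1 d (f₀ r) (f₁ r) (f₂ r) (f₃ r) X) (cub1 d e₀ e₁ e₂ e₃ X) r := by
  unfold cub cub1
  constructor
  · exact (h₀.add ((h₁.sub h₀).mul_const (3 * (X / d) ^ 2 - 2 * (X / d) ^ 3))).add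
      (((h₂.mul_const (1 - X / d)).add (h₃.mul_const (X / d))).const_mul (X * (1 - X / d)))
  · exact (((h₁.sub h₀).mul_const (6 * (X / d) - 6 * (X / d) ^ 2)).div_const d).add
      ((h₂.add (((h₃.sub (h₂.const_mul 2)).const_mul 2).mul_const (X / d))).sub
        (((h₃.sub h₂).const_mul 3).mul_const ((X / d) ^ 2)))

theorem ncub3_f {f : ℝ → ℝ} (h : ContDiff ℝ 2 f) :
    ContDiff ℝ 1 f ∧ ContDiff ℝ 1 (deriv f) ∧ (∀ r, HasDerivAt f (deriv f r) r) ∧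
      ∀ r, HasDerivAt (deriv f) (deriv (deriv f) r) r := by
  have h1 : ContDiff ℝ 1 f := h.of_le (by norm_num)
  have h2 : ContDiff ℝ 1 (deriv f) := by
    have h3 : ContDiff ℝ (1 + 1) f := by
      have : (1 : WithTop ℕ∞) + 1 = 2 := by norm_num
      rw [this]; exact h
    exact (contDiff_succ_iff_deriv.1 h3).2.2
  exact ⟨h1, h2, fun r => ((h1.differentiable (by norm_num)) r).hasDerivAt,
    fun r => ((h2.differentiable (by norm_num)) r).hasDerivAt⟩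

/-- `cub d · · · · X` is linear in the four coefficients, which are `C²` in `r`. -/
theorem qs_aq {e d δ δ' : ℝ} {h k : ℝ → ℝ → ℝ} (hd : 0 < d) (H : CoD e h δ) (K : CoD e k δ') :
    QS (fun X r => aq e d (h r) (k r) X) (fun X r => aq1 e d (h r) (k r) X)
      (fun X r => aq2 e d (h r) (k r) X) (aqr e d h k) (aq1r e d h k) (aqrr e d h k) := by
  obtain ⟨a1, a2, a3, a4⟩ := ncub3_f H.cb
  obtain ⟨b1, b2, b3, b4⟩ := ncub3_f K.cb
  obtain ⟨c1, c2, c3, c4⟩ := ncub3_f H.ca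
  obtain ⟨d1, d2, d3, d4⟩ := ncub3_f K.cn
  have hd' : d ≠ 0 := hd.ne'
  exact
    { c0 := (ncub3_c a1 b1 c1 d1).1
      c1 := (ncub3_c a1 b1 c1 d1).2
      c2 := (ncub3_c a2 b2 c2 d2).1
      x0 := fun X r => (cub_deriv hd' X).1
      x1 := fun X r => (cub_deriv hd' X).2
      x2 := fun X r => (cub_deriv hd' X).1
      r0 := fun X r => (ncub3_d (a3 r) (b3 r) (c3 r) (d3 r) X).1
      r1 := fun X r => (ncub3_d (a3 r) (b3 r) (c3 r) (d3 r) X).2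
      r2 := fun X r => (ncub3_d (a4 r) (b4 r) (c4 r) (d4 r) X).1 }

end CH
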