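import Pool.Agent.H.MP_1693ff_gtC.NDefs
import Pool.Agent.H.MP_1693ff_gtB.GCub

/-!
# The cubic of the start surface: bounds
-/

namespace CH

open Real Set Filter Topology CG
open CF hiding St

/-- the weights of the cubic -/
theorem ncub3b_wt {d X : ℝ} (hd : 0 < d) (hX : X ∈ Icc 0 d) :
    ∃ w₀ w₁ w₂ w₃ : ℝ, 0 ≤ w₀ ∧ 0 ≤ w₁ ∧ 0 ≤ w₂ ∧ 0 ≤ w₃ ∧
      ∀ q₀ q₁ α β : ℝ, cub d q₀ q₁ α β X = q₀ * w₀ + q₁ * w₁ + α * w₂ + β * w₃ := by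
  have hs0 : 0 ≤ X / d := div_nonneg hX.1 hd.le
  have hs1 : X / d ≤ 1 := (div_le_one hd).2 hX.2
  refine ⟨1 - (3 * (X / d) ^ 2 - 2 * (X / d) ^ 3), 3 * (X / d) ^ 2 - 2 * (X / d) ^ 3,
    X * (1 - X / d) ^ 2, X * (1 - X / d) * (X / d), ?_, ?_, ?_, ?_, ?_⟩
  · nlinarith [mul_nonneg (mul_self_nonneg (1 - X / d)) hs0, mul_self_nonneg (1 - X / d)]
  · nlinarith [mul_nonneg (mul_self_nonneg (X / d)) (sub_nonneg.2 hs1), mul_self_nonneg (X / d)]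
  · exact mul_nonneg hX.1 (sq_nonneg _)
  · exact mul_nonneg (mul_nonneg hX.1 (sub_nonneg.2 hs1)) hs0
  · intro q₀ q₁ α β
    unfold cub
    ring

/-- For `X ∈ [0, d]`, `s = X/d`, `cub` is a combination with nonnegative weights
`1 - (3s² - 2s³)`, `3s² - 2s³`, `X(1-s)²`, `X(1-s)s` of its coefficients. -/
theorem cub_abs {d q₀ q₁ α β Q₀ Q₁ A B X : ℝ} (hd : 0 < d) (hX : X ∈ Icc 0 d)
    (h0 : |q₀| ≤ Q₀) (h1 : |q₁| ≤ Q₁) (h2 : |α| ≤ A) (h3 : |β| ≤ B) :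
    |cub d q₀ q₁ α β X| ≤ cub d Q₀ Q₁ A B X := by
  obtain ⟨w₀, w₁, w₂, w₃, hw₀, hw₁, hw₂, hw₃, hw⟩ := ncub3b_wt hd hX
  rw [hw, hw, abs_le]
  rw [abs_le] at h0 h1 h2 h3
  constructor
  · nlinarith [mul_le_mul_of_nonneg_right h0.1 hw₀, mul_le_mul_of_nonneg_right h1.1 hw₁,
      mul_le_mul_of_nonneg_right h2.1 hw₂, mul_le_mul_of_nonneg_right h3.1 hw₃]
  · nlinarith [mul_le_mul_of_nonneg_right h0.2 hw₀, mul_le_mul_of_nonneg_right h1.2 hw₁,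
      mul_le_mul_of_nonneg_right h2.2 hw₂, mul_le_mul_of_nonneg_right h3.2 hw₃]

/-- monotonicity of the cubic in its coefficients -/
theorem ncub3b_mono {d q₀ q₁ α β Q₀ Q₁ A B X : ℝ} (hd : 0 < d) (hX : X ∈ Icc 0 d)
    (h0 : q₀ ≤ Q₀) (h1 : q₁ ≤ Q₁) (h2 : α ≤ A) (h3 : β ≤ B) :
    cub d q₀ q₁ α β X ≤ cub d Q₀ Q₁ A B X := by
  obtain ⟨w₀, w₁, w₂, w₃, hw₀, hw₁, hw₂, hw₃, hw⟩ := ncub3b_wt hd hX
  rw [hw, hw]
  nlinarith [mul_le_mul_of_nonneg_right h0 hw₀, mul_le_mul_of_nonneg_right h1 hw₁,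
      mul_le_mul_of_nonneg_right h2 hw₂, mul_le_mul_of_nonneg_right h3 hw₃]

/-- `cub1 = 6s(1-s)(q₁ - q₀)/d + α (1-s)(1-3s) + β s(2-3s)`, `|·| ≤ 3δ/d + δ + δ`. -/
theorem cub1_abs {d q₀ q₁ α β δ X : ℝ} (hd : 1 ≤ d) (hX : X ∈ Icc 0 d)
    (h0 : |q₀| ≤ δ) (h1 : |q₁| ≤ δ) (h2 : |α| ≤ δ) (h3 : |β| ≤ δ) :
    |cub1 d q₀ q₁ α β X| ≤ 5 * δ := by
  have hd0 : 0 < d := by linarith
  have hs0 : 0 ≤ X / d := div_nonneg hX.1 hd0.le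
  have hs1 : X / d ≤ 1 := (div_le_one hd0).2 hX.2
  have hδ : 0 ≤ δ := (abs_nonneg _).trans h0
  set s : ℝ := X / d with hs
  have e : cub1 d q₀ q₁ α β X = (q₁ - q₀) * (6 * s * (1 - s) / d) + α * ((1 - s) * (1 - 3 * s)) +
      β * (s * (2 - 3 * s)) := by
    unfold cub1
    rw [← hs]
    ring
  rw [e]
  have a1 : |(q₁ - q₀) * (6 * s * (1 - s) / d)| ≤ 3 * δ := by
    rw [abs_mul]
    have b1 : |q₁ - q₀| ≤ 2 * δ := by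
      have := abs_sub q₁ q₀
      linarith
    have b2 : |6 * s * (1 - s) / d| ≤ 3 / 2 := by
      rw [abs_of_nonneg (div_nonneg (mul_nonneg (mul_nonneg (by norm_num) hs0)
        (sub_nonneg.2 hs1)) hd0.le), div_le_iff₀ hd0]
      nlinarith [mul_self_nonneg (s - 1 / 2)]
    calc |q₁ - q₀| * |6 * s * (1 - s) / d| ≤ 2 * δ * (3 / 2) :=
          mul_le_mul b1 b2 (abs_nonneg _) (by linarith)
      _ = 3 * δ := by ring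
  have a2 : |α * ((1 - s) * (1 - 3 * s))| ≤ δ := by
    rw [abs_mul]
    have b2 : |(1 - s) * (1 - 3 * s)| ≤ 1 := by
      rw [abs_le]
      constructor
      · nlinarith [mul_self_nonneg (s - 2 / 3)]
      · nlinarith
    calc |α| * |(1 - s) * (1 - 3 * s)| ≤ δ * 1 := mul_le_mul h2 b2 (abs_nonneg _) hδ
      _ = δ := mul_one δ
  have a3 : |β * (s * (2 - 3 * s))| ≤ δ := by
    rw [abs_mul]
    have b2 : |s * (2 - 3 * s)| ≤ 1 := by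
      rw [abs_le]
      constructor
      · nlinarith
      · nlinarith [mul_self_nonneg (s - 1 / 3)]
    calc |β| * |s * (2 - 3 * s)| ≤ δ * 1 := mul_le_mul h3 b2 (abs_nonneg _) hδ
      _ = δ := mul_one δ
  have c1 := abs_add_le ((q₁ - q₀) * (6 * s * (1 - s) / d) + α * ((1 - s) * (1 - 3 * s)))
    (β * (s * (2 - 3 * s)))
  have c2 := abs_add_le ((q₁ - q₀) * (6 * s * (1 - s) / d)) (α * ((1 - s) * (1 - 3 * s)))
  linarith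

theorem ncub3b_small {d δ b₀ l₀ q₀ q₁ α β Q₀ Q₁ A B X : ℝ} (hd : 1 ≤ d) (hδ : 0 ≤ δ) (hb : 0 < b₀)
    (hl : 0 < l₀) (hX : X ∈ Icc 0 d) (h0 : b₀ ≤ Q₀) (h1 : b₀ ≤ Q₁) (h2 : l₀ ≤ A) (h3 : l₀ ≤ B)
    (g0 : |q₀| ≤ δ) (g1 : |q₁| ≤ δ) (g2 : |α| ≤ δ) (g3 : |β| ≤ δ) :
    |cub d q₀ q₁ α β X| ≤ δ / min b₀ l₀ * cub d Q₀ Q₁ A B X := by
  have hd0 : 0 < d := by linarith
  have hm : 0 < min b₀ l₀ := lt_min hb hl
  refine (cub_abs hd0 hX g0 g1 g2 g3).trans ?_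
  have e : cub d δ δ δ δ X = δ / min b₀ l₀ *
      cub d (min b₀ l₀) (min b₀ l₀) (min b₀ l₀) (min b₀ l₀) X := by
    unfold cub
    field_simp
  rw [e]
  refine mul_le_mul_of_nonneg_left (ncub3b_mono hd0 hX ?_ ?_ ?_ ?_) (div_nonneg hδ hm.le)
  · exact (min_le_left _ _).trans h0
  · exact (min_le_left _ _).trans h1
  · exact (min_le_right _ _).trans h2
  · exact (min_le_right _ _).trans h3

/-- The transverse derivatives of the cubic are small relative to the cubic: with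
`m = min b₀ l₀`, `|aqr| ≤ (δ/m) aq` (`cub_abs` and homogeneity: `cub d δ δ δ δ =
(δ/m) cub d m m m m ≤ (δ/m) cub d q₀ q₁ α β`, again by nonnegative weights). -/
theorem aqr_small {e d δ b₀ l₀ : ℝ} {h k : ℝ → ℝ → ℝ} (hd : 1 ≤ d) (hδ : 0 ≤ δ) (hb : 0 < b₀)
    (hl : 0 < l₀) (H : CoD e h δ) (K : CoD e k δ) {r X : ℝ} (hX : X ∈ Icc 0 d)
    (h0 : b₀ ≤ bb e (h r) ^ 2) (h1 : b₀ ≤ bb e (k r) ^ 2) (h2 : l₀ ≤ al e (h r))
    (h3 : l₀ ≤ al e (ng (k r))) :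
    |aqr e d h k X r| ≤ δ / min b₀ l₀ * aq e d (h r) (k r) X ∧
    |aqrr e d h k X r| ≤ δ / min b₀ l₀ * aq e d (h r) (k r) X ∧
    |aq1r e d h k X r| ≤ 5 * δ := by
  refine ⟨?_, ?_, ?_⟩
  · exact ncub3b_small hd hδ hb hl hX h0 h1 h2 h3 (H.b1 r) (K.b1 r) (H.a1 r) (K.n1 r)
  · exact ncub3b_small hd hδ hb hl hX h0 h1 h2 h3 (H.b2 r) (K.b2 r) (H.a2 r) (K.n2 r)
  · exact cub1_abs hd hX (H.b1 r) (K.b1 r) (H.a1 r) (K.n1 r)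

end CH
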