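import Pool.Agent.H.MP_1693ff_gtB.GDefs

/-!
# MP_1693ff_gt, `i < -1`, dimension at least three, without symmetry: definitions
-/

namespace CH

open Real Set Filter Topology CG
open CF hiding St

noncomputable section

/-! ## Transverse data -/

/-- Transverse profile data for a fixed `r`, as functions of `a`: `fr = ∂_r f`, `far = ∂_r f1`,
`ft = ∂_r² f + f - a f1` (the second derivative of the homogeneous extension). -/
structure Pt where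
  (fr far ft : ℝ → ℝ)

/-- Transverse part of a 2-jet of a surface `α = A (a, r)` (homogeneous extension
`|ξ| A (a/|ξ|, r)`): `κ = A_r`, `ℓ = -A_ar`, `q = -(A_rr + A - a A_a)`; `w = ∂a/∂r` (for fixed
parameter `t`). -/
structure Tt where
  (κ ℓ q w : ℝ)

/-- The transverse profile data of a family `h r : ℝ → ℝ` of functions of the angle. -/
def pt (h : ℝ → ℝ → ℝ) (r : ℝ) : Pt :=
  { fr := fun a => deriv (fun r' => prof (h r') a) r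
    far := fun a => deriv (fun r' => prof1 (h r') a) r
    ft := fun a => deriv (deriv fun r' => prof (h r') a) r + prof (h r) a - a * prof1 (h r) a }

/-- `h r θ = H (cos θ e + sin θ (cos r ω + sin r η))` for a norm-like function `H` near
`c |·|`. -/
structure N3 (h : ℝ → ℝ → ℝ) (c ε : ℝ) : Prop where
  near : ∀ r, Near (h r) c ε
  opp : ∀ r θ, h (r + π) θ = h r (-θ)
  c2 : ContDiff ℝ 2 (fun p : ℝ × ℝ => prof (h p.2) p.1)
  b1 : ∀ a r, |(pt h r).fr a| ≤ ε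
  b2 : ∀ a r, |(pt h r).far a| * (1 + a ^ 2) ≤ ε
  b3 : ∀ a r, |(pt h r).ft a * √(1 + a ^ 2) - c| ≤ ε
  c3 : ContDiff ℝ 2 (fun r => prof1 (h r) 0)
  b4 : ∀ r, |deriv (deriv fun r => prof1 (h r) 0) r| ≤ ε

/-- Joint regularity of a family of profiles. -/
structure PJ (F : ℝ → Pf) (G : ℝ → Pt) : Prop where
  c0 : ContDiff ℝ 1 (fun p : ℝ × ℝ => (F p.2).f p.1)
  c1 : ContDiff ℝ 1 (fun p : ℝ × ℝ => (F p.2).f1 p.1)
  c2 : ContDiff ℝ 1 (fun p : ℝ × ℝ => (G p.2).fr p.1)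
  d0 : ∀ p : ℝ × ℝ, HasFDerivAt (fun p : ℝ × ℝ => (F p.2).f p.1)
    ((F p.2).f1 p.1 • ContinuousLinearMap.fst ℝ ℝ ℝ +
      (G p.2).fr p.1 • ContinuousLinearMap.snd ℝ ℝ ℝ) p
  d1 : ∀ p : ℝ × ℝ, HasFDerivAt (fun p : ℝ × ℝ => (F p.2).f1 p.1)
    ((F p.2).f2 p.1 • ContinuousLinearMap.fst ℝ ℝ ℝ +
      (G p.2).far p.1 • ContinuousLinearMap.snd ℝ ℝ ℝ) p
  d2 : ∀ p : ℝ × ℝ, HasFDerivAt (fun p : ℝ × ℝ => (G p.2).fr p.1)
    ((G p.2).far p.1 • ContinuousLinearMap.fst ℝ ℝ ℝ +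
      ((G p.2).ft p.1 - (F p.2).f p.1 + p.1 * (F p.2).f1 p.1) •
        ContinuousLinearMap.snd ℝ ℝ ℝ) p

/-! ## The half step -/

/-- `(e-1) W^{e-2} f^{e-2} opp^{1-2e}`. -/
def cc (e d : ℝ) (P : Pf) (S : St) : ℝ :=
  (e - 1) * S.W d ^ (e - 2) * P.f S.a ^ (e - 2) * opp e d P S ^ (1 - 2 * e)
/-- `f p - W f1`. -/
def dl (d : ℝ) (P : Pf) (S : St) : ℝ := P.f S.a * S.p d - S.W d * P.f1 S.a
/-- `f κ/d + W fr`. -/
def dr (d : ℝ) (P : Pf) (G : Pt) (S : St) (T : Tt) : ℝ :=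
  P.f S.a * (T.κ / d) + S.W d * G.fr S.a
/-- `∂_r (a + d opp)` for fixed `a`. -/
def og (e d : ℝ) (P : Pf) (G : Pt) (S : St) (T : Tt) : ℝ :=
  d * ((P.f S.a / opp e d P S) ^ (e - 1) * G.fr S.a) + (S.W d / opp e d P S) ^ (e - 1) * T.κ
/-- mixed second derivative of `opp`. -/
def mz (e d : ℝ) (P : Pf) (G : Pt) (S : St) (T : Tt) : ℝ :=
  (P.f S.a / opp e d P S) ^ (e - 1) * G.far S.a - (S.W d / opp e d P S) ^ (e - 1) * (T.ℓ / d) +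
    cc e d P S * (dl d P S * dr d P G S T)
/-- transverse second derivative of the homogeneous extension of `opp`. -/
def mr (e d : ℝ) (P : Pf) (G : Pt) (S : St) (T : Tt) : ℝ :=
  (P.f S.a / opp e d P S) ^ (e - 1) * G.ft S.a - (S.W d / opp e d P S) ^ (e - 1) * (T.q / d) -
    cc e d P S * dr d P G S T ^ 2

/-- The half step for the transverse part. -/
def hst3 (e d : ℝ) (P : Pf) (G : Pt) (S : St) (T : Tt) : Tt :=
  { κ := -((1 + d * opp1 e d P S)⁻¹ * og e d P G S T)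
    ℓ := (1 + d * opp1 e d P S)⁻¹ * d * ((1 + d * opp1 e d P S)⁻¹ * mz e d P G S T -
      opp2 e d P S * (1 + d * opp1 e d P S)⁻¹ ^ 2 * og e d P G S T)
    q := (1 + d * opp1 e d P S)⁻¹ * d * (opp2 e d P S * (1 + d * opp1 e d P S)⁻¹ ^ 2 *
      og e d P G S T ^ 2 - 2 * mz e d P G S T * (1 + d * opp1 e d P S)⁻¹ * og e d P G S T +
      mr e d P G S T)
    w := (1 + d * opp1 e d P S) * T.w + og e d P G S T }

/-- The form `-D²A`. -/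
def bf (S : St) (T : Tt) (z ρ : ℝ) : ℝ := S.k * z ^ 2 + 2 * T.ℓ * z * ρ + T.q * ρ ^ 2
/-- The form `D² opp`. -/
def mf (e d : ℝ) (P : Pf) (G : Pt) (S : St) (T : Tt) (z ρ : ℝ) : ℝ :=
  opp2 e d P S * z ^ 2 + 2 * mz e d P G S T * z * ρ + mr e d P G S T * ρ ^ 2

/-- Consistency along a path with `a' = z`, `r' = ρ`. -/
structure Al3 (S : ℝ → St) (T : ℝ → Tt) (z ρ x : ℝ) : Prop where
  da : HasDerivAt (fun y => (S y).a) z x
  dα : HasDerivAt (fun y => (S y).α) ((S x).s * z + (T x).κ * ρ) x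
  ds : HasDerivAt (fun y => (S y).s) (-(S x).k * z - (T x).ℓ * ρ) x
  dκ : HasDerivAt (fun y => (T y).κ)
    (-(T x).ℓ * z + ((S x).s * (S x).a - (S x).α - (T x).q) * ρ) x

/-! ## The start surface -/

/-- `κ, ℓ, q, w` of the surface `|ξ| = √Q(X, r)`. -/
def jt (d X Q Q₁ Q₂ Qr Q1r Qrr : ℝ) : Tt :=
  { κ := d * (Qr / (√Q * (2 * Q - X * Q₁)))
    ℓ := d * ((X * Qr * (Q₁ ^ 2 - 2 * Q * Q₂) / (2 * Q - X * Q₁) + 2 * (Q₁ * Qr - Q * Q1r)) /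
      (2 * Q - X * Q₁) ^ 2)
    q := d * (2 / (√Q * Q * (2 * Q - X * Q₁)) * ((X * Qr / (2 * Q - X * Q₁)) ^ 2 *
      (Q₁ ^ 2 - 2 * Q * Q₂) / 4 + X * Qr / (2 * Q - X * Q₁) * (Q₁ * Qr - Q * Q1r) +
      3 / 4 * Qr ^ 2 - Q * Qrr / 2 + Q ^ 2))
    w := -(X * Qr / (2 * Q * √Q)) }

/-- A function `Q (X, r)` with its derivatives. -/
structure QS (Q Q₁ Q₂ Qr Q1r Qrr : ℝ → ℝ → ℝ) : Prop where
  c0 : ContDiff ℝ 1 (fun p : ℝ × ℝ => Q p.1 p.2)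
  c1 : ContDiff ℝ 1 (fun p : ℝ × ℝ => Q₁ p.1 p.2)
  c2 : ContDiff ℝ 1 (fun p : ℝ × ℝ => Qr p.1 p.2)
  x0 : ∀ X r, HasDerivAt (fun X => Q X r) (Q₁ X r) X
  x1 : ∀ X r, HasDerivAt (fun X => Q₁ X r) (Q₂ X r) X
  x2 : ∀ X r, HasDerivAt (fun X => Qr X r) (Q1r X r) X
  r0 : ∀ X r, HasDerivAt (fun r => Q X r) (Qr X r) r
  r1 : ∀ X r, HasDerivAt (fun r => Q₁ X r) (Q1r X r) r
  r2 : ∀ X r, HasDerivAt (fun r => Qr X r) (Qrr X r) r

/-- `Q_r`, where `Q` is the cubic of the start surface of `(h, k)`. -/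
def aqr (e d : ℝ) (h k : ℝ → ℝ → ℝ) (X r : ℝ) : ℝ :=
  cub d (deriv (fun r => bb e (h r) ^ 2) r) (deriv (fun r => bb e (k r) ^ 2) r)
    (deriv (fun r => al e (h r)) r) (deriv (fun r => al e (ng (k r))) r) X
/-- `Q_Xr`. -/
def aq1r (e d : ℝ) (h k : ℝ → ℝ → ℝ) (X r : ℝ) : ℝ :=
  cub1 d (deriv (fun r => bb e (h r) ^ 2) r) (deriv (fun r => bb e (k r) ^ 2) r)
    (deriv (fun r => al e (h r)) r) (deriv (fun r => al e (ng (k r))) r) X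
/-- `Q_rr`. -/
def aqrr (e d : ℝ) (h k : ℝ → ℝ → ℝ) (X r : ℝ) : ℝ :=
  cub d (deriv (deriv fun r => bb e (h r) ^ 2) r) (deriv (deriv fun r => bb e (k r) ^ 2) r)
    (deriv (deriv fun r => al e (h r)) r) (deriv (deriv fun r => al e (ng (k r))) r) X

/-- The transverse part of the start surface, `X = d t`. -/
def arc3 (e d : ℝ) (h k : ℝ → ℝ → ℝ) (t r : ℝ) : Tt :=
  jt d (d * t) (aq e d (h r) (k r) (d * t)) (aq1 e d (h r) (k r) (d * t))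
    (aq2 e d (h r) (k r) (d * t)) (aqr e d h k (d * t) r) (aq1r e d h k (d * t) r)
    (aqrr e d h k (d * t) r)

/-- The transverse part of the chain. -/
def chain3 (e d : ℝ) (h k : ℝ → ℝ → ℝ) : ℕ → ℝ → ℝ → Tt
  | 0 => fun t r => arc3 e d h k t r
  | n + 1 => fun t r => hst3 e d (if Even n then pf (h r) else pf (k r))
      (if Even n then pt h r else pt k r) (chain e d (h r) (k r) n t) (chain3 e d h k n t r)

/-- Coefficients of the start surface: regularity and smallness of the derivatives. -/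
structure CoD (e : ℝ) (h : ℝ → ℝ → ℝ) (δ : ℝ) : Prop where
  cb : ContDiff ℝ 2 (fun r => bb e (h r) ^ 2)
  ca : ContDiff ℝ 2 (fun r => al e (h r))
  cn : ContDiff ℝ 2 (fun r => al e (ng (h r)))
  b1 : ∀ r, |deriv (fun r => bb e (h r) ^ 2) r| ≤ δ
  b2 : ∀ r, |deriv (deriv fun r => bb e (h r) ^ 2) r| ≤ δ
  a1 : ∀ r, |deriv (fun r => al e (h r)) r| ≤ δ
  a2 : ∀ r, |deriv (deriv fun r => al e (h r)) r| ≤ δ
  n1 : ∀ r, |deriv (fun r => al e (ng (h r))) r| ≤ δ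
  n2 : ∀ r, |deriv (deriv fun r => al e (ng (h r))) r| ≤ δ

/-- The strict inequalities needed for the regularity of the `n`-th surface at `(t, r)`. -/
structure Ok (e d : ℝ) (h k : ℝ → ℝ → ℝ) (n : ℕ) (t r : ℝ) : Prop where
  q0 : 0 < aq e d (h r) (k r) (d * t)
  l0 : 0 < 2 * aq e d (h r) (k r) (d * t) - d * t * aq1 e d (h r) (k r) (d * t)
  st : ∀ m < n, 0 < (chain e d (h r) (k r) m t).W d ∧
    (chain e d (h r) (k r) m t).W d < (if Even m then pf (h r) else pf (k r)).f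
      (chain e d (h r) (k r) m t).a ∧
    0 < 1 + d * opp1 e d (if Even m then pf (h r) else pf (k r)) (chain e d (h r) (k r) m t)

/-- All facts about a pair of families: the planar facts, regularity, positivity. -/
structure D3 (e d : ℝ) (h k : ℝ → ℝ → ℝ) : Prop where
  dk : ∃ κ C₁ C₂, ∀ r, DK e d κ C₁ C₂ (h r) (k r)
  ph : PJ (fun r => pf (h r)) (fun r => pt h r)
  pk : PJ (fun r => pf (k r)) (fun r => pt k r)
  co : ∃ δ, CoD e h δ ∧ CoD e k δ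
  pos : ∀ r, ∀ t ∈ Icc (0 : ℝ) 1, ∀ (n : ℕ) (z ρ : ℝ),
    0 ≤ bf (chain e d (h r) (k r) n t) (chain3 e d h k n t r) z ρ
  pos' : ∀ r, ∀ t ∈ Icc (0 : ℝ) 1, ∀ (n : ℕ) (z ρ : ℝ),
    0 ≤ bf (chain e d (k r) (h r) n t) (chain3 e d k h n t r) z ρ

/-! ## Bounds -/

/-- Transverse bounds of a profile on `[1, ∞)`. -/
structure PB3 (G : Pt) (E R₀ T₁ : ℝ) : Prop where
  f1 : ∀ a, 1 ≤ a → |G.fr a| ≤ E
  f2 : ∀ a, 1 ≤ a → |G.far a| * a ^ 2 ≤ R₀ / 4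
  t0 : ∀ a, 1 ≤ a → R₀ ≤ G.ft a * a
  t1 : ∀ a, 1 ≤ a → G.ft a * a ≤ T₁

/-- Transverse part of the far region. -/
structure Far3 (d C₃ C₄ : ℝ) (S : St) (T : Tt) : Prop where
  κ0 : |T.κ| ≤ C₃
  p0 : ∀ z ρ, 0 ≤ bf S T z ρ
  p1 : ∀ z ρ, bf S T z ρ * S.a ^ 3 ≤ C₄ * d * (z ^ 2 + S.a ^ 2 * ρ ^ 2)

/-- `B/(d g)` of the start surface as a form in `(ẑ, ρ)`, `ẑ = √Q z`, `g = 1/√Q`. -/
def NN (X q q₁ q₂ qr q1r qrr z ρ : ℝ) : ℝ :=
  2 / (q * (2 * q - X * q₁)) * (((2 * q * z + X * qr * ρ) / (2 * q - X * q₁)) ^ 2 *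
    (q₁ ^ 2 - 2 * q * q₂) / 4 + (2 * q * z + X * qr * ρ) / (2 * q - X * q₁) * ρ *
    (q₁ * qr - q * q1r) + ρ ^ 2 * (3 / 4 * qr ^ 2 - q * qrr / 2 + q ^ 2))

/-- `opp^{e-1} √q^e D² opp` at the first half step, in `(ẑ, ρ)`. -/
def JJ (e X q q₁ q₂ qr q1r qrr H H₁ R E₁ E₂ E₃ z ρ : ℝ) : ℝ :=
  (H * √(X ^ 2 + q)) ^ (e - 1) * q * (R * z ^ 2 / √(X ^ 2 + q) ^ 3 +
    2 * E₂ * z * ρ / (X ^ 2 + q) + E₃ * ρ ^ 2 / √(X ^ 2 + q)) -
    NN X q q₁ q₂ qr q1r qrr z ρ -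
    (e - 1) * (H * √(X ^ 2 + q)) ^ (e - 2) *
      (z * (√q / √(X ^ 2 + q)) * (H₁ - H * √q * (2 * X + q₁) / (2 * q - X * q₁)) -
        ρ * (H * √(X ^ 2 + q) * qr / (2 * q - X * q₁) + E₁ * √q)) ^ 2 /
      ((H * √(X ^ 2 + q)) ^ e - 1)

/-- What is known on the start surface in addition to `Core`. -/
structure Core3 (e d : ℝ) (h k : ℝ → ℝ → ℝ) (X r : ℝ) : Prop where
  qr : |aqr e d h k X r| ≤ aq e d (h r) (k r) X
  nn : ∀ z ρ, 0 ≤ NN X (aq e d (h r) (k r) X) (aq1 e d (h r) (k r) X) (aq2 e d (h r) (k r) X)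
    (aqr e d h k X r) (aq1r e d h k X r) (aqrr e d h k X r) z ρ
  jj : ∀ z ρ, 0 ≤ JJ e X (aq e d (h r) (k r) X) (aq1 e d (h r) (k r) X)
    (aq2 e d (h r) (k r) X) (aqr e d h k X r) (aq1r e d h k X r) (aqrr e d h k X r)
    (h r (th X (aq e d (h r) (k r) X))) (deriv (h r) (th X (aq e d (h r) (k r) X)))
    (curv (h r) (th X (aq e d (h r) (k r) X)))
    ((pt h r).fr (X / √(aq e d (h r) (k r) X)))
    ((pt h r).far (X / √(aq e d (h r) (k r) X)) * (1 + (X / √(aq e d (h r) (k r) X)) ^ 2))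
    ((pt h r).ft (X / √(aq e d (h r) (k r) X)) * √(1 + (X / √(aq e d (h r) (k r) X)) ^ 2))
    z ρ

end

end CH
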