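import Pool.Agent.H.MP_1693ff_gtC.NOpp3
import Pool.Agent.H.MP_1693ff_gtB.GFarC

/-!
# The far region, transverse part: positivity
-/

namespace CH

open Real Set Filter Topology CG
open CF hiding St

theorem Far3.mono {d C₃ C₄ C₃' C₄' : ℝ} {S : St} {T : Tt} (hd : 0 ≤ d) (H : Far3 d C₃ C₄ S T)
    (h3 : C₃ ≤ C₃') (h4 : C₄ ≤ C₄') : Far3 d C₃' C₄' S T := by
  exact ⟨H.κ0.trans h3, H.p0, fun z ρ => (H.p1 z ρ).trans
    (mul_le_mul_of_nonneg_right (mul_le_mul_of_nonneg_right h4 hd) (by positivity))⟩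

/-- Positivity.  With the bounds of `far_a`: `1 ≤ f/o ≤ 2`, `W/o ≤ 2/(d A₀)` and `≤ 1`,
`E = z² + a²ρ²`.
`f2 z² + 2 far z ρ + ft ρ² ≥ (R₀ z² - (R₀/2) |z||aρ| + R₀ a²ρ²)/a³ ≥ (R₀/2) E/a³`;
`(W/o)^{e-1} bf/d ≤ (2/(dA₀))^{e-1} C₄ E/a³`;
`dl = p (f - a f1) - (W - p a) f1`, `|dl| ≤ (B + C₁A₁)/d` (as in `far_b`),
`|dr| ≤ A₁ a C₃/d + (a/d) E₁`, so `(dl z - dr ρ)² ≤ (K/d²) E`; and
`cc ≤ (e-1) 2^{2e-1} (1 + (2dA₁)^{2-e})/(A₀³ a³)` (as in `far_b`). So `mf ≥ 0` for large `d`. -/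
theorem far3_pos {e κ C₁ C₂ C₃ C₄ A₀ A₁ B R₀ R₁ E₁ T₁ : ℝ} (he : 1 < e) (hκ : 0 < κ)
    (hC₁ : 0 ≤ C₁) (hC₂ : 0 ≤ C₂) (hC₃ : 0 ≤ C₃) (hC₄ : 0 ≤ C₄) (hA₀ : 0 < A₀) (hA₁ : A₀ ≤ A₁)
    (hB : 0 ≤ B) (hR₀ : 0 < R₀) (hE : 0 ≤ E₁) : ∃ D, 1 ≤ D ∧
    ∀ P G, PB P A₀ A₁ B R₀ R₁ → PB3 G E₁ R₀ T₁ → ∀ d, D ≤ d → ∀ S T, Far d κ C₁ C₂ S →
      Far3 d C₃ C₄ S T → ∀ z ρ, 0 ≤ mf e d P G S T z ρ := by
  have hA1' : 0 < A₁ := lt_of_lt_of_le hA₀ hA₁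
  obtain ⟨D₁, hD₁, h1⟩ := far_a (C₁ := C₁) (A₁ := A₁) (B := B) C₂ R₀ R₁ he hκ hA₀
  obtain ⟨D₂, hD₂, h2⟩ := gfarb_small (C₂ := C₄)
    (K := (e - 1) * 2 ^ (2 * e - 1) * A₀⁻¹ ^ 3 * ((B + C₁ * A₁) + (A₁ * C₃ + E₁)) ^ 2)
    (R₀ := R₀ / 2) he hA₀ hA1' (by linarith)
  refine ⟨max D₁ D₂, le_max_of_le_left hD₁, fun P G hP hG d hd S T hS hT z ρ => ?_⟩
  obtain ⟨ha, hWl, hWu, hWf, ho, ho2, -, -, -⟩ := h1 P hP d ((le_max_left _ _).trans hd) S hS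
  have hd1 : 1 ≤ d := hD₁.trans ((le_max_left _ _).trans hd)
  have hd0 : 0 < d := by linarith
  have ha0 : 0 < S.a := by linarith
  have ha3 : 0 < S.a ^ 3 := by positivity
  have hs := h2 d ((le_max_right _ _).trans hd)
  have hf := hP.fl _ ha
  have hfu := hP.fu _ ha
  have hf0 : 0 < P.f S.a := lt_of_lt_of_le (by positivity) hf
  have hW0 : 0 < S.W d := lt_of_lt_of_le (by positivity) hWl
  have ho0 : 0 < opp e d P S := lt_of_lt_of_le (by positivity) ho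
  have hdl : |dl d P S| ≤ (B + C₁ * A₁) / d := by
    have e1 : dl d P S =
        S.p d * (P.f S.a - S.a * P.f1 S.a) - (S.s * S.a - S.α) / d * P.f1 S.a := by
      unfold dl St.p St.W
      field_simp
      ring
    have e2 : |S.p d| ≤ 1 / d := by
      unfold St.p
      rw [abs_div, abs_of_pos hd0]
      refine div_le_div_of_nonneg_right ?_ hd0.le
      rw [abs_le]
      constructor <;> linarith [hS.s0, hS.s1]
    have e3 : |(S.s * S.a - S.α) / d| ≤ C₁ / d := by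
      rw [abs_div, abs_of_pos hd0]
      exact div_le_div_of_nonneg_right hS.c0 hd0.le
    have e4 : |P.f1 S.a| ≤ A₁ := by
      rw [abs_of_pos (lt_of_lt_of_le hA₀ (hP.f1l _ ha))]
      exact hP.f1u _ ha
    rw [e1]
    refine (abs_sub _ _).trans ?_
    rw [abs_mul, abs_mul]
    have e5 := mul_le_mul e2 (hP.cb _ ha) (abs_nonneg _) (by positivity)
    have e6 := mul_le_mul e3 e4 (abs_nonneg _) (by positivity)
    refine (add_le_add e5 e6).trans (le_of_eq ?_)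
    ring
  have hdr : |dr d P G S T| ≤ (A₁ * C₃ + E₁) / d * S.a := by
    unfold dr
    refine (abs_add_le _ _).trans ?_
    rw [abs_mul, abs_mul, abs_of_pos hf0, abs_of_pos hW0, abs_div, abs_of_pos hd0]
    have e5 : P.f S.a * (|T.κ| / d) ≤ A₁ * S.a * (C₃ / d) :=
      mul_le_mul hfu (div_le_div_of_nonneg_right hT.κ0 hd0.le) (by positivity) (by positivity)
    have e6 : S.W d * |G.fr S.a| ≤ S.a / d * E₁ :=
      mul_le_mul hWu (hG.f1 _ ha) (abs_nonneg _) (by positivity)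
    refine (add_le_add e5 e6).trans (le_of_eq ?_)
    ring
  obtain ⟨Q, hQd⟩ : ∃ Q, Q = z ^ 2 + S.a ^ 2 * ρ ^ 2 := ⟨_, rfl⟩
  have hQ : 0 ≤ Q := by rw [hQd]; positivity
  have hzQ : |z| ≤ √Q := by
    rw [← sqrt_sq_eq_abs]
    exact sqrt_le_sqrt (by rw [hQd]; nlinarith [sq_nonneg (S.a * ρ)])
  have hrQ : |S.a * ρ| ≤ √Q := by
    rw [← sqrt_sq_eq_abs]
    exact sqrt_le_sqrt (by rw [hQd]; nlinarith [sq_nonneg z])
  have hq : |dl d P S * z - dr d P G S T * ρ| ≤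
      ((B + C₁ * A₁) + (A₁ * C₃ + E₁)) * √Q / d := by
    refine (abs_sub _ _).trans ?_
    rw [abs_mul, abs_mul]
    have e5 : |dl d P S| * |z| ≤ (B + C₁ * A₁) / d * √Q :=
      mul_le_mul hdl hzQ (abs_nonneg _) (by positivity)
    have e6 : |dr d P G S T| * |ρ| ≤ (A₁ * C₃ + E₁) / d * √Q := by
      calc |dr d P G S T| * |ρ| ≤ (A₁ * C₃ + E₁) / d * S.a * |ρ| :=
            mul_le_mul_of_nonneg_right hdr (abs_nonneg _)
        _ = (A₁ * C₃ + E₁) / d * |S.a * ρ| := by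
            rw [abs_mul, abs_of_pos ha0]
            ring
        _ ≤ _ := mul_le_mul_of_nonneg_left hrQ (by positivity)
    refine (add_le_add e5 e6).trans (le_of_eq ?_)
    ring
  have t3 := gfarb_t3 he hd0 ha0 hA₀ hA1' hf hfu hWl hWf ho
    (E := ((B + C₁ * A₁) + (A₁ * C₃ + E₁)) * √Q) (by positivity) hq
  rw [mul_pow _ (√Q) 2, sq_sqrt hQ] at t3
  have hcc : cc e d P S = (e - 1) * S.W d ^ (e - 2) * P.f S.a ^ (e - 2) *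
      opp e d P S ^ (1 - 2 * e) := rfl
  rw [← hcc] at t3
  -- first term
  have g1 : 1 ≤ (P.f S.a / opp e d P S) ^ (e - 1) :=
    one_le_rpow ((one_le_div ho0).2 ho2) (by linarith)
  have g3 : (S.W d / opp e d P S) ^ (e - 1) ≤ (2 / (d * A₀)) ^ (e - 1) := by
    refine rpow_le_rpow (by positivity) ?_ (by linarith)
    rw [div_le_div_iff₀ ho0 (by positivity)]
    have h4 : S.W d * d ≤ S.a := (le_div_iff₀ hd0).1 hWu
    calc S.W d * (d * A₀) = S.W d * d * A₀ := by ring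
      _ ≤ S.a * A₀ := mul_le_mul_of_nonneg_right h4 hA₀.le
      _ ≤ 2 * opp e d P S := by linarith
  have hΦ : R₀ / 2 * Q ≤ (P.f2 S.a * z ^ 2 + 2 * G.far S.a * z * ρ + G.ft S.a * ρ ^ 2) *
      S.a ^ 3 := by
    have k1 : R₀ * z ^ 2 ≤ P.f2 S.a * S.a ^ 3 * z ^ 2 :=
      mul_le_mul_of_nonneg_right (hP.f2l _ ha) (sq_nonneg _)
    have k2 : R₀ * (S.a ^ 2 * ρ ^ 2) ≤ G.ft S.a * S.a * (S.a ^ 2 * ρ ^ 2) :=
      mul_le_mul_of_nonneg_right (hG.t0 _ ha) (by positivity)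
    have k3 : |G.far S.a * S.a ^ 2 * (z * (S.a * ρ))| ≤ R₀ / 4 * |z * (S.a * ρ)| := by
      rw [abs_mul]
      refine mul_le_mul_of_nonneg_right ?_ (abs_nonneg _)
      rw [abs_mul, abs_of_pos (by positivity : (0 : ℝ) < S.a ^ 2)]
      exact hG.f2 _ ha
    have k4 : |z * (S.a * ρ)| ≤ Q := by
      rw [abs_le, hQd]
      constructor <;> nlinarith [sq_nonneg (z + S.a * ρ), sq_nonneg (z - S.a * ρ)]
    have k5 : R₀ / 4 * |z * (S.a * ρ)| ≤ R₀ / 4 * Q :=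
      mul_le_mul_of_nonneg_left k4 (by linarith)
    have k6 := (abs_le.1 (k3.trans k5)).1
    have k7 : (P.f2 S.a * z ^ 2 + 2 * G.far S.a * z * ρ + G.ft S.a * ρ ^ 2) * S.a ^ 3 =
        P.f2 S.a * S.a ^ 3 * z ^ 2 + G.ft S.a * S.a * (S.a ^ 2 * ρ ^ 2) +
        2 * (G.far S.a * S.a ^ 2 * (z * (S.a * ρ))) := by ring
    rw [k7]
    have k8 : R₀ * z ^ 2 + R₀ * (S.a ^ 2 * ρ ^ 2) = R₀ * Q := by
      rw [hQd]
      ring
    linarith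
  have hΦ0 : 0 ≤ R₀ / 2 * Q := by positivity
  have m1 : R₀ / 2 * Q ≤ (P.f S.a / opp e d P S) ^ (e - 1) *
      (P.f2 S.a * z ^ 2 + 2 * G.far S.a * z * ρ + G.ft S.a * ρ ^ 2) * S.a ^ 3 := by
    rw [mul_assoc]
    exact hΦ.trans (le_mul_of_one_le_left (hΦ0.trans hΦ) g1)
  have m2 : (S.W d / opp e d P S) ^ (e - 1) * (bf S T z ρ / d) * S.a ^ 3 ≤
      (2 / (d * A₀)) ^ (e - 1) * C₄ * Q := by
    have k1 : bf S T z ρ / d * S.a ^ 3 ≤ C₄ * Q := by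
      rw [div_mul_eq_mul_div, div_le_iff₀ hd0, hQd]
      refine (hT.p1 z ρ).trans (le_of_eq ?_)
      ring
    have k2 : 0 ≤ bf S T z ρ / d * S.a ^ 3 :=
      mul_nonneg (div_nonneg (hT.p0 z ρ) hd0.le) ha3.le
    calc (S.W d / opp e d P S) ^ (e - 1) * (bf S T z ρ / d) * S.a ^ 3
        = (S.W d / opp e d P S) ^ (e - 1) * (bf S T z ρ / d * S.a ^ 3) := by ring
      _ ≤ (2 / (d * A₀)) ^ (e - 1) * (C₄ * Q) :=
          mul_le_mul g3 k1 k2 (by positivity)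
      _ = _ := by ring
  have m3 : ((2 / (d * A₀)) ^ (e - 1) * C₄ +
      (e - 1) * 2 ^ (2 * e - 1) * A₀⁻¹ ^ 3 * (B + C₁ * A₁ + (A₁ * C₃ + E₁)) ^ 2 *
        (1 + (2 * d * A₁) ^ (2 - e)) / d ^ 2) * Q ≤ R₀ / 2 * Q :=
    mul_le_mul_of_nonneg_right hs.le hQ
  rw [← mul_nonneg_iff_of_pos_right ha3, mf_eq hd0, sub_mul, sub_mul]
  have m4 : (e - 1) * 2 ^ (2 * e - 1) * A₀⁻¹ ^ 3 *
      ((B + C₁ * A₁ + (A₁ * C₃ + E₁)) ^ 2 * Q) * (1 + (2 * d * A₁) ^ (2 - e)) / d ^ 2 =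
      (e - 1) * 2 ^ (2 * e - 1) * A₀⁻¹ ^ 3 * (B + C₁ * A₁ + (A₁ * C₃ + E₁)) ^ 2 *
        (1 + (2 * d * A₁) ^ (2 - e)) / d ^ 2 * Q := by ring
  rw [m4] at t3
  rw [add_mul] at m3
  linarith

end CH
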