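import Pool.Agent.H.MP_1693ff_gtC.NDefs
import Pool.Agent.H.MP_1693ff_gtB.GGlueC
import Pool.Agent.H.MP_1693ff_gtB.GAsymD

/-!
# The gauge function in space: definition
-/

namespace CH

open Real Set Filter Topology CG
open CF hiding St

variable {E : Type*} [NormedAddCommGroup E] [InnerProductSpace ℝ E]

noncomputable section

/-- the function of the angle in the plane of `ax`, `ω`. -/
def pl (H : E → ℝ) (ax ω : E) (θ : ℝ) : ℝ := H (cos θ • ax + sin θ • ω)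

/-- rotating unit vector. -/
def ro (ω η : E) (r : ℝ) : E := cos r • ω + sin r • η

/-- the family of functions of the angle for the frame `(ω, η)`. -/
def hf (H : E → ℝ) (ax ω η : E) (r θ : ℝ) : ℝ := pl H ax (ro ω η r) θ

/-- unit vectors orthogonal to the axis. -/
structure Un (ax ω : E) : Prop where
  n1 : ‖ω‖ = 1
  o1 : inner ℝ ax ω = (0 : ℝ)

/-- orthonormal frames. -/
structure Fm (ax ω η : E) : Prop where
  a : ‖ax‖ = 1
  w : Un ax ω
  h : Un ax η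
  o : inner ℝ ω η = (0 : ℝ)

/-- The curves in all half planes, and the limit slopes. -/
structure GD (e d : ℝ) (H₁ H₂ : E → ℝ) (ax : E) (m M : ℝ) (X Y s YH sH : E → ℝ → ℝ) : Prop where
  m0 : 0 < m
  m1 : m < 1
  M1 : 1 < M
  br : ∀ ω, Un ax ω → Br (ZZ e d (pl H₁ ax ω) (pl H₂ ax ω)) (ZZ e d (pl H₂ ax ω) (pl H₁ ax ω))
    (ZZ e d (ng (pl H₂ ax ω)) (ng (pl H₁ ax ω))) (ZZ e d (ng (pl H₁ ax ω)) (ng (pl H₂ ax ω)))
    (X ω) (Y ω) (s ω) (YH ω) (sH ω)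
  cv : ∀ ω, Un ax ω → GCv e (d * H₁ ax) (d * deriv (pl H₁ ax ω) 0) (d * H₂ ax)
    (d * deriv (ng (pl H₂ ax ω)) 0) (fun x => d * prof (pl H₁ ax ω) x)
    (fun x => d * prof1 (pl H₁ ax ω) x) (fun x => d * prof (ng (pl H₂ ax ω)) x)
    (fun x => d * prof1 (ng (pl H₂ ax ω)) x) (X ω) (Y ω) (s ω) (YH ω) (sH ω)
  lt : ∀ ω, Un ax ω → Tendsto (s ω) atTop (𝓝 m)
  lb : ∀ ω, Un ax ω → Tendsto (s ω) atBot (𝓝 M)
  e1 : (1 - m) ^ e + (M - 1) ^ e = (d * H₁ ax) ^ e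
  e2 : (m⁻¹ - 1) ^ e + (1 - M⁻¹) ^ e = (d * H₂ ax) ^ e

/-- the component orthogonal to the axis. -/
def xi (ax u : E) : E := u - (inner ℝ ax u : ℝ) • ax

open Classical in
/-- The gauge function. -/
def gg (ax : E) (m M : ℝ) (X Y : E → ℝ → ℝ) (u : E) : ℝ :=
  if xi ax u = 0 then
    (if 0 ≤ (inner ℝ ax u : ℝ) then (1 - m) * inner ℝ ax u else (1 - M) * inner ℝ ax u)
  else ‖xi ax u‖ * (inner ℝ ax u / ‖xi ax u‖ + Y (‖xi ax u‖⁻¹ • xi ax u)
    (Function.invFun (X (‖xi ax u‖⁻¹ • xi ax u)) (inner ℝ ax u / ‖xi ax u‖)))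

end

theorem pl_neg (H : E → ℝ) (ax ω : E) : pl H ax (-ω) = ng (pl H ax ω) := by
  funext θ
  simp [pl, ng]

theorem ro_zero (ω η : E) : ro ω η 0 = ω := by simp [ro]

theorem ro_neg (ω η : E) (r : ℝ) : ro (-ω) (-η) r = -ro ω η r := by
  simp only [ro, smul_neg]; abel

theorem hf_neg (H : E → ℝ) (ax ω η : E) (r : ℝ) : hf H ax (-ω) (-η) r = ng (hf H ax ω η r) := by
  show pl H ax (ro (-ω) (-η) r) = ng (pl H ax (ro ω η r))
  rw [ro_neg, pl_neg]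

theorem Un.neg {ax ω : E} (h : Un ax ω) : Un ax (-ω) :=
  ⟨by rw [norm_neg]; exact h.n1, by rw [inner_neg_right, h.o1, neg_zero]⟩

theorem Fm.neg {ax ω η : E} (h : Fm ax ω η) : Fm ax (-ω) (-η) :=
  ⟨h.a, h.w.neg, h.h.neg, by rw [inner_neg_neg]; exact h.o⟩

/-- `ro ω η r` is a unit vector orthogonal to the axis. -/
theorem Fm.ro {ax ω η : E} (h : Fm ax ω η) (r : ℝ) : Un ax (ro ω η r) := by
  have h1 := h.w.n1
  have h2 := h.h.n1
  have h3 := h.o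
  have hn : ‖CH.ro ω η r‖ ^ 2 = 1 := by
    rw [CH.ro, norm_add_sq_real, norm_smul, norm_smul, h1, h2, inner_smul_left,
      inner_smul_right, h3]
    simp
  refine ⟨?_, ?_⟩
  · have h0 := norm_nonneg (CH.ro ω η r)
    nlinarith
  · rw [CH.ro, inner_add_right, inner_smul_right, inner_smul_right, h.w.o1, h.h.o1]
    ring

end CH
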