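import Pool.Agent.H.MP_1693ff_gtC.NBody
import Pool.Agent.H.MP_1693ff_gtC.NSpace

/-!
# Pairs of chord functions: scaling, frames
-/

namespace CH

open Real Set Filter Topology CG Pointwise
open CF hiding St

/-- `K` is a convex body in `E` with `i`-chord functions `f₁`, `f₂` at the interior points
`p₁`, `p₂`. -/
def PairE {E : Type*} [NormedAddCommGroup E] [NormedSpace ℝ E] (i : ℝ) (f₁ f₂ : E → ℝ)
    (K : Set E) (p₁ p₂ : E) : Prop :=
  IsBody K ∧ p₁ ∈ interior K ∧ p₂ ∈ interior K ∧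
    (∀ u, ‖u‖ = 1 → chord i K p₁ u = f₁ u) ∧ ∀ u, ‖u‖ = 1 → chord i K p₂ u = f₂ u

theorem nfin_radial_smul {E : Type*} [AddCommGroup E] [Module ℝ E] {K : Set E} {p u : E}
    {d : ℝ} (hd : 0 < d) : radial (d • K) (d • p) u = d * radial K p u := by
  unfold radial
  have h : {c : ℝ | 0 ≤ c ∧ d • p + c • u ∈ d • K} = d • {c : ℝ | 0 ≤ c ∧ p + c • u ∈ K} := by
    ext c
    rw [Set.mem_smul_set_iff_inv_smul_mem₀ hd.ne']
    simp only [mem_ofPred_eq, smul_eq_mul]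
    rw [Set.mem_smul_set_iff_inv_smul_mem₀ hd.ne']
    have e : d⁻¹ • (d • p + c • u) = p + (d⁻¹ * c) • u := by
      rw [smul_add, smul_smul, smul_smul, inv_mul_cancel₀ hd.ne', one_smul]
    rw [e]
    have e2 : 0 ≤ d⁻¹ * c ↔ 0 ≤ c := by
      constructor
      · intro h
        have := mul_nonneg hd.le h
        rwa [← mul_assoc, mul_inv_cancel₀ hd.ne', one_mul] at this
      · intro h
        positivity
    rw [e2]
  rw [h, Real.sSup_smul_of_nonneg hd.le, smul_eq_mul]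

theorem nfin_radial_nonneg {E : Type*} [AddCommGroup E] [Module ℝ E] (K : Set E) (p u : E) :
    0 ≤ radial K p u :=
  Real.sSup_nonneg fun _ hc => hc.1

theorem nfin_chord_smul {E : Type*} [AddCommGroup E] [Module ℝ E] {i : ℝ} (hi : i ≠ 0)
    {K : Set E} {p u : E} {d : ℝ} (hd : 0 < d) :
    chord i (d • K) (d • p) u = d ^ i * chord i K p u := by
  unfold chord
  rw [if_neg hi, if_neg hi, nfin_radial_smul hd, nfin_radial_smul hd,
    Real.mul_rpow hd.le (nfin_radial_nonneg _ _ _),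
    Real.mul_rpow hd.le (nfin_radial_nonneg _ _ _), mul_add]

theorem nfin_orth {n : ℕ} (hn : 3 ≤ n) (a b : EuclideanSpace ℝ (Fin n)) :
    ∃ x, ‖x‖ = 1 ∧ inner ℝ a x = (0 : ℝ) ∧ inner ℝ b x = (0 : ℝ) := by
  obtain ⟨W, hW⟩ : ∃ W : Submodule ℝ (EuclideanSpace ℝ (Fin n)),
      W = Submodule.span ℝ (Set.range ![a, b]) := ⟨_, rfl⟩
  have h1 : Module.finrank ℝ W ≤ 2 := by
    have h4 := finrank_range_le_card (R := ℝ) ![a, b]
    rw [Fintype.card_fin] at h4
    rw [hW]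
    exact h4
  have h2 := Submodule.finrank_add_finrank_orthogonal W
  rw [finrank_euclideanSpace_fin] at h2
  have h3 : Wᗮ ≠ ⊥ := by
    intro h
    rw [h, finrank_bot] at h2
    omega
  obtain ⟨x, hx, hx0⟩ := Submodule.exists_mem_ne_zero_of_ne_bot h3
  have ha : inner ℝ a x = (0 : ℝ) :=
    (Submodule.mem_orthogonal W x).1 hx a (by rw [hW]; exact Submodule.subset_span ⟨0, rfl⟩)
  have hb : inner ℝ b x = (0 : ℝ) :=
    (Submodule.mem_orthogonal W x).1 hx b (by rw [hW]; exact Submodule.subset_span ⟨1, rfl⟩)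
  refine ⟨‖x‖⁻¹ • x, ?_, ?_, ?_⟩
  · rw [norm_smul, norm_inv, norm_norm, inv_mul_cancel₀ (norm_ne_zero_iff.2 hx0)]
  · rw [inner_smul_right, ha, mul_zero]
  · rw [inner_smul_right, hb, mul_zero]

/-- Scaling (compare `pairI_smul`). -/
theorem pairE_smul {E : Type*} [NormedAddCommGroup E] [NormedSpace ℝ E] {i : ℝ} (hi : i ≠ 0)
    {f₁ f₂ : E → ℝ} {K : Set E} {p₁ p₂ : E} {d : ℝ} (hd : 0 < d)
    (h : PairE i (fun u => d ^ (-i) * f₁ u) (fun u => d ^ (-i) * f₂ u) K p₁ p₂) :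
    PairE i f₁ f₂ (d • K) (d • p₁) (d • p₂) := by
  obtain ⟨⟨hc, hk, hi'⟩, h1, h2, h3, h4⟩ := h
  have hint : interior (d • K) = d • interior K := interior_smul₀ hd.ne' K
  have hdd : d ^ i * d ^ (-i) = 1 := by
    rw [← Real.rpow_add hd, add_neg_cancel, Real.rpow_zero]
  refine ⟨⟨hc.smul d, hk.smul d, ?_⟩, ?_, ?_, ?_, ?_⟩
  · rw [hint]; exact hi'.smul_set
  · rw [hint]; exact smul_mem_smul_set h1
  · rw [hint]; exact smul_mem_smul_set h2
  · intro u hu
    rw [nfin_chord_smul hi hd, h3 u hu, ← mul_assoc, hdd, one_mul]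
  · intro u hu
    rw [nfin_chord_smul hi hd, h4 u hu, ← mul_assoc, hdd, one_mul]

/-- Frames in dimension at least three: the orthogonal complement of the span of two vectors is
not zero. -/
theorem exists_frame {n : ℕ} (hn : 3 ≤ n) {ax : EuclideanSpace ℝ (Fin n)} (hax : ‖ax‖ = 1) :
    (∀ ω, Un ax ω → ∃ η, Fm ax ω η) ∧ ∃ ω, Un ax ω := by
  constructor
  · intro ω hω
    obtain ⟨x, h1, h2, h3⟩ := nfin_orth hn ax ω
    exact ⟨x, hax, hω, ⟨h1, h2⟩, h3⟩
  · obtain ⟨x, h1, h2, -⟩ := nfin_orth hn ax ax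
    exact ⟨x, h1, h2⟩

end CH
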