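import Pool.Agent.H.MP_1693ff_gtC.NNear

/-!
# Near-constant functions on the sphere: the root
-/

namespace CH

open Real Set Filter Topology CG
open CF hiding St

variable {E : Type*} [NormedAddCommGroup E] [InnerProductSpace ℝ E]

/-- the derivatives of a power are bounded on compact intervals -/
theorem nnearb_bound {p C : ℝ} (hC : 0 < C) : ∃ K : ℝ, 0 ≤ K ∧ ∀ i : ℕ, i ≤ 3 →
    ∀ x ∈ Icc (C / 2) (2 * C), ‖iteratedFDerivWithin ℝ i (fun x : ℝ => x ^ p) (Ioi 0) x‖ ≤ K := by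
  have h1 : ContDiffOn ℝ 3 (fun x : ℝ => x ^ p) (Ioi 0) :=
    contDiffOn_id.rpow_const_of_ne fun x hx => (ne_of_gt hx)
  have h2 : ∀ i : ℕ, i ≤ 3 → ∃ K, ∀ x ∈ Icc (C / 2) (2 * C),
      ‖iteratedFDerivWithin ℝ i (fun x : ℝ => x ^ p) (Ioi 0) x‖ ≤ K := by
    intro i hi
    refine isCompact_Icc.exists_bound_of_continuousOn ?_
    refine ContinuousOn.mono (h1.continuousOn_iteratedFDerivWithin (m := i) ?_
      isOpen_Ioi.uniqueDiffOn) ?_
    · exact_mod_cast hi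
    · intro x hx
      have : C / 2 ≤ x := hx.1
      show 0 < x
      linarith
  obtain ⟨K0, h0⟩ := h2 0 (by omega)
  obtain ⟨K1, h1'⟩ := h2 1 (by omega)
  obtain ⟨K2, h2'⟩ := h2 2 (by omega)
  obtain ⟨K3, h3⟩ := h2 3 (by omega)
  refine ⟨|K0| + |K1| + |K2| + |K3|, by positivity, ?_⟩
  intro i hi x hx
  have a0 := abs_nonneg K0
  have a1 := abs_nonneg K1
  have a2 := abs_nonneg K2
  have a3 := abs_nonneg K3
  have b0 := le_abs_self K0
  have b1 := le_abs_self K1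
  have b2 := le_abs_self K2
  have b3 := le_abs_self K3
  interval_cases i
  · have := h0 x hx; linarith
  · have := h1' x hx; linarith
  · have := h2' x hx; linarith
  · have := h3 x hx; linarith

/-- The root.  `g x = x^{1/e}` on `[C/2, 3C/2]` has bounded derivatives up to order three;
`norm_iteratedFDeriv_comp_le` (Faa di Bruno bound, at a point, with `‖D^i f‖ ≤ (δ^{1/3})^i` for
`i = 1,2,3`, `δ ≤ 1`) gives `‖D^n (g ∘ f)‖ ≤ n! K δ^{n/3}`, `n ≤ 3`.  (Work on the open set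
`{0}ᶜ`, or with `iteratedFDerivWithin` on it.)  `|f^{1/e} - C^{1/e}| ≤ K |f - C|`. -/
theorem nf_root {e C ε : ℝ} (he : 1 < e) (hC : 0 < C) (hε : 0 < ε) :
    ∃ δ > 0, δ ≤ C / 2 ∧ ∀ f : E → ℝ, NF f C δ → NF (fun u => f u ^ e⁻¹) (C ^ e⁻¹) ε := by
  obtain ⟨K, hK0, hK⟩ := nnearb_bound (p := e⁻¹) hC
  have hcont : ContinuousAt (fun x : ℝ => x ^ e⁻¹) C := continuousAt_rpow_const _ _ (Or.inl hC.ne')
  obtain ⟨δ0, hδ0, hcl⟩ := Metric.continuousAt_iff.1 hcont ε hε
  set D : ℝ := min 1 (ε / (6 * (K + 1))) with hD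
  have hD0 : 0 < D := lt_min one_pos (by positivity)
  have hD1 : D ≤ 1 := min_le_left _ _
  have hD2 : 6 * K * D ≤ ε := by
    have h1 : D ≤ ε / (6 * (K + 1)) := min_le_right _ _
    rw [le_div_iff₀ (by positivity)] at h1
    nlinarith
  set δ : ℝ := min (min (D ^ 3) (C / 2)) (δ0 / 2) with hδ
  have hδpos : 0 < δ := lt_min (lt_min (pow_pos hD0 3) (by linarith)) (by linarith)
  have hδ1 : δ ≤ D ^ 3 := (min_le_left _ _).trans (min_le_left _ _)
  have hδ2 : δ ≤ C / 2 := (min_le_left _ _).trans (min_le_right _ _)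
  have hδ3 : δ ≤ δ0 / 2 := min_le_right _ _
  refine ⟨δ, hδpos, hδ2, fun f H => ?_⟩
  have hDi : ∀ i : ℕ, 1 ≤ i → i ≤ 3 → δ ≤ D ^ i := fun i _ hi =>
    hδ1.trans (pow_le_pow_of_le_one hD0.le hD1 hi)
  have hval : ∀ u : E, u ≠ 0 → C / 2 ≤ f u ∧ f u ≤ 3 * C / 2 := by
    intro u hu
    have hn : 0 < ‖u‖ := norm_pos_iff.2 hu
    have h1 : f (‖u‖⁻¹ • u) = f u := H.hom _ (inv_ne_zero hn.ne') u
    have h2 : ‖‖u‖⁻¹ • u‖ = 1 := by
      rw [norm_smul, norm_inv, norm_norm, inv_mul_cancel₀ hn.ne']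
    have h3 := abs_le.1 (H.n0 _ h2)
    rw [h1] at h3
    constructor <;> linarith [h3.1, h3.2]
  have hmap : MapsTo f {0}ᶜ (Ioi 0) := by
    intro u hu
    have := (hval u hu).1
    show 0 < f u
    linarith
  have hpow : ContDiffOn ℝ 3 (fun x : ℝ => x ^ e⁻¹) (Ioi 0) :=
    contDiffOn_id.rpow_const_of_ne fun x hx => (ne_of_gt hx)
  have hopen : IsOpen ({0}ᶜ : Set E) := isOpen_compl_singleton
  have hc3 : ContDiffOn ℝ 3 (fun u => f u ^ e⁻¹) {0}ᶜ := hpow.comp H.c3 hmap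
  have key : ∀ (n : ℕ), 1 ≤ n → n ≤ 3 → ∀ u : E, ‖u‖ = 1 →
      ‖iteratedFDeriv ℝ n (fun u => f u ^ e⁻¹) u‖ ≤ ε := by
    intro n hn1 hn3 u hu
    have hu0 : u ∈ ({0}ᶜ : Set E) := by
      intro h
      have h' : u = 0 := h
      rw [h', norm_zero] at hu
      exact zero_ne_one hu
    have hfu := hval u hu0
    have hmem : f u ∈ Icc (C / 2) (2 * C) := ⟨hfu.1, by linarith [hfu.2]⟩
    have h1 : ‖iteratedFDerivWithin ℝ n ((fun x : ℝ => x ^ e⁻¹) ∘ f) {0}ᶜ u‖ ≤
        (Nat.factorial n : ℝ) * K * D ^ n := by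
      refine norm_iteratedFDerivWithin_comp_le hpow H.c3 (by exact_mod_cast hn3)
        isOpen_Ioi.uniqueDiffOn hopen.uniqueDiffOn hmap hu0 ?_ ?_
      · intro i hi
        exact hK i (hi.trans hn3) _ hmem
      · intro i hi1 hi2
        rw [iteratedFDerivWithin_of_isOpen i hopen hu0]
        refine le_trans ?_ (hDi i hi1 (hi2.trans hn3))
        have hi3 : i ≤ 3 := hi2.trans hn3
        interval_cases i
        · exact H.n1 u hu
        · exact H.n2 u hu
        · exact H.n3 u hu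
    rw [iteratedFDerivWithin_of_isOpen n hopen hu0] at h1
    have h2 : (Nat.factorial n : ℝ) ≤ 6 := by
      have : Nat.factorial n ≤ Nat.factorial 3 := Nat.factorial_le hn3
      exact_mod_cast this
    have h3 : D ^ n ≤ D := by
      have := pow_le_pow_of_le_one hD0.le hD1 hn1
      simpa using this
    have h4 : (Nat.factorial n : ℝ) * K * D ^ n ≤ 6 * K * D := by
      have h5 : (Nat.factorial n : ℝ) * K ≤ 6 * K := mul_le_mul_of_nonneg_right h2 hK0
      exact mul_le_mul h5 h3 (pow_nonneg hD0.le n) (by positivity)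
    exact h1.trans (h4.trans hD2)
  refine ⟨fun t ht u => by rw [H.hom t ht u], hc3, ?_, key 1 le_rfl (by omega), key 2 (by omega) (by omega), key 3 (by omega) le_rfl⟩
  intro u hu
  have h1 := H.n0 u hu
  have h2 : dist (f u) C < δ0 := by
    rw [Real.dist_eq]
    linarith
  have h3 := hcl h2
  rw [Real.dist_eq] at h3
  exact h3.le

end CH
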