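import Pool.Agent.H.MP_1693ff_gtC.NNear

/-!
# Near-constant functions on the sphere: the family of profiles
-/

namespace CH

open Real Set Filter Topology CG
open CF hiding St

variable {E : Type*} [NormedAddCommGroup E] [InnerProductSpace ℝ E]

theorem nnearc_norm_sq {x y : E} (hx : ‖x‖ = 1) (hy : ‖y‖ = 1) (hxy : inner ℝ x y = (0 : ℝ))
    (a b : ℝ) : ‖a • x + b • y‖ ^ 2 = a ^ 2 + b ^ 2 := by
  rw [norm_add_sq_real, norm_smul, norm_smul, hx, hy, inner_smul_left, inner_smul_right, hxy]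
  simp

theorem nnearc_norm_one {x y : E} (hx : ‖x‖ = 1) (hy : ‖y‖ = 1) (hxy : inner ℝ x y = (0 : ℝ))
    {a b : ℝ} (hab : a ^ 2 + b ^ 2 = 1) : ‖a • x + b • y‖ = 1 := by
  have h := nnearc_norm_sq hx hy hxy a b
  rw [hab] at h
  have h0 := norm_nonneg (a • x + b • y)
  nlinarith

theorem nnearc_d {F : E → ℝ} {c δ : ℝ} (H : NF F c δ) {u : E} (hu : u ≠ 0) :
    ContDiffAt ℝ 3 F u ∧ ContDiffAt ℝ 2 (fderiv ℝ F) u ∧
      ContDiffAt ℝ 1 (fderiv ℝ (fderiv ℝ F)) u := by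
  have h1 : ContDiffAt ℝ 3 F u := H.c3.contDiffAt (isOpen_compl_singleton.mem_nhds hu)
  have h2 : ContDiffAt ℝ 2 (fderiv ℝ F) u := h1.fderiv_right (by norm_num)
  exact ⟨h1, h2, h2.fderiv_right (by norm_num)⟩

theorem nnearc_symm {F : E → ℝ} {c δ : ℝ} (H : NF F c δ) {u : E} (hu : u ≠ 0) (v w : E) :
    fderiv ℝ (fderiv ℝ F) u v w = fderiv ℝ (fderiv ℝ F) u w v :=
  ((nnearc_d H hu).1.isSymmSndFDerivAt
    (by rw [minSmoothness_of_isRCLikeNormedField]; norm_num)).eq v w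

/-- first derivative along a curve -/
theorem nnearc_c1 {F : E → ℝ} {c δ : ℝ} (H : NF F c δ) {γ : ℝ → E} {γ' : E} {t : ℝ}
    (hγ : HasDerivAt γ γ' t) (h0 : γ t ≠ 0) :
    HasDerivAt (fun t => F (γ t)) (fderiv ℝ F (γ t) γ') t := by
  have h1 : HasFDerivAt F (fderiv ℝ F (γ t)) (γ t) :=
    ((nnearc_d H h0).1.differentiableAt (by norm_num)).hasFDerivAt
  exact h1.comp_hasDerivAt t hγ

/-- second derivative along a curve -/
theorem nnearc_c2 {F : E → ℝ} {c δ : ℝ} (H : NF F c δ) {γ w : ℝ → E} {γ' w' : E} {t : ℝ}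
    (hγ : HasDerivAt γ γ' t) (hw : HasDerivAt w w' t) (h0 : γ t ≠ 0) :
    HasDerivAt (fun t => fderiv ℝ F (γ t) (w t))
      (fderiv ℝ (fderiv ℝ F) (γ t) γ' (w t) + fderiv ℝ F (γ t) w') t := by
  have h1 : HasFDerivAt (fderiv ℝ F) (fderiv ℝ (fderiv ℝ F) (γ t)) (γ t) :=
    ((nnearc_d H h0).2.1.differentiableAt (by norm_num)).hasFDerivAt
  have h2 : HasDerivAt (fun t => fderiv ℝ F (γ t)) (fderiv ℝ (fderiv ℝ F) (γ t) γ') t :=
    h1.comp_hasDerivAt t hγ
  exact h2.clm_apply hw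

/-- third derivative along a curve -/
theorem nnearc_c3 {F : E → ℝ} {c δ : ℝ} (H : NF F c δ) {γ w : ℝ → E} {γ' w' x : E} {t : ℝ}
    (hγ : HasDerivAt γ γ' t) (hw : HasDerivAt w w' t) (h0 : γ t ≠ 0) :
    HasDerivAt (fun t => fderiv ℝ (fderiv ℝ F) (γ t) (w t) x)
      (fderiv ℝ (fderiv ℝ (fderiv ℝ F)) (γ t) γ' (w t) x +
        fderiv ℝ (fderiv ℝ F) (γ t) w' x) t := by
  have h1 : HasFDerivAt (fderiv ℝ (fderiv ℝ F)) (fderiv ℝ (fderiv ℝ (fderiv ℝ F)) (γ t)) (γ t) :=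
    ((nnearc_d H h0).2.2.differentiableAt (by norm_num)).hasFDerivAt
  have h0 : HasDerivAt (fun t => fderiv ℝ (fderiv ℝ F) (γ t))
      (fderiv ℝ (fderiv ℝ (fderiv ℝ F)) (γ t) γ') t :=
    HasFDerivAt.comp_hasDerivAt (l := fderiv ℝ (fderiv ℝ F)) t h1 hγ
  have h2 := h0.clm_apply hw
  have h3 := h2.clm_apply (hasDerivAt_const t x)
  simpa using h3

theorem nnearc_circ (x y : E) (θ : ℝ) : HasDerivAt (fun θ : ℝ => cos θ • x + sin θ • y)
    (-sin θ • x + cos θ • y) θ :=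
  ((hasDerivAt_cos θ).smul_const x).add ((hasDerivAt_sin θ).smul_const y)

theorem nnearc_circ' (x y : E) (θ : ℝ) : HasDerivAt (fun θ : ℝ => -sin θ • x + cos θ • y)
    (-(cos θ • x + sin θ • y)) θ := by
  have h := ((hasDerivAt_sin θ).neg.smul_const x).add ((hasDerivAt_cos θ).smul_const y)
  have h2 : -(cos θ • x + sin θ • y) = -cos θ • x + -sin θ • y := by
    rw [neg_add, neg_smul, neg_smul]
  rw [h2]
  exact h

/-- In a plane: `θ ↦ F (cos θ ax + sin θ ω)` is `Near`. `h' = DF u (u')`,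
`h'' = D²F u (u', u') + DF u (-u)`, `|u| = |u'| = 1`. -/
theorem nf_near {F : E → ℝ} {c δ : ℝ} (hδ : 0 ≤ δ) (H : NF F c δ) {ax ω : E} (hax : ‖ax‖ = 1)
    (hω : Un ax ω) : Near (pl F ax ω) c (2 * δ) := by
  have hn : ∀ θ, ‖cos θ • ax + sin θ • ω‖ = 1 := fun θ =>
    nnearc_norm_one hax hω.n1 hω.o1 (cos_sq_add_sin_sq θ)
  have hn' : ∀ θ, ‖-sin θ • ax + cos θ • ω‖ = 1 := fun θ =>
    nnearc_norm_one hax hω.n1 hω.o1 (by rw [neg_sq]; exact sin_sq_add_cos_sq θ)
  have hne : ∀ θ, cos θ • ax + sin θ • ω ≠ 0 := fun θ h => by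
    have := hn θ
    rw [h, norm_zero] at this
    exact zero_ne_one this
  have h1 : ∀ θ, HasDerivAt (pl F ax ω)
      (fderiv ℝ F (cos θ • ax + sin θ • ω) (-sin θ • ax + cos θ • ω)) θ := fun θ =>
    nnearc_c1 H (nnearc_circ ax ω θ) (hne θ)
  have e1 : deriv (pl F ax ω) = fun θ =>
      fderiv ℝ F (cos θ • ax + sin θ • ω) (-sin θ • ax + cos θ • ω) :=
    funext fun θ => (h1 θ).deriv
  have h2 : ∀ θ, HasDerivAt (deriv (pl F ax ω))
      (fderiv ℝ (fderiv ℝ F) (cos θ • ax + sin θ • ω) (-sin θ • ax + cos θ • ω)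
        (-sin θ • ax + cos θ • ω) +
        fderiv ℝ F (cos θ • ax + sin θ • ω) (-(cos θ • ax + sin θ • ω))) θ := by
    intro θ
    rw [e1]
    exact nnearc_c2 H (nnearc_circ ax ω θ) (nnearc_circ' ax ω θ) (hne θ)
  refine ⟨?_, ?_, ?_, ?_, ?_⟩
  · intro θ
    unfold pl
    rw [cos_add_pi, sin_add_pi]
    have := H.hom (-1) (by norm_num) (cos θ • ax + sin θ • ω)
    rw [← this]
    congr 1
    module
  · rw [contDiff_iff_contDiffAt]
    intro θ
    have hc : ContDiff ℝ 2 (fun θ : ℝ => cos θ • ax + sin θ • ω) := by fun_prop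
    exact ContDiffAt.comp θ (((nnearc_d H (hne θ)).1).of_le (by norm_num)) hc.contDiffAt
  · intro θ
    have := H.n0 _ (hn θ)
    exact this.trans (by linarith)
  · intro θ
    rw [(h1 θ).deriv]
    have := (nf_scale H (hne θ)).1 (-sin θ • ax + cos θ • ω)
    rw [hn, hn'] at this
    refine this.trans ?_
    linarith
  · intro θ
    rw [(h2 θ).deriv]
    obtain ⟨b1, b2, -, b4, -⟩ := nf_scale H (hne θ)
    rw [map_neg, b4, neg_zero, add_zero]
    have := b2 (-sin θ • ax + cos θ • ω) (-sin θ • ax + cos θ • ω)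
    rw [hn, hn'] at this
    refine this.trans ?_
    linarith

theorem nnearc_ro_d (ω η : E) (r : ℝ) : HasDerivAt (fun r => ro ω η r)
    (-sin r • ω + cos r • η) r := nnearc_circ ω η r

/-- the profile in homogeneous form -/
theorem nnearc_prof {F : E → ℝ} {c δ : ℝ} (H : NF F c δ) (ax ω η : E) (a r : ℝ) :
    prof (hf F ax ω η r) a = √(1 + a ^ 2) * F (a • ax + ro ω η r) := by
  have hs : 0 < √(1 + a ^ 2) := Real.sqrt_pos.2 (by positivity)
  unfold prof hf pl
  congr 1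
  rw [cos_pi_div_two_sub, sin_pi_div_two_sub, sin_arctan, cos_arctan,
    ← H.hom (√(1 + a ^ 2))⁻¹ (inv_ne_zero hs.ne') (a • ax + ro ω η r)]
  congr 1
  rw [smul_add, smul_smul]
  congr 2
  · rw [div_eq_inv_mul]
  · rw [one_div]

/-- The transverse data.  `u = a ax + ro ω η r`, `η_r = ∂_r ro`, `|u|² = 1 + a²`,
`P (a, r) = prof (hf F ax ω η r) a = |u| F u` (`hom`). `∂_r P = |u| DF u η_r`;
`∂_a P = (a/|u|) F u + |u| DF u ax`;
`∂_r ∂_a P = (a/|u|) DF u η_r + |u| D²F u ax η_r = |u| D²F u (ax - (a/|u|²) u) η_r` (Euler), and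
`|ax - (a/|u|²) u| = 1/|u|`;
`∂_r² P = |u| (D²F u η_r η_r - DF u ro)`, `DF u ro = -a DF u ax` (Euler), so
`ft = ∂_r²P + P - a ∂_a P = |u| D²F u η_r η_r + F u/|u|`.
At `a = 0`: `prof1 = DF ro ax`, `∂_r² (DF ro ax) = D³F ro η_r η_r ax - D²F ro ro ax`. -/
theorem nf_n3 {F : E → ℝ} {c δ : ℝ} (hδ : 0 ≤ δ) (H : NF F c δ) {ax ω η : E}
    (fm : Fm ax ω η) : N3 (hf F ax ω η) c (4 * δ) := by
  have hro : ∀ r, ‖ro ω η r‖ = 1 := fun r => (fm.ro r).n1
  have hroa : ∀ r, inner ℝ ax (ro ω η r) = (0 : ℝ) := fun r => (fm.ro r).o1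
  -- `η_r`
  obtain ⟨re, hre⟩ : ∃ re : ℝ → E, ∀ r, re r = -sin r • ω + cos r • η := ⟨_, fun _ => rfl⟩
  have hren : ∀ r, ‖re r‖ = 1 := fun r => by
    rw [hre]
    exact nnearc_norm_one fm.w.n1 fm.h.n1 fm.o (by rw [neg_sq]; exact sin_sq_add_cos_sq r)
  have dro : ∀ r, HasDerivAt (fun r => ro ω η r) (re r) r := fun r => by
    rw [hre]
    exact nnearc_ro_d ω η r
  have dre : ∀ r, HasDerivAt re (-ro ω η r) r := fun r => by
    have h1 : re = fun r => -sin r • ω + cos r • η := funext hre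
    rw [h1]
    exact nnearc_circ' ω η r
  have hu2 : ∀ a r : ℝ, ‖a • ax + ro ω η r‖ ^ 2 = 1 + a ^ 2 := fun a r => by
    have := nnearc_norm_sq fm.a (hro r) (hroa r) a 1
    rw [one_smul] at this
    rw [this]
    ring
  have hun : ∀ a r : ℝ, ‖a • ax + ro ω η r‖ = √(1 + a ^ 2) := fun a r => by
    rw [← hu2 a r, Real.sqrt_sq (norm_nonneg _)]
  have hs : ∀ a : ℝ, 0 < √(1 + a ^ 2) := fun a => Real.sqrt_pos.2 (by positivity)
  have hs2 : ∀ a : ℝ, √(1 + a ^ 2) ^ 2 = 1 + a ^ 2 := fun a => Real.sq_sqrt (by positivity)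
  have hne : ∀ a r : ℝ, a • ax + ro ω η r ≠ 0 := fun a r h => by
    have := hun a r
    rw [h, norm_zero] at this
    exact (hs a).ne this
  have dur : ∀ a r : ℝ, HasDerivAt (fun r => a • ax + ro ω η r) (re r) r := fun a r =>
    (dro r).const_add _
  have dua : ∀ a r : ℝ, HasDerivAt (fun a : ℝ => a • ax + ro ω η r) ax a := fun a r => by
    have := ((hasDerivAt_id a).smul_const ax).add_const (ro ω η r)
    simpa using this
  have dsq : ∀ a : ℝ, HasDerivAt (fun a : ℝ => √(1 + a ^ 2)) (a / √(1 + a ^ 2)) a := fun a => by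
    have h1 : HasDerivAt (fun a : ℝ => 1 + a ^ 2) (2 * a) a := by
      have := ((hasDerivAt_id a).pow 2).const_add 1
      simpa using this
    have h2 := h1.sqrt (by positivity)
    convert h2 using 1
    have := hs a
    field_simp
  -- near
  have hnear : ∀ r, Near (hf F ax ω η r) c (2 * δ) := fun r => nf_near hδ H fm.a (fm.ro r)
  -- `prof1`
  have hp1 : ∀ a r : ℝ, prof1 (hf F ax ω η r) a = a / √(1 + a ^ 2) * F (a • ax + ro ω η r) +
      √(1 + a ^ 2) * fderiv ℝ F (a • ax + ro ω η r) ax := fun a r => by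
    have h1 := (prof_deriv (hnear r).c2 a).1
    have h2 : HasDerivAt (prof (hf F ax ω η r)) (a / √(1 + a ^ 2) * F (a • ax + ro ω η r) +
        √(1 + a ^ 2) * fderiv ℝ F (a • ax + ro ω η r) ax) a := by
      have h3 : prof (hf F ax ω η r) = fun a => √(1 + a ^ 2) * F (a • ax + ro ω η r) :=
        funext fun a => nnearc_prof H ax ω η a r
      rw [h3]
      exact (dsq a).mul (nnearc_c1 H (dua a r) (hne a r))
    exact h1.unique h2
  have dP : ∀ a r : ℝ, HasDerivAt (fun r' => prof (hf F ax ω η r') a)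
      (√(1 + a ^ 2) * fderiv ℝ F (a • ax + ro ω η r) (re r)) r := fun a r => by
    have h3 : (fun r' => prof (hf F ax ω η r') a) =
        fun r' => √(1 + a ^ 2) * F (a • ax + ro ω η r') :=
      funext fun r' => nnearc_prof H ax ω η a r'
    rw [h3]
    exact (nnearc_c1 H (dur a r) (hne a r)).const_mul _
  have dP1 : ∀ a r : ℝ, HasDerivAt (fun r' => prof1 (hf F ax ω η r') a)
      (a / √(1 + a ^ 2) * fderiv ℝ F (a • ax + ro ω η r) (re r) +
        √(1 + a ^ 2) * fderiv ℝ (fderiv ℝ F) (a • ax + ro ω η r) (re r) ax) r := fun a r => by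
    have h3 : (fun r' => prof1 (hf F ax ω η r') a) =
        fun r' => a / √(1 + a ^ 2) * F (a • ax + ro ω η r') +
      √(1 + a ^ 2) * fderiv ℝ F (a • ax + ro ω η r') ax :=
      funext fun r' => hp1 a r'
    rw [h3]
    have h4 := nnearc_c2 H (dur a r) (hasDerivAt_const r ax) (hne a r)
    rw [map_zero, add_zero] at h4
    exact ((nnearc_c1 H (dur a r) (hne a r)).const_mul _).add (h4.const_mul _)
  have dPP : ∀ a r : ℝ, deriv (deriv fun r' => prof (hf F ax ω η r') a) r =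
      √(1 + a ^ 2) * (fderiv ℝ (fderiv ℝ F) (a • ax + ro ω η r) (re r) (re r) +
        fderiv ℝ F (a • ax + ro ω η r) (-ro ω η r)) := fun a r => by
    have h3 : (deriv fun r' => prof (hf F ax ω η r') a) =
        fun r => √(1 + a ^ 2) * fderiv ℝ F (a • ax + ro ω η r) (re r) :=
      funext fun r => (dP a r).deriv
    rw [h3]
    exact ((nnearc_c2 H (dur a r) (dre r) (hne a r)).const_mul _).deriv
  refine ⟨fun r => (hnear r).mono (by linarith), ?_, ?_, ?_, ?_, ?_, ?_, ?_⟩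
  · intro r θ
    unfold hf pl ro
    rw [cos_add_pi, sin_add_pi, cos_neg, sin_neg]
    congr 2
    module
  · have h3 : (fun p : ℝ × ℝ => prof (hf F ax ω η p.2) p.1) =
        fun p => √(1 + p.1 ^ 2) * F (p.1 • ax + ro ω η p.2) :=
      funext fun p => nnearc_prof H ax ω η p.1 p.2
    rw [h3, contDiff_iff_contDiffAt]
    intro p
    refine ContDiffAt.mul ?_ ?_
    · refine ContDiffAt.sqrt (by fun_prop) (by positivity)
    · have hc : ContDiff ℝ 2 (fun p : ℝ × ℝ => p.1 • ax + ro ω η p.2) := by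
        unfold ro
        fun_prop
      exact ContDiffAt.comp p (((nnearc_d H (hne p.1 p.2)).1).of_le (by norm_num)) hc.contDiffAt
  · intro a r
    show |deriv (fun r' => prof (hf F ax ω η r') a) r| ≤ 4 * δ
    rw [(dP a r).deriv, abs_mul, abs_of_pos (hs a)]
    have h1 := (nf_scale H (hne a r)).1 (re r)
    rw [hun, hren, mul_one] at h1
    have h2 : √(1 + a ^ 2) * |fderiv ℝ F (a • ax + ro ω η r) (re r)| ≤
        √(1 + a ^ 2) * (δ / √(1 + a ^ 2)) := mul_le_mul_of_nonneg_left h1 (hs a).le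
    rw [mul_div_cancel₀ _ (hs a).ne'] at h2
    linarith
  · intro a r
    show |deriv (fun r' => prof1 (hf F ax ω η r') a) r| * (1 + a ^ 2) ≤ 4 * δ
    rw [(dP1 a r).deriv]
    obtain ⟨-, b2, -, -, b5⟩ := nf_scale H (hne a r)
    have h1 := b5 (re r)
    have h2 : a / √(1 + a ^ 2) * fderiv ℝ F (a • ax + ro ω η r) (re r) +
        √(1 + a ^ 2) * fderiv ℝ (fderiv ℝ F) (a • ax + ro ω η r) (re r) ax =
        √(1 + a ^ 2) * fderiv ℝ (fderiv ℝ F) (a • ax + ro ω η r) (re r)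
          ((1 / (1 + a ^ 2)) • ax + (-(a / (1 + a ^ 2))) • ro ω η r) := by
      have h3 : ((1 / (1 + a ^ 2)) • ax + (-(a / (1 + a ^ 2))) • ro ω η r : E) =
          ax - (a / (1 + a ^ 2)) • (a • ax + ro ω η r) := by
        have h4 : (1 / (1 + a ^ 2) : ℝ) = 1 - a / (1 + a ^ 2) * a := by
          have : (1 + a ^ 2 : ℝ) ≠ 0 := by positivity
          field_simp
          ring
        rw [h4]
        module
      rw [h3, map_sub, map_smul, nnearc_symm H (hne a r) (re r) (a • ax + ro ω η r), h1,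
        smul_eq_mul]
      have h5 : √(1 + a ^ 2) * (a / (1 + a ^ 2)) = a / √(1 + a ^ 2) := by
        have h7 : √(1 + a ^ 2) * (a / (1 + a ^ 2)) * √(1 + a ^ 2) =
            √(1 + a ^ 2) ^ 2 * a / (1 + a ^ 2) := by ring
        rw [eq_div_iff (hs a).ne', h7, hs2 a, mul_div_cancel_left₀ _ (by positivity)]
      rw [← h5]
      ring
    have hnv : ‖(1 / (1 + a ^ 2)) • ax + (-(a / (1 + a ^ 2))) • ro ω η r‖ =
        1 / √(1 + a ^ 2) := by
      have h4 := nnearc_norm_sq fm.a (hro r) (hroa r) (1 / (1 + a ^ 2)) (-(a / (1 + a ^ 2)))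
      have h5 : (1 / (1 + a ^ 2) : ℝ) ^ 2 + (-(a / (1 + a ^ 2))) ^ 2 =
          (1 / √(1 + a ^ 2)) ^ 2 := by
        rw [div_pow, div_pow, hs2 a]
        have : (1 + a ^ 2 : ℝ) ≠ 0 := by positivity
        field_simp
      rw [h5] at h4
      have h6 := abs_eq_abs.2 (sq_eq_sq_iff_eq_or_eq_neg.1 h4)
      rwa [abs_of_nonneg (norm_nonneg _), abs_of_nonneg (by positivity)] at h6
    rw [h2, abs_mul, abs_of_pos (hs a)]
    have h7 := b2 (re r) ((1 / (1 + a ^ 2)) • ax + (-(a / (1 + a ^ 2))) • ro ω η r)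
    rw [hnv, hren, hun, hs2 a, mul_one] at h7
    have h8 : √(1 + a ^ 2) * |fderiv ℝ (fderiv ℝ F) (a • ax + ro ω η r) (re r)
        ((1 / (1 + a ^ 2)) • ax + (-(a / (1 + a ^ 2))) • ro ω η r)| * (1 + a ^ 2) ≤
        √(1 + a ^ 2) * (δ * (1 / √(1 + a ^ 2)) / (1 + a ^ 2)) * (1 + a ^ 2) := by
      refine mul_le_mul_of_nonneg_right ?_ (by positivity)
      exact mul_le_mul_of_nonneg_left h7 (hs a).le
    have h9 : √(1 + a ^ 2) * (δ * (1 / √(1 + a ^ 2)) / (1 + a ^ 2)) * (1 + a ^ 2) = δ := by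
      have := hs a
      have : (1 + a ^ 2 : ℝ) ≠ 0 := by positivity
      field_simp
    rw [h9] at h8
    linarith
  · intro a r
    show |(deriv (deriv fun r' => prof (hf F ax ω η r') a) r + prof (hf F ax ω η r) a -
      a * prof1 (hf F ax ω η r) a) * √(1 + a ^ 2) - c| ≤ 4 * δ
    obtain ⟨-, b2, -, b4, -⟩ := nf_scale H (hne a r)
    rw [dPP, nnearc_prof H, hp1]
    have h1 : fderiv ℝ F (a • ax + ro ω η r) (-ro ω η r) =
        a * fderiv ℝ F (a • ax + ro ω η r) ax := by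
      have h2 : (-ro ω η r : E) = a • ax - (a • ax + ro ω η r) := by abel
      have h3 : fderiv ℝ F (a • ax + ro ω η r) (a • ax - (a • ax + ro ω η r)) =
          a * fderiv ℝ F (a • ax + ro ω η r) ax := by
        rw [map_sub, b4, map_smul, sub_zero, smul_eq_mul]
      rw [← h3, ← h2]
    have h4 : (√(1 + a ^ 2) * (fderiv ℝ (fderiv ℝ F) (a • ax + ro ω η r) (re r) (re r) +
        fderiv ℝ F (a • ax + ro ω η r) (-ro ω η r)) + √(1 + a ^ 2) * F (a • ax + ro ω η r) -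
        a * (a / √(1 + a ^ 2) * F (a • ax + ro ω η r) +
        √(1 + a ^ 2) * fderiv ℝ F (a • ax + ro ω η r) ax)) * √(1 + a ^ 2) - c =
        (1 + a ^ 2) * fderiv ℝ (fderiv ℝ F) (a • ax + ro ω η r) (re r) (re r) +
          (F (a • ax + ro ω η r) - c) := by
      rw [h1]
      have h5 : a / √(1 + a ^ 2) * √(1 + a ^ 2) = a := div_mul_cancel₀ _ (hs a).ne'
      have h6 := hs2 a
      linear_combination (fderiv ℝ (fderiv ℝ F) (a • ax + ro ω η r) (re r) (re r) +
        F (a • ax + ro ω η r)) * h6 - a * F (a • ax + ro ω η r) * h5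
    rw [h4]
    have h7 := b2 (re r) (re r)
    rw [hren, hun, hs2 a, mul_one, mul_one] at h7
    have hpos : (0 : ℝ) < 1 + a ^ 2 := by positivity
    have h8 : |(1 + a ^ 2) * fderiv ℝ (fderiv ℝ F) (a • ax + ro ω η r) (re r) (re r)| ≤ δ := by
      rw [abs_mul, abs_of_pos hpos]
      rw [le_div_iff₀ hpos] at h7
      linarith
    have h9 : |F (a • ax + ro ω η r) - c| ≤ δ := by
      have h10 : F (a • ax + ro ω η r) = F ((√(1 + a ^ 2))⁻¹ • (a • ax + ro ω η r)) :=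
        (H.hom _ (inv_ne_zero (hs a).ne') _).symm
      rw [h10]
      refine H.n0 _ ?_
      rw [norm_smul, hun, norm_inv, Real.norm_eq_abs, abs_of_pos (hs a),
        inv_mul_cancel₀ (hs a).ne']
    refine (abs_add_le _ _).trans ?_
    linarith
  · have h3 : (fun r => prof1 (hf F ax ω η r) 0) = fun r => fderiv ℝ F (ro ω η r) ax := by
      funext r
      rw [hp1]
      simp
    rw [h3, contDiff_iff_contDiffAt]
    intro r
    have h0 : ro ω η r ≠ 0 := by
      have := hne 0 r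
      rwa [zero_smul, zero_add] at this
    have hc : ContDiff ℝ 2 (fun r : ℝ => ro ω η r) := by
      unfold ro
      fun_prop
    exact (ContDiffAt.comp r (nnearc_d H h0).2.1 hc.contDiffAt).clm_apply contDiffAt_const
  · intro r
    have h0 : ∀ r, ro ω η r ≠ 0 := fun r => by
      have := hne 0 r
      rwa [zero_smul, zero_add] at this
    have h3 : (fun r => prof1 (hf F ax ω η r) 0) = fun r => fderiv ℝ F (ro ω η r) ax := by
      funext r
      rw [hp1]
      simp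
    have h4 : (deriv fun r => prof1 (hf F ax ω η r) 0) =
        fun r => fderiv ℝ (fderiv ℝ F) (ro ω η r) (re r) ax := by
      rw [h3]
      funext r
      have h5 := nnearc_c2 H (dro r) (hasDerivAt_const r ax) (h0 r)
      rw [map_zero, add_zero] at h5
      exact h5.deriv
    rw [h4, (nnearc_c3 H (dro r) (dre r) (h0 r)).deriv]
    obtain ⟨b1, -, b3, -, b5⟩ := nf_scale H (h0 r)
    have h6 := b3 (re r) (re r) ax
    have h7 := b1 ax
    rw [hren, hro, fm.a] at h6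
    rw [hro, fm.a] at h7
    rw [map_neg, neg_apply, b5, neg_neg]
    refine (abs_add_le _ _).trans ?_
    have h8 : δ * 1 * 1 * 1 / 1 ^ 3 = δ := by ring
    have h9 : δ * 1 / 1 = δ := by ring
    rw [h8] at h6
    rw [h9] at h7
    linarith

end CH
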