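import Pool.Agent.H.MP_1693ff_gtC.NFin
import Pool.Agent.H.MP_1693ff_gtC.NNearB
import Pool.Agent.H.MP_1693ff_gtC.NNearC
import Pool.Agent.H.MP_1693ff_gtB.GFin

/-!
# Near-constant pairs in dimension two
-/

namespace CH

open Real Set Filter Topology CG Pointwise
open CF hiding St

theorem nfinb_norm_ev (θ : ℝ) : ‖ev θ‖ = 1 := by
  have h : ‖ev θ‖ ^ 2 = 1 := by
    rw [EuclideanSpace.norm_sq_eq, Fin.sum_univ_two]
    simp [ev]
  nlinarith [norm_nonneg (ev θ)]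

theorem nfinb_comb (θ : ℝ) : cos θ • ev 0 + sin θ • ev (π / 2) = ev θ := by
  ext i
  fin_cases i <;> simp [ev]

theorem nfinb_un : Un (ev 0) (ev (π / 2)) where
  n1 := nfinb_norm_ev _
  o1 := by
    simp [ev, PiLp.inner_apply, Fin.sum_univ_two]

theorem nfinb_exists (u : EuclideanSpace ℝ (Fin 2)) (hu : ‖u‖ = 1) : ∃ θ, u = ev θ := by
  have h : u 0 ^ 2 + u 1 ^ 2 = 1 := by
    have h1 := EuclideanSpace.norm_sq_eq u
    rw [hu, Fin.sum_univ_two] at h1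
    simp only [Real.norm_eq_abs, sq_abs] at h1
    linarith
  have hz : ‖(⟨u 0, u 1⟩ : ℂ)‖ = 1 := by
    rw [Complex.norm_def, Complex.normSq_mk]
    rw [Real.sqrt_eq_one]
    nlinarith
  refine ⟨Complex.arg ⟨u 0, u 1⟩, ?_⟩
  have hne : (⟨u 0, u 1⟩ : ℂ) ≠ 0 := by
    intro h0
    rw [h0, norm_zero] at hz
    exact zero_ne_one hz
  ext i
  fin_cases i
  · simp [ev, Complex.cos_arg hne, hz]
  · simp [ev, Complex.sin_arg, hz]

/-- Dimension two: from the planar theorem.  `θ ↦ f (ev θ)` is `Near` (`nf_near` with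
`ax = ev 0`, `ω = ev (π/2)`, `cos θ ev 0 + sin θ ev (π/2) = ev θ`), every unit vector is
`ev θ`. -/
theorem near_two {e C₁ C₂ : ℝ} (he : 1 < e) (h1 : 0 < C₁) (h2 : 0 < C₂) :
    ∃ δ D : ℝ, 0 < δ ∧ 0 < D ∧ ∀ f₁ f₂ : EuclideanSpace ℝ (Fin 2) → ℝ, NF f₁ C₁ δ →
      NF f₂ C₂ δ → ∀ d : ℝ, D ≤ d → ∀ ax : EuclideanSpace ℝ (Fin 2), ‖ax‖ = 1 →
      ∃ K, PairE (-e) f₁ f₂ K 0 (d • ax) := by
  obtain ⟨δ, D, hδ, hD, H⟩ := near_pairs he h1 h2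
  refine ⟨δ / 2, D, half_pos hδ, hD, fun f₁ f₂ n1 n2 d hd ax hax => ?_⟩
  have key : ∀ (f : EuclideanSpace ℝ (Fin 2) → ℝ) (C : ℝ), NF f C (δ / 2) →
      Near (fun θ => f (ev θ)) C δ := by
    intro f C hf
    have h := nf_near (half_pos hδ).le hf (nfinb_norm_ev 0) nfinb_un
    have e1 : pl f (ev 0) (ev (π / 2)) = fun θ => f (ev θ) := by
      funext θ
      unfold pl
      rw [nfinb_comb]
    rw [e1] at h
    have e2 : 2 * (δ / 2) = δ := by ring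
    rwa [e2] at h
  obtain ⟨θ₀, rfl⟩ := nfinb_exists ax hax
  obtain ⟨K, hK1, hK2, hK3, hK4, hK5⟩ := (H _ _ (key f₁ C₁ n1) (key f₂ C₂ n2) d hd).1 θ₀
  refine ⟨K, hK1, hK2, hK3, fun u hu => ?_, fun u hu => ?_⟩
  · obtain ⟨θ, rfl⟩ := nfinb_exists u hu
    exact hK4 θ
  · obtain ⟨θ, rfl⟩ := nfinb_exists u hu
    exact hK5 θ

end CH
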