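import Pool.Agent.H.MP_1693ff_gtC.NFinB
import Pool.Agent.H.MP_1693ff_gtC.NBodyD

/-!
# Near-constant pairs in all dimensions
-/

namespace CH

open Real Set Filter Topology CG Pointwise
open CF hiding St

/-- Dimension at least three. -/
theorem near_three {n : ℕ} (hn : 3 ≤ n) {e C₁ C₂ : ℝ} (he : 1 < e) (h1 : 0 < C₁) (h2 : 0 < C₂) :
    ∃ δ D : ℝ, 0 < δ ∧ 0 < D ∧ ∀ f₁ f₂ : EuclideanSpace ℝ (Fin n) → ℝ, NF f₁ C₁ δ →
      NF f₂ C₂ δ → ∀ d : ℝ, D ≤ d → ∀ ax : EuclideanSpace ℝ (Fin n), ‖ax‖ = 1 →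
      ∃ K, PairE (-e) f₁ f₂ K 0 (d • ax) := by
  have hc1 : 0 < C₁ ^ e⁻¹ := Real.rpow_pos_of_pos h1 _
  have hc2 : 0 < C₂ ^ e⁻¹ := Real.rpow_pos_of_pos h2 _
  obtain ⟨ε, D, hε, hD, H⟩ := exists_D3 he hc1 hc2
  have hε' : 0 < ε / 4 := by positivity
  obtain ⟨δ, hδ, hδ1, R⟩ := nf_root (E := EuclideanSpace ℝ (Fin n)) he h1 hε'
  obtain ⟨δ', hδ', hδ1', R'⟩ := nf_root (E := EuclideanSpace ℝ (Fin n)) he h2 hε'
  have he0 : e ≠ 0 := by linarith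
  refine ⟨min δ δ', D, lt_min hδ hδ', lt_of_lt_of_le one_pos hD,
    fun f₁ f₂ n1 n2 d hd ax hax => ?_⟩
  have hd0 : 0 < d := lt_of_lt_of_le one_pos (hD.trans hd)
  obtain ⟨hfr, hex⟩ := exists_frame hn hax
  have N1 := R f₁ (n1.mono (min_le_left _ _))
  have N2 := R' f₂ (n2.mono (min_le_right _ _))
  have q1 : ∀ u, ‖u‖ = 1 → 0 < f₁ u := fun u hu => by
    have := (abs_le.1 (n1.n0 u hu)).1
    have := min_le_left δ δ'
    linarith
  have q2 : ∀ u, ‖u‖ = 1 → 0 < f₂ u := fun u hu => by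
    have := (abs_le.1 (n2.n0 u hu)).1
    have := min_le_right δ δ'
    linarith
  have : Nontrivial (EuclideanSpace ℝ (Fin n)) :=
    ⟨⟨ax, 0, fun h => by rw [h, norm_zero] at hax; exact zero_ne_one hax⟩⟩
  have ev : ∀ f : EuclideanSpace ℝ (Fin n) → ℝ, (∀ t : ℝ, t ≠ 0 → ∀ u, f (t • u) = f u) →
      ∀ u, f (-u) = f u := fun f hf u => by
    have := hf (-1) (by norm_num) u
    rwa [neg_one_smul] at this
  obtain ⟨K, hK, k0, k1, g1, g2⟩ := exists_body (e := e) (d := d)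
    (H₁ := fun u => f₁ u ^ e⁻¹) (H₂ := fun u => f₂ u ^ e⁻¹) he hd0 hax hfr hex
    (fun ω η fm => H _ _ (by
      have := nf_n3 hε'.le N1 fm
      rwa [show 4 * (ε / 4) = ε by ring] at this) (by
      have := nf_n3 hε'.le N2 fm
      rwa [show 4 * (ε / 4) = ε by ring] at this) d hd)
    (ev (fun u => f₁ u ^ e⁻¹) N1.hom) (ev (fun u => f₂ u ^ e⁻¹) N2.hom) (fun u hu => Real.rpow_pos_of_pos (q1 u hu) _)
    (fun u hu => Real.rpow_pos_of_pos (q2 u hu) _)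
  have key : PairE (-e) (fun u => d ^ (- -e) * f₁ u) (fun u => d ^ (- -e) * f₂ u) K 0 ax := by
    refine ⟨hK, k0, k1, fun u hu => ?_, fun u hu => ?_⟩
    · rw [g1 u hu, Real.mul_rpow hd0.le (Real.rpow_nonneg (q1 u hu).le _),
        ← Real.rpow_mul (q1 u hu).le, inv_mul_cancel₀ he0, Real.rpow_one, neg_neg]
    · rw [g2 u hu, Real.mul_rpow hd0.le (Real.rpow_nonneg (q2 u hu).le _),
        ← Real.rpow_mul (q2 u hu).le, inv_mul_cancel₀ he0, Real.rpow_one, neg_neg]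
  have := pairE_smul (neg_ne_zero.2 he0) hd0 key
  rw [smul_zero] at this
  exact ⟨_, this⟩

/-- **Near-constant pairs in all dimensions.** -/
theorem near_all {n : ℕ} (hn : 2 ≤ n) {e C₁ C₂ : ℝ} (he : 1 < e) (h1 : 0 < C₁) (h2 : 0 < C₂) :
    ∃ δ D : ℝ, 0 < δ ∧ 0 < D ∧ ∀ f₁ f₂ : EuclideanSpace ℝ (Fin n) → ℝ, NF f₁ C₁ δ →
      NF f₂ C₂ δ → ∀ d : ℝ, D ≤ d → ∀ ax : EuclideanSpace ℝ (Fin n), ‖ax‖ = 1 →
      ∃ K, PairE (-e) f₁ f₂ K 0 (d • ax) := by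
  rcases Nat.lt_or_ge n 3 with h | h
  · have : n = 2 := by omega
    subst this
    exact near_two he h1 h2
  · exact near_three h he h1 h2

end CH
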