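import Pool.Agent.H.MP_1693ff_gtC.NDefs

/-!
# The outer part of the start surface
-/

namespace CH

open Real Set Filter Topology CG
open CF hiding St

theorem nouter3_main {c q X s P R E₂ E₃ y ρ : ℝ} (hc : 0 < c) (hq : 0 < q) (hX : 0 < X)
    (h1 : X ≤ s) (h2 : s ≤ 2 * X) (hP : 0 ≤ P) (hR : 4 * c / 5 ≤ R) (hE2 : |E₂| ≤ c / 10)
    (hE3 : 4 * c / 5 ≤ E₃) :
    P * (7 * c / 20) * (q / X * (y ^ 2 + ρ ^ 2)) ≤
      P * q * (R * (y * s) ^ 2 / s ^ 3 + 2 * E₂ * (y * s) * ρ / s ^ 2 + E₃ * ρ ^ 2 / s) := by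
  have hs : 0 < s := by linarith
  have e1 : R * (y * s) ^ 2 / s ^ 3 + 2 * E₂ * (y * s) * ρ / s ^ 2 + E₃ * ρ ^ 2 / s =
      (R * y ^ 2 + 2 * E₂ * y * ρ + E₃ * ρ ^ 2) / s := by
    field_simp
  have e2 : 7 * c / 10 * (y ^ 2 + ρ ^ 2) ≤ R * y ^ 2 + 2 * E₂ * y * ρ + E₃ * ρ ^ 2 := by
    have e3 : |2 * E₂ * y * ρ| ≤ c / 10 * (y ^ 2 + ρ ^ 2) := by
      rw [abs_mul, abs_mul, abs_mul, abs_two]
      have e4 : 2 * (|y| * |ρ|) ≤ y ^ 2 + ρ ^ 2 := by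
        rw [← sq_abs y, ← sq_abs ρ]
        nlinarith [sq_nonneg (|y| - |ρ|)]
      have e5 : 0 ≤ 2 * (|y| * |ρ|) := by positivity
      calc 2 * |E₂| * |y| * |ρ| = |E₂| * (2 * (|y| * |ρ|)) := by ring
        _ ≤ c / 10 * (y ^ 2 + ρ ^ 2) := mul_le_mul hE2 e4 e5 (by positivity)
    have e6 := (abs_le.1 e3).1
    have e7 : 4 * c / 5 * y ^ 2 ≤ R * y ^ 2 := mul_le_mul_of_nonneg_right hR (sq_nonneg y)
    have e8 : 4 * c / 5 * ρ ^ 2 ≤ E₃ * ρ ^ 2 := mul_le_mul_of_nonneg_right hE3 (sq_nonneg ρ)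
    linarith
  have e9 : 7 * c / 20 * ((y ^ 2 + ρ ^ 2) / X) ≤
      (R * y ^ 2 + 2 * E₂ * y * ρ + E₃ * ρ ^ 2) / s := by
    have e10 : 0 ≤ 7 * c / 10 * (y ^ 2 + ρ ^ 2) := by positivity
    calc 7 * c / 20 * ((y ^ 2 + ρ ^ 2) / X) = 7 * c / 10 * (y ^ 2 + ρ ^ 2) / (2 * X) := by
          field_simp
          ring
      _ ≤ (R * y ^ 2 + 2 * E₂ * y * ρ + E₃ * ρ ^ 2) / s :=
          div_le_div₀ (e10.trans e2) e2 hs h2
  rw [e1]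
  calc P * (7 * c / 20) * (q / X * (y ^ 2 + ρ ^ 2)) =
        P * q * (7 * c / 20 * ((y ^ 2 + ρ ^ 2) / X)) := by ring
    _ ≤ _ := mul_le_mul_of_nonneg_left e9 (mul_nonneg hP hq.le)

theorem nouter3_nn {l C X s q q₁ q₂ qr q1r qrr y ρ : ℝ} (hl : 0 < l) (hX : 0 < X)
    (hC : 0 ≤ C) (hs : 0 < s) (h2 : s ≤ 2 * X) (hq : 0 < q) (hq1 : |q₁| ≤ C)
    (hw0 : 0 ≤ q₁ ^ 2 - 2 * q * q₂) (hw : q₁ ^ 2 - 2 * q * q₂ ≤ C)
    (hD : l * X ≤ 2 * q - X * q₁) (hqr : |qr| ≤ q) (hq1r : |q1r| ≤ 1) (hqrr : |qrr| ≤ q) :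
    NN X q q₁ q₂ qr q1r qrr (y * s) ρ ≤
      2 / l * (17 * C / (4 * l ^ 2) + 3 * (C + 1) / l + 9 / 4) * (q / X * (y ^ 2 + ρ ^ 2)) := by
  have hlX : 0 < l * X := mul_pos hl hX
  have hD0 : 0 < 2 * q - X * q₁ := hlX.trans_le hD
  unfold NN
  set D := 2 * q - X * q₁ with hDdef
  have hτ : |(2 * q * (y * s) + X * qr * ρ) / D| ≤ q / l * (4 * |y| + |ρ|) := by
    rw [abs_div, abs_of_pos hD0]
    have e1 : |2 * q * (y * s) + X * qr * ρ| ≤ q * X * (4 * |y| + |ρ|) := by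
      calc |2 * q * (y * s) + X * qr * ρ| ≤ |2 * q * (y * s)| + |X * qr * ρ| := abs_add_le _ _
        _ = 2 * q * (|y| * s) + X * |qr| * |ρ| := by
            rw [abs_mul, abs_mul, abs_mul, abs_mul, abs_mul, abs_two, abs_of_pos hq,
              abs_of_pos hs, abs_of_pos hX]
        _ ≤ 2 * q * (|y| * (2 * X)) + X * q * |ρ| := by gcongr
        _ = q * X * (4 * |y| + |ρ|) := by ring
    calc |2 * q * (y * s) + X * qr * ρ| / D ≤ q * X * (4 * |y| + |ρ|) / (l * X) :=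
          div_le_div₀ (by positivity) e1 hlX hD
      _ = q / l * (4 * |y| + |ρ|) := by field_simp
  set τ := (2 * q * (y * s) + X * qr * ρ) / D with hτdef
  have hn1 : (4 * |y| + |ρ|) ^ 2 ≤ 17 * (y ^ 2 + ρ ^ 2) := by
    rw [← sq_abs y, ← sq_abs ρ]
    nlinarith [sq_nonneg (|y| - 4 * |ρ|)]
  have hn2 : (4 * |y| + |ρ|) * |ρ| ≤ 3 * (y ^ 2 + ρ ^ 2) := by
    rw [← sq_abs y, ← sq_abs ρ]
    nlinarith [sq_nonneg (|y| - |ρ|), sq_nonneg |y|]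
  have t1 : τ ^ 2 * (q₁ ^ 2 - 2 * q * q₂) / 4 ≤ q ^ 2 * (17 * C / (4 * l ^ 2) * (y ^ 2 + ρ ^ 2)) := by
    have e1 : τ ^ 2 ≤ (q / l) ^ 2 * (17 * (y ^ 2 + ρ ^ 2)) := by
      rw [← sq_abs τ]
      calc |τ| ^ 2 ≤ (q / l * (4 * |y| + |ρ|)) ^ 2 := pow_le_pow_left₀ (abs_nonneg _) hτ 2
        _ = (q / l) ^ 2 * (4 * |y| + |ρ|) ^ 2 := by ring
        _ ≤ (q / l) ^ 2 * (17 * (y ^ 2 + ρ ^ 2)) := mul_le_mul_of_nonneg_left hn1 (sq_nonneg _)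
    have e2 : τ ^ 2 * (q₁ ^ 2 - 2 * q * q₂) ≤ (q / l) ^ 2 * (17 * (y ^ 2 + ρ ^ 2)) * C :=
      mul_le_mul e1 hw hw0 (by positivity)
    calc τ ^ 2 * (q₁ ^ 2 - 2 * q * q₂) / 4 ≤ (q / l) ^ 2 * (17 * (y ^ 2 + ρ ^ 2)) * C / 4 := by
          linarith
      _ = q ^ 2 * (17 * C / (4 * l ^ 2) * (y ^ 2 + ρ ^ 2)) := by
          field_simp
  have t2 : τ * ρ * (q₁ * qr - q * q1r) ≤ q ^ 2 * (3 * (C + 1) / l * (y ^ 2 + ρ ^ 2)) := by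
    have e1 : |q₁ * qr - q * q1r| ≤ (C + 1) * q := by
      calc |q₁ * qr - q * q1r| ≤ |q₁ * qr| + |q * q1r| := abs_sub _ _
        _ = |q₁| * |qr| + q * |q1r| := by rw [abs_mul, abs_mul, abs_of_pos hq]
        _ ≤ C * q + q * 1 := by gcongr
        _ = (C + 1) * q := by ring
    calc τ * ρ * (q₁ * qr - q * q1r) ≤ |τ * ρ * (q₁ * qr - q * q1r)| := le_abs_self _
      _ = |τ| * |ρ| * |q₁ * qr - q * q1r| := by rw [abs_mul, abs_mul]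
      _ ≤ (q / l * (4 * |y| + |ρ|)) * |ρ| * ((C + 1) * q) := by gcongr
      _ = q ^ 2 * ((C + 1) / l) * ((4 * |y| + |ρ|) * |ρ|) := by
          field_simp
      _ ≤ q ^ 2 * ((C + 1) / l) * (3 * (y ^ 2 + ρ ^ 2)) := by gcongr
      _ = q ^ 2 * (3 * (C + 1) / l * (y ^ 2 + ρ ^ 2)) := by ring
  have t3 : ρ ^ 2 * (3 / 4 * qr ^ 2 - q * qrr / 2 + q ^ 2) ≤ q ^ 2 * (9 / 4 * (y ^ 2 + ρ ^ 2)) := by
    have e1 : qr ^ 2 ≤ q ^ 2 := by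
      rw [← sq_abs qr]
      exact pow_le_pow_left₀ (abs_nonneg _) hqr 2
    have e2 : -(q * qrr) ≤ q ^ 2 := by
      have := (abs_le.1 hqrr).1
      nlinarith
    have e3 : 3 / 4 * qr ^ 2 - q * qrr / 2 + q ^ 2 ≤ 9 / 4 * q ^ 2 := by linarith
    calc ρ ^ 2 * (3 / 4 * qr ^ 2 - q * qrr / 2 + q ^ 2) ≤ ρ ^ 2 * (9 / 4 * q ^ 2) :=
          mul_le_mul_of_nonneg_left e3 (sq_nonneg _)
      _ ≤ q ^ 2 * (9 / 4 * (y ^ 2 + ρ ^ 2)) := by nlinarith [mul_nonneg (sq_nonneg q) (sq_nonneg y)]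
  have hk : 0 ≤ 17 * C / (4 * l ^ 2) + 3 * (C + 1) / l + 9 / 4 := by positivity
  have hsum : τ ^ 2 * (q₁ ^ 2 - 2 * q * q₂) / 4 + τ * ρ * (q₁ * qr - q * q1r) +
      ρ ^ 2 * (3 / 4 * qr ^ 2 - q * qrr / 2 + q ^ 2) ≤
      q ^ 2 * ((17 * C / (4 * l ^ 2) + 3 * (C + 1) / l + 9 / 4) * (y ^ 2 + ρ ^ 2)) := by
    calc _ ≤ q ^ 2 * (17 * C / (4 * l ^ 2) * (y ^ 2 + ρ ^ 2)) +
          q ^ 2 * (3 * (C + 1) / l * (y ^ 2 + ρ ^ 2)) + q ^ 2 * (9 / 4 * (y ^ 2 + ρ ^ 2)) :=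
          add_le_add (add_le_add t1 t2) t3
      _ = _ := by ring
  have hpos : 0 ≤ q ^ 2 * ((17 * C / (4 * l ^ 2) + 3 * (C + 1) / l + 9 / 4) *
      (y ^ 2 + ρ ^ 2)) := by positivity
  have hqD : q * (l * X) ≤ q * D := mul_le_mul_of_nonneg_left hD hq.le
  calc _ ≤ 2 / (q * D) * (q ^ 2 * ((17 * C / (4 * l ^ 2) + 3 * (C + 1) / l + 9 / 4) *
        (y ^ 2 + ρ ^ 2))) := mul_le_mul_of_nonneg_left hsum (by positivity)
    _ ≤ 2 / (q * (l * X)) * (q ^ 2 * ((17 * C / (4 * l ^ 2) + 3 * (C + 1) / l + 9 / 4) *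
        (y ^ 2 + ρ ^ 2))) :=
        mul_le_mul_of_nonneg_right (div_le_div_of_nonneg_left (by norm_num) (by positivity) hqD)
          hpos
    _ = _ := by
        field_simp

theorem nouter3_fac {e c X s H : ℝ} (he : 1 < e) (hc : 0 < c) (hX0 : 0 < X) (h1 : X ≤ s)
    (hX2 : 20 / (9 * c) ≤ X) (hHl : 9 * c / 10 ≤ H) :
    0 ≤ (H * s) ^ (e - 2) / ((H * s) ^ e - 1) ∧
      (H * s) ^ (e - 2) / ((H * s) ^ e - 1) ≤ 2 / ((9 * c / 10) ^ 2 * X ^ 2) := by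
  have hs0 : 0 < s := by linarith
  have hH0 : 0 < H := by linarith
  have hHs : 9 * c / 10 * X ≤ H * s := mul_le_mul hHl h1 hX0.le hH0.le
  have hHs0 : 0 < H * s := mul_pos hH0 hs0
  have hb2 : 2 ≤ 9 * c / 10 * X := by
    rw [div_le_iff₀ (by positivity)] at hX2
    linarith
  have h2e : 2 ≤ (H * s) ^ e := by
    have h6 : (2 : ℝ) ≤ 2 ^ e := by
      have := Real.rpow_le_rpow_of_exponent_le (show (1 : ℝ) ≤ 2 by norm_num) he.le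
      rwa [Real.rpow_one] at this
    exact h6.trans (Real.rpow_le_rpow (by norm_num) (hb2.trans hHs) (by linarith))
  refine ⟨div_nonneg (Real.rpow_nonneg hHs0.le _) (by linarith), ?_⟩
  have e1 : (H * s) ^ (e - 2) = (H * s) ^ e / (H * s) ^ 2 := by
    rw [Real.rpow_sub hHs0]
    norm_num
  have e2 : (H * s) ^ e / ((H * s) ^ e - 1) ≤ 2 := by
    rw [div_le_iff₀ (by linarith)]
    linarith
  have e3 : ((9 * c / 10) * X) ^ 2 ≤ (H * s) ^ 2 := pow_le_pow_left₀ (by positivity) hHs 2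
  have e4 : 0 ≤ (H * s) ^ e / ((H * s) ^ e - 1) := div_nonneg (by linarith) (by linarith)
  calc (H * s) ^ (e - 2) / ((H * s) ^ e - 1) =
        (H * s) ^ e / ((H * s) ^ e - 1) / (H * s) ^ 2 := by
        rw [e1]
        ring
    _ ≤ 2 / ((9 * c / 10) * X) ^ 2 := div_le_div₀ (by norm_num) e2 (by positivity) e3
    _ = _ := by rw [mul_pow]

theorem nouter3_a {c l C X D q q₁ H H₁ : ℝ} (hc : 0 < c) (hl : 0 < l) (hC : 0 ≤ C)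
    (hX0 : 0 < X) (hX : 1 ≤ X) (hq0 : 0 < q) (hq1 : |q₁| ≤ C) (hD : l * X ≤ D)
    (hH0 : 0 < H) (hHu : H ≤ 11 * c / 10) (hH1 : |H₁| ≤ c / 10) :
    |√q * (H₁ - H * √q * (2 * X + q₁) / D)| ≤
      (c + 2 * c * (2 + C) / l) * (√q * (1 + √q)) := by
  have hlX : 0 < l * X := mul_pos hl hX0
  have hD0 : 0 < D := hlX.trans_le hD
  have hrq : 0 < √q := Real.sqrt_pos.2 hq0
  rw [abs_le] at hq1
  rw [abs_mul, abs_of_pos hrq]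
  have e1 : |H * √q * (2 * X + q₁) / D| ≤ 11 * c / 10 * √q * ((2 + C) * X) / (l * X) := by
    rw [abs_div, abs_mul, abs_mul, abs_of_pos hH0, abs_of_pos hrq, abs_of_pos hD0]
    apply div_le_div₀ (by positivity) _ hlX hD
    apply mul_le_mul (mul_le_mul_of_nonneg_right hHu hrq.le) _ (abs_nonneg _) (by positivity)
    rw [abs_le]
    constructor <;> nlinarith [hq1.1, hq1.2]
  have e2 : 11 * c / 10 * √q * ((2 + C) * X) / (l * X) = 11 / 10 * (c * (2 + C) / l) * √q := by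
    field_simp
  rw [e2] at e1
  have e3 : 0 ≤ c * (2 + C) / l := by positivity
  have e4 : |H₁ - H * √q * (2 * X + q₁) / D| ≤ (c + 2 * c * (2 + C) / l) * (1 + √q) := by
    have e5 := mul_nonneg e3 hrq.le
    have e6 := mul_pos hc hrq
    calc |H₁ - H * √q * (2 * X + q₁) / D| ≤ |H₁| + |H * √q * (2 * X + q₁) / D| := abs_sub _ _
      _ ≤ c / 10 + 11 / 10 * (c * (2 + C) / l) * √q := add_le_add hH1 e1
      _ ≤ (c + 2 * (c * (2 + C) / l)) * (1 + √q) := by linarith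
      _ = _ := by ring
  calc √q * |H₁ - H * √q * (2 * X + q₁) / D| ≤
        √q * ((c + 2 * c * (2 + C) / l) * (1 + √q)) := mul_le_mul_of_nonneg_left e4 hrq.le
    _ = _ := by ring

theorem nouter3_b {c l X s D q qr H E₁ : ℝ} (hc : 0 < c) (hl : 0 < l)
    (hX0 : 0 < X) (hs0 : 0 < s) (h2 : s ≤ 2 * X) (hq0 : 0 < q) (hqr : |qr| ≤ q)
    (hD : l * X ≤ D) (hH0 : 0 < H) (hHu : H ≤ 11 * c / 10) (hE1 : |E₁| ≤ c / 10) :
    |H * s * qr / D + E₁ * √q| ≤ (c + 3 * c / l) * (√q * (1 + √q)) := by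
  have hlX : 0 < l * X := mul_pos hl hX0
  have hD0 : 0 < D := hlX.trans_le hD
  have hrq : 0 < √q := Real.sqrt_pos.2 hq0
  have hsq : √q ^ 2 = q := Real.sq_sqrt hq0.le
  have e1 : |H * s * qr / D| ≤ 11 * c / 10 * (2 * X) * q / (l * X) := by
    rw [abs_div, abs_mul, abs_mul, abs_of_pos hH0, abs_of_pos hs0, abs_of_pos hD0]
    apply div_le_div₀ (by positivity) _ hlX hD
    exact mul_le_mul (mul_le_mul hHu h2 hs0.le (by positivity)) hqr (abs_nonneg _)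
      (by positivity)
  have e2 : 11 * c / 10 * (2 * X) * q / (l * X) = 11 / 5 * (c / l) * q := by
    field_simp
    ring
  rw [e2] at e1
  have e3 : |E₁ * √q| ≤ c / 10 * √q := by
    rw [abs_mul, abs_of_pos hrq]
    exact mul_le_mul_of_nonneg_right hE1 hrq.le
  have e4 : 0 < c / l := div_pos hc hl
  have e5 := mul_pos e4 hrq
  have e6 := mul_pos hc hrq
  have e7 := mul_pos e4 hq0
  have e8 := mul_pos hc hq0
  have e9 : (c + 3 * (c / l)) * (√q * (1 + √q)) =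
      c * √q + 3 * (c / l * √q) + (c + 3 * (c / l)) * √q ^ 2 := by ring
  calc |H * s * qr / D + E₁ * √q| ≤ |H * s * qr / D| + |E₁ * √q| := abs_add_le _ _
    _ ≤ 11 / 5 * (c / l) * q + c / 10 * √q := add_le_add e1 e3
    _ ≤ (c + 3 * (c / l)) * (√q * (1 + √q)) := by
        rw [e9, hsq]
        linarith
    _ = _ := by ring

theorem nouter3_cs {B X q y ρ a b k₁ k₂ : ℝ} (hX : 1 ≤ X) (hq0 : 0 < q)
    (hq : q ≤ B * X) (ha : |a| ≤ k₁ * (√q * (1 + √q))) (hb : |b| ≤ k₂ * (√q * (1 + √q))) :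
    (y * a - ρ * b) ^ 2 ≤ (y ^ 2 + ρ ^ 2) * ((k₁ ^ 2 + k₂ ^ 2) * (2 * (1 + B) * (q * X))) := by
  have hsq : √q ^ 2 = q := Real.sq_sqrt hq0.le
  have hqq : (√q * (1 + √q)) ^ 2 ≤ 2 * (1 + B) * (q * X) := by
    have e1 : (1 + √q) ^ 2 ≤ 2 * (1 + q) := by
      have : (1 + √q) ^ 2 = 1 + 2 * √q + q := by
        rw [add_sq, hsq]
        ring
      rw [this]
      nlinarith [sq_nonneg (1 - √q)]
    have e2 : 1 + q ≤ (1 + B) * X := by linarith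
    calc (√q * (1 + √q)) ^ 2 = q * (1 + √q) ^ 2 := by rw [mul_pow, hsq]
      _ ≤ q * (2 * ((1 + B) * X)) := mul_le_mul_of_nonneg_left (by linarith) hq0.le
      _ = _ := by ring
  have e2 : (y * a - ρ * b) ^ 2 ≤ (y ^ 2 + ρ ^ 2) * (a ^ 2 + b ^ 2) := by
    nlinarith [sq_nonneg (y * b + ρ * a)]
  refine e2.trans (mul_le_mul_of_nonneg_left ?_ (by positivity))
  have e3 : a ^ 2 ≤ k₁ ^ 2 * (√q * (1 + √q)) ^ 2 := by
    rw [← sq_abs a, ← mul_pow]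
    exact pow_le_pow_left₀ (abs_nonneg _) ha 2
  have e4 : b ^ 2 ≤ k₂ ^ 2 * (√q * (1 + √q)) ^ 2 := by
    rw [← sq_abs b, ← mul_pow]
    exact pow_le_pow_left₀ (abs_nonneg _) hb 2
  calc a ^ 2 + b ^ 2 ≤ (k₁ ^ 2 + k₂ ^ 2) * (√q * (1 + √q)) ^ 2 := by
        rw [add_mul]
        exact add_le_add e3 e4
    _ ≤ _ := mul_le_mul_of_nonneg_left hqq (by positivity)

theorem nouter3_sq {e c l B C X s D q q₁ qr H H₁ E₁ y ρ : ℝ} (he : 1 < e) (hc : 0 < c)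
    (hl : 0 < l) (hB : 0 ≤ B) (hC : 0 ≤ C) (hX : 1 ≤ X) (h1 : X ≤ s) (h2 : s ≤ 2 * X)
    (hX2 : 20 / (9 * c) ≤ X) (hq0 : 0 < q) (hq : q ≤ B * X) (hq1 : |q₁| ≤ C) (hqr : |qr| ≤ q)
    (hD : l * X ≤ D) (hH : |H - c| ≤ c / 10) (hH1 : |H₁| ≤ c / 10) (hE1 : |E₁| ≤ c / 10) :
    (e - 1) * (H * s) ^ (e - 2) * (y * s * (√q / s) * (H₁ - H * √q * (2 * X + q₁) / D) -
      ρ * (H * s * qr / D + E₁ * √q)) ^ 2 / ((H * s) ^ e - 1) ≤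
      (e - 1) * (4 * (1 + B) * ((c + 2 * c * (2 + C) / l) ^ 2 + (c + 3 * c / l) ^ 2) /
        (9 * c / 10) ^ 2) * (q / X * (y ^ 2 + ρ ^ 2)) := by
  have hX0 : 0 < X := by linarith
  have hs0 : 0 < s := by linarith
  rw [abs_le] at hH
  have hHl : 9 * c / 10 ≤ H := by linarith [hH.1]
  have hHu : H ≤ 11 * c / 10 := by linarith [hH.2]
  have hH0 : 0 < H := by linarith
  obtain ⟨hfac0, hfac⟩ := nouter3_fac he hc hX0 h1 hX2 hHl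
  have ha := nouter3_a (D := D) hc hl hC hX0 hX hq0 hq1 hD hH0 hHu hH1
  have hb := nouter3_b hc hl hX0 hs0 h2 hq0 hqr hD hH0 hHu hE1
  have hcs := nouter3_cs (y := y) (ρ := ρ) hX hq0 hq ha hb
  have e1 : y * s * (√q / s) * (H₁ - H * √q * (2 * X + q₁) / D) =
      y * (√q * (H₁ - H * √q * (2 * X + q₁) / D)) := by
    have : y * s * (√q / s) = y * √q := by field_simp
    rw [this]
    ring
  rw [e1]
  have hZ : 0 ≤ (y * (√q * (H₁ - H * √q * (2 * X + q₁) / D)) -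
      ρ * (H * s * qr / D + E₁ * √q)) ^ 2 := sq_nonneg _
  generalize (y * (√q * (H₁ - H * √q * (2 * X + q₁) / D)) -
      ρ * (H * s * qr / D + E₁ * √q)) ^ 2 = Z at hcs hZ ⊢
  generalize (H * s) ^ e = V at hfac0 hfac ⊢
  generalize (H * s) ^ (e - 2) = U at hfac0 hfac ⊢
  generalize (c + 2 * c * (2 + C) / l) ^ 2 + (c + 3 * c / l) ^ 2 = k at hcs ⊢
  have he1 : 0 ≤ e - 1 := by linarith
  calc (e - 1) * U * Z / (V - 1) = (e - 1) * (U / (V - 1) * Z) := by ring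
    _ ≤ (e - 1) * (2 / ((9 * c / 10) ^ 2 * X ^ 2) * ((y ^ 2 + ρ ^ 2) *
          (k * (2 * (1 + B) * (q * X))))) :=
        mul_le_mul_of_nonneg_left (mul_le_mul hfac hcs hZ (by positivity)) he1
    _ = _ := by
        field_simp
        ring

/-- For `X ≥ X₀` (large), `ρ₀ = √(X²+q) ∈ [X, 2X]`, `L = 2q - X q₁ ≥ l X`, `u = |z|/ρ₀`,
`v = |ρ|`.
Main term `≥ (Hρ₀)^{e-1} (q/ρ₀) (0.8c u² - 0.2c u v + 0.8c v²) ≥ c₁ q X^{e-2} (u² + v²)`.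
`NN`: `|2qz + X qr ρ|/L ≤ (q/l)(4u + v)` (`|z| ≤ 2X u`), so
`NN ≤ 2/(q l X) (C τ²/4 + |τ| v (C q + q) + 9/4 q² v²) ≤ C' (q/X) (u² + v²)`.
Square term: `|z| (√q/ρ₀) |H₁ - H√q(2X+q₁)/L| ≤ u √q (c + 2c√q (2X+C)/(lX)) ≤ C'' (q + √q) u`,
`|ρ| |Hρ₀ qr/L + E₁√q| ≤ v (2c·2X q/(lX) + c√q) ≤ C'' (q + √q) v`, `(q+√q)² ≤ 2q (q+1) ≤
C q X`; `(Hρ₀)^{e-2}/((Hρ₀)^e - 1) ≤ 2/(Hρ₀)² ≤ C/X²`; so the last term is
`≤ C''' (q/X)(u² + v²)`.  Since `e > 1`, `X^{e-2}` beats `X^{-1}`. -/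
theorem outer3 {e c b l C : ℝ} (he : 1 < e) (hc : 0 < c) (hl : 0 < l) : ∃ X₀ ≥ 1,
    ∀ X, X₀ ≤ X → ∀ q q₁ q₂ qr q1r qrr H H₁ R E₁ E₂ E₃, 0 < q → q ≤ b + C * X → |q₁| ≤ C →
    0 ≤ q₁ ^ 2 - 2 * q * q₂ → q₁ ^ 2 - 2 * q * q₂ ≤ C → l * X ≤ 2 * q - X * q₁ →
    |qr| ≤ q → |q1r| ≤ 1 → |qrr| ≤ q →
    |H - c| ≤ c / 10 → |H₁| ≤ c / 10 → |R - c| ≤ c / 5 → |E₁| ≤ c / 10 → |E₂| ≤ c / 10 →
    |E₃ - c| ≤ c / 5 → ∀ z ρ,
    0 ≤ JJ e X q q₁ q₂ qr q1r qrr H H₁ R E₁ E₂ E₃ z ρ := by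
  rcases lt_or_ge C 0 with hC | hC
  · exact ⟨1, le_rfl, fun X _ q q₁ q₂ qr q1r qrr H H₁ R E₁ E₂ E₃ _ _ h => by
      exact absurd ((abs_nonneg _).trans h) (not_le.2 hC)⟩
  obtain ⟨B, hB⟩ : ∃ B, B = |b| + C := ⟨_, rfl⟩
  have hB0 : 0 ≤ B := by rw [hB]; positivity
  obtain ⟨K2, hK2⟩ : ∃ K2, K2 = 2 / l * (17 * C / (4 * l ^ 2) + 3 * (C + 1) / l + 9 / 4) :=
    ⟨_, rfl⟩
  obtain ⟨K3, hK3⟩ : ∃ K3, K3 = (e - 1) * (4 * (1 + B) * ((c + 2 * c * (2 + C) / l) ^ 2 +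
    (c + 3 * c / l) ^ 2) / (9 * c / 10) ^ 2) := ⟨_, rfl⟩
  have hlim : Tendsto (fun X : ℝ => X ^ (e - 1)) atTop atTop :=
    tendsto_rpow_atTop (by linarith)
  have hc9 : 0 < (9 * c / 10) ^ (e - 1) * (7 * c / 20) :=
    mul_pos (Real.rpow_pos_of_pos (by positivity) _) (by positivity)
  have hev : ∀ᶠ X in atTop, 1 ≤ X ∧ B ≤ X ∧ 20 / (9 * c) ≤ X ∧
      (K2 + K3) / ((9 * c / 10) ^ (e - 1) * (7 * c / 20)) ≤ X ^ (e - 1) :=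
    (eventually_ge_atTop _).and ((eventually_ge_atTop _).and ((eventually_ge_atTop _).and
      (hlim.eventually_ge_atTop _)))
  obtain ⟨X₁, hX₁⟩ := eventually_atTop.1 hev
  refine ⟨max X₁ 1, le_max_right _ _, fun X hX q q₁ q₂ qr q1r qrr H H₁ R E₁ E₂ E₃ hq0 hq hq1
    hw0 hw hD hqr hq1r hqrr hH hH1 hR hE1 hE2 hE3 z ρ => ?_⟩
  obtain ⟨hX1, hXB, hXc, hXT⟩ := hX₁ X ((le_max_left _ _).trans hX)
  have hX0 : 0 < X := by linarith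
  have hqB : q ≤ B * X := by
    have h1 : b ≤ |b| * X := (le_abs_self b).trans (by nlinarith [abs_nonneg b])
    rw [hB, add_mul]
    linarith
  have hqX : q ≤ X ^ 2 := by nlinarith
  have hρ1 : X ≤ √(X ^ 2 + q) := Real.le_sqrt_of_sq_le (by linarith)
  have hρ2 : √(X ^ 2 + q) ≤ 2 * X := by
    rw [Real.sqrt_le_left (by linarith)]
    nlinarith
  have hs2 : X ^ 2 + q = √(X ^ 2 + q) ^ 2 := (Real.sq_sqrt (by positivity)).symm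
  unfold JJ
  generalize √(X ^ 2 + q) = s at hρ1 hρ2 hs2 ⊢
  rw [hs2]
  have hs0 : 0 < s := by linarith
  obtain ⟨y, rfl⟩ : ∃ y, z = y * s := ⟨z / s, by field_simp⟩
  have hHl : 9 * c / 10 ≤ H := by linarith [(abs_le.1 hH).1]
  have hP : (9 * c / 10) ^ (e - 1) * X ^ (e - 1) ≤ (H * s) ^ (e - 1) := by
    rw [← Real.mul_rpow (by positivity) hX0.le]
    exact Real.rpow_le_rpow (by positivity) (mul_le_mul hHl hρ1 hX0.le (by linarith))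
      (by linarith)
  have hP0 : 0 ≤ (H * s) ^ (e - 1) := le_trans (by positivity) hP
  have t1 := nouter3_main (y := y) (ρ := ρ) hc hq0 hX0 hρ1 hρ2 hP0
    (show 4 * c / 5 ≤ R by linarith [(abs_le.1 hR).1]) hE2
    (show 4 * c / 5 ≤ E₃ by linarith [(abs_le.1 hE3).1])
  have t2 := nouter3_nn (y := y) (ρ := ρ) hl hX0 hC hs0 hρ2 hq0 hq1 hw0 hw hD hqr hq1r hqrr
  have t3 := nouter3_sq (y := y) (ρ := ρ) he hc hl hB0 hC hX1 hρ1 hρ2 hXc hq0 hqB hq1 hqr hD hH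
    hH1 hE1
  rw [← hK2] at t2
  rw [← hK3] at t3
  have hn : 0 ≤ q / X * (y ^ 2 + ρ ^ 2) := by positivity
  have h5 : K2 + K3 ≤ (H * s) ^ (e - 1) * (7 * c / 20) := by
    rw [div_le_iff₀ hc9] at hXT
    have h6 : (9 * c / 10) ^ (e - 1) * X ^ (e - 1) * (7 * c / 20) ≤
        (H * s) ^ (e - 1) * (7 * c / 20) := mul_le_mul_of_nonneg_right hP (by positivity)
    linarith
  have h7 := mul_le_mul_of_nonneg_right h5 hn
  rw [add_mul] at h7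
  linarith

end CH
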