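import Pool.Agent.H.MP_1693ff_gtC.NDefs

/-!
# The start form is nonnegative
-/

namespace CH

open Real Set Filter Topology CG
open CF hiding St

/-- The start form is nonnegative: with `D₀ = q₁² - 2 q q₂ ≥ D`, `|qr| ≤ δ q`, `|qrr| ≤ δ q`,
`|q1r| ≤ δ`, `|q₁| ≤ C`: `(q₁ qr - q q1r)² ≤ (C+1)² δ² q² ≤ D q²/2 ≤
D₀ (3/4 qr² - q qrr/2 + q²)` (`δ ≤ 1`). -/
theorem nn_nonneg {X q q₁ q₂ qr q1r qrr C D δ : ℝ} (hC : 0 ≤ C) (hD : 0 < D) (hδ : 0 ≤ δ)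
    (hδ1 : δ ≤ 1) (hδ2 : (C + 1) ^ 2 * δ ^ 2 ≤ D / 2) (hq : 0 < q) (hl : 0 < 2 * q - X * q₁)
    (h1 : |q₁| ≤ C) (h0 : D ≤ q₁ ^ 2 - 2 * q * q₂) (hr : |qr| ≤ δ * q) (hrr : |qrr| ≤ δ * q)
    (h1r : |q1r| ≤ δ) (z ρ : ℝ) : 0 ≤ NN X q q₁ q₂ qr q1r qrr z ρ := by
  obtain ⟨D₀, hD₀⟩ : ∃ D₀, D₀ = q₁ ^ 2 - 2 * q * q₂ := ⟨_, rfl⟩
  obtain ⟨w, hw⟩ : ∃ w, w = (2 * q * z + X * qr * ρ) / (2 * q - X * q₁) := ⟨_, rfl⟩
  obtain ⟨b, hb⟩ : ∃ b, b = q₁ * qr - q * q1r := ⟨_, rfl⟩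
  obtain ⟨c, hc⟩ : ∃ c, c = 3 / 4 * qr ^ 2 - q * qrr / 2 + q ^ 2 := ⟨_, rfl⟩
  rw [← hD₀] at h0
  have hD0 : 0 < D₀ := hD.trans_le h0
  rw [NN, ← hD₀, ← hw, ← hb, ← hc]
  refine mul_nonneg (div_pos two_pos (mul_pos hq hl)).le ?_
  have hδq : 0 ≤ δ * q := mul_nonneg hδ hq.le
  have e1 : |b| ≤ (C + 1) * (δ * q) := by
    have e2 : |q₁ * qr| ≤ C * (δ * q) := by
      rw [abs_mul]
      exact mul_le_mul h1 hr (abs_nonneg _) hC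
    have e3 : |q * q1r| ≤ q * δ := by
      rw [abs_mul, abs_of_pos hq]
      exact mul_le_mul_of_nonneg_left h1r hq.le
    have e4 : |b| ≤ |q₁ * qr| + |q * q1r| := by
      rw [hb]
      exact abs_sub _ _
    linarith
  have e5 : b ^ 2 ≤ D / 2 * q ^ 2 := by
    have e6 : b ^ 2 ≤ ((C + 1) * (δ * q)) ^ 2 := by
      rw [← sq_abs b]
      exact pow_le_pow_left₀ (abs_nonneg _) e1 2
    have e7 := mul_le_mul_of_nonneg_right hδ2 (sq_nonneg q)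
    have e8 : ((C + 1) * (δ * q)) ^ 2 = (C + 1) ^ 2 * δ ^ 2 * q ^ 2 := by ring
    linarith
  have e9 : q ^ 2 / 2 ≤ c := by
    have e10 : qrr ≤ q := by
      have e11 := (abs_le.1 hrr).2
      have e12 := mul_le_mul_of_nonneg_right hδ1 hq.le
      linarith
    have e13 := mul_le_mul_of_nonneg_left e10 hq.le
    rw [hc]
    nlinarith [sq_nonneg qr]
  have e14 : b ^ 2 ≤ D₀ * c := by
    have e15 : D * (q ^ 2 / 2) ≤ D₀ * c :=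
      mul_le_mul h0 e9 (by positivity) hD0.le
    linarith
  have e16 : D₀ * (w ^ 2 * D₀ / 4 + w * ρ * b + ρ ^ 2 * c) =
      (D₀ * w / 2 + b * ρ) ^ 2 + ρ ^ 2 * (D₀ * c - b ^ 2) := by ring
  have e17 : 0 ≤ D₀ * (w ^ 2 * D₀ / 4 + w * ρ * b + ρ ^ 2 * c) := by
    rw [e16]
    have := mul_nonneg (sq_nonneg ρ) (sub_nonneg.2 e14)
    positivity
  exact nonneg_of_mul_nonneg_right e17 hD0

end CH
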