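import Pool.Agent.H.MP_1693ff_gtC.NPosB

/-!
# Perturbation on a compact interval
-/

namespace CH

open Real Set Filter Topology CG
open CF hiding St

theorem ntube3_NN {Z : Type*} [TopologicalSpace Z] {z₀ : Z}
    {X q q₁ q₂ qr q1r qrr z ρ : Z → ℝ}
    (cX : ContinuousAt X z₀) (cq : ContinuousAt q z₀) (cq₁ : ContinuousAt q₁ z₀)
    (cq₂ : ContinuousAt q₂ z₀) (cqr : ContinuousAt qr z₀) (cq1r : ContinuousAt q1r z₀)
    (cqrr : ContinuousAt qrr z₀) (cz : ContinuousAt z z₀) (cρ : ContinuousAt ρ z₀)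
    (h1 : 0 < q z₀) (h2 : 0 < 2 * q z₀ - X z₀ * q₁ z₀) :
    ContinuousAt (fun w => NN (X w) (q w) (q₁ w) (q₂ w) (qr w) (q1r w) (qrr w) (z w) (ρ w))
      z₀ := by
  unfold NN
  have c2 : ContinuousAt (fun w => 2 * q w - X w * q₁ w) z₀ :=
    (continuousAt_const.mul cq).sub (cX.mul cq₁)
  have c4 : ContinuousAt (fun w => (2 * q w * z w + X w * qr w * ρ w) /
      (2 * q w - X w * q₁ w)) z₀ := by
    refine ContinuousAt.div ?_ c2 h2.ne'
    exact ((continuousAt_const.mul cq).mul cz).add ((cX.mul cqr).mul cρ)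
  have c5 : ContinuousAt (fun w => 2 / (q w * (2 * q w - X w * q₁ w))) z₀ :=
    continuousAt_const.div (cq.mul c2) (mul_pos h1 h2).ne'
  refine c5.mul ?_
  refine ContinuousAt.add (ContinuousAt.add ?_ ?_) ?_
  · exact ((c4.pow 2).mul ((cq₁.pow 2).sub ((continuousAt_const.mul cq).mul cq₂))).div_const 4
  · exact (c4.mul cρ).mul ((cq₁.mul cqr).sub (cq.mul cq1r))
  · refine (cρ.pow 2).mul (ContinuousAt.add (ContinuousAt.sub ?_ ?_) (cq.pow 2))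
    · exact continuousAt_const.mul (cqr.pow 2)
    · exact (cq.mul cqrr).div_const 2

theorem ntube3_JJ {Z : Type*} [TopologicalSpace Z] {z₀ : Z} {e : ℝ}
    {X q q₁ q₂ qr q1r qrr H H₁ R E₁ E₂ E₃ z ρ : Z → ℝ} (he : 1 < e)
    (cX : ContinuousAt X z₀) (cq : ContinuousAt q z₀) (cq₁ : ContinuousAt q₁ z₀)
    (cq₂ : ContinuousAt q₂ z₀) (cqr : ContinuousAt qr z₀) (cq1r : ContinuousAt q1r z₀)
    (cqrr : ContinuousAt qrr z₀) (cH : ContinuousAt H z₀) (cH₁ : ContinuousAt H₁ z₀)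
    (cR : ContinuousAt R z₀) (cE₁ : ContinuousAt E₁ z₀) (cE₂ : ContinuousAt E₂ z₀)
    (cE₃ : ContinuousAt E₃ z₀) (cz : ContinuousAt z z₀) (cρ : ContinuousAt ρ z₀)
    (h0 : 0 < X z₀ ^ 2 + q z₀)
    (h1 : 0 < q z₀) (h2 : 0 < 2 * q z₀ - X z₀ * q₁ z₀) (h3 : 0 < H z₀)
    (h4 : 1 < (H z₀ * √(X z₀ ^ 2 + q z₀)) ^ e) :
    ContinuousAt (fun w => JJ e (X w) (q w) (q₁ w) (q₂ w) (qr w) (q1r w) (qrr w) (H w) (H₁ w)
      (R w) (E₁ w) (E₂ w) (E₃ w) (z w) (ρ w)) z₀ := by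
  have cN := ntube3_NN cX cq cq₁ cq₂ cqr cq1r cqrr cz cρ h1 h2
  unfold JJ
  have c1 : ContinuousAt (fun w => √(X w ^ 2 + q w)) z₀ := ((cX.pow 2).add cq).sqrt
  have c2 : ContinuousAt (fun w => 2 * q w - X w * q₁ w) z₀ :=
    (continuousAt_const.mul cq).sub (cX.mul cq₁)
  have p1 : 0 < √(X z₀ ^ 2 + q z₀) := Real.sqrt_pos.2 h0
  have pH : H z₀ * √(X z₀ ^ 2 + q z₀) ≠ 0 := (mul_pos h3 p1).ne'
  have c3 : ContinuousAt (fun w => (H w * √(X w ^ 2 + q w)) ^ e - 1) z₀ :=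
    ((cH.mul c1).rpow_const (Or.inr (by linarith))).sub continuousAt_const
  have c6 : ContinuousAt (fun w => (H w * √(X w ^ 2 + q w)) ^ (e - 1)) z₀ :=
    (cH.mul c1).rpow_const (Or.inl pH)
  have c7 : ContinuousAt (fun w => (H w * √(X w ^ 2 + q w)) ^ (e - 2)) z₀ :=
    (cH.mul c1).rpow_const (Or.inl pH)
  have c8 : ContinuousAt (fun w => X w ^ 2 + q w) z₀ := (cX.pow 2).add cq
  refine ContinuousAt.sub (ContinuousAt.sub ?_ cN) ?_
  · refine (c6.mul cq).mul (ContinuousAt.add (ContinuousAt.add ?_ ?_) ?_)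
    · exact (cR.mul (cz.pow 2)).div (c1.pow 3) (pow_ne_zero 3 p1.ne')
    · exact (((continuousAt_const.mul cE₂).mul cz).mul cρ).div c8 h0.ne'
    · exact (cE₃.mul (cρ.pow 2)).div c1 p1.ne'
  · refine ContinuousAt.div ?_ c3 (by linarith)
    refine (continuousAt_const.mul c7).mul (ContinuousAt.pow ?_ 2)
    refine ContinuousAt.sub ?_ ?_
    · refine (cz.mul (cq.sqrt.div c1 p1.ne')).mul (cH₁.sub (ContinuousAt.div ?_ c2 h2.ne'))
      exact (cH.mul cq.sqrt).mul ((continuousAt_const.mul cX).add cq₁)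
    · refine cρ.mul (ContinuousAt.add ?_ (cE₁.mul cq.sqrt))
      exact ((cH.mul c1).mul cqr).div c2 h2.ne'

theorem ntube3_hom (e X q q₁ q₂ qr q1r qrr H H₁ R E₁ E₂ E₃ z ρ s : ℝ) :
    JJ e X q q₁ q₂ qr q1r qrr H H₁ R E₁ E₂ E₃ (s * z) (s * ρ) =
      s ^ 2 * JJ e X q q₁ q₂ qr q1r qrr H H₁ R E₁ E₂ E₃ z ρ := by
  unfold JJ NN
  have h1 : (2 * q * (s * z) + X * qr * (s * ρ)) / (2 * q - X * q₁) =
      s * ((2 * q * z + X * qr * ρ) / (2 * q - X * q₁)) := by ring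
  rw [h1]
  ring

theorem ntube3_circle : IsCompact {p : ℝ × ℝ | p.1 ^ 2 + p.2 ^ 2 = 1} := by
  refine Metric.isCompact_of_isClosed_isBounded ?_ ?_
  · exact isClosed_eq (by fun_prop) continuous_const
  · refine (Metric.isBounded_closedBall (x := (0 : ℝ × ℝ)) (r := 1)).subset ?_
    rintro ⟨x, y⟩ h
    simp only [Set.mem_ofPred_eq] at h
    simp only [Metric.mem_closedBall, dist_zero_right, Prod.norm_def, Real.norm_eq_abs,
      sup_le_iff]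
    constructor <;> rw [abs_le] <;> constructor <;> nlinarith [sq_nonneg x, sq_nonneg y]

/-- Compactness (see `tube`, same method): the compact set is `[0,X₀] × {z² + ρ² = 1}`, the
parameters are the twelve differences near `0`; `JJ` is continuous near the model points and
positive there (`jj_model`).  Then homogeneity in `(z, ρ)` (degree two; for `(0,0)` it is `0`). -/
theorem tube3 {e c X₀ : ℝ} (he : 1 < e) (hc : 0 < c) : ∃ δ > 0, ∀ X ∈ Icc 0 X₀,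
    ∀ q q₁ q₂ qr q1r qrr H H₁ R E₁ E₂ E₃, |q - qm e c X| ≤ δ → |q₁ - qm1 e c| ≤ δ →
    |q₂| ≤ δ → |qr| ≤ δ → |q1r| ≤ δ → |qrr| ≤ δ → |H - c| ≤ δ → |H₁| ≤ δ → |R - c| ≤ δ →
    |E₁| ≤ δ → |E₂| ≤ δ → |E₃ - c| ≤ δ → ∀ z ρ,
    0 ≤ JJ e X q q₁ q₂ qr q1r qrr H H₁ R E₁ E₂ E₃ z ρ := by
  let P : (Fin 12 → ℝ) → ℝ × ℝ × ℝ → Prop := fun p y =>
    0 < JJ e y.1 (qm e c y.1 + p 0) (qm1 e c + p 1) (p 2) (p 3) (p 4) (p 5) (c + p 6) (p 7)
      (c + p 8) (p 9) (p 10) (c + p 11) y.2.1 y.2.2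
  have hloc : ∀ y ∈ Icc (0 : ℝ) X₀ ×ˢ {p : ℝ × ℝ | p.1 ^ 2 + p.2 ^ 2 = 1},
      ∀ᶠ w : (Fin 12 → ℝ) × (ℝ × ℝ × ℝ) in 𝓝 (0, y), P w.1 w.2 := by
    rintro ⟨X, z, ρ⟩ ⟨hX, hzρ⟩
    simp only [Set.mem_ofPred_eq] at hX hzρ
    obtain ⟨f1, f2⟩ := modc_FF (e := e) (c := c) (X := X) he hc hX.1
    obtain ⟨g1, g2, g3⟩ := modc_GG (e := e) (c := c) (X := X) he hc hX.1
    have hne : z ≠ 0 ∨ ρ ≠ 0 := by
      by_contra hcon
      push Not at hcon
      rw [hcon.1, hcon.2] at hzρ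
      norm_num at hzρ
    have hJ := jj_model he hc hX.1 hne
    set z₀ : (Fin 12 → ℝ) × (ℝ × ℝ × ℝ) := (0, X, z, ρ) with hz₀
    have cp : ∀ i, ContinuousAt (fun w : (Fin 12 → ℝ) × (ℝ × ℝ × ℝ) => w.1 i) z₀ := by
      intro i
      fun_prop
    have cX : ContinuousAt (fun w : (Fin 12 → ℝ) × (ℝ × ℝ × ℝ) => w.2.1) z₀ := by fun_prop
    have cz : ContinuousAt (fun w : (Fin 12 → ℝ) × (ℝ × ℝ × ℝ) => w.2.2.1) z₀ := by fun_prop
    have cρ : ContinuousAt (fun w : (Fin 12 → ℝ) × (ℝ × ℝ × ℝ) => w.2.2.2) z₀ := by fun_prop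
    have cq : ContinuousAt (fun w : (Fin 12 → ℝ) × (ℝ × ℝ × ℝ) => qm e c w.2.1 + w.1 0) z₀ := by
      unfold qm
      fun_prop
    have cq₁ : ContinuousAt (fun w : (Fin 12 → ℝ) × (ℝ × ℝ × ℝ) => qm1 e c + w.1 1) z₀ :=
      continuousAt_const.add (cp 1)
    have cH : ContinuousAt (fun w : (Fin 12 → ℝ) × (ℝ × ℝ × ℝ) => c + w.1 6) z₀ :=
      continuousAt_const.add (cp 6)
    have cR : ContinuousAt (fun w : (Fin 12 → ℝ) × (ℝ × ℝ × ℝ) => c + w.1 8) z₀ :=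
      continuousAt_const.add (cp 8)
    have cE : ContinuousAt (fun w : (Fin 12 → ℝ) × (ℝ × ℝ × ℝ) => c + w.1 11) z₀ :=
      continuousAt_const.add (cp 11)
    have key := ntube3_JJ (z₀ := z₀) he cX cq cq₁ (cp 2) (cp 3) (cp 4) (cp 5) cH (cp 7) cR
      (cp 9) (cp 10) cE cz cρ
      (by simp only [hz₀, Pi.zero_apply, add_zero]; nlinarith [sq_nonneg X])
      (by simp only [hz₀, Pi.zero_apply, add_zero]; exact g2)
      (by simp only [hz₀, Pi.zero_apply, add_zero]; exact g3)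
      (by simp only [hz₀, Pi.zero_apply, add_zero]; exact hc)
      (by simp only [hz₀, Pi.zero_apply, add_zero]; linarith)
    refine key.eventually_const_lt ?_
    simp only [hz₀, Pi.zero_apply, add_zero]
    exact hJ
  have hglob := (isCompact_Icc.prod ntube3_circle).eventually_forall_of_forall_eventually hloc
  obtain ⟨ε, hε, hball⟩ := Metric.eventually_nhds_iff.1 hglob
  refine ⟨ε / 2, half_pos hε, ?_⟩
  intro X hX q q₁ q₂ qr q1r qrr H H₁ R E₁ E₂ E₃ a0 a1 a2 a3 a4 a5 a6 a7 a8 a9 a10 a11 z ρ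
  have hd : dist (![q - qm e c X, q₁ - qm1 e c, q₂, qr, q1r, qrr, H - c, H₁, R - c, E₁, E₂,
      E₃ - c] : Fin 12 → ℝ) 0 < ε := by
    rw [dist_zero_right, pi_norm_lt_iff hε]
    intro i
    have hlt : ∀ x : ℝ, |x| ≤ ε / 2 → ‖x‖ < ε := fun x hx => by
      rw [Real.norm_eq_abs]
      linarith
    fin_cases i
    · exact hlt _ a0
    · exact hlt _ a1
    · exact hlt _ a2
    · exact hlt _ a3
    · exact hlt _ a4
    · exact hlt _ a5
    · exact hlt _ a6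
    · exact hlt _ a7
    · exact hlt _ a8
    · exact hlt _ a9
    · exact hlt _ a10
    · exact hlt _ a11
  have hb := hball hd
  by_cases h0 : z ^ 2 + ρ ^ 2 = 0
  · have hz : z = 0 := by nlinarith [sq_nonneg z, sq_nonneg ρ]
    have hρ : ρ = 0 := by nlinarith [sq_nonneg z, sq_nonneg ρ]
    have h1 := ntube3_hom e X q q₁ q₂ qr q1r qrr H H₁ R E₁ E₂ E₃ 0 0 0
    rw [hz, hρ]
    simp only [mul_zero] at h1
    rw [h1]
    norm_num
  · have hs : 0 < z ^ 2 + ρ ^ 2 := lt_of_le_of_ne (by positivity) (Ne.symm h0)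
    set s := √(z ^ 2 + ρ ^ 2) with hs_def
    have hs0 : 0 < s := Real.sqrt_pos.2 hs
    have hs2 : s ^ 2 = z ^ 2 + ρ ^ 2 := Real.sq_sqrt hs.le
    have hmem : ((X, z / s, ρ / s) : ℝ × ℝ × ℝ) ∈
        Icc (0 : ℝ) X₀ ×ˢ {p : ℝ × ℝ | p.1 ^ 2 + p.2 ^ 2 = 1} := by
      refine ⟨hX, ?_⟩
      simp only [Set.mem_ofPred_eq]
      rw [div_pow, div_pow, ← add_div, hs2, div_self h0]
    have hP := hb _ hmem
    have hJ : 0 < JJ e X q q₁ q₂ qr q1r qrr H H₁ R E₁ E₂ E₃ (z / s) (ρ / s) := by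
      have h2 : P ![q - qm e c X, q₁ - qm1 e c, q₂, qr, q1r, qrr, H - c, H₁, R - c, E₁, E₂,
          E₃ - c] (X, z / s, ρ / s) ↔ 0 < JJ e X (qm e c X + (q - qm e c X))
          (qm1 e c + (q₁ - qm1 e c)) q₂ qr q1r qrr (c + (H - c)) H₁ (c + (R - c)) E₁ E₂
          (c + (E₃ - c)) (z / s) (ρ / s) := Iff.rfl
      rw [h2] at hP
      simp only [add_sub_cancel] at hP
      exact hP
    have h3 := ntube3_hom e X q q₁ q₂ qr q1r qrr H H₁ R E₁ E₂ E₃ (z / s) (ρ / s) s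
    rw [mul_div_cancel₀ _ hs0.ne', mul_div_cancel₀ _ hs0.ne'] at h3
    rw [h3]
    exact mul_nonneg (sq_nonneg s) hJ.le

end CH
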