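import Pool.Agent.H.MP_1693ff_gtC.NCoef
import Pool.Agent.H.MP_1693ff_gtC.NCub3B
import Pool.Agent.H.MP_1693ff_gtC.NCub3C
import Pool.Agent.H.MP_1693ff_gtC.NPosA
import Pool.Agent.H.MP_1693ff_gtC.NTube3
import Pool.Agent.H.MP_1693ff_gtC.NOuter3
import Pool.Agent.H.MP_1693ff_gtB.GPar
import Pool.Agent.H.MP_1693ff_gtB.GFirstA

/-!
# The transverse facts on the start surface
-/

namespace CH

open Real Set Filter Topology CG
open CF hiding St

theorem nfirst3_mono {h : ℝ → ℝ → ℝ} {c ε ε' : ℝ} (H : N3 h c ε) (h' : ε ≤ ε') : N3 h c ε' :=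
  ⟨fun r => (H.near r).mono h', H.opp, H.c2, fun a r => (H.b1 a r).trans h',
    fun a r => (H.b2 a r).trans h', fun a r => (H.b3 a r).trans h', H.c3,
    fun r => (H.b4 r).trans h'⟩

/-- Assembly (compare `first_core`).  Intervals `[b₀, b₁]`, `[l₀, l₁]` for the four coefficients as
there.  `cub_b`, `cub_c` give `C`, `cub_d` the lower bound `l₀²/2` of `q₁² - 2 q q₂` for `d ≥ D`.
`aqr_small` with `CoD e h δ'`, `CoD e k δ'` (`co_near`), `δ'` small: `|aqr| ≤ η aq`,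
`|aqrr| ≤ η aq`, `|aq1r| ≤ η` with `η ≤ 1`, `(C+1)² η² ≤ l₀²/4`; `nn_nonneg` gives `nn`.
`outer3` (with `b := b₁`, `l := l₀`, that `C`) gives `X₀`, `tube3` on `[0,X₀]` gives `δ`; there
`aq ≤ C(1+X₀)`, so `|aqr|, |aqrr| ≤ η C (1+X₀) ≤ δ`; `cub_near`, `par_near` as in `first_core`;
`N3` gives `|E₁| ≤ ε`, `|E₂| ≤ ε`, `|E₃ - c| ≤ ε`, and `|h θ - c|, |h' θ| ≤ ε`,
`|curv - c| ≤ 2ε`. -/
theorem core3 {e c c' : ℝ} (he : 1 < e) (hc : 0 < c) (hc' : 0 < c') :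
    ∃ ε D : ℝ, 0 < ε ∧ 1 ≤ D ∧ ∀ h k, N3 h c ε → N3 k c' ε → ∀ d, D ≤ d → ∀ r,
      ∀ X ∈ Icc 0 d, Core3 e d h k X r := by
  obtain ⟨b₀, b₁, l₀, l₁, hb₀, hl₀, hpar⟩ := gfirsta_par he hc hc'
  obtain ⟨Cb, hCb, Hb⟩ := cub_b (b₁ := b₁) (l₁ := l₁) hb₀ hl₀
  obtain ⟨Cc, Dc, hCc, hDc, Hc⟩ := cub_c (b₁ := b₁) (l₁ := l₁) hb₀ hl₀
  obtain ⟨Dd, hDd, Hd⟩ := cub_d (b₁ := b₁) (l₁ := l₁) hb₀ hl₀
  set C := max (max Cb Cc) (max b₁ l₁) with hC
  have hC1 : Cb ≤ C := (le_max_left _ _).trans (le_max_left _ _)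
  have hC2 : Cc ≤ C := (le_max_right _ _).trans (le_max_left _ _)
  have hC3 : b₁ ≤ C := (le_max_left _ _).trans (le_max_right _ _)
  have hC4 : l₁ ≤ C := (le_max_right _ _).trans (le_max_right _ _)
  have hC0 : 0 ≤ C := hCb.trans hC1
  obtain ⟨X₀, hX₀, Hout⟩ := outer3 (b := b₁) (C := C) he hc hl₀
  obtain ⟨δ, hδ, Htube⟩ := tube3 (X₀ := X₀) he hc
  have hX00 : 0 ≤ X₀ := by linarith
  obtain ⟨Cn, hCn, Hn⟩ := cub_near (b₁ := b₁) (l₁ := l₁) hb₀ hl₀ hX00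
  obtain ⟨ε₀, hε₀, hε₁, hε₂, Hpar⟩ := hpar (δ / (3 * (1 + X₀))) (by positivity)
  have hK : 1 ≤ (C + 1) * (1 + X₀) := by
    have h1 : 0 ≤ C * (1 + X₀) := by positivity
    have h2 : (C + 1) * (1 + X₀) = C * (1 + X₀) + (1 + X₀) := by ring
    linarith
  have hm0 : 0 < min b₀ l₀ := lt_min hb₀ hl₀
  obtain ⟨η, hη⟩ : ∃ η : ℝ, η = min (min 1 (l₀ / (2 * (C + 1)))) (δ / ((C + 1) * (1 + X₀))) :=
    ⟨_, rfl⟩
  have hη0 : 0 < η := by
    rw [hη]
    exact lt_min (lt_min one_pos (by positivity)) (by positivity)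
  have hη1 : η ≤ 1 := by
    rw [hη]
    exact (min_le_left _ _).trans (min_le_left _ _)
  have hη2 : (C + 1) * η ≤ l₀ / 2 := by
    have h1 : η ≤ l₀ / (2 * (C + 1)) := by
      rw [hη]
      exact (min_le_left _ _).trans (min_le_right _ _)
    have h2 := mul_le_mul_of_nonneg_left h1 (show 0 ≤ C + 1 by linarith)
    have h3 : (C + 1) * (l₀ / (2 * (C + 1))) = l₀ / 2 := by
      have : C + 1 ≠ 0 := by linarith
      field_simp
    linarith
  have hη3 : η * ((C + 1) * (1 + X₀)) ≤ δ := by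
    have h1 : η ≤ δ / ((C + 1) * (1 + X₀)) := by
      rw [hη]
      exact min_le_right _ _
    rwa [le_div_iff₀ (by linarith)] at h1
  have hη4 : η ≤ δ := by
    have := mul_le_mul_of_nonneg_left hK hη0.le
    linarith
  have hη5 : (C + 1) ^ 2 * η ^ 2 ≤ l₀ ^ 2 / 2 / 2 := by
    have h1 : ((C + 1) * η) ^ 2 ≤ (l₀ / 2) ^ 2 := by
      apply pow_le_pow_left₀ _ hη2
      exact mul_nonneg (by linarith) hη0.le
    have h2 : (C + 1) ^ 2 * η ^ 2 = ((C + 1) * η) ^ 2 := by ring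
    have h3 : (l₀ / 2) ^ 2 = l₀ ^ 2 / 2 / 2 := by ring
    linarith
  obtain ⟨δc, hδc⟩ : ∃ δc : ℝ, δc = min (η * min b₀ l₀) (η / 5) := ⟨_, rfl⟩
  have hδc0 : 0 < δc := by
    rw [hδc]
    exact lt_min (mul_pos hη0 hm0) (by positivity)
  have hδc1 : δc / min b₀ l₀ ≤ η := by
    rw [div_le_iff₀ hm0, hδc]
    exact min_le_left _ _
  have hδc2 : 5 * δc ≤ η := by
    have : δc ≤ η / 5 := by
      rw [hδc]
      exact min_le_right _ _
    linarith
  obtain ⟨ε₁, e1, -, H1⟩ := co_near he hc hδc0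
  obtain ⟨ε₂, e2, -, H2⟩ := co_near he hc' hδc0
  refine ⟨min (min ε₀ (δ / 2)) (min ε₁ ε₂), max (max (max Dc Dd) X₀) (3 * Cn / δ),
    lt_min (lt_min hε₀ (by positivity)) (lt_min e1 e2),
    hDc.trans ((le_max_left _ _).trans ((le_max_left _ _).trans (le_max_left _ _))),
    fun h k hh hk d hd r X hX => ?_⟩
  have E0 : min (min ε₀ (δ / 2)) (min ε₁ ε₂) ≤ ε₀ := (min_le_left _ _).trans (min_le_left _ _)
  have E1 : min (min ε₀ (δ / 2)) (min ε₁ ε₂) ≤ δ / 2 := (min_le_left _ _).trans (min_le_right _ _)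
  have E2 : min (min ε₀ (δ / 2)) (min ε₁ ε₂) ≤ ε₁ := (min_le_right _ _).trans (min_le_left _ _)
  have E3 : min (min ε₀ (δ / 2)) (min ε₁ ε₂) ≤ ε₂ := (min_le_right _ _).trans (min_le_right _ _)
  have hcoh := H1 h (nfirst3_mono hh E2)
  have hcok := H2 k (nfirst3_mono hk E3)
  obtain ⟨-, -, -, -, m1, m2, m3, m4, n1, n2⟩ := Hpar (h r) (k r) ((hh.near r).mono E0)
    ((hk.near r).mono E0)
  set ε := min (min ε₀ (δ / 2)) (min ε₁ ε₂) with hεdef
  have hd1 : Dc ≤ d :=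
    ((le_max_left _ _).trans ((le_max_left _ _).trans (le_max_left _ _))).trans hd
  have hd5 : Dd ≤ d :=
    ((le_max_right _ _).trans ((le_max_left _ _).trans (le_max_left _ _))).trans hd
  have hd2 : X₀ ≤ d := ((le_max_right _ _).trans (le_max_left _ _)).trans hd
  have hd3 : 3 * Cn / δ ≤ d := (le_max_right _ _).trans hd
  have hd4 : 1 ≤ d := hDc.trans hd1
  have hd0 : 0 < d := by linarith
  obtain ⟨u1, u2, u3, u4, u5⟩ := Hb _ m1 _ m2 _ m3 _ m4 d hd4 X hX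
  obtain ⟨w1, w2⟩ := Hc _ m1 _ m2 _ m3 _ m4 d hd1 X hX
  have w3 := Hd _ m1 _ m2 _ m3 _ m4 d hd5 X hX
  obtain ⟨s1, s2, s3⟩ := aqr_small hd4 hδc0.le hb₀ hl₀ hcoh hcok hX m1.1 m2.1 m3.1 m4.1
  have hX0 : 0 ≤ X := hX.1
  have hq0 : 0 < aq e d (h r) (k r) X := lt_of_lt_of_le hb₀ u1
  have hL0 : 2 * b₀ + l₀ * X ≤ 2 * aq e d (h r) (k r) X - X * aq1 e d (h r) (k r) X := u4
  have hL1 : 0 < 2 * aq e d (h r) (k r) X - X * aq1 e d (h r) (k r) X := by
    have := mul_nonneg hl₀.le hX0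
    linarith
  have S1 : |aqr e d h k X r| ≤ η * aq e d (h r) (k r) X :=
    s1.trans (mul_le_mul_of_nonneg_right hδc1 hq0.le)
  have S2 : |aqrr e d h k X r| ≤ η * aq e d (h r) (k r) X :=
    s2.trans (mul_le_mul_of_nonneg_right hδc1 hq0.le)
  have S3 : |aq1r e d h k X r| ≤ η := s3.trans hδc2
  have hηq : η * aq e d (h r) (k r) X ≤ aq e d (h r) (k r) X := by
    have := mul_le_mul_of_nonneg_right hη1 hq0.le
    linarith
  have k1 := (hh.near r).n0 (th X (aq e d (h r) (k r) X))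
  have k2 := (hh.near r).n1 (th X (aq e d (h r) (k r) X))
  have k3 : |curv (h r) (th X (aq e d (h r) (k r) X)) - c| ≤ 2 * ε := by
    have e1 : curv (h r) (th X (aq e d (h r) (k r) X)) - c =
        (h r (th X (aq e d (h r) (k r) X)) - c) +
          deriv (deriv (h r)) (th X (aq e d (h r) (k r) X)) := by
      unfold curv
      ring
    rw [e1]
    refine (abs_add_le _ _).trans ?_
    have := (hh.near r).n2 (th X (aq e d (h r) (k r) X))
    linarith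
  have k4 := hh.b1 (X / √(aq e d (h r) (k r) X)) r
  have k5 : |(pt h r).far (X / √(aq e d (h r) (k r) X)) *
      (1 + (X / √(aq e d (h r) (k r) X)) ^ 2)| ≤ ε := by
    rw [abs_mul, abs_of_pos (show 0 < 1 + (X / √(aq e d (h r) (k r) X)) ^ 2 by positivity)]
    exact hh.b2 _ r
  have k6 := hh.b3 (X / √(aq e d (h r) (k r) X)) r
  refine ⟨S1.trans hηq, ?_, ?_⟩
  · exact nn_nonneg hC0 (show 0 < l₀ ^ 2 / 2 by positivity) hη0.le hη1 hη5 hq0 hL1
      (u3.trans hC1) w3 S1 S2 S3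
  · rcases le_total X X₀ with hXX | hXX
    · obtain ⟨v1, v2, v3⟩ := Hn _ m1 _ m2 _ m3 _ m4 d hd4 hd2 X ⟨hX0, hXX⟩
      have hE : Cn / d ≤ δ / 3 := by
        rw [div_le_div_iff₀ hd0 (by norm_num)]
        rw [div_le_iff₀ hδ] at hd3
        linarith
      obtain ⟨g1, g2, g3⟩ := gfirsta_inner hδ ⟨hX0, hXX⟩ v1 v2 v3 hE n1 n2
      have hqu : aq e d (h r) (k r) X ≤ (C + 1) * (1 + X₀) := by
        refine u2.trans ?_
        have q1 := mul_le_mul_of_nonneg_right hC4 hX0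
        have q2 := mul_le_mul_of_nonneg_left hXX hC0
        have q3 : (C + 1) * (1 + X₀) = C + C * X₀ + (1 + X₀) := by ring
        linarith
      have hηδ : η * aq e d (h r) (k r) X ≤ δ :=
        (mul_le_mul_of_nonneg_left hqu hη0.le).trans hη3
      exact Htube X ⟨hX0, hXX⟩ _ _ _ _ _ _ _ _ _ _ _ _ g1 g2 g3 (S1.trans hηδ) (S3.trans hη4)
        (S2.trans hηδ) (by linarith) (by linarith) (by linarith) (by linarith) (by linarith)
        (by linarith)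
    · exact Hout X hXX _ _ _ _ _ _ _ _ _ _ _ _ hq0
        (u2.trans (add_le_add le_rfl (mul_le_mul_of_nonneg_right hC4 hX0))) (u3.trans hC1) w1
        (w2.trans hC2) (by linarith) (S1.trans hηq) (S3.trans hη1) (S2.trans hηq)
        (by linarith) (by linarith) (by linarith) (by linarith) (by linarith) (by linarith)

end CH
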