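import Pool.Agent.H.MP_1693ff_gtC.NDefs
import Pool.Agent.H.MP_1693ff_gtB.GNear

/-!
# Families of profiles
-/

namespace CH

open Real Set Filter Topology CG
open CF hiding St

theorem N3.mono {h : ℝ → ℝ → ℝ} {c ε ε' : ℝ} (H : N3 h c ε) (h' : ε ≤ ε') : N3 h c ε' := by
  exact ⟨fun r => (H.near r).mono h', H.opp, H.c2, fun a r => (H.b1 a r).trans h',
    fun a r => (H.b2 a r).trans h', fun a r => (H.b3 a r).trans h', H.c3,
    fun r => (H.b4 r).trans h'⟩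

/-- Transverse bounds for `a ≥ 1`: `|fr| ≤ ε ≤ c`, `|far| a² ≤ ε`, `ft a ∈ [0.9 c/√2, 1.1 c]`
(`a/√(1+a²) ∈ [1/√2, 1]`, `ε ≤ c/16`). -/
theorem n3_pb3 {h : ℝ → ℝ → ℝ} {c ε R₀ : ℝ} (hc : 0 < c) (hR : 0 < R₀) (hRc : R₀ ≤ c / 4)
    (hε : ε ≤ R₀ / 4) (H : N3 h c ε) (r : ℝ) : PB3 (pt h r) c R₀ (2 * c) := by
  have key : ∀ a : ℝ, 1 ≤ a → R₀ ≤ (pt h r).ft a * a ∧ (pt h r).ft a * a ≤ 2 * c := by
    intro a ha
    have h1 := H.b3 a r
    rw [abs_le] at h1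
    obtain ⟨h2, h3⟩ := h1
    set s := √(1 + a ^ 2) with hs
    set u := (pt h r).ft a with hu
    have hs2 : s ^ 2 = 1 + a ^ 2 := Real.sq_sqrt (by positivity)
    have hs0 : 0 < s := Real.sqrt_pos.2 (by positivity)
    have hus : 0 < u * s := by linarith
    have hu0 : 0 < u := pos_of_mul_pos_left hus hs0.le
    have has : a ≤ s := by nlinarith
    have hsa : s ≤ 2 * a := by nlinarith
    have h4 : u * a ≤ u * s := mul_le_mul_of_nonneg_left has hu0.le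
    have h5 : u * s ≤ u * (2 * a) := mul_le_mul_of_nonneg_left hsa hu0.le
    constructor
    · nlinarith
    · linarith
  refine ⟨fun a _ => ?_, fun a _ => ?_, fun a ha => (key a ha).1, fun a ha => (key a ha).2⟩
  · have := H.b1 a r
    linarith
  · have h1 := H.b2 a r
    have h2 : |(pt h r).far a| * a ^ 2 ≤ |(pt h r).far a| * (1 + a ^ 2) :=
      mul_le_mul_of_nonneg_left (by linarith) (abs_nonneg _)
    linarith

theorem PB3.mono {G : Pt} {E R₀ T₁ E' T₁' : ℝ} (H : PB3 G E R₀ T₁)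
    (h1 : E ≤ E') (h3 : T₁ ≤ T₁') : PB3 G E' R₀ T₁' := by
  exact ⟨fun a ha => (H.f1 a ha).trans h1, H.f2, H.t0, fun a ha => (H.t1 a ha).trans h3⟩

end CH
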