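import Pool.Agent.H.MP_1693ff_gtC.NId3B
import Pool.Agent.H.MP_1693ff_gtC.NProf
import Pool.Agent.H.MP_1693ff_gtB.GFirstC

/-!
# The first half step, transverse part: positivity
-/

namespace CH

open Real Set Filter Topology CG
open CF hiding St

/-- `nn_id`, `jj_id` (`opp^{e-1} > 0`). -/
theorem core3_pos {e d δ b C : ℝ} {h k : ℝ → ℝ → ℝ} (he : 1 < e) (hd : 0 < d) (hb : 0 < b)
    {r t : ℝ} (hh : ∀ θ, 0 < h r θ) (ht : t ∈ Icc (0 : ℝ) 1)
    (H : Core e d δ b C (h r) (k r) (d * t)) (H3 : Core3 e d h k (d * t) r) (z ρ : ℝ) :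
    0 ≤ bf (arc e d (h r) (k r) t) (arc3 e d h k t r) z ρ ∧
    0 ≤ mf e d (pf (h r)) (pt h r) (arc e d (h r) (k r) t) (arc3 e d h k t r) z ρ := by
  have he0 : 0 < e := by linarith
  have hX0 : 0 ≤ d * t := mul_nonneg hd.le ht.1
  obtain ⟨q0, qu, q1, D0, D1, l0, l1, ff, hr, gg⟩ := H
  obtain ⟨_, nn, jj⟩ := H3
  have earc : arc e d (h r) (k r) t = jet d (d * t) (aq e d (h r) (k r) (d * t))
    (aq1 e d (h r) (k r) (d * t)) (aq2 e d (h r) (k r) (d * t)) := rfl
  have earc3 : arc3 e d h k t r = jt d (d * t) (aq e d (h r) (k r) (d * t))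
    (aq1 e d (h r) (k r) (d * t)) (aq2 e d (h r) (k r) (d * t)) (aqr e d h k (d * t) r)
    (aq1r e d h k (d * t) r) (aqrr e d h k (d * t) r) := rfl
  have hq : 0 < aq e d (h r) (k r) (d * t) := hb.trans_le q0
  have hl : 0 < 2 * aq e d (h r) (k r) (d * t) - d * t * aq1 e d (h r) (k r) (d * t) := by
    have h1 : 0 < b * (1 + d * t) := by positivity
    linarith
  have hsq : 0 < √(aq e d (h r) (k r) (d * t)) := Real.sqrt_pos.2 hq
  have hH := hh (th (d * t) (aq e d (h r) (k r) (d * t)))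
  have hr1 : 1 < (h r (th (d * t) (aq e d (h r) (k r) (d * t))) *
      √((d * t) ^ 2 + aq e d (h r) (k r) (d * t))) ^ e := by linarith
  have jW := jet_W (X := d * t) (q := aq e d (h r) (k r) (d * t))
    (q₁ := aq1 e d (h r) (k r) (d * t)) (q₂ := aq2 e d (h r) (k r) (d * t)) hd hq
  obtain ⟨_, jo'⟩ := jet_opp (e := e) (d := d) (q₁ := aq1 e d (h r) (k r) (d * t))
    (q₂ := aq2 e d (h r) (k r) (d * t)) he0 hd hq hH hr1
  rw [earc, earc3]
  refine ⟨?_, ?_⟩
  · rw [nn_id hd hq hl]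
    exact mul_nonneg (div_nonneg hd.le hsq.le) (nn _ _)
  · have hW0 : 0 < (jet d (d * t) (aq e d (h r) (k r) (d * t))
        (aq1 e d (h r) (k r) (d * t)) (aq2 e d (h r) (k r) (d * t))).W d := by
      rw [jW]
      positivity
    have ho0 := opp_pos he0 hW0 jo'
    have hj := jj_id (q₂ := aq2 e d (h r) (k r) (d * t)) (qr := aqr e d h k (d * t) r) (q1r := aq1r e d h k (d * t) r)
      (qrr := aqrr e d h k (d * t) r) he hd hq hl hH hr1 z ρ
    have h1 : 0 < opp e d (pf (h r)) (jet d (d * t) (aq e d (h r) (k r) (d * t))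
        (aq1 e d (h r) (k r) (d * t)) (aq2 e d (h r) (k r) (d * t))) ^ (e - 1) :=
      Real.rpow_pos_of_pos ho0 _
    refine (mul_nonneg_iff_of_pos_right h1).1 ?_
    rw [hj]
    exact mul_nonneg (Real.rpow_pos_of_pos hsq _).le (jj _ _)

end CH
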