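import Pool.Agent.H.MP_1693ff_gtC.NG
import Pool.Agent.H.MP_1693ff_gtC.NGC
import Pool.Agent.H.MP_1693ff_gtC.NZZC
import Pool.Agent.H.MP_1693ff_gtC.NZZD

/-!
# The gauge function in space: second order support
-/

namespace CH

open Real Set Filter Topology CG
open CF hiding St

variable {E : Type*} [NormedAddCommGroup E] [InnerProductSpace ℝ E]
variable {e d m M : ℝ} {H₁ H₂ : E → ℝ} {ax : E} {X Y s YH sH : E → ℝ → ℝ}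

theorem ngloc_polar {A B : ℝ} (hA : 0 < A) :
    √(A ^ 2 + B ^ 2) * cos (arctan (B / A)) = A ∧ √(A ^ 2 + B ^ 2) * sin (arctan (B / A)) = B := by
  have h1 : √(A ^ 2 + B ^ 2) = A * √(1 + (B / A) ^ 2) := by
    have h2 : A ^ 2 + B ^ 2 = A ^ 2 * (1 + (B / A) ^ 2) := by
      field_simp
    rw [h2, Real.sqrt_mul (sq_nonneg A), Real.sqrt_sq hA.le]
  have h3 : 0 < √(1 + (B / A) ^ 2) := Real.sqrt_pos.2 (by positivity)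
  rw [h1, Real.cos_arctan, Real.sin_arctan]
  constructor
  · field_simp
  · field_simp

theorem ngloc_pos {R₀ : ℝ} (hR : 0 < R₀) (q₁ : ℝ) : ∀ᶠ l in 𝓝 (0 : ℝ), 0 < R₀ + l * q₁ := by
  have h1 : ContinuousAt (fun l : ℝ => R₀ + l * q₁) 0 := by fun_prop
  refine h1.eventually_const_lt ?_
  simpa using hR

/-- For a frame `(ω, η)`: `(x₀ + l x₁) ax + (R₀ + l q₁) ω + l q₂ η =
R ((x₀ + l x₁)/R ax + ro ω η (ra l))`, `R = RR l`, for `R₀ + l q₁ > 0`. -/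
theorem seg_polar {ω η : E} {R₀ : ℝ} (hR : 0 < R₀) (q₁ q₂ : ℝ) : ∀ᶠ l in 𝓝 (0 : ℝ),
    (R₀ + l * q₁) • ω + (l * q₂) • η = RR R₀ q₁ q₂ l • ro ω η (ra R₀ q₁ q₂ l) := by
  filter_upwards [ngloc_pos hR q₁] with l hl
  obtain ⟨h1, h2⟩ := ngloc_polar (B := l * q₂) hl
  unfold RR ra ro
  rw [smul_add, smul_smul, smul_smul, h1, h2]

theorem ngloc_RR_pos {R₀ : ℝ} (hR : 0 < R₀) (q₁ q₂ : ℝ) : ∀ᶠ l in 𝓝 (0 : ℝ),
    0 < RR R₀ q₁ q₂ l := by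
  filter_upwards [ngloc_pos hR q₁] with l hl
  unfold RR
  exact Real.sqrt_pos.2 (by positivity)

theorem ngloc_dec (hax : ‖ax‖ = 1) (hfr : ∀ ω, Un ax ω → ∃ η, Fm ax ω η) {ω : E}
    (hω : Un ax ω) (v : E) : ∃ (η : E) (x₁ q₁ q₂ : ℝ), Fm ax ω η ∧
      v = x₁ • ax + q₁ • ω + q₂ • η := by
  have hωa : inner ℝ ω ax = (0 : ℝ) := by rw [real_inner_comm]; exact hω.o1
  have hωω : inner ℝ ω ω = (1 : ℝ) := by rw [real_inner_self_eq_norm_sq, hω.n1]; norm_num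
  have haa : inner ℝ ax ax = (1 : ℝ) := by rw [real_inner_self_eq_norm_sq, hax]; norm_num
  obtain ⟨ζ, hζ⟩ : ∃ ζ : E, ζ = v - ((inner ℝ ax v : ℝ) • ax + (inner ℝ ω v : ℝ) • ω) := ⟨_, rfl⟩
  have h1 : inner ℝ ax ζ = (0 : ℝ) := by
    rw [hζ, inner_sub_right, inner_add_right, inner_smul_right, inner_smul_right, haa, hω.o1]
    ring
  have h2 : inner ℝ ω ζ = (0 : ℝ) := by
    rw [hζ, inner_sub_right, inner_add_right, inner_smul_right, inner_smul_right, hωω, hωa]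
    ring
  by_cases h0 : ζ = 0
  · obtain ⟨η, hη⟩ := hfr ω hω
    refine ⟨η, inner ℝ ax v, inner ℝ ω v, 0, hη, ?_⟩
    rw [h0] at hζ
    rw [zero_smul, add_zero]
    exact sub_eq_zero.1 hζ.symm
  · have hn : ‖ζ‖ ≠ 0 := norm_ne_zero_iff.2 h0
    refine ⟨‖ζ‖⁻¹ • ζ, inner ℝ ax v, inner ℝ ω v, ‖ζ‖, ⟨hax, hω, ⟨?_, ?_⟩, ?_⟩, ?_⟩
    · rw [norm_smul, norm_inv, norm_norm, inv_mul_cancel₀ hn]
    · rw [inner_smul_right, h1, mul_zero]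
    · rw [inner_smul_right, h2, mul_zero]
    · rw [smul_inv_smul₀ hn, hζ]
      abel

/-- Local support off the axis.  `u = x₀ ax + R₀ ω`, `v = x₁ ax + q₁ ω + q₂ η` for a frame
`(ω, η)` (if `v` is in the plane of `ax, ω`, `q₂ = 0`, any `η` from `hfr`); `x₀/R₀ = X ω τ₀`.
Put `g l = gg (u + l v)`; by `seg_polar` and `gg_curve`, for `X (ro l) τ · R = x₀ + l x₁`:
`g l = x₀ + l x₁ + R Y (ro l) τ`.
If `τ₀ > 0`: `Br.u1` for `ro l` (`pl H ax (ro ω η r) = hf H ax ω η r`), `zz_right`.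
If `τ₀ ≤ 0`: `σ₀ = 1 - τ₀ > 0`, `Br.u2` at `τ = 1 - σ`: `X = -(Z₃ σ).α`, `Y = (Z₃ σ).a`,
`Z₃ = ZZ (hf H₂ ax (-ω) (-η) r) (hf H₁ ax (-ω) (-η) r)` (`hf_neg`); `zz_left` with
`(D (-ω) (-η)).swap`. -/
theorem gg_loc (hax : ‖ax‖ = 1) (hfr : ∀ ω, Un ax ω → ∃ η, Fm ax ω η)
    (D : ∀ ω η, Fm ax ω η → D3 e d (hf H₁ ax ω η) (hf H₂ ax ω η))
    (g : GD e d H₁ H₂ ax m M X Y s YH sH) {u : E} (hu : xi ax u ≠ 0) (v : E) :
    ContinuousAt (fun l : ℝ => gg ax m M X Y (u + l • v)) 0 ∧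
    ∃ p, ∀ ε > 0, ∀ᶠ l in 𝓝 (0 : ℝ),
      gg ax m M X Y u + p * l - ε * l ^ 2 ≤ gg ax m M X Y (u + l • v) := by
  obtain ⟨ω, R₀, τ₀, hω, hR, rfl⟩ := off_axis hax g hu
  obtain ⟨η, x₁, q₁, q₂, hF, rfl⟩ := ngloc_dec hax hfr hω v
  obtain ⟨u, hu_def⟩ : ∃ u, u = R₀ • (X ω τ₀ • ax + ω) := ⟨_, rfl⟩
  obtain ⟨v, hv_def⟩ : ∃ v, v = x₁ • ax + q₁ • ω + q₂ • η := ⟨_, rfl⟩
  rw [← hu_def, ← hv_def]
  -- value of `gg` along the segment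
  have key : ∀ᶠ l in 𝓝 (0 : ℝ), ∀ τ, X (ro ω η (ra R₀ q₁ q₂ l)) τ * RR R₀ q₁ q₂ l =
      R₀ * X ω τ₀ + l * x₁ → gg ax m M X Y (u + l • v) =
        R₀ * X ω τ₀ + l * x₁ + RR R₀ q₁ q₂ l * Y (ro ω η (ra R₀ q₁ q₂ l)) τ := by
    filter_upwards [seg_polar (ω := ω) (η := η) hR q₁ q₂, ngloc_RR_pos hR q₁ q₂] with l h1 h2
    intro τ hτ
    have h3 : u + l • v = RR R₀ q₁ q₂ l • (X (ro ω η (ra R₀ q₁ q₂ l)) τ • ax +
        ro ω η (ra R₀ q₁ q₂ l)) := by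
      rw [smul_add, ← h1, smul_smul, mul_comm (RR R₀ q₁ q₂ l), hτ, hu_def, hv_def]
      module
    rw [h3, gg_curve hax g (hF.ro _) h2 τ, ← hτ]
    ring
  have hzero : gg ax m M X Y u = (fun l : ℝ => gg ax m M X Y (u + l • v)) 0 := by
    simp only [zero_smul, add_zero]
  rw [hzero]
  rcases lt_or_ge 0 τ₀ with hτ₀ | hτ₀
  · refine zz_right (D ω η hF) (x₁ := x₁) (q₁ := q₁) (q₂ := q₂) (x₀ := R₀ * X ω τ₀) hτ₀ hR ?_ ?_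
    · rw [((g.br ω hω).u1 τ₀ hτ₀.le).1]
      show _ = R₀ * (ZZ e d (pl H₁ ax (ro ω η 0)) (pl H₂ ax (ro ω η 0)) τ₀).a
      rw [ro_zero]
    · filter_upwards [key] with l hl
      intro τ hτ hτe
      obtain ⟨a1, a2, -⟩ := (g.br _ (hF.ro (ra R₀ q₁ q₂ l))).u1 τ hτ
      have b1 : X (ro ω η (ra R₀ q₁ q₂ l)) τ =
          (ZZ e d (hf H₁ ax ω η (ra R₀ q₁ q₂ l)) (hf H₂ ax ω η (ra R₀ q₁ q₂ l)) τ).a := a1
      have b2 : Y (ro ω η (ra R₀ q₁ q₂ l)) τ =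
          -(ZZ e d (hf H₁ ax ω η (ra R₀ q₁ q₂ l)) (hf H₂ ax ω η (ra R₀ q₁ q₂ l)) τ).α := a2
      rw [hl τ (by rw [b1]; exact hτe), b2]
      ring
  · have hnF : ∀ r, hf H₂ ax (-ω) (-η) r = ng (pl H₂ ax (ro ω η r)) := fun r => hf_neg _ _ _ _ _
    have hnF' : ∀ r, hf H₁ ax (-ω) (-η) r = ng (pl H₁ ax (ro ω η r)) := fun r => hf_neg _ _ _ _ _
    refine zz_left (D (-ω) (-η) hF.neg).swap (x₁ := x₁) (q₁ := q₁) (q₂ := q₂) (τ₀ := 1 - τ₀)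
      (x₀ := R₀ * X ω τ₀) (by linarith) hR ?_ ?_
    · rw [((g.br ω hω).u2 τ₀ (by linarith)).1, hnF, hnF', ro_zero]
      ring
    · filter_upwards [key] with l hl
      intro σ hσ hσe
      obtain ⟨a1, a2, -⟩ := (g.br _ (hF.ro (ra R₀ q₁ q₂ l))).u2 (1 - σ) (by linarith)
      rw [sub_sub_cancel] at a1 a2
      rw [hnF, hnF'] at hσe ⊢
      rw [hl (1 - σ) (by rw [a1]; linarith), a2]

end CH
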