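import Pool.Agent.H.MP_1693ff_gtC.NDefs
import Pool.Agent.H.MP_1693ff_gtB.GJetB

/-!
# The form of the start surface
-/

namespace CH

open Real Set Filter Topology CG
open CF hiding St

variable {e d X q q₁ q₂ qr q1r qrr r : ℝ} {h : ℝ → ℝ → ℝ}

/-- The form `B` of the start surface.  `z = ẑ/√q`; a `field_simp; ring` (checked
numerically). -/
theorem nn_id (hd : 0 < d) (hq : 0 < q) (hl : 0 < 2 * q - X * q₁) (z ρ : ℝ) :
    bf (jet d X q q₁ q₂) (jt d X q q₁ q₂ qr q1r qrr) z ρ =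
      d / √q * NN X q q₁ q₂ qr q1r qrr (z * √q) ρ := by
  obtain ⟨s, hs⟩ : ∃ s, s = √q := ⟨_, rfl⟩
  have hs0 : 0 < s := by rw [hs]; exact Real.sqrt_pos.2 hq
  have hsq : q = s ^ 2 := by rw [hs, Real.sq_sqrt hq.le]
  obtain ⟨L, hL⟩ : ∃ L, L = 2 * q - X * q₁ := ⟨_, rfl⟩
  have hL0 : L ≠ 0 := by rw [hL]; exact hl.ne'
  unfold bf jet jt NN
  simp only
  rw [← hs, ← hL, hsq]
  clear hL hl hs hsq hq
  field_simp
  ring

end CH
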