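import Pool.Agent.H.MP_1693ff_gtC.NDefs

/-!
# Algebra of the transverse half step
-/

namespace CH

open Real Set Filter Topology CG
open CF hiding St

variable {e d : ℝ} {P : Pf} {G : Pt} {S : St} {T : Tt}

/-- `ring` identity (`mz`, `mr`, `opp2` unfolded; `r = k/d`):
`D²opp = (f/opp)^{e-1} D²f - (W/opp)^{e-1} B/d - cc (dl z - dr ρ)²`. -/
theorem mf_eq (hd : 0 < d) (z ρ : ℝ) : mf e d P G S T z ρ =
    (P.f S.a / opp e d P S) ^ (e - 1) * (P.f2 S.a * z ^ 2 + 2 * G.far S.a * z * ρ +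
      G.ft S.a * ρ ^ 2) - (S.W d / opp e d P S) ^ (e - 1) * (bf S T z ρ / d) -
      cc e d P S * (dl d P S * z - dr d P G S T * ρ) ^ 2 := by
  have h : opp2 e d P S = (P.f S.a / opp e d P S) ^ (e - 1) * P.f2 S.a -
      (S.W d / opp e d P S) ^ (e - 1) * (S.k / d) - cc e d P S * dl d P S ^ 2 := rfl
  unfold mf mz mr bf
  rw [h]
  have hd' := hd.ne'
  field_simp
  ring

/-- `ring` identity: `B'(z, ρ) = σ d M(σ (z - og ρ), ρ)`, `σ = (1 + d opp1)⁻¹`. -/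
theorem bf_step (z ρ : ℝ) : bf (hst e d P S) (hst3 e d P G S T) z ρ =
    (1 + d * opp1 e d P S)⁻¹ * d * mf e d P G S T
      ((1 + d * opp1 e d P S)⁻¹ * (z - og e d P G S T * ρ)) ρ := by
  have h1 : (hst e d P S).k = d * opp2 e d P S * (1 + d * opp1 e d P S)⁻¹ ^ 3 := rfl
  have h2 : (hst3 e d P G S T).ℓ = (1 + d * opp1 e d P S)⁻¹ * d *
      ((1 + d * opp1 e d P S)⁻¹ * mz e d P G S T -
      opp2 e d P S * (1 + d * opp1 e d P S)⁻¹ ^ 2 * og e d P G S T) := rfl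
  have h3 : (hst3 e d P G S T).q = (1 + d * opp1 e d P S)⁻¹ * d *
      (opp2 e d P S * (1 + d * opp1 e d P S)⁻¹ ^ 2 *
      og e d P G S T ^ 2 - 2 * mz e d P G S T * (1 + d * opp1 e d P S)⁻¹ * og e d P G S T +
      mr e d P G S T) := rfl
  unfold bf mf
  rw [h1, h2, h3]
  ring

theorem pos_step (hd : 0 < d) (h1 : 0 < 1 + d * opp1 e d P S)
    (h : ∀ z ρ, 0 ≤ mf e d P G S T z ρ) (z ρ : ℝ) :
    0 ≤ bf (hst e d P S) (hst3 e d P G S T) z ρ := by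
  rw [bf_step]
  exact mul_nonneg (mul_nonneg (inv_nonneg.2 h1.le) hd.le) (h _ _)

end CH
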