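import Pool.Agent.H.MP_1693ff_gtC.NId3
import Pool.Agent.H.MP_1693ff_gtC.NOpp3

/-!
# The first half step in terms of `NN` and `JJ`
-/

namespace CH

open Real Set Filter Topology CG
open CF hiding St

variable {e d X q q₁ q₂ qr q1r qrr r : ℝ} {h : ℝ → ℝ → ℝ}

/-- the linear factor -/
theorem nid3b_lin {X q q₁ ρ₀ w H H₁ L qr E z ρ : ℝ} (hρ : 0 < ρ₀) (hw : 0 < w) (hw2 : w ^ 2 = q)
    (hρ2 : ρ₀ ^ 2 = X ^ 2 + q) (hL : 0 < L) (hLd : L = 2 * q - X * q₁) :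
    (H * ρ₀ / w * (-(q₁ / L)) - w⁻¹ * ((X * H - w * H₁) / ρ₀)) * z -
      (H * ρ₀ / w * (qr / (w * L)) + w⁻¹ * E) * ρ =
    (z * w * (w / ρ₀) * (H₁ - H * w * (2 * X + q₁) / L) -
      ρ * (H * ρ₀ * qr / L + E * w)) / w ^ 2 := by
  rw [gjetb_fp hρ hw hw2 hρ2 hL hLd]
  field_simp

/-- The form `D²opp` at the first half step.  `mf_eq` times `opp^{e-1}`:
with `ρ₀ = √(X²+q)`, `W = 1/√q`, `f = Hρ₀/√q`, `opp = ((Hρ₀)^e - 1)^{1/e}/√q` (`jet_W`,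
`jet_prof`, `jet_opp`), `1 + a² = ρ₀²/q`, `far = E₂ q/ρ₀²`, `ft = E₃ √q/ρ₀`, `f2 = R √q³/ρ₀³`:
`f^{e-1} (f2 z² + 2 far z ρ + ft ρ²) = √q^{-e} (Hρ₀)^{e-1} q (R ẑ²/ρ₀³ + 2E₂ ẑρ/ρ₀² + E₃ρ²/ρ₀)`,
`W^{e-1} B/d = √q^{-e} NN` (`nn_id`), `cc opp^{e-1} = (e-1) W^{e-2} f^{e-2} opp^{-e}
= (e-1) (Hρ₀)^{e-2} √q^{4-e}/((Hρ₀)^e - 1)`, and
`dl z - dr ρ = (1/q) (ẑ (√q/ρ₀) (H₁ - H√q(2X+q₁)/L) - ρ (Hρ₀ qr/L + E₁√q))`:
`dl = (H₁ - H√q(2X+q₁)/L)/ρ₀` (docstring of `jet_opp2`), `κ/d = qr/(√q L)`,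
`dr = Hρ₀ qr/(q L) + E₁/√q`. -/
theorem jj_id (he : 1 < e) (hd : 0 < d) (hq : 0 < q) (hl : 0 < 2 * q - X * q₁)
    (hH : 0 < h r (th X q)) (hr : 1 < (h r (th X q) * √(X ^ 2 + q)) ^ e) (z ρ : ℝ) :
    mf e d (pf (h r)) (pt h r) (jet d X q q₁ q₂) (jt d X q q₁ q₂ qr q1r qrr) z ρ *
      opp e d (pf (h r)) (jet d X q q₁ q₂) ^ (e - 1) =
    √q ^ (-e) * JJ e X q q₁ q₂ qr q1r qrr (h r (th X q)) (deriv (h r) (th X q))
      (curv (h r) (th X q)) ((pt h r).fr (X / √q)) ((pt h r).far (X / √q) * (1 + (X / √q) ^ 2))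
      ((pt h r).ft (X / √q) * √(1 + (X / √q) ^ 2)) (z * √q) ρ := by
  have he0 : 0 < e := by linarith
  obtain ⟨ho, h1⟩ := jet_opp (h := h r) (d := d) (q₁ := q₁) (q₂ := q₂) he0 hd hq hH hr
  have hW := jet_W (X := X) (q₁ := q₁) (q₂ := q₂) hd hq
  obtain ⟨hp, -, -⟩ := jet_p (q₂ := q₂) hd hq hl
  obtain ⟨hf, hf1, hf2⟩ := jet_prof (h := h r) (X := X) hq
  have hw : 0 < √q := Real.sqrt_pos.2 hq
  have hρ : 0 < √(X ^ 2 + q) := Real.sqrt_pos.2 (by positivity)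
  have hw2 : √q ^ 2 = q := Real.sq_sqrt hq.le
  have hρ2 : √(X ^ 2 + q) ^ 2 = X ^ 2 + q := Real.sq_sqrt (by positivity)
  have hz : 0 < h r (th X q) * √(X ^ 2 + q) := mul_pos hH hρ
  have hja : (jet d X q q₁ q₂).a = X / √q := rfl
  have hκ : (jt d X q q₁ q₂ qr q1r qrr).κ / d = qr / (√q * (2 * q - X * q₁)) := by
    show d * (qr / (√q * (2 * q - X * q₁))) / d = _
    field_simp
  have hK : 0 < (h r (th X q) * √(X ^ 2 + q)) ^ e - 1 := by linarith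
  have hopos : 0 < opp e d (pf (h r)) (jet d X q q₁ q₂) := by
    rw [ho]
    exact div_pos (Real.rpow_pos_of_pos hK _) hw
  have hoe : opp e d (pf (h r)) (jet d X q q₁ q₂) ^ (-e) =
      √q ^ e / ((h r (th X q) * √(X ^ 2 + q)) ^ e - 1) := by
    rw [ho, Real.rpow_neg (by positivity), Real.div_rpow (by positivity) hw.le,
      Real.rpow_inv_rpow hK.le he0.ne', inv_div]
  have h1a : 1 + (X / √q) ^ 2 = √(X ^ 2 + q) ^ 2 / √q ^ 2 := by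
    rw [div_pow, hw2, hρ2]
    field_simp
    ring
  have hlin := nid3b_lin (H := h r (th X q)) (H₁ := deriv (h r) (th X q)) (qr := qr)
    (E := (pt h r).fr (X / √q)) (z := z) (ρ := ρ) hρ hw hw2 hρ2 hl rfl
  rw [mf_eq hd, nn_id hd hq hl]
  unfold cc dl dr
  rw [hκ, hja, hf, hf1, hf2, hW, hp, hlin]
  have e1 : ((h r (th X q) * √(X ^ 2 + q) / √q) / opp e d (pf (h r)) (jet d X q q₁ q₂)) ^ (e - 1) *
      opp e d (pf (h r)) (jet d X q q₁ q₂) ^ (e - 1) =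
      (h r (th X q) * √(X ^ 2 + q) / √q) ^ (e - 1) := by
    rw [Real.div_rpow (by positivity) hopos.le,
      div_mul_cancel₀ _ (Real.rpow_pos_of_pos hopos _).ne']
  have e2 : ((√q)⁻¹ / opp e d (pf (h r)) (jet d X q q₁ q₂)) ^ (e - 1) *
      opp e d (pf (h r)) (jet d X q q₁ q₂) ^ (e - 1) = (√q)⁻¹ ^ (e - 1) := by
    rw [Real.div_rpow (by positivity) hopos.le,
      div_mul_cancel₀ _ (Real.rpow_pos_of_pos hopos _).ne']
  have e3 : opp e d (pf (h r)) (jet d X q q₁ q₂) ^ (1 - 2 * e) *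
      opp e d (pf (h r)) (jet d X q q₁ q₂) ^ (e - 1) =
      √q ^ e / ((h r (th X q) * √(X ^ 2 + q)) ^ e - 1) := by
    rw [← hoe, ← Real.rpow_add hopos]
    congr 1
    ring
  rw [sub_mul, sub_mul]
  unfold JJ
  rw [gjet_sqrt hq, h1a]
  have f1 : (h r (th X q) * √(X ^ 2 + q) / √q) ^ (e - 1) =
      (h r (th X q) * √(X ^ 2 + q)) ^ (e - 1) * (√q ^ (-e) * √q) := by
    rw [Real.div_rpow hz.le hw.le, div_eq_mul_inv, ← Real.rpow_neg hw.le]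
    congr 1
    rw [← Real.rpow_add_one hw.ne']
    congr 1
    ring
  have f2 : (√q)⁻¹ ^ (e - 1) = √q ^ (-e) * √q := by
    rw [Real.inv_rpow hw.le, ← Real.rpow_neg hw.le, ← Real.rpow_add_one hw.ne']
    congr 1
    ring
  have f3 : (√q)⁻¹ ^ (e - 2) * (h r (th X q) * √(X ^ 2 + q) / √q) ^ (e - 2) * √q ^ e =
      (h r (th X q) * √(X ^ 2 + q)) ^ (e - 2) * (√q ^ (-e) * √q ^ 4) := by
    rw [Real.div_rpow hz.le hw.le, div_eq_mul_inv, ← Real.rpow_neg hw.le, Real.inv_rpow hw.le,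
      ← Real.rpow_neg hw.le]
    have g1 : √q ^ (-(e - 2)) * √q ^ (-(e - 2)) * √q ^ e = √q ^ (-e) * √q ^ 4 := by
      rw [← Real.rpow_natCast, ← Real.rpow_add hw, ← Real.rpow_add hw, ← Real.rpow_add hw]
      congr 1
      push_cast
      ring
    rw [← g1]
    ring
  have t1 : ((h r (th X q) * √(X ^ 2 + q) / √q) / opp e d (pf (h r)) (jet d X q q₁ q₂)) ^ (e - 1) *
      (curv (h r) (th X q) * √q ^ 3 / √(X ^ 2 + q) ^ 3 * z ^ 2 +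
        2 * (pt h r).far (X / √q) * z * ρ + (pt h r).ft (X / √q) * ρ ^ 2) *
      opp e d (pf (h r)) (jet d X q q₁ q₂) ^ (e - 1) =
      √q ^ (-e) * ((h r (th X q) * √(X ^ 2 + q)) ^ (e - 1) * q *
        (curv (h r) (th X q) * (z * √q) ^ 2 / √(X ^ 2 + q) ^ 3 +
          2 * ((pt h r).far (X / √q) * (√(X ^ 2 + q) ^ 2 / √q ^ 2)) * (z * √q) * ρ / (X ^ 2 + q) +
          (pt h r).ft (X / √q) * (√(X ^ 2 + q) / √q) * ρ ^ 2 / √(X ^ 2 + q))) := by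
    rw [mul_right_comm, e1, f1]
    generalize √q ^ (-e) = A
    generalize (h r (th X q) * √(X ^ 2 + q)) ^ (e - 1) = B
    generalize (pt h r).far (X / √q) = C
    generalize (pt h r).ft (X / √q) = C'
    generalize curv (h r) (th X q) = R
    generalize √(X ^ 2 + q) = ρ₀ at hρ hρ2 ⊢
    rw [← hρ2]
    generalize √q = w at hw hw2 ⊢
    rw [← hw2]
    field_simp
  have t2 : ((√q)⁻¹ / opp e d (pf (h r)) (jet d X q q₁ q₂)) ^ (e - 1) *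
      (d / √q * NN X q q₁ q₂ qr q1r qrr (z * √q) ρ / d) *
      opp e d (pf (h r)) (jet d X q q₁ q₂) ^ (e - 1) =
      √q ^ (-e) * NN X q q₁ q₂ qr q1r qrr (z * √q) ρ := by
    rw [mul_right_comm, e2, f2]
    field_simp
  rw [t1, t2]
  have t3 : (e - 1) * (√q)⁻¹ ^ (e - 2) * (h r (th X q) * √(X ^ 2 + q) / √q) ^ (e - 2) *
      opp e d (pf (h r)) (jet d X q q₁ q₂) ^ (1 - 2 * e) *
      ((z * √q * (√q / √(X ^ 2 + q)) * (deriv (h r) (th X q) -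
        h r (th X q) * √q * (2 * X + q₁) / (2 * q - X * q₁)) -
        ρ * (h r (th X q) * √(X ^ 2 + q) * qr / (2 * q - X * q₁) +
          (pt h r).fr (X / √q) * √q)) / √q ^ 2) ^ 2 *
      opp e d (pf (h r)) (jet d X q q₁ q₂) ^ (e - 1) =
      √q ^ (-e) * ((e - 1) * (h r (th X q) * √(X ^ 2 + q)) ^ (e - 2) *
        (z * √q * (√q / √(X ^ 2 + q)) * (deriv (h r) (th X q) -
        h r (th X q) * √q * (2 * X + q₁) / (2 * q - X * q₁)) -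
        ρ * (h r (th X q) * √(X ^ 2 + q) * qr / (2 * q - X * q₁) +
          (pt h r).fr (X / √q) * √q)) ^ 2 / ((h r (th X q) * √(X ^ 2 + q)) ^ e - 1)) := by
    generalize (z * √q * (√q / √(X ^ 2 + q)) * (deriv (h r) (th X q) -
        h r (th X q) * √q * (2 * X + q₁) / (2 * q - X * q₁)) -
        ρ * (h r (th X q) * √(X ^ 2 + q) * qr / (2 * q - X * q₁) +
          (pt h r).fr (X / √q) * √q)) = Y
    have u1 : (e - 1) * (√q)⁻¹ ^ (e - 2) * (h r (th X q) * √(X ^ 2 + q) / √q) ^ (e - 2) *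
      opp e d (pf (h r)) (jet d X q q₁ q₂) ^ (1 - 2 * e) * (Y / √q ^ 2) ^ 2 *
      opp e d (pf (h r)) (jet d X q q₁ q₂) ^ (e - 1) =
      (e - 1) * ((√q)⁻¹ ^ (e - 2) * (h r (th X q) * √(X ^ 2 + q) / √q) ^ (e - 2)) *
      (opp e d (pf (h r)) (jet d X q q₁ q₂) ^ (1 - 2 * e) *
        opp e d (pf (h r)) (jet d X q q₁ q₂) ^ (e - 1)) * (Y / √q ^ 2) ^ 2 := by ring
    rw [u1, e3]
    have u2 : (e - 1) * ((√q)⁻¹ ^ (e - 2) * (h r (th X q) * √(X ^ 2 + q) / √q) ^ (e - 2)) *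
      (√q ^ e / ((h r (th X q) * √(X ^ 2 + q)) ^ e - 1)) * (Y / √q ^ 2) ^ 2 =
      (e - 1) * ((√q)⁻¹ ^ (e - 2) * (h r (th X q) * √(X ^ 2 + q) / √q) ^ (e - 2) * √q ^ e) *
      Y ^ 2 / √q ^ 4 / ((h r (th X q) * √(X ^ 2 + q)) ^ e - 1) := by
      rw [div_pow]
      ring
    rw [u2, f3]
    field_simp
  rw [t3]
  ring

end CH
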