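import Pool.Agent.H.MP_1693ff_gtC.NDefs
import Pool.Agent.H.MP_1693ff_gtB.GJet

/-!
# The start surface: consistency in the direction `t`
-/

namespace CH

open Real Set Filter Topology CG
open CF hiding St

variable {d : ℝ} {Q Q₁ Q₂ Qr Q1r Qrr : ℝ → ℝ → ℝ}

/-- In the direction `t` (`X = d t`): `a' = v`, `α' = s v`, `s' = -k v` as in `arc_along`
(with `Q (X) = Q (X, r)`); and `κ' = -ℓ v` for `κ = d Qr/(√Q L)`, `L = 2Q - XQ₁`:
`dκ/dX = d [Q1r/(√Q L) - Qr Q₁/(2 Q√Q L) - Qr (Q₁ - XQ₂)/(√Q L²)]`,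
`v = d L/(2 Q√Q)`; the identity `dκ/dX · d = -ℓ v` is a `field_simp; ring` (`√Q² = Q`). -/
theorem jet3_t (hd : 0 < d) (q : QS Q Q₁ Q₂ Qr Q1r Qrr) {t r : ℝ} (h0 : 0 < Q (d * t) r)
    (h1 : 0 < 2 * Q (d * t) r - d * t * Q₁ (d * t) r) :
    Al3 (fun t => jet d (d * t) (Q (d * t) r) (Q₁ (d * t) r) (Q₂ (d * t) r))
      (fun t => jt d (d * t) (Q (d * t) r) (Q₁ (d * t) r) (Q₂ (d * t) r) (Qr (d * t) r)
        (Q1r (d * t) r) (Qrr (d * t) r))
      (jet d (d * t) (Q (d * t) r) (Q₁ (d * t) r) (Q₂ (d * t) r)).v 0 t := by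
  have hl : HasDerivAt (fun τ : ℝ => d * τ) d t := by
    simpa using (hasDerivAt_id t).const_mul d
  have hq : HasDerivAt (fun τ => Q (d * τ) r) (Q₁ (d * t) r * d) t := (q.x0 _ _).comp t hl
  have hq1 : HasDerivAt (fun τ => Q₁ (d * τ) r) (Q₂ (d * t) r * d) t := (q.x1 _ _).comp t hl
  have hqr : HasDerivAt (fun τ => Qr (d * τ) r) (Q1r (d * t) r * d) t := (q.x2 _ _).comp t hl
  have hs := hq.sqrt h0.ne'
  have hw : 0 < √(Q (d * t) r) := Real.sqrt_pos.2 h0
  have hww : √(Q (d * t) r) ^ 2 = Q (d * t) r := Real.sq_sqrt h0.le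
  have hA := hl.div hs hw.ne'
  have hB := ((hl.const_sub d).div hs hw.ne').neg
  have hN : HasDerivAt (fun τ => 2 * Q (d * τ) r + (d - d * τ) * Q₁ (d * τ) r)
      (2 * (Q₁ (d * t) r * d) +
        (-d * Q₁ (d * t) r + (d - d * t) * (Q₂ (d * t) r * d))) t :=
    (hq.const_mul 2).add ((hl.const_sub d).mul hq1)
  have hD : HasDerivAt (fun τ => 2 * Q (d * τ) r - d * τ * Q₁ (d * τ) r)
      (2 * (Q₁ (d * t) r * d) -
        (d * Q₁ (d * t) r + d * t * (Q₂ (d * t) r * d))) t :=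
    (hq.const_mul 2).sub (hl.mul hq1)
  have hS := hN.div hD h1.ne'
  have hK := (hqr.div (hs.mul hD) (mul_pos hw h1).ne').const_mul d
  refine ⟨?_, ?_, ?_, ?_⟩
  · refine hA.congr_deriv ?_
    simp only [jet]
    generalize √(Q (d * t) r) = w at *
    generalize Q (d * t) r = q0 at *
    generalize Q₁ (d * t) r = q1 at *
    subst hww
    field_simp
  · refine hB.congr_deriv ?_
    simp only [jet, mul_zero, add_zero]
    generalize √(Q (d * t) r) = w at *
    generalize Q (d * t) r = q0 at *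
    generalize Q₁ (d * t) r = q1 at *
    subst hww
    obtain ⟨L, hL⟩ : ∃ L, L = 2 * w ^ 2 - d * t * q1 := ⟨_, rfl⟩
    rw [← hL] at h1 ⊢
    have hL0 := h1.ne'
    field_simp
    subst hL
    ring
  · refine hS.congr_deriv ?_
    simp only [jet, mul_zero, sub_zero]
    generalize √(Q (d * t) r) = w at *
    generalize Q (d * t) r = q0 at *
    generalize Q₁ (d * t) r = q1 at *
    generalize Q₂ (d * t) r = q2 at *
    subst hww
    obtain ⟨L, hL⟩ : ∃ L, L = 2 * w ^ 2 - d * t * q1 := ⟨_, rfl⟩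
    rw [← hL] at h1 ⊢
    have hL0 := h1.ne'
    field_simp
    subst hL
    ring
  · refine hK.congr_deriv ?_
    simp only [jet, jt, mul_zero, add_zero, Pi.mul_apply]
    generalize √(Q (d * t) r) = w at *
    generalize Q (d * t) r = q0 at *
    generalize Q₁ (d * t) r = q1 at *
    generalize Q₂ (d * t) r = q2 at *
    generalize Qr (d * t) r = qr at *
    generalize Q1r (d * t) r = q1r at *
    subst hww
    obtain ⟨L, hL⟩ : ∃ L, L = 2 * w ^ 2 - d * t * q1 := ⟨_, rfl⟩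
    rw [← hL] at h1 ⊢
    have hL0 := h1.ne'
    field_simp
    subst hL
    ring

end CH
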