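import Pool.Agent.H.MP_1693ff_gtC.NDefs
import Pool.Agent.H.MP_1693ff_gtB.GJet

/-!
# The start surface: consistency in the direction `r`
-/

namespace CH

open Real Set Filter Topology CG
open CF hiding St

variable {d : ℝ} {Q Q₁ Q₂ Qr Q1r Qrr : ℝ → ℝ → ℝ}

/-- In the direction `r`: `∂_r a = -X Qr/(2Q√Q) = w`; `∂_r α = (d-X) Qr/(2Q√Q) = s w + κ`;
`∂_r s = -k w - ℓ` (`s = 1 + d Q₁/L`, `∂_r s = 2d (Q Q1r - Q₁ Qr)/L²`);
`∂_r κ = -ℓ w + c - q`, `c = s a - α = 2 d √Q/L`. All are `field_simp; ring` after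
`√Q² = Q` (checked numerically). -/
theorem jet3_r (hd : 0 < d) (q : QS Q Q₁ Q₂ Qr Q1r Qrr) {t r : ℝ} (h0 : 0 < Q (d * t) r)
    (h1 : 0 < 2 * Q (d * t) r - d * t * Q₁ (d * t) r) :
    Al3 (fun r => jet d (d * t) (Q (d * t) r) (Q₁ (d * t) r) (Q₂ (d * t) r))
      (fun r => jt d (d * t) (Q (d * t) r) (Q₁ (d * t) r) (Q₂ (d * t) r) (Qr (d * t) r)
        (Q1r (d * t) r) (Qrr (d * t) r))
      (jt d (d * t) (Q (d * t) r) (Q₁ (d * t) r) (Q₂ (d * t) r) (Qr (d * t) r)
        (Q1r (d * t) r) (Qrr (d * t) r)).w 1 r := by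
  have hq : HasDerivAt (fun ρ => Q (d * t) ρ) (Qr (d * t) r) r := q.r0 _ _
  have hq1 : HasDerivAt (fun ρ => Q₁ (d * t) ρ) (Q1r (d * t) r) r := q.r1 _ _
  have hqr : HasDerivAt (fun ρ => Qr (d * t) ρ) (Qrr (d * t) r) r := q.r2 _ _
  have hs := hq.sqrt h0.ne'
  have hw : 0 < √(Q (d * t) r) := Real.sqrt_pos.2 h0
  have hww : √(Q (d * t) r) ^ 2 = Q (d * t) r := Real.sq_sqrt h0.le
  have hA := (hasDerivAt_const r (d * t)).div hs hw.ne'
  have hB := ((hasDerivAt_const r (d - d * t)).div hs hw.ne').neg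
  have hN : HasDerivAt (fun ρ => 2 * Q (d * t) ρ + (d - d * t) * Q₁ (d * t) ρ)
      (2 * Qr (d * t) r + (d - d * t) * Q1r (d * t) r) r :=
    (hq.const_mul 2).add (hq1.const_mul (d - d * t))
  have hD : HasDerivAt (fun ρ => 2 * Q (d * t) ρ - d * t * Q₁ (d * t) ρ)
      (2 * Qr (d * t) r - d * t * Q1r (d * t) r) r :=
    (hq.const_mul 2).sub (hq1.const_mul (d * t))
  have hS := hN.div hD h1.ne'
  have hK := (hqr.div (hs.mul hD) (mul_pos hw h1).ne').const_mul d
  refine ⟨?_, ?_, ?_, ?_⟩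
  · refine hA.congr_deriv ?_
    simp only [jt]
    generalize √(Q (d * t) r) = w at *
    generalize Q (d * t) r = q0 at *
    generalize Qr (d * t) r = qr at *
    subst hww
    field_simp
    ring
  · refine hB.congr_deriv ?_
    simp only [jet, jt, mul_one]
    generalize √(Q (d * t) r) = w at *
    generalize Q (d * t) r = q0 at *
    generalize Q₁ (d * t) r = q1 at *
    generalize Qr (d * t) r = qr at *
    subst hww
    obtain ⟨L, hL⟩ : ∃ L, L = 2 * w ^ 2 - d * t * q1 := ⟨_, rfl⟩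
    rw [← hL] at h1 ⊢
    have hL0 := h1.ne'
    field_simp
    subst hL
    ring
  · refine hS.congr_deriv ?_
    simp only [jet, jt, mul_one]
    generalize √(Q (d * t) r) = w at *
    generalize Q (d * t) r = q0 at *
    generalize Q₁ (d * t) r = q1 at *
    generalize Q₂ (d * t) r = q2 at *
    generalize Qr (d * t) r = qr at *
    generalize Q1r (d * t) r = q1r at *
    subst hww
    obtain ⟨L, hL⟩ : ∃ L, L = 2 * w ^ 2 - d * t * q1 := ⟨_, rfl⟩
    rw [← hL] at h1 ⊢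
    have hL0 := h1.ne'
    field_simp
    subst hL
    ring
  · refine hK.congr_deriv ?_
    simp only [jet, jt, mul_one, Pi.mul_apply]
    generalize √(Q (d * t) r) = w at *
    generalize Q (d * t) r = q0 at *
    generalize Q₁ (d * t) r = q1 at *
    generalize Q₂ (d * t) r = q2 at *
    generalize Qr (d * t) r = qr at *
    generalize Q1r (d * t) r = q1r at *
    generalize Qrr (d * t) r = qrr at *
    subst hww
    obtain ⟨L, hL⟩ : ∃ L, L = 2 * w ^ 2 - d * t * q1 := ⟨_, rfl⟩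
    rw [← hL] at h1 ⊢
    have hL0 := h1.ne'
    field_simp
    subst hL
    ring

end CH
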