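import Pool.Agent.H.MP_1693ff_gtC.NJoint

/-!
# The start surface: joint regularity
-/

namespace CH

open Real Set Filter Topology CG
open CF hiding St

variable {d : ℝ} {Q Q₁ Q₂ Qr Q1r Qrr : ℝ → ℝ → ℝ}

/-- Joint regularity. -/
theorem jet3_c1 (hd : 0 < d) (q : QS Q Q₁ Q₂ Qr Q1r Qrr) {p : ℝ × ℝ} (h0 : 0 < Q (d * p.1) p.2)
    (h1 : 0 < 2 * Q (d * p.1) p.2 - d * p.1 * Q₁ (d * p.1) p.2) :
    C13 (fun p => jet d (d * p.1) (Q (d * p.1) p.2) (Q₁ (d * p.1) p.2) (Q₂ (d * p.1) p.2))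
      (fun p => jt d (d * p.1) (Q (d * p.1) p.2) (Q₁ (d * p.1) p.2) (Q₂ (d * p.1) p.2)
        (Qr (d * p.1) p.2) (Q1r (d * p.1) p.2) (Qrr (d * p.1) p.2)) p := by
  have hm : ContDiffAt ℝ 1 (fun p : ℝ × ℝ => (d * p.1, p.2)) p := by fun_prop
  have hX : ContDiffAt ℝ 1 (fun p : ℝ × ℝ => d * p.1) p := by fun_prop
  have hq : ContDiffAt ℝ 1 (fun p : ℝ × ℝ => Q (d * p.1) p.2) p :=
    q.c0.contDiffAt.comp p hm
  have hq1 : ContDiffAt ℝ 1 (fun p : ℝ × ℝ => Q₁ (d * p.1) p.2) p :=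
    q.c1.contDiffAt.comp p hm
  have hqr : ContDiffAt ℝ 1 (fun p : ℝ × ℝ => Qr (d * p.1) p.2) p :=
    q.c2.contDiffAt.comp p hm
  have hs : ContDiffAt ℝ 1 (fun p : ℝ × ℝ => √(Q (d * p.1) p.2)) p := hq.sqrt h0.ne'
  have hw : √(Q (d * p.1) p.2) ≠ 0 := (Real.sqrt_pos.2 h0).ne'
  have hL : ContDiffAt ℝ 1
      (fun p : ℝ × ℝ => 2 * Q (d * p.1) p.2 - d * p.1 * Q₁ (d * p.1) p.2) p :=
    (contDiffAt_const.mul hq).sub (hX.mul hq1)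
  refine ⟨?_, ?_, ?_, ?_⟩
  · exact hX.div hs hw
  · exact ((contDiffAt_const.sub hX).div hs hw).neg
  · exact ((contDiffAt_const.mul hq).add ((contDiffAt_const.sub hX).mul hq1)).div hL h1.ne'
  · exact contDiffAt_const.mul (hqr.div (hs.mul hL) (mul_ne_zero hw h1.ne'))

end CH
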