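import Pool.Agent.H.MP_1693ff_gtC.NSpace

/-!
# Near-constant functions on the sphere
-/

namespace CH

open Real Set Filter Topology CG
open CF hiding St

variable {E : Type*} [NormedAddCommGroup E] [InnerProductSpace ℝ E]

/-- `F` is an even function on the unit sphere, given as a function on `E ∖ {0}` which is constant
on lines through `0`; it is `C³` and close to the constant `c` with all derivatives up to the
third. -/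
structure NF (F : E → ℝ) (c δ : ℝ) : Prop where
  hom : ∀ t : ℝ, t ≠ 0 → ∀ u, F (t • u) = F u
  c3 : ContDiffOn ℝ 3 F {0}ᶜ
  n0 : ∀ u, ‖u‖ = 1 → |F u - c| ≤ δ
  n1 : ∀ u, ‖u‖ = 1 → ‖iteratedFDeriv ℝ 1 F u‖ ≤ δ
  n2 : ∀ u, ‖u‖ = 1 → ‖iteratedFDeriv ℝ 2 F u‖ ≤ δ
  n3 : ∀ u, ‖u‖ = 1 → ‖iteratedFDeriv ℝ 3 F u‖ ≤ δ

theorem NF.mono {F : E → ℝ} {c δ δ' : ℝ} (H : NF F c δ) (h : δ ≤ δ') : NF F c δ' :=
  ⟨H.hom, H.c3, fun u hu => (H.n0 u hu).trans h, fun u hu => (H.n1 u hu).trans h,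
    fun u hu => (H.n2 u hu).trans h, fun u hu => (H.n3 u hu).trans h⟩

/-- scaling of the derivative -/
theorem nnear_scale {Y : Type*} [NormedAddCommGroup Y] [NormedSpace ℝ Y] {G : E → Y} {t a : ℝ}
    (h : ∀ u, G u = a • G (t • u)) (u : E) :
    fderiv ℝ G u = (a * t) • fderiv ℝ G (t • u) := by
  have h1 : G = a • fun y => G (t • y) := by
    funext y; exact h y
  have h2 : fderiv ℝ G u = fderiv ℝ (a • fun y => G (t • y)) u := congrArg (fun g => fderiv ℝ g u) h1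
  rw [h2, fderiv_const_smul_field, Pi.smul_apply, fderiv_comp_smul, smul_smul]

theorem nnear_step {Y : Type*} [NormedAddCommGroup Y] [NormedSpace ℝ Y] {G : E → Y} {n : ℕ}
    (h : ∀ t : ℝ, t ≠ 0 → ∀ u, G u = t ^ n • G (t • u)) {t : ℝ} (ht : t ≠ 0) (u : E) :
    fderiv ℝ G u = t ^ (n + 1) • fderiv ℝ G (t • u) := by
  rw [pow_succ]; exact nnear_scale (h t ht) u

theorem nnear_bd {Y : Type*} [NormedAddCommGroup Y] [NormedSpace ℝ Y] {G : E → Y} {n : ℕ}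
    (h : ∀ t : ℝ, t ≠ 0 → ∀ u, G u = t ^ n • G (t • u)) {δ : ℝ}
    (hδ : ∀ e, ‖e‖ = 1 → ‖iteratedFDeriv ℝ 1 G e‖ ≤ δ) {u : E} (hu : u ≠ 0) (v : E) :
    ‖fderiv ℝ G u v‖ ≤ δ * ‖v‖ / ‖u‖ ^ (n + 1) := by
  have hr : 0 < ‖u‖ := norm_pos_iff.2 hu
  have he1 : ‖(‖u‖⁻¹ • u)‖ = 1 := by
    rw [norm_smul, norm_inv, norm_norm, inv_mul_cancel₀ hr.ne']
  have h1 := hδ _ he1
  rw [← norm_iteratedFDeriv_fderiv (n := 0), norm_iteratedFDeriv_zero] at h1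
  rw [nnear_step h (inv_ne_zero hr.ne') u]
  have h2 := (fderiv ℝ G (‖u‖⁻¹ • u)).le_of_opNorm_le h1 v
  have h3 : ‖(‖u‖⁻¹ ^ (n + 1) • fderiv ℝ G (‖u‖⁻¹ • u)) v‖ =
      ‖u‖⁻¹ ^ (n + 1) * ‖fderiv ℝ G (‖u‖⁻¹ • u) v‖ := by
    rw [smul_apply, norm_smul, norm_pow, norm_inv, norm_norm]
  rw [h3]
  calc ‖u‖⁻¹ ^ (n + 1) * ‖fderiv ℝ G (‖u‖⁻¹ • u) v‖ ≤ ‖u‖⁻¹ ^ (n + 1) * (δ * ‖v‖) :=
        mul_le_mul_of_nonneg_left h2 (by positivity)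
    _ = δ * ‖v‖ / ‖u‖ ^ (n + 1) := by rw [inv_pow, div_eq_inv_mul]

/-- Derivatives of a degree `0` homogeneous function scale:
`‖D^k F u‖ = ‖u‖^{-k} ‖D^k F (u/‖u‖)‖`; in terms of directional derivatives.  For `u ≠ 0`:
`|DF u v| ≤ δ |v|/|u|`, `|D²F u v w| ≤ δ |v||w|/|u|²`, `|D³F u (v,w,x)| ≤ δ |v||w||x|/|u|³`, and
Euler's relations `DF u u = 0`, `D²F u u v = -DF u v` (differentiate `F (t u) = F u`,
`DF (t u) = t⁻¹ DF u` at `t = 1`). -/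
theorem nf_scale {F : E → ℝ} {c δ : ℝ} (H : NF F c δ) {u : E} (hu : u ≠ 0) :
    (∀ v, |fderiv ℝ F u v| ≤ δ * ‖v‖ / ‖u‖) ∧
    (∀ v w, |fderiv ℝ (fderiv ℝ F) u v w| ≤ δ * ‖v‖ * ‖w‖ / ‖u‖ ^ 2) ∧
    (∀ v w x, |fderiv ℝ (fderiv ℝ (fderiv ℝ F)) u v w x| ≤
      δ * ‖v‖ * ‖w‖ * ‖x‖ / ‖u‖ ^ 3) ∧
    fderiv ℝ F u u = 0 ∧ ∀ v, fderiv ℝ (fderiv ℝ F) u u v = -fderiv ℝ F u v := by
  have sF : ∀ t : ℝ, t ≠ 0 → ∀ x, F x = t ^ 0 • F (t • x) := by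
    intro t ht x
    rw [pow_zero, one_smul, H.hom t ht]
  have sG : ∀ t : ℝ, t ≠ 0 → ∀ x, fderiv ℝ F x = t ^ 1 • fderiv ℝ F (t • x) :=
    fun t ht x => nnear_step sF ht x
  have sH : ∀ t : ℝ, t ≠ 0 → ∀ x, fderiv ℝ (fderiv ℝ F) x =
      t ^ 2 • fderiv ℝ (fderiv ℝ F) (t • x) :=
    fun t ht x => nnear_step (Y := E →L[ℝ] ℝ) sG ht x
  have bG : ∀ v, ‖fderiv ℝ F u v‖ ≤ δ * ‖v‖ / ‖u‖ ^ 1 :=
    nnear_bd sF (fun e he => H.n1 e he) hu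
  have bH : ∀ v, ‖fderiv ℝ (fderiv ℝ F) u v‖ ≤ δ * ‖v‖ / ‖u‖ ^ 2 :=
    nnear_bd (Y := E →L[ℝ] ℝ) sG (fun e he => by
      rw [norm_iteratedFDeriv_fderiv]; exact H.n2 e he) hu
  have bK : ∀ v, ‖fderiv ℝ (fderiv ℝ (fderiv ℝ F)) u v‖ ≤ δ * ‖v‖ / ‖u‖ ^ 3 :=
    nnear_bd (Y := E →L[ℝ] E →L[ℝ] ℝ) sH (fun e he => by
      rw [norm_iteratedFDeriv_fderiv, norm_iteratedFDeriv_fderiv]; exact H.n3 e he) hu
  have hF3 : ContDiffAt ℝ 3 F u := H.c3.contDiffAt (isOpen_compl_singleton.mem_nhds hu)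
  have hFd : DifferentiableAt ℝ F u := hF3.differentiableAt (by norm_num)
  have hGd : DifferentiableAt ℝ (fderiv ℝ F) u :=
    (hF3.fderiv_right (m := 2) (by norm_num)).differentiableAt (by norm_num)
  have hline : HasDerivAt (fun t : ℝ => t • u) u 1 := by
    simpa using (hasDerivAt_id (1 : ℝ)).smul_const u
  refine ⟨fun v => ?_, fun v w => ?_, fun v w x => ?_, ?_, fun v => ?_⟩
  · rw [← Real.norm_eq_abs]
    refine (bG v).trans (le_of_eq ?_)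
    rw [pow_one]
  · rw [← Real.norm_eq_abs]
    refine ((fderiv ℝ (fderiv ℝ F) u v).le_of_opNorm_le (bH v) w).trans (le_of_eq ?_)
    ring
  · rw [← Real.norm_eq_abs]
    have h1 := (fderiv ℝ (fderiv ℝ (fderiv ℝ F)) u v).le_of_opNorm_le (bK v) w
    refine ((fderiv ℝ (fderiv ℝ (fderiv ℝ F)) u v w).le_of_opNorm_le h1 x).trans (le_of_eq ?_)
    ring
  · have h1 : HasDerivAt (fun t : ℝ => F (t • u)) (fderiv ℝ F u u) 1 := by
      have h2 : HasFDerivAt F (fderiv ℝ F u) ((1 : ℝ) • u) := by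
        rw [one_smul]; exact hFd.hasFDerivAt
      exact h2.comp_hasDerivAt (1 : ℝ) hline
    have h2 : (fun t : ℝ => F (t • u)) =ᶠ[𝓝 1] fun _ => F u := by
      filter_upwards [isOpen_ne.mem_nhds (one_ne_zero (α := ℝ))] with t ht
      exact H.hom t ht u
    have h3 := (hasDerivAt_const (1 : ℝ) (F u)).congr_of_eventuallyEq h2
    exact h1.unique h3
  · have h1 : HasDerivAt (fun t : ℝ => fderiv ℝ F (t • u)) (fderiv ℝ (fderiv ℝ F) u u) 1 := by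
      have h2 : HasFDerivAt (fderiv ℝ F) (fderiv ℝ (fderiv ℝ F) u) ((1 : ℝ) • u) := by
        rw [one_smul]; exact hGd.hasFDerivAt
      exact h2.comp_hasDerivAt (1 : ℝ) hline
    have h2 : (fun t : ℝ => fderiv ℝ F (t • u)) =ᶠ[𝓝 1] fun t => t⁻¹ • fderiv ℝ F u := by
      filter_upwards [isOpen_ne.mem_nhds (one_ne_zero (α := ℝ))] with t ht
      rw [sG t ht u, pow_one, smul_smul, inv_mul_cancel₀ ht, one_smul]
    have h3 : HasDerivAt (fun t : ℝ => t⁻¹ • fderiv ℝ F u) ((-(1 : ℝ)) • fderiv ℝ F u) 1 := by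
      have := (hasDerivAt_inv (one_ne_zero (α := ℝ))).smul_const (fderiv ℝ F u)
      simpa using this
    have h4 := h1.unique (h3.congr_of_eventuallyEq h2)
    rw [h4]
    simp

end CH
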