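import Pool.Agent.H.MP_1693ff_gtC.NDefs
import Pool.Agent.H.MP_1693ff_gtB.GModC

/-!
# Positivity for the model
-/

namespace CH

open Real Set Filter Topology CG
open CF hiding St

/-- The estimate in terms of `b`, `s = √e`, `T`. -/
theorem nposb_core {e b s T : ℝ} (he : 1 < e) (hb : 0 < b) (hbe : b ^ e = 2) (hs : 0 < s)
    (hse : s ^ 2 = e) (h0 : 0 ≤ T) (h1 : T < 1) {X q q₁ : ℝ} (hX : X = b * s * T / (1 - T))
    (hq : q = b ^ 2 * (1 + T) / (1 - T)) (hq₁ : q₁ = 2 * b / s) :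
    2 * √(X ^ 2 + q) ^ 2 < √(X ^ 2 + q) ^ e * (2 * q - X * q₁) := by
  obtain ⟨μ, hμ⟩ : ∃ μ : ℝ, μ = e - 1 := ⟨_, rfl⟩
  have hμ0 : 0 < μ := by rw [hμ]; linarith
  have heμ : e = 1 + μ := by rw [hμ]; ring
  obtain ⟨D, hD⟩ : ∃ D : ℝ, D = 1 - T := ⟨_, rfl⟩
  have hD0 : 0 < D := by rw [hD]; linarith
  have hTD : T = 1 - D := by rw [hD]; ring
  obtain ⟨A, hA⟩ : ∃ A : ℝ, A = 1 + μ * T ^ 2 := ⟨_, rfl⟩
  have hA1 : 1 ≤ A := by
    have : 0 ≤ μ * T ^ 2 := by positivity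
    rw [hA]; linarith
  have hA0 : 0 < A := by linarith
  have he0 : 0 < e := by linarith
  have m2 := moda_2 hμ0.le h0 h1
  rw [← hD, ← hA] at m2
  obtain ⟨P, hP⟩ : ∃ P : ℝ, P = D ^ (-μ) * A ^ ((1 + μ) / 2) := ⟨_, rfl⟩
  -- A ^ 2 ≤ P
  have hAP : A ^ 2 ≤ P := by
    have e1 : A ^ ((3 - μ) / 2) * A ^ ((1 + μ) / 2) = A ^ 2 := by
      rw [← Real.rpow_add hA0, show (3 - μ) / 2 + (1 + μ) / 2 = ((2 : ℕ) : ℝ) by push_cast; ring,
        Real.rpow_natCast]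
    rw [← e1, hP]
    exact mul_le_mul_of_nonneg_right m2 (Real.rpow_nonneg hA0.le _)
  have hP0 : 0 < P := lt_of_lt_of_le (by positivity) hAP
  have hAP2 : A < 2 * P := by nlinarith
  -- the quantities
  rw [← hD] at hX hq
  have hD1 : 2 * q - X * q₁ = 2 * b ^ 2 / D := by
    rw [hq, hX, hq₁, hTD]
    field_simp
    ring
  have hS : X ^ 2 + q = b ^ 2 * A / D ^ 2 := by
    rw [hq, hX, hA, hμ, ← hse, hTD]
    field_simp
    ring
  have hS0 : 0 < X ^ 2 + q := by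
    rw [hS]
    positivity
  obtain ⟨ρ, hρ⟩ : ∃ ρ : ℝ, ρ = √(X ^ 2 + q) := ⟨_, rfl⟩
  have hρ0 : 0 < ρ := by
    rw [hρ]
    exact Real.sqrt_pos.2 hS0
  have hρ2 : ρ ^ 2 = b ^ 2 * A / D ^ 2 := by
    rw [hρ, Real.sq_sqrt hS0.le, hS]
  have hρe : ρ ^ e = 2 * P / D := by
    have e1 : ρ ^ e = (ρ ^ 2) ^ (e / 2) := by
      rw [← Real.rpow_natCast ρ 2, ← Real.rpow_mul hρ0.le]
      congr 1
      push_cast
      ring
    have e2 : (b ^ 2) ^ (e / 2) = 2 := by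
      rw [← Real.rpow_natCast b 2, ← Real.rpow_mul hb.le]
      have : ((2 : ℕ) : ℝ) * (e / 2) = e := by push_cast; ring
      rw [this, hbe]
    have e3 : (D ^ 2) ^ (e / 2) = D ^ e := by
      rw [← Real.rpow_natCast D 2, ← Real.rpow_mul hD0.le]
      congr 1
      push_cast
      ring
    have e4 : D ^ e = D * (D ^ (-μ))⁻¹ := by
      rw [heμ, Real.rpow_add hD0, Real.rpow_one, Real.rpow_neg hD0.le, inv_inv]
    rw [e1, hρ2, Real.div_rpow (by positivity) (by positivity), Real.mul_rpow (by positivity)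
      hA0.le, e2, e3, e4, hP]
    have e5 : A ^ (e / 2) = A ^ ((1 + μ) / 2) := by rw [heμ]
    rw [e5]
    have e6 : 0 < D ^ (-μ) := Real.rpow_pos_of_pos hD0 _
    field_simp
  rw [← hρ, hρe, hρ2, hD1]
  have h3 : 2 * P / D * (2 * b ^ 2 / D) - 2 * (b ^ 2 * A / D ^ 2) =
      2 * b ^ 2 / D ^ 2 * (2 * P - A) := by
    field_simp
  have h4 : 0 < 2 * b ^ 2 / D ^ 2 * (2 * P - A) := mul_pos (by positivity) (by linarith)
  linarith

theorem nposb_one {e X : ℝ} (he : 1 < e) (hX : 0 ≤ X) :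
    2 * √(X ^ 2 + qm e 1 X) ^ 2 <
      √(X ^ 2 + qm e 1 X) ^ e * (2 * qm e 1 X - X * qm1 e 1) := by
  obtain ⟨b, hb⟩ : ∃ b : ℝ, b = (2 : ℝ) ^ e⁻¹ := ⟨_, rfl⟩
  obtain ⟨s, hs⟩ : ∃ s : ℝ, s = √e := ⟨_, rfl⟩
  have he0 : 0 < e := by linarith
  have hb0 : 0 < b := by
    rw [hb]
    exact Real.rpow_pos_of_pos two_pos _
  have hbe : b ^ e = 2 := by
    rw [hb, Real.rpow_inv_rpow zero_le_two he0.ne']
  have hs0 : 0 < s := by
    rw [hs]
    exact Real.sqrt_pos.2 he0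
  have hse : s ^ 2 = e := by
    rw [hs, Real.sq_sqrt he0.le]
  have hd : 0 < s * b + X := by positivity
  have hT0 : 0 ≤ X / (s * b + X) := by positivity
  have hT1 : X / (s * b + X) < 1 := by
    rw [div_lt_one hd]
    have : 0 < s * b := mul_pos hs0 hb0
    linarith
  have h1T : 1 - X / (s * b + X) = s * b / (s * b + X) := by
    field_simp
    ring
  have hX' : X = b * s * (X / (s * b + X)) / (1 - X / (s * b + X)) := by
    rw [h1T]
    field_simp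
  have hq : qm e 1 X = b ^ 2 * (1 + X / (s * b + X)) / (1 - X / (s * b + X)) := by
    unfold qm
    rw [← hb, ← hs, h1T, div_one]
    field_simp
    ring
  have hq₁ : qm1 e 1 = 2 * b / s := by
    unfold qm1
    rw [← hb, ← hs, div_one]
  exact nposb_core he hb0 hbe hs0 hse hT0 hT1 hX' hq hq₁

theorem nposb_qm {e c X : ℝ} (hc : 0 < c) : qm e c X = qm e 1 (c * X) / c ^ 2 := by
  unfold qm
  rw [div_one]
  field_simp

theorem nposb_qm1 {e c : ℝ} (hc : 0 < c) : qm1 e c = qm1 e 1 / c := by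
  unfold qm1
  rw [div_one]
  field_simp

theorem nposb_sqrt {e c X : ℝ} (hc : 0 < c) :
    √(X ^ 2 + qm e c X) = √((c * X) ^ 2 + qm e 1 (c * X)) / c := by
  have h1 : X ^ 2 + qm e c X = ((c * X) ^ 2 + qm e 1 (c * X)) / c ^ 2 := by
    rw [nposb_qm hc]
    field_simp
  rw [h1, Real.sqrt_div' _ (by positivity), Real.sqrt_sq hc.le]

theorem nposb_c {e c X : ℝ} (he : 1 < e) (hc : 0 < c) (hX : 0 ≤ X) :
    2 * √(X ^ 2 + qm e c X) ^ 2 <
      (c * √(X ^ 2 + qm e c X)) ^ e * (2 * qm e c X - X * qm1 e c) := by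
  have h1 := nposb_one he (show 0 ≤ c * X by positivity)
  rw [nposb_sqrt hc, nposb_qm hc, nposb_qm1 hc]
  set S := √((c * X) ^ 2 + qm e 1 (c * X)) with hS
  set q := qm e 1 (c * X) with hq
  set p := qm1 e 1 with hp
  have h2 : c * (S / c) = S := by field_simp
  have h3 : 2 * (q / c ^ 2) - X * (p / c) = (2 * q - c * X * p) / c ^ 2 := by
    field_simp
  rw [h2, h3, div_pow]
  have h4 : S ^ e * ((2 * q - c * X * p) / c ^ 2) - 2 * (S ^ 2 / c ^ 2) =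
      (S ^ e * (2 * q - c * X * p) - 2 * S ^ 2) / c ^ 2 := by ring
  have h5 : 0 < (S ^ e * (2 * q - c * X * p) - 2 * S ^ 2) / c ^ 2 :=
    div_pos (by linarith) (by positivity)
  linarith

/-- At the model (`q = qm e c X`, `q₁ = qm1 e c`, all transverse quantities `0`, `E₃ = c`,
`H = R = c`, `H₁ = 0`) the form `JJ` is diagonal: with `ρ₀ = √(X² + q)`, `L = 2q - X q₁`
`JJ = q ρ₀^{e-4} FF z² + q (c^e ρ₀^{e-2} - 2/L) ρ²`. `FF > 0` by `modc_FF`. The second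
coefficient: scale to `c = 1` (`cX`; `L = c⁻² L(1)`, `ρ₀ = c⁻¹ ρ₀(1)`), then with
`T = (q-b²)/(q+b²)`, `μ = e-1`, `b^e = 2` (see `modb_FF`): `ρ₀² = b²(1+μT²)/(1-T)²`,
`L = 2b²/(1-T)`, `ρ₀^{e-2} L = 4 (1+μT²)^{(μ-1)/2} (1-T)^{-μ}`, which is `≥ 4` for `μ ≥ 1`, and
for `0 < μ < 1` it is `≥ 4 (1+μT²)^{-1/2} ≥ 4/√2 > 2`. -/
theorem jj_model {e c X : ℝ} (he : 1 < e) (hc : 0 < c) (hX : 0 ≤ X) {z ρ : ℝ}
    (h : z ≠ 0 ∨ ρ ≠ 0) :
    0 < JJ e X (qm e c X) (qm1 e c) 0 0 0 0 c 0 c 0 0 c z ρ := by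
  obtain ⟨-, p1, p3⟩ := modc_GG he hc hX
  obtain ⟨hF, hr⟩ := modc_FF he hc hX
  have hB := nposb_c he hc hX
  set q := qm e c X with hq
  set q₁ := qm1 e c with hq₁
  set S := √(X ^ 2 + q) with hS
  set L := 2 * q - X * q₁ with hL
  have hS0 : 0 < S := Real.sqrt_pos.2 (by positivity)
  have hcS : 0 < c * S := mul_pos hc hS0
  set E := (c * S) ^ e with hE
  have hE0 : 0 < E := Real.rpow_pos_of_pos hcS _
  have hE1 : 0 < E - 1 := by linarith
  have e1 : (c * S) ^ (e - 1) = E / (c * S) := by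
    rw [Real.rpow_sub hcS, Real.rpow_one]
  have e2 : (c * S) ^ (e - 2) = E / (c * S) ^ 2 := by
    rw [Real.rpow_sub hcS]
    congr 1
    rw [← Real.rpow_natCast]
    norm_num
  have hsq : √q ^ 2 = q := Real.sq_sqrt p1.le
  have e3 : c ^ (e - 1) = c ^ e / c := by
    rw [Real.rpow_sub hc, Real.rpow_one]
  have e4 : c ^ (e - 2) = c ^ e / c ^ 2 := by
    rw [Real.rpow_sub hc]
    congr 1
    rw [← Real.rpow_natCast]
    norm_num
  have e5 : S ^ (4 - e) = S ^ 4 / S ^ e := by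
    rw [Real.rpow_sub hS0]
    congr 1
    rw [← Real.rpow_natCast]
    norm_num
  have e6 : E = c ^ e * S ^ e := by
    rw [hE, Real.mul_rpow hc.le hS0.le]
  have hce : 0 < c ^ e := Real.rpow_pos_of_pos hc _
  have hSe : 0 < S ^ e := Real.rpow_pos_of_pos hS0 _
  have key : JJ e X q q₁ 0 0 0 0 c 0 c 0 0 c z ρ =
      q * S ^ e / S ^ 4 * FF e X q q₁ 0 c 0 c * z ^ 2 +
        q / (S ^ 2 * L) * (E * L - 2 * S ^ 2) * ρ ^ 2 := by
    unfold JJ NN FF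
    rw [← hS, ← hL, ← hE, e1, e2, e3, e4, e5]
    have h1 : (z * (√q / S) * (0 - c * √q * (2 * X + q₁) / L) - ρ * (c * S * 0 / L + 0 * √q)) ^ 2 =
        (√q ^ 2) ^ 2 * (z * c * (2 * X + q₁) / (S * L)) ^ 2 := by
      field_simp
      ring
    have h2 : (0 - c * √q * (2 * X + q₁) / L) ^ 2 = √q ^ 2 * (c * (2 * X + q₁) / L) ^ 2 := by
      field_simp
      ring
    rw [h1, h2, hsq, e6]
    have hE1' : c ^ e * S ^ e - 1 ≠ 0 := by rw [← e6]; exact hE1.ne'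
    have hL0 : L ≠ 0 := p3.ne'
    have hq0 : q ≠ 0 := p1.ne'
    generalize hc1 : c ^ e = C at *
    generalize hs1 : S ^ e = Z at *
    field_simp
    ring
  rw [key]
  have c1 : 0 < q * S ^ e / S ^ 4 * FF e X q q₁ 0 c 0 c := by positivity
  have c2 : 0 < q / (S ^ 2 * L) * (E * L - 2 * S ^ 2) := by
    have : 0 < E * L - 2 * S ^ 2 := by linarith
    positivity
  rcases h with h | h
  · have h1 : 0 < z ^ 2 := by positivity
    have h2 : 0 ≤ ρ ^ 2 := by positivity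
    have h3 := mul_pos c1 h1
    have h4 := mul_nonneg c2.le h2
    linarith
  · have h1 : 0 < ρ ^ 2 := by positivity
    have h2 : 0 ≤ z ^ 2 := by positivity
    have h3 := mul_pos c2 h1
    have h4 := mul_nonneg c1.le h2
    linarith

end CH
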