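import Pool.Agent.H.MP_1693ff_gtC.NJointB
import Pool.Agent.H.MP_1693ff_gtC.NJet3C
import Pool.Agent.H.MP_1693ff_gtC.NCub3
import Pool.Agent.H.MP_1693ff_gtB.GExist
import Pool.Agent.H.MP_1693ff_gtB.GPiece

/-!
# Regularity of the surfaces
-/

namespace CH

open Real Set Filter Topology CG
open CF hiding St

variable {e d : ℝ} {h k : ℝ → ℝ → ℝ}

/-- A surface, parametrised by `(t, r)` near `(t₀, 0)`. -/
structure Sheet (S : ℝ → ℝ → St) (T : ℝ → ℝ → Tt) (t₀ : ℝ) : Prop where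
  c : C13 (fun p => S p.1 p.2) (fun p => T p.1 p.2) (t₀, 0)
  t : ∀ᶠ p : ℝ × ℝ in 𝓝 (t₀, 0),
    Al3 (fun t => S t p.2) (fun t => T t p.2) (S p.1 p.2).v 0 p.1
  r : ∀ᶠ p : ℝ × ℝ in 𝓝 (t₀, 0),
    Al3 (fun r => S p.1 r) (fun r => T p.1 r) (T p.1 p.2).w 1 p.2
  v0 : 0 < (S t₀ 0).v
  s0 : 0 < (S t₀ 0).s
  pos : ∀ z ρ, 0 ≤ bf (S t₀ 0) (T t₀ 0) z ρ

/-- `aok` and `Good` (`p0 > 0`) for all `m`. -/
theorem ok_of (D : D3 e d h k) {t : ℝ} (ht : t ∈ Icc (0 : ℝ) 1) (r : ℝ) (n : ℕ) :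
    Ok e d h k n t r := by
  obtain ⟨κ, C₁, C₂, hD⟩ := D.dk
  have hd : 0 < d := by linarith [(hD r).d1]
  have h1 := (hD r).aok (d * t) ⟨mul_nonneg hd.le ht.1, by nlinarith [ht.2]⟩
  refine ⟨h1.1, h1.2, fun m _ => ?_⟩
  have h2 := (hD r).good t ht m
  exact ⟨h2.W0, h2.W1, by linarith [mul_pos hd h2.p0]⟩

theorem nsheet_pos (D : D3 e d h k) : 1 < e ∧ 0 < d := by
  obtain ⟨κ, C₁, C₂, hD⟩ := D.dk
  exact ⟨(hD 0).e1, by linarith [(hD 0).d1]⟩

theorem nsheet_mono {n m : ℕ} {t r : ℝ} (O : Ok e d h k n t r) (hm : m ≤ n) :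
    Ok e d h k m t r :=
  ⟨O.q0, O.l0, fun j hj => O.st j (lt_of_lt_of_le hj hm)⟩

theorem nsheet_qs (D : D3 e d h k) :
    QS (fun X r => aq e d (h r) (k r) X) (fun X r => aq1 e d (h r) (k r) X)
      (fun X r => aq2 e d (h r) (k r) X) (aqr e d h k) (aq1r e d h k) (aqrr e d h k) := by
  obtain ⟨δ, H, K⟩ := D.co
  exact qs_aq (nsheet_pos D).2 H K

/-- Induction on `n`: `jet3_c1` with `qs_aq`, `c13_hst` (the profile is the one of `h` or `k`
according to the parity of `n`; `Ok (n+1)` contains `Ok n`). -/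
theorem ok_c13 (D : D3 e d h k) {t r : ℝ} {n : ℕ} (O : Ok e d h k n t r) :
    C13 (fun p => chain e d (h p.2) (k p.2) n p.1) (fun p => chain3 e d h k n p.1 p.2)
      (t, r) := by
  obtain ⟨he, hd⟩ := nsheet_pos D
  induction n with
  | zero => exact jet3_c1 hd (nsheet_qs D) (p := (t, r)) O.q0 O.l0
  | succ n ih =>
    have h1 := ih (nsheet_mono O (Nat.le_succ n))
    obtain ⟨h2, h3, h4⟩ := O.st n (Nat.lt_succ_self n)
    by_cases hn : Even n
    · simp only [if_pos hn] at h3 h4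
      simp only [chain, chain3, if_pos hn]
      exact c13_hst he hd D.ph h1 h2 h3 h4
    · simp only [if_neg hn] at h3 h4
      simp only [chain, chain3, if_neg hn]
      exact c13_hst he hd D.pk h1 h2 h3 h4

/-- Induction on `n` (`open_hst`, `ok_c13`; for `n = 0` continuity of `aq`, `aq1` in `(X, r)`:
`QS.c0`, `QS.c1`). -/
theorem ok_open (D : D3 e d h k) {t r : ℝ} {n : ℕ} (O : Ok e d h k n t r) :
    ∀ᶠ p : ℝ × ℝ in 𝓝 (t, r), Ok e d h k n p.1 p.2 := by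
  obtain ⟨he, hd⟩ := nsheet_pos D
  induction n with
  | zero =>
    have q := nsheet_qs D
    have c0 : Continuous fun p : ℝ × ℝ => aq e d (h p.2) (k p.2) (d * p.1) :=
      q.c0.continuous.comp (by fun_prop : Continuous fun p : ℝ × ℝ => (d * p.1, p.2))
    have c1 : Continuous fun p : ℝ × ℝ => aq1 e d (h p.2) (k p.2) (d * p.1) :=
      q.c1.continuous.comp (by fun_prop : Continuous fun p : ℝ × ℝ => (d * p.1, p.2))
    have c2 : Continuous fun p : ℝ × ℝ => 2 * aq e d (h p.2) (k p.2) (d * p.1) -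
        d * p.1 * aq1 e d (h p.2) (k p.2) (d * p.1) :=
      (continuous_const.mul c0).sub ((continuous_const.mul continuous_fst).mul c1)
    have e1 : ∀ᶠ p : ℝ × ℝ in 𝓝 (t, r), 0 < aq e d (h p.2) (k p.2) (d * p.1) :=
      c0.continuousAt.eventually (lt_mem_nhds O.q0)
    have e2 : ∀ᶠ p : ℝ × ℝ in 𝓝 (t, r), 0 < 2 * aq e d (h p.2) (k p.2) (d * p.1) -
        d * p.1 * aq1 e d (h p.2) (k p.2) (d * p.1) :=
      c2.continuousAt.eventually (lt_mem_nhds O.l0)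
    filter_upwards [e1, e2] with p h1 h2
    exact ⟨h1, h2, fun m hm => absurd hm (Nat.not_lt_zero m)⟩
  | succ n ih =>
    have O1 := nsheet_mono O (Nat.le_succ n)
    have h1 := ok_c13 D O1
    obtain ⟨h2, h3, h4⟩ := O.st n (Nat.lt_succ_self n)
    have key : ∀ᶠ p : ℝ × ℝ in 𝓝 (t, r), 0 < (chain e d (h p.2) (k p.2) n p.1).W d ∧
        (chain e d (h p.2) (k p.2) n p.1).W d < (if Even n then pf (h p.2) else pf (k p.2)).f
          (chain e d (h p.2) (k p.2) n p.1).a ∧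
        0 < 1 + d * opp1 e d (if Even n then pf (h p.2) else pf (k p.2))
          (chain e d (h p.2) (k p.2) n p.1) := by
      by_cases hn : Even n
      · simp only [if_pos hn] at h3 h4 ⊢
        exact open_hst he hd D.ph h1 h2 h3 h4
      · simp only [if_neg hn] at h3 h4 ⊢
        exact open_hst he hd D.pk h1 h2 h3 h4
    filter_upwards [ih O1, key] with p h5 h6
    refine ⟨h5.q0, h5.l0, fun m hm => ?_⟩
    rcases Nat.lt_succ_iff_lt_or_eq.1 hm with h7 | h7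
    · exact h5.st m h7
    · subst h7
      exact h6

end CH
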