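import Pool.Agent.H.MP_1693ff_gtC.NSheet
import Pool.Agent.H.MP_1693ff_gtC.NAlong3B
import Pool.Agent.H.MP_1693ff_gtC.NJet3
import Pool.Agent.H.MP_1693ff_gtC.NJet3B

/-!
# Consistency of the surfaces
-/

namespace CH

open Real Set Filter Topology CG
open CF hiding St

variable {e d : ℝ} {h k : ℝ → ℝ → ℝ}

/-- Induction on `n`: `jet3_t`, `al3_hst` with `ρ = 0`, the path `r` constant. -/
theorem ok_t (D : D3 e d h k) {t r : ℝ} {n : ℕ} (O : Ok e d h k n t r) :
    Al3 (fun t => chain e d (h r) (k r) n t) (fun t => chain3 e d h k n t r)
      (chain e d (h r) (k r) n t).v 0 t := by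
  obtain ⟨κ, C₁, C₂, hdk⟩ := D.dk
  have he : 1 < e := (hdk r).e1
  have hd : 0 < d := lt_of_lt_of_le zero_lt_one (hdk r).d1
  obtain ⟨δ, H, K⟩ := D.co
  induction n with
  | zero => exact jet3_t hd (qs_aq hd H K) O.q0 O.l0
  | succ n ih =>
    have A := ih ⟨O.q0, O.l0, fun m hm => O.st m (by omega)⟩
    obtain ⟨s0, s1, s2⟩ := O.st n (Nat.lt_succ_self n)
    by_cases hn : Even n
    · rw [if_pos hn] at s1 s2
      have B := al3_hst he hd D.ph (hasDerivAt_const t r) A s0 s1 s2
      have e1 : (chain e d (h r) (k r) (n + 1) t).v =
          (1 + d * opp1 e d (pf (h r)) (chain e d (h r) (k r) n t)) *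
            (chain e d (h r) (k r) n t).v +
          og e d (pf (h r)) (pt h r) (chain e d (h r) (k r) n t) (chain3 e d h k n t r) * 0 := by
        show (hst e d (if Even n then pf (h r) else pf (k r)) (chain e d (h r) (k r) n t)).v = _
        rw [if_pos hn]
        show (chain e d (h r) (k r) n t).v *
          (1 + d * opp1 e d (pf (h r)) (chain e d (h r) (k r) n t)) = _
        ring
      rw [e1]
      have e2 : (fun t => chain e d (h r) (k r) (n + 1) t) =
          fun t => hst e d (pf (h r)) (chain e d (h r) (k r) n t) := by
        funext t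
        show hst e d (if Even n then pf (h r) else pf (k r)) (chain e d (h r) (k r) n t) = _
        rw [if_pos hn]
      have e3 : (fun t => chain3 e d h k (n + 1) t r) = fun t => hst3 e d (pf (h r)) (pt h r)
          (chain e d (h r) (k r) n t) (chain3 e d h k n t r) := by
        funext t
        show hst3 e d (if Even n then pf (h r) else pf (k r)) (if Even n then pt h r else pt k r)
          (chain e d (h r) (k r) n t) (chain3 e d h k n t r) = _
        rw [if_pos hn, if_pos hn]
      rw [e2, e3]
      exact B
    · rw [if_neg hn] at s1 s2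
      have B := al3_hst he hd D.pk (hasDerivAt_const t r) A s0 s1 s2
      have e1 : (chain e d (h r) (k r) (n + 1) t).v =
          (1 + d * opp1 e d (pf (k r)) (chain e d (h r) (k r) n t)) *
            (chain e d (h r) (k r) n t).v +
          og e d (pf (k r)) (pt k r) (chain e d (h r) (k r) n t) (chain3 e d h k n t r) * 0 := by
        show (hst e d (if Even n then pf (h r) else pf (k r)) (chain e d (h r) (k r) n t)).v = _
        rw [if_neg hn]
        show (chain e d (h r) (k r) n t).v *
          (1 + d * opp1 e d (pf (k r)) (chain e d (h r) (k r) n t)) = _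
        ring
      rw [e1]
      have e2 : (fun t => chain e d (h r) (k r) (n + 1) t) =
          fun t => hst e d (pf (k r)) (chain e d (h r) (k r) n t) := by
        funext t
        show hst e d (if Even n then pf (h r) else pf (k r)) (chain e d (h r) (k r) n t) = _
        rw [if_neg hn]
      have e3 : (fun t => chain3 e d h k (n + 1) t r) = fun t => hst3 e d (pf (k r)) (pt k r)
          (chain e d (h r) (k r) n t) (chain3 e d h k n t r) := by
        funext t
        show hst3 e d (if Even n then pf (h r) else pf (k r)) (if Even n then pt h r else pt k r)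
          (chain e d (h r) (k r) n t) (chain3 e d h k n t r) = _
        rw [if_neg hn, if_neg hn]
      rw [e2, e3]
      exact B

/-- Induction on `n`: `jet3_r`, `al3_hst` with `ρ = 1`, the path `r` the identity. -/
theorem ok_r (D : D3 e d h k) {t r : ℝ} {n : ℕ} (O : Ok e d h k n t r) :
    Al3 (fun r => chain e d (h r) (k r) n t) (fun r => chain3 e d h k n t r)
      (chain3 e d h k n t r).w 1 r := by
  obtain ⟨κ, C₁, C₂, hdk⟩ := D.dk
  have he : 1 < e := (hdk r).e1
  have hd : 0 < d := lt_of_lt_of_le zero_lt_one (hdk r).d1
  obtain ⟨δ, H, K⟩ := D.co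
  induction n with
  | zero => exact jet3_r hd (qs_aq hd H K) O.q0 O.l0
  | succ n ih =>
    have A := ih ⟨O.q0, O.l0, fun m hm => O.st m (by omega)⟩
    obtain ⟨s0, s1, s2⟩ := O.st n (Nat.lt_succ_self n)
    by_cases hn : Even n
    · rw [if_pos hn] at s1 s2
      have B := al3_hst he hd D.ph (hasDerivAt_id' r) A s0 s1 s2
      have e1 : (chain3 e d h k (n + 1) t r).w =
          (1 + d * opp1 e d (pf (h r)) (chain e d (h r) (k r) n t)) *
            (chain3 e d h k n t r).w +
          og e d (pf (h r)) (pt h r) (chain e d (h r) (k r) n t) (chain3 e d h k n t r) * 1 := by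
        show (hst3 e d (if Even n then pf (h r) else pf (k r)) (if Even n then pt h r else pt k r)
          (chain e d (h r) (k r) n t) (chain3 e d h k n t r)).w = _
        rw [if_pos hn, if_pos hn, mul_one]
        rfl
      rw [e1]
      have e2 : (fun r => chain e d (h r) (k r) (n + 1) t) =
          fun r => hst e d (pf (h r)) (chain e d (h r) (k r) n t) := by
        funext r
        show hst e d (if Even n then pf (h r) else pf (k r)) (chain e d (h r) (k r) n t) = _
        rw [if_pos hn]
      have e3 : (fun r => chain3 e d h k (n + 1) t r) = fun r => hst3 e d (pf (h r)) (pt h r)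
          (chain e d (h r) (k r) n t) (chain3 e d h k n t r) := by
        funext r
        show hst3 e d (if Even n then pf (h r) else pf (k r)) (if Even n then pt h r else pt k r)
          (chain e d (h r) (k r) n t) (chain3 e d h k n t r) = _
        rw [if_pos hn, if_pos hn]
      rw [e2, e3]
      exact B
    · rw [if_neg hn] at s1 s2
      have B := al3_hst he hd D.pk (hasDerivAt_id' r) A s0 s1 s2
      have e1 : (chain3 e d h k (n + 1) t r).w =
          (1 + d * opp1 e d (pf (k r)) (chain e d (h r) (k r) n t)) *
            (chain3 e d h k n t r).w +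
          og e d (pf (k r)) (pt k r) (chain e d (h r) (k r) n t) (chain3 e d h k n t r) * 1 := by
        show (hst3 e d (if Even n then pf (h r) else pf (k r)) (if Even n then pt h r else pt k r)
          (chain e d (h r) (k r) n t) (chain3 e d h k n t r)).w = _
        rw [if_neg hn, if_neg hn, mul_one]
        rfl
      rw [e1]
      have e2 : (fun r => chain e d (h r) (k r) (n + 1) t) =
          fun r => hst e d (pf (k r)) (chain e d (h r) (k r) n t) := by
        funext r
        show hst e d (if Even n then pf (h r) else pf (k r)) (chain e d (h r) (k r) n t) = _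
        rw [if_neg hn]
      have e3 : (fun r => chain3 e d h k (n + 1) t r) = fun r => hst3 e d (pf (k r)) (pt k r)
          (chain e d (h r) (k r) n t) (chain3 e d h k n t r) := by
        funext r
        show hst3 e d (if Even n then pf (h r) else pf (k r)) (if Even n then pt h r else pt k r)
          (chain e d (h r) (k r) n t) (chain3 e d h k n t r) = _
        rw [if_neg hn, if_neg hn]
      rw [e2, e3]
      exact B

end CH
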