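import Pool.Agent.H.MP_1693ff_gtC.NSheetB

/-!
# The surfaces of the chain
-/

namespace CH

open Real Set Filter Topology CG
open CF hiding St

variable {e d : ℝ} {h k : ℝ → ℝ → ℝ}

/-- The `n`-th surface. -/
theorem sheet_of (D : D3 e d h k) {t : ℝ} (ht : t ∈ Icc (0 : ℝ) 1) (n : ℕ) :
    Sheet (fun t r => chain e d (h r) (k r) n t) (fun t r => chain3 e d h k n t r) t := by
  have O := ok_open D (ok_of D ht 0 n)
  obtain ⟨κ, C₁, C₂, K⟩ := D.dk
  exact
    { c := ok_c13 D (ok_of D ht 0 n)
      t := O.mono fun p hp => ok_t D hp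
      r := O.mono fun p hp => ok_r D hp
      v0 := ((K 0).good t ht n).v0
      s0 := ((K 0).good t ht n).s0
      pos := D.pos 0 t ht n }

end CH
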