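import Pool.Agent.H.MP_1693ff_gtC.NDefs

/-!
# Polar coordinates along a segment
-/

namespace CH

open Real Set Filter Topology CG
open CF hiding St

noncomputable section

/-- length of `(R₀ + l q₁, l q₂)`. -/
def RR (R₀ q₁ q₂ l : ℝ) : ℝ := √((R₀ + l * q₁) ^ 2 + (l * q₂) ^ 2)

/-- angle of `(R₀ + l q₁, l q₂)`. -/
def ra (R₀ q₁ q₂ l : ℝ) : ℝ := arctan (l * q₂ / (R₀ + l * q₁))

end

/-- Derivatives of `R = RR` and `r = ra` near `0` (where `R₀ + l q₁ > 0`):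
`R' = ((R₀+lq₁) q₁ + l q₂²)/R`, `r' = R₀ q₂/R²`. -/
theorem rr_deriv {R₀ q₁ q₂ : ℝ} (hR : 0 < R₀) : ∀ᶠ l in 𝓝 (0 : ℝ),
    0 < RR R₀ q₁ q₂ l ∧
    HasDerivAt (RR R₀ q₁ q₂) (((R₀ + l * q₁) * q₁ + l * q₂ * q₂) / RR R₀ q₁ q₂ l) l ∧
    HasDerivAt (ra R₀ q₁ q₂) (R₀ * q₂ / RR R₀ q₁ q₂ l ^ 2) l := by
  have hcont : ContinuousAt (fun l : ℝ => R₀ + l * q₁) 0 := by fun_prop
  have hev : ∀ᶠ l in 𝓝 (0 : ℝ), 0 < R₀ + l * q₁ := by
    refine hcont.eventually_const_lt ?_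
    simpa using hR
  filter_upwards [hev] with l hl
  have hN : 0 < (R₀ + l * q₁) ^ 2 + (l * q₂) ^ 2 := by positivity
  have hRR : 0 < RR R₀ q₁ q₂ l := Real.sqrt_pos.2 hN
  have hsq : RR R₀ q₁ q₂ l ^ 2 = (R₀ + l * q₁) ^ 2 + (l * q₂) ^ 2 := Real.sq_sqrt hN.le
  have hu : HasDerivAt (fun l : ℝ => R₀ + l * q₁) q₁ l := by
    have := ((hasDerivAt_id l).mul_const q₁).const_add R₀
    simpa using this
  have hv : HasDerivAt (fun l : ℝ => l * q₂) q₂ l := by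
    have := (hasDerivAt_id l).mul_const q₂
    simpa using this
  refine ⟨hRR, ?_, ?_⟩
  · have h1 : HasDerivAt (fun l : ℝ => (R₀ + l * q₁) ^ 2 + (l * q₂) ^ 2)
        (2 * ((R₀ + l * q₁) * q₁ + l * q₂ * q₂)) l := by
      refine ((hu.pow 2).add (hv.pow 2)).congr_deriv ?_
      norm_num
      ring
    have h2 := h1.sqrt hN.ne'
    refine h2.congr_deriv ?_
    change 2 * ((R₀ + l * q₁) * q₁ + l * q₂ * q₂) / (2 * RR R₀ q₁ q₂ l) = _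
    field_simp
  · have h0 : HasDerivAt (fun x : ℝ => x * q₂ / (R₀ + x * q₁))
        ((q₂ * (R₀ + l * q₁) - l * q₂ * q₁) / (R₀ + l * q₁) ^ 2) l := hv.div hu hl.ne'
    have h1 : HasDerivAt (ra R₀ q₁ q₂) (1 / (1 + (l * q₂ / (R₀ + l * q₁)) ^ 2) *
        ((q₂ * (R₀ + l * q₁) - l * q₂ * q₁) / (R₀ + l * q₁) ^ 2)) l := h0.arctan
    refine h1.congr_deriv ?_
    rw [hsq]
    have h3 : 1 + (l * q₂ / (R₀ + l * q₁)) ^ 2 =
        ((R₀ + l * q₁) ^ 2 + (l * q₂) ^ 2) / (R₀ + l * q₁) ^ 2 := by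
      field_simp
    rw [h3]
    field_simp
    ring

/-- `R'` and `r'` at `0`: `R'(0) = q₁`, `R''(0) = q₂²/R₀`, `r'(0) = q₂/R₀`,
`r''(0) = -2 q₁ q₂/R₀²`. -/
theorem rr_deriv2 {R₀ q₁ q₂ : ℝ} (hR : 0 < R₀) :
    HasDerivAt (fun l => ((R₀ + l * q₁) * q₁ + l * q₂ * q₂) / RR R₀ q₁ q₂ l)
      (q₂ ^ 2 / R₀) 0 ∧
    HasDerivAt (fun l => R₀ * q₂ / RR R₀ q₁ q₂ l ^ 2) (-(2 * q₁ * q₂) / R₀ ^ 2) 0 ∧
    RR R₀ q₁ q₂ 0 = R₀ ∧ ra R₀ q₁ q₂ 0 = 0 := by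
  have h0 : RR R₀ q₁ q₂ 0 = R₀ := by
    unfold RR
    rw [zero_mul, zero_mul, add_zero]
    have : R₀ ^ 2 + 0 ^ 2 = R₀ ^ 2 := by ring
    rw [this, Real.sqrt_sq hR.le]
  have h1 := (rr_deriv (q₁ := q₁) (q₂ := q₂) hR).self_of_nhds
  obtain ⟨hpos, hd, -⟩ := h1
  rw [h0] at hpos hd
  have hd' : HasDerivAt (RR R₀ q₁ q₂) q₁ 0 := by
    refine hd.congr_deriv ?_
    have e1 : (R₀ + 0 * q₁) * q₁ + 0 * q₂ * q₂ = R₀ * q₁ := by ring
    rw [e1]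
    field_simp
  refine ⟨?_, ?_, h0, ?_⟩
  · have hn : HasDerivAt (fun l : ℝ => (R₀ + l * q₁) * q₁ + l * q₂ * q₂) (q₁ * q₁ + q₂ * q₂) 0 := by
      have e1 : HasDerivAt (fun l : ℝ => R₀ + l * q₁) q₁ 0 := by
        have := ((hasDerivAt_id (0 : ℝ)).mul_const q₁).const_add R₀
        simpa using this
      have e2 : HasDerivAt (fun l : ℝ => l * q₂) q₂ 0 := by
        have := (hasDerivAt_id (0 : ℝ)).mul_const q₂
        simpa using this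
      exact (e1.mul_const q₁).add (e2.mul_const q₂)
    have h2 := hn.div hd' (by rw [h0]; exact hR.ne')
    refine h2.congr_deriv ?_
    rw [h0]
    field_simp
    ring
  · have e3 : HasDerivAt (fun l => RR R₀ q₁ q₂ l ^ 2) (2 * R₀ * q₁) 0 := by
      have := hd'.pow 2
      rw [h0] at this
      refine this.congr_deriv ?_
      norm_num
    have h2 := (hasDerivAt_const (0 : ℝ) (R₀ * q₂)).div e3
      (by rw [h0]; exact pow_ne_zero 2 hR.ne')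
    refine h2.congr_deriv ?_
    rw [h0]
    field_simp
    norm_num
    try ring
  · unfold ra
    rw [zero_mul, zero_div, Real.arctan_zero]

end CH
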